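import Pool.Agent.Lib.MP_af3a4a_an.P1.H81.ZoneB

/-!
# Zone A: `N ≥ 400`, `R ≤ 4/5`, `N R² ≥ 81/4`, `Re m ≤ R/25` (helper81, council 2)
-/

namespace Pool.Agent.Lib.MP_af3a4a_an.P1.H81

open MeasureTheory intervalIntegral Set ComplexConjugate
open Pool.Agent.Lib.MP_af3a4a_an.SV (uu av EE)
open Pool.Agent.Lib.MP_af3a4a_an.P1.H80
open Pool.Agent.Lib.MP_af3a4a_an.P1.H74

/-- `R |m|² ≤ 2 Re m` -/
theorem first_moment {N : ℕ} (hN : 1 ≤ N) {w : Fin N → ℂ} {R : ℝ} (hw : ∀ k, 1 ≤ ‖w k‖)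
    (ht : ∑ k, ‖w k - (R : ℂ)‖ ≤ N) (hR : 0 < R) :
    R * ‖av (uu w)‖ ^ 2 ≤ 2 * (av (uu w)).re := by
  have hNpos : (0 : ℝ) < N := by exact_mod_cast hN
  have h1 : ‖∑ k, (1 - (R : ℂ) * uu w k)‖ ≤ N := by
    refine (norm_sum_le _ _).trans (le_trans (Finset.sum_le_sum fun k _ => ?_) ht)
    have hw0 : w k ≠ 0 := by
      intro h
      have := hw k
      rw [h, norm_zero] at this
      linarith
    have e1 : 1 - (R : ℂ) * uu w k = (w k - R) * (w k)⁻¹ := by
      simp only [uu]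
      rw [sub_mul, mul_inv_cancel₀ hw0]
    rw [e1, norm_mul, norm_inv]
    exact mul_le_of_le_one_right (norm_nonneg _) (inv_le_one_of_one_le₀ (hw k))
  have e2 : ∑ k, (1 - (R : ℂ) * uu w k) = N * (1 - R * av (uu w)) := by
    rw [Finset.sum_sub_distrib, ← Finset.mul_sum, sum_av hN (uu w)]
    simp only [Finset.sum_const, Finset.card_univ, Fintype.card_fin, nsmul_eq_mul, mul_one]
    ring
  rw [e2, norm_mul, Complex.norm_natCast] at h1
  have h2 : ‖1 - R * av (uu w)‖ ≤ 1 := by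
    have : (N : ℝ) * ‖1 - R * av (uu w)‖ ≤ N * 1 := by linarith
    exact le_of_mul_le_mul_left this hNpos
  have h3 : ‖1 - R * av (uu w)‖ ^ 2 ≤ 1 := pow_le_one₀ (norm_nonneg _) h2
  have e3 : ‖1 - R * av (uu w)‖ ^ 2 = 1 - 2 * R * (av (uu w)).re + R ^ 2 * ‖av (uu w)‖ ^ 2 := by
    rw [norm_sq_re_im, norm_sq_re_im]
    simp only [Complex.sub_re, Complex.sub_im, Complex.one_re, Complex.one_im, Complex.mul_re,
      Complex.mul_im, Complex.ofReal_re, Complex.ofReal_im]
    ring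
  rw [e3] at h3
  have h4 : R * (R * ‖av (uu w)‖ ^ 2) ≤ R * (2 * (av (uu w)).re) := by linarith
  exact le_of_mul_le_mul_left h4 hR

theorem m1_nonneg {N : ℕ} (hN : 1 ≤ N) {w : Fin N → ℂ} {R : ℝ} (hw : ∀ k, 1 ≤ ‖w k‖)
    (ht : ∑ k, ‖w k - (R : ℂ)‖ ≤ N) (hR : 0 < R) : 0 ≤ (av (uu w)).re := by
  have h := first_moment hN hw ht hR
  have : 0 ≤ R * ‖av (uu w)‖ ^ 2 := by positivity
  linarith

/-! ## Gaussian integrals on `[0, y]` -/

theorem gauss_lower {b y : ℝ} (hb : 0 < b) (hy : 0 < y) :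
    88622 / 100000 / Real.sqrt b - Real.exp (-(b * y ^ 2)) / (2 * b * y) ≤
      ∫ x in (0 : ℝ)..y, Real.exp (-(b * x ^ 2)) := by
  have hint : Integrable fun x : ℝ => Real.exp (-(b * x ^ 2)) := by
    have := integrable_exp_neg_mul_sq hb
    refine this.congr (Filter.Eventually.of_forall fun x => ?_)
    simp only
    congr 1
    ring
  have h1 : ∫ x in Ioi (0 : ℝ), Real.exp (-(b * x ^ 2)) = Real.sqrt (Real.pi / b) / 2 := by
    rw [← integral_gaussian_Ioi b]
    congr 1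
    funext x
    congr 1
    ring
  have h2 : (∫ x in (0 : ℝ)..y, Real.exp (-(b * x ^ 2))) +
      ∫ x in Ioi y, Real.exp (-(b * x ^ 2)) = Real.sqrt (Real.pi / b) / 2 := by
    rw [← h1, intervalIntegral.integral_of_le hy.le,
      ← MeasureTheory.setIntegral_union (Ioc_disjoint_Ioi le_rfl) measurableSet_Ioi
        hint.integrableOn hint.integrableOn, Ioc_union_Ioi_eq_Ioi hy.le]
  have h3 : ∫ x in Ioi y, Real.exp (-(b * x ^ 2)) ≤ Real.exp (-(b * y ^ 2)) / (2 * b * y) := by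
    have ha : -(2 * b * y) < 0 := by
      have : 0 < 2 * b * y := by positivity
      linarith
    have h4 := integral_exp_mul_Ioi ha y
    have h5 : ∫ x in Ioi y, Real.exp (b * y ^ 2) * Real.exp (-(2 * b * y) * x) =
        Real.exp (-(b * y ^ 2)) / (2 * b * y) := by
      rw [MeasureTheory.integral_const_mul, h4]
      have e1 : Real.exp (-(2 * b * y) * y) =
          Real.exp (-(b * y ^ 2)) * Real.exp (-(b * y ^ 2)) := by
        rw [← Real.exp_add]
        congr 1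
        ring
      rw [e1]
      have e2 : Real.exp (b * y ^ 2) * Real.exp (-(b * y ^ 2)) = 1 := by
        rw [← Real.exp_add]
        simp
      have e3 : Real.exp (b * y ^ 2) *
          (-(Real.exp (-(b * y ^ 2)) * Real.exp (-(b * y ^ 2))) / -(2 * b * y)) =
          (Real.exp (b * y ^ 2) * Real.exp (-(b * y ^ 2))) * Real.exp (-(b * y ^ 2)) /
            (2 * b * y) := by
        rw [neg_div_neg_eq]
        ring
      rw [e3, e2, one_mul]
    rw [← h5]
    apply MeasureTheory.setIntegral_mono_on hint.integrableOn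
      ((integrableOn_exp_mul_Ioi ha y).const_mul _) measurableSet_Ioi
    intro x _
    rw [← Real.exp_add]
    apply Real.exp_le_exp.2
    nlinarith [mul_nonneg hb.le (sq_nonneg (x - y))]
  rw [sqrt_pi_div] at h2
  have h6 := div_le_div_of_nonneg_right sqrt_pi_lo (Real.sqrt_nonneg b)
  linarith

theorem gauss_upper {b y : ℝ} (hb : 0 < b) (hy : 0 ≤ y) :
    ∫ x in (0 : ℝ)..y, Real.exp (-(b * x ^ 2)) ≤ 8863 / 10000 / Real.sqrt b := by
  have hint : Integrable fun x : ℝ => Real.exp (-(b * x ^ 2)) := by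
    have := integrable_exp_neg_mul_sq hb
    refine this.congr (Filter.Eventually.of_forall fun x => ?_)
    simp only
    congr 1
    ring
  have h1 : ∫ x in Ioi (0 : ℝ), Real.exp (-(b * x ^ 2)) = Real.sqrt (Real.pi / b) / 2 := by
    rw [← integral_gaussian_Ioi b]
    congr 1
    funext x
    congr 1
    ring
  have h2 : (∫ x in (0 : ℝ)..y, Real.exp (-(b * x ^ 2))) +
      ∫ x in Ioi y, Real.exp (-(b * x ^ 2)) = Real.sqrt (Real.pi / b) / 2 := by
    rw [← h1, intervalIntegral.integral_of_le hy,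
      ← MeasureTheory.setIntegral_union (Ioc_disjoint_Ioi le_rfl) measurableSet_Ioi
        hint.integrableOn hint.integrableOn, Ioc_union_Ioi_eq_Ioi hy]
  have h3 : 0 ≤ ∫ x in Ioi y, Real.exp (-(b * x ^ 2)) :=
    MeasureTheory.setIntegral_nonneg measurableSet_Ioi fun x _ => (Real.exp_pos _).le
  rw [sqrt_pi_div] at h2
  have h6 := div_le_div_of_nonneg_right sqrt_pi_hi (Real.sqrt_nonneg b)
  linarith

theorem mom_y {b y c : ℝ} (hb : 0 < b) :
    ∫ x in (0 : ℝ)..y, (x + x ^ 2 + c * x ^ 3) * Real.exp (-(b * x ^ 2)) =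
      1 / (2 * b) + c / (2 * b ^ 2) + (∫ x in (0 : ℝ)..y, Real.exp (-(b * x ^ 2))) / (2 * b)
        - Real.exp (-(b * y ^ 2)) *
        (1 / (2 * b) + y / (2 * b) + c / (2 * b) * (y ^ 2 + 1 / b)) := by
  have hd : ∀ x ∈ Set.uIcc (0 : ℝ) y, HasDerivAt
      (fun x : ℝ => -(Real.exp (-(b * x ^ 2)) *
        (1 / (2 * b) + x / (2 * b) + c / (2 * b) * (x ^ 2 + 1 / b))))
      ((x + x ^ 2 + c * x ^ 3) * Real.exp (-(b * x ^ 2))
        - Real.exp (-(b * x ^ 2)) / (2 * b)) x := by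
    intro x _
    have e1 : HasDerivAt (fun x : ℝ => Real.exp (-(b * x ^ 2)))
        (Real.exp (-(b * x ^ 2)) * (-(b * (2 * x)))) x := by
      have := (((hasDerivAt_pow 2 x).const_mul b).neg).exp
      simpa using this
    have e2 : HasDerivAt (fun x : ℝ => 1 / (2 * b) + x / (2 * b) + c / (2 * b) * (x ^ 2 + 1 / b))
        (1 / (2 * b) + c / (2 * b) * (2 * x)) x := by
      have := (((hasDerivAt_id x).div_const (2 * b)).const_add (1 / (2 * b))).add
        (((hasDerivAt_pow 2 x).add_const (1 / b)).const_mul (c / (2 * b)))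
      refine this.congr_deriv ?_
      norm_num
    refine (e1.mul e2).neg.congr_deriv ?_
    field_simp
    ring
  have hi1 : IntervalIntegrable (fun x : ℝ => (x + x ^ 2 + c * x ^ 3) *
      Real.exp (-(b * x ^ 2))) volume 0 y := Continuous.intervalIntegrable (by fun_prop) _ _
  have hi2 : IntervalIntegrable (fun x : ℝ => Real.exp (-(b * x ^ 2)) / (2 * b)) volume 0 y :=
    Continuous.intervalIntegrable (by fun_prop) _ _
  have h := intervalIntegral.integral_eq_sub_of_hasDerivAt hd (hi1.sub hi2)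
  rw [intervalIntegral.integral_sub hi1 hi2, intervalIntegral.integral_div] at h
  simp only [ne_eq, OfNat.ofNat_ne_zero, not_false_eq_true, zero_pow, mul_zero, neg_zero,
    Real.exp_zero, zero_div, add_zero, zero_add, one_mul] at h
  have e4 : 1 / (2 * b) + c / (2 * b) * (1 / b) = 1 / (2 * b) + c / (2 * b ^ 2) := by
    field_simp
  linear_combination h + e4

/-- MASS with the Gaussian `exp (-3/8 N x²)`, `S = 1` -/
theorem mass_gauss {N : ℕ} {u : Fin N → ℂ} (hN : 400 ≤ N) (hu : ∀ k, ‖u k‖ ≤ 1) {y : ℝ}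
    (hy0 : 0 < y) (hy : y ≤ 153 / 500) (hby : 7 / 2 ≤ 3 / 8 * N * y ^ 2)
    (hq : ∀ x, 0 ≤ x → x ≤ y → ‖qq u x‖ ≤ Real.exp (-(3 / 8 * N * x ^ 2))) :
    3 / 50 ≤ N * ‖∫ x in (0 : ℝ)..y, qq u x‖ := by
  have hN1 : 1 ≤ N := by omega
  have hNr : (400 : ℝ) ≤ N := by exact_mod_cast hN
  have hNpos : (0 : ℝ) < N := by linarith
  obtain ⟨b, hb⟩ : ∃ b : ℝ, b = 3 / 8 * N := ⟨_, rfl⟩
  rw [← hb] at hby
  have hb150 : 150 ≤ b := by linarith
  have hb0 : 0 < b := by linarith
  obtain ⟨β, hβ⟩ : ∃ β, β = Real.sqrt b := ⟨_, rfl⟩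
  have hβ0 : 0 < β := by rw [hβ]; exact Real.sqrt_pos.2 hb0
  have hβ2 : β ^ 2 = b := by rw [hβ]; exact Real.sq_sqrt hb0.le
  have hβ12 : 61 / 5 ≤ β := by
    rw [hβ]
    apply Real.le_sqrt_of_sq_le
    linarith
  have hβy : 187 / 100 ≤ β * y := by
    have h1 : (187 / 100 : ℝ) ^ 2 ≤ (β * y) ^ 2 := by
      rw [mul_pow, hβ2]
      norm_num
      linarith
    exact le_of_sq_le_sq h1 (by positivity)
  obtain ⟨E, hE⟩ : ∃ E, E = Real.exp (-(b * y ^ 2)) := ⟨_, rfl⟩
  have hE0 : 0 < E := by rw [hE]; exact Real.exp_pos _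
  have hE1 : E ≤ 1 / 32 := by
    have h1 := E_le (b := 25 * (b * y ^ 2)) (by linarith)
    rw [hE]
    refine le_trans (le_of_eq ?_) h1
    congr 1
    ring
  have hqe : ∀ x ∈ Set.Icc (0 : ℝ) y, ‖qq u x‖ ≤ Real.exp (-(b * x ^ 2)) := by
    intro x hx
    rw [hb]
    exact hq x hx.1 hx.2
  have hT : ‖qq u y‖ ≤ E := by
    rw [hE]
    exact hqe y ⟨hy0.le, le_rfl⟩
  have ht0 : 0 < 41 / 100 / β := by positivity
  have hty : 41 / 100 / β ≤ y := by
    rw [div_le_iff₀ hβ0]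
    linarith
  have h := mass hN1 hu (T := E) ht0 hty (by linarith) one_pos (sq_le_one' hN1 hu)
    (e := fun x => Real.exp (-(b * x ^ 2))) (by fun_prop) hqe
    (fun x _ => by
      rw [Real.exp_le_one_iff]
      have : 0 ≤ b * x ^ 2 := by positivity
      linarith) hT
  have hM0 := gauss_lower hb0 hy0
  have hM0' := gauss_upper hb0 hy0.le
  have hM1 : ∫ x in (0 : ℝ)..y, x / (1 - x) * Real.exp (-(b * x ^ 2)) ≤
      1 / (2 * b) + 29 / 20 / (2 * b ^ 2) +
        (∫ x in (0 : ℝ)..y, Real.exp (-(b * x ^ 2))) / (2 * b) - E *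
        (1 / (2 * b) + y / (2 * b) + 29 / 20 / (2 * b) * (y ^ 2 + 1 / b)) := by
    rw [hE, ← mom_y hb0]
    apply intervalIntegral.integral_mono_on hy0.le
    · apply ContinuousOn.intervalIntegrable
      rw [Set.uIcc_of_le hy0.le]
      apply ContinuousOn.mul _ (by fun_prop)
      apply ContinuousOn.div continuousOn_id (by fun_prop)
      intro x hx
      have := hx.2
      have : (0 : ℝ) < 1 - x := by linarith
      exact this.ne'
    · exact Continuous.intervalIntegrable (by fun_prop) _ _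
    · intro x hx
      apply mul_le_mul_of_nonneg_right _ (Real.exp_pos _).le
      have hx1 : 0 < 1 - x := by linarith [hx.2]
      rw [div_le_iff₀ hx1]
      have e1 : (x + x ^ 2 + 29 / 20 * x ^ 3) * (1 - x) = x + x ^ 3 * (9 / 20 - 29 / 20 * x) := by
        ring
      rw [e1]
      have h3 : 0 ≤ x ^ 3 * (9 / 20 - 29 / 20 * x) :=
        mul_nonneg (pow_nonneg hx.1 3) (by linarith [hx.2])
      linarith
  rw [← hβ] at hM0 hM0'
  rw [← hE] at hM0
  set J := ‖∫ x in (0 : ℝ)..y, qq u x‖ with hJ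
  have hJ0 : 0 ≤ J := norm_nonneg _
  set A := ∫ x in (0 : ℝ)..y, Real.exp (-(b * x ^ 2))
  set D := ∫ x in (0 : ℝ)..y, x / (1 - x) * Real.exp (-(b * x ^ 2))
  have h1 : β * (A - 41 / 100 / β - (D - (1 - E) / (N * 1)) / (41 / 100 / β)) ≤
      β * (J * (1 + ‖av u‖ / (1 * (41 / 100 / β)))) := mul_le_mul_of_nonneg_left h hβ0.le
  have e1 : ‖av u‖ / (1 * (41 / 100 / β)) = ‖av u‖ * β / (41 / 100) := by
    field_simp
  have e2 : β * (A - 41 / 100 / β - (D - (1 - E) / (N * 1)) / (41 / 100 / β)) =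
      β * A - 41 / 100 - (b * D - 3 / 8 * (1 - E)) / (41 / 100) := by
    have e3 : b * ((1 - E) / (N * 1)) = 3 / 8 * (1 - E) := by
      rw [hb]
      field_simp
    rw [← e3, ← hβ2]
    field_simp
  rw [e1, e2] at h1
  have h2 : 8778 / 10000 ≤ β * A := by
    have h3 := mul_le_mul_of_nonneg_left hM0 hβ0.le
    have e3 : β * (88622 / 100000 / β - E / (2 * b * y)) = 88622 / 100000 - E / (2 * (β * y)) := by
      rw [← hβ2]
      field_simp
    have h4 : E / (2 * (β * y)) ≤ 1 / 32 / (2 * (187 / 100)) :=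
      div_le_div₀ (by norm_num) hE1 (by norm_num) (by linarith)
    rw [e3] at h3
    norm_num at h4 h3 ⊢
    linarith
  have h3 : b * D ≤ 1 / 2 + 29 / 40 / b + 4432 / 10000 / β - E / 2 := by
    have h4 := mul_le_mul_of_nonneg_left hM1 hb0.le
    have e3 : b * (1 / (2 * b) + 29 / 20 / (2 * b ^ 2) + A / (2 * b) - E *
        (1 / (2 * b) + y / (2 * b) + 29 / 20 / (2 * b) * (y ^ 2 + 1 / b))) =
        1 / 2 + 29 / 40 / b + A / 2 - E / 2 - E * (y / 2 + 29 / 40 * (y ^ 2 + 1 / b)) := by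
      field_simp
      ring
    rw [e3] at h4
    have h5 : 0 ≤ E * (y / 2 + 29 / 40 * (y ^ 2 + 1 / b)) := by positivity
    have h6 : A / 2 ≤ 4432 / 10000 / β := by
      have h7 : 8863 / 10000 / β / 2 ≤ 4432 / 10000 / β := by
        rw [div_div, div_le_div_iff₀ (by positivity) hβ0]
        linarith
      linarith
    linarith
  have h4 : b * D - 3 / 8 * (1 - E) ≤ 1663 / 10000 := by
    have h5 : 29 / 40 / b ≤ 29 / 40 / 150 :=
      div_le_div_of_nonneg_left (by norm_num) (by norm_num) hb150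
    have h6 : 4432 / 10000 / β ≤ 4432 / 10000 / (61 / 5) :=
      div_le_div_of_nonneg_left (by norm_num) (by norm_num) hβ12
    norm_num at h5 h6 ⊢
    linarith
  have h5 : (b * D - 3 / 8 * (1 - E)) / (41 / 100) ≤ 1663 / 10000 / (41 / 100) :=
    div_le_div_of_nonneg_right h4 (by norm_num)
  have hPhi : 621 / 10000 ≤ β * (J * (1 + ‖av u‖ * β / (41 / 100))) := by
    refine le_trans ?_ h1
    norm_num at h5 ⊢
    linarith
  have hm := av_norm_le hN1 hu
  have h6 : β * (1 + ‖av u‖ * β / (41 / 100)) ≤ 95 / 100 * N := by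
    have h7 : ‖av u‖ * β / (41 / 100) ≤ β / (41 / 100) :=
      div_le_div_of_nonneg_right (mul_le_of_le_one_left hβ0.le hm) (by norm_num)
    have h8 : β * (β / (41 / 100)) = b / (41 / 100) := by
      rw [← hβ2]; ring
    have h9 : β ≤ b / (61 / 5) := by
      rw [le_div_iff₀ (by norm_num), ← hβ2]
      nlinarith
    have h10 : β * (1 + ‖av u‖ * β / (41 / 100)) ≤ β + β * (β / (41 / 100)) := by
      have := mul_le_mul_of_nonneg_left h7 hβ0.le
      linarith
    rw [h8] at h10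
    have h11 : b / (61 / 5) + b / (41 / 100) ≤ 95 / 100 * N := by
      rw [hb]
      norm_num
      linarith
    linarith
  have h7 : 621 / 10000 ≤ J * (95 / 100 * N) := by
    calc (621 : ℝ) / 10000 ≤ β * (J * (1 + ‖av u‖ * β / (41 / 100))) := hPhi
      _ = J * (β * (1 + ‖av u‖ * β / (41 / 100))) := by ring
      _ ≤ J * (95 / 100 * N) := mul_le_mul_of_nonneg_left h6 hJ0
  linarith

end Pool.Agent.Lib.MP_af3a4a_an.P1.H81
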