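import Mathlib

/-!
# Polynomial inequality of the file Vt2 (helper81, council 2)
-/

namespace Pool.Agent.Lib.MP_af3a4a_an.P1.H81

open Finset MeasureTheory ComplexConjugate

theorem log_one_add_le3 {x : ℝ} (hx : 0 ≤ x) :
    Real.log (1 + x) ≤ x - x ^ 2 / 2 + x ^ 3 / 3 := by
  have key : ∀ t ∈ Set.Icc (0 : ℝ) x, HasDerivAt
      (fun t => (t - t ^ 2 / 2 + t ^ 3 / 3) - Real.log (1 + t)) (t ^ 3 / (1 + t)) t := by
    intro t ht
    have h1 : (0 : ℝ) < 1 + t := by linarith [ht.1]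
    have e1 : HasDerivAt (fun t : ℝ => Real.log (1 + t)) (1 / (1 + t)) t := by
      have := ((hasDerivAt_id t).const_add 1).log (by simp only [id]; linarith)
      simpa using this
    have e2 : HasDerivAt (fun t : ℝ => t - t ^ 2 / 2 + t ^ 3 / 3) (1 - t + t ^ 2) t := by
      have := (((hasDerivAt_id t).sub ((hasDerivAt_pow 2 t).div_const 2)).add
        ((hasDerivAt_pow 3 t).div_const 3))
      refine this.congr_deriv ?_
      norm_num
    refine (e2.sub e1).congr_deriv ?_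
    field_simp
    ring
  have hmono : MonotoneOn
      (fun t : ℝ => (t - t ^ 2 / 2 + t ^ 3 / 3) - Real.log (1 + t)) (Set.Icc 0 x) := by
    apply monotoneOn_of_deriv_nonneg (convex_Icc 0 x)
    · exact fun t ht => (key t ht).continuousAt.continuousWithinAt
    · exact fun t ht => (key t (interior_subset ht)).differentiableAt.differentiableWithinAt
    · intro t ht
      have ht' := interior_subset ht
      rw [(key t ht').deriv]
      have : (0 : ℝ) < 1 + t := by linarith [ht'.1]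
      have h3 : 0 ≤ t ^ 3 := pow_nonneg ht'.1 3
      positivity
  have := hmono (Set.left_mem_Icc.2 hx) (Set.right_mem_Icc.2 hx) hx
  simp only [add_zero, Real.log_one] at this
  norm_num at this
  linarith

/-- polynomial inequality, `R ≤ 1` -/
theorem poly_lo {R x b : ℝ} (hR : 4 / 5 ≤ R) (hR2 : R ≤ 1) (hx0 : 0 ≤ x) (hx : x ≤ 3 / 10)
    (hb0 : 0 ≤ b) (hb : b ≤ 1) :
    (1 + b - x / 2) * ((1 + 2 * x ^ 2 / 15) * (R - b) + (x / 2 - x ^ 2 / 5) * R) ≤ R := by
  obtain ⟨a, ha⟩ : ∃ a, a = 1 + 2 * x ^ 2 / 15 := ⟨_, rfl⟩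
  obtain ⟨k, hk⟩ : ∃ k, k = x / 2 - x ^ 2 / 5 := ⟨_, rfl⟩
  have ha1 : 1 ≤ a := by rw [ha]; nlinarith
  have hk0 : 0 ≤ k := by rw [hk]; nlinarith
  have hk1 : k ≤ 3 / 20 := by rw [hk]; nlinarith
  rw [← ha, ← hk]
  rcases le_or_gt R b with hb1 | hb1
  · have h1 : a * (R - b) ≤ 0 := mul_nonpos_of_nonneg_of_nonpos (by linarith) (by linarith)
    have h2 : 0 ≤ 1 + b - x / 2 := by linarith
    have h3 : (1 + b - x / 2) * (a * (R - b) + k * R) ≤ (1 + b - x / 2) * (k * R) :=
      mul_le_mul_of_nonneg_left (by linarith) h2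
    have h4 : (1 + b - x / 2) * (k * R) ≤ 2 * (3 / 20 * R) := by
      apply mul_le_mul (by linarith) _ (by positivity) (by norm_num)
      exact mul_le_mul_of_nonneg_right hk1 (by linarith)
    linarith
  · have e1 : R - (1 + b - x / 2) * (a * (R - b) + k * R) =
        R * (x ^ 2 * (19 / 60 - x / 30)) + b * (a * (1 - x / 2) - R * (a + k)) + a * b ^ 2 := by
      rw [ha, hk]; ring
    obtain ⟨w, hw⟩ : ∃ w, w = a / 2 + R * (1 / 2 - x / 5) := ⟨_, rfl⟩
    have e2 : a * (1 - x / 2) - R * (a + k) = a * (1 - R) - x * w := by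
      rw [hw, hk]; ring
    have h1 : 0 ≤ b * (a * (1 - R)) := mul_nonneg hb0 (mul_nonneg (by linarith) (by linarith))
    have h2 : w ^ 2 ≤ 4 * a * (R * (19 / 60 - x / 30)) := by
      have ha2 : a ≤ 1 + x / 25 := by rw [ha]; nlinarith
      have hw0 : 0 ≤ w := by rw [hw]; nlinarith
      have hw1 : w ≤ (1 + R) / 2 := by
        have : R * x ≥ 4 / 5 * x := mul_le_mul_of_nonneg_right hR hx0
        rw [hw]
        linarith
      have f6 : w ^ 2 ≤ ((1 + R) / 2) ^ 2 := pow_le_pow_left₀ hw0 hw1 2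
      have f7 : 4 * 1 * (R * (19 / 60 - x / 30)) ≤ 4 * a * (R * (19 / 60 - x / 30)) := by
        apply mul_le_mul_of_nonneg_right (by linarith)
        exact mul_nonneg (by linarith) (by linarith)
      nlinarith
    have h3 : 0 ≤ 4 * a * (R * (x ^ 2 * (19 / 60 - x / 30)) - b * (x * w) + a * b ^ 2) := by
      have e3 : 4 * a * (R * (x ^ 2 * (19 / 60 - x / 30)) - b * (x * w) + a * b ^ 2) =
          x ^ 2 * (4 * a * (R * (19 / 60 - x / 30)) - w ^ 2) + (2 * a * b - x * w) ^ 2 := by ring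
      rw [e3]
      exact add_nonneg (mul_nonneg (sq_nonneg x) (by linarith)) (sq_nonneg _)
    have h4 := nonneg_of_mul_nonneg_right h3 (by linarith : 0 < 4 * a)
    rw [e2] at e1
    linarith

end Pool.Agent.Lib.MP_af3a4a_an.P1.H81
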