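import Mathlib

/-!
# Polynomial inequality of the file Vt2 (helper81, council 2)
-/

namespace Pool.Agent.Lib.MP_af3a4a_an.P1.H81

open Finset MeasureTheory ComplexConjugate

/-- polynomial inequality, `R ≥ 1` -/
theorem poly_hi {R x b : ℝ} (hR : 1 ≤ R) (hR2 : R ≤ 21 / 10) (hx0 : 0 ≤ x) (hx : x ≤ 2 / 5)
    (hb0 : 0 ≤ b) (hb : b ≤ R) :
    (R + b - x / 2) * ((R * (1 - x / 2 + x ^ 2 / 3) + (x / 2 - x ^ 2 / 5)) * (1 - b)
      + (x / 2 - x ^ 2 / 5) * R) ≤ R ^ 2 := by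
  obtain ⟨L, hL⟩ : ∃ L, L = 1 - x / 2 + x ^ 2 / 3 := ⟨_, rfl⟩
  obtain ⟨k, hk⟩ : ∃ k, k = x / 2 - x ^ 2 / 5 := ⟨_, rfl⟩
  rw [← hL, ← hk]
  have hL0 : 4 / 5 ≤ L := by rw [hL]; nlinarith
  have hL1 : 1 - x / 2 ≤ L := by rw [hL]; nlinarith
  have hk0 : 0 ≤ k := by rw [hk]; nlinarith
  have hk1 : k ≤ 1 / 5 := by rw [hk]; nlinarith
  have hN : 0 < R * L + k := by nlinarith
  rcases le_or_gt 1 b with hb1 | hb1
  · have h1 : (R * L + k) * (1 - b) ≤ 0 := mul_nonpos_of_nonneg_of_nonpos hN.le (by linarith)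
    have h2 : 0 ≤ R + b - x / 2 := by linarith
    have h3 : (R + b - x / 2) * ((R * L + k) * (1 - b) + k * R) ≤ (R + b - x / 2) * (k * R) :=
      mul_le_mul_of_nonneg_left (by linarith) h2
    have h4 : (R + b - x / 2) * (k * R) ≤ (2 * R) * (1 / 5 * R) := by
      apply mul_le_mul (by linarith) _ (by positivity) (by linarith)
      exact mul_le_mul_of_nonneg_right hk1 (by linarith)
    nlinarith
  · -- the quadratic in `b`
    have e1 : R ^ 2 - (R + b - x / 2) * ((R * L + k) * (1 - b) + k * R) =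
        (x ^ 2 * (R / 5 + 1 / 4 - 2 * R ^ 2 / 15) + x ^ 3 * (R / 15 - 1 / 10)) +
        b * (R * L * (R - 1 - x / 2) - k * (1 + x / 2)) + b ^ 2 * (R * L + k) := by
      rw [hL, hk]; ring
    have hg : 0 ≤ (R / 5 + 1 / 4 - 2 * R ^ 2 / 15) + x * (R / 15 - 1 / 10) := by nlinarith
    suffices h : 0 ≤ (x ^ 2 * (R / 5 + 1 / 4 - 2 * R ^ 2 / 15) + x ^ 3 * (R / 15 - 1 / 10)) +
        b * (R * L * (R - 1 - x / 2) - k * (1 + x / 2)) + b ^ 2 * (R * L + k) by linarith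
    have hg' : 0 ≤ x ^ 2 * (R / 5 + 1 / 4 - 2 * R ^ 2 / 15) + x ^ 3 * (R / 15 - 1 / 10) := by
      have := mul_nonneg (sq_nonneg x) hg
      linarith
    rcases le_or_gt (7 / 5) R with hR3 | hR3
    · have h1 : k * (1 + x / 2) ≤ 7 / 5 * (1 - x / 2) * (2 / 5 - x / 2) := by
        rw [hk]
        nlinarith
      have h2 : 7 / 5 * (1 - x / 2) * (2 / 5 - x / 2) ≤ R * L * (R - 1 - x / 2) := by
        have h3 : 7 / 5 * (1 - x / 2) ≤ R * L :=
          mul_le_mul hR3 hL1 (by linarith) (by linarith)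
        exact mul_le_mul h3 (by linarith) (by linarith) (by positivity)
      have h4 : 0 ≤ b * (R * L * (R - 1 - x / 2) - k * (1 + x / 2)) :=
        mul_nonneg hb0 (by linarith)
      have h5 : 0 ≤ b ^ 2 * (R * L + k) := by positivity
      linarith
    · obtain ⟨w, hw⟩ : ∃ w, w = R * L / 2 + (1 / 2 - x / 5) * (1 + x / 2) := ⟨_, rfl⟩
      have e2 : R * L * (R - 1 - x / 2) - k * (1 + x / 2) = R * L * (R - 1) - x * w := by
        rw [hw, hk]; ring
      have h1 : 0 ≤ b * (R * L * (R - 1)) := by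
        have : 0 ≤ R * L := by positivity
        exact mul_nonneg hb0 (mul_nonneg this (by linarith))
      have h2 : w ^ 2 ≤ 4 * (R * L + k) *
          ((R / 5 + 1 / 4 - 2 * R ^ 2 / 15) + x * (R / 15 - 1 / 10)) := by
        have hw0 : 0 ≤ w := by rw [hw]; nlinarith
        have f1 : w ≤ (R + 1) / 2 - 2 * x / 15 := by
          have f2 : L ≤ 1 - 11 * x / 30 := by rw [hL]; nlinarith
          have f3 : R * L ≤ R * (1 - 11 * x / 30) := mul_le_mul_of_nonneg_left f2 (by linarith)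
          rw [hw]
          nlinarith
        have f4 : R - 7 / 25 * x ≤ R * L + k := by
          have f5 : R * (1 - x / 2) ≤ R * L := mul_le_mul_of_nonneg_left hL1 (by linarith)
          rw [hk]
          nlinarith
        have f6 : w ^ 2 ≤ ((R + 1) / 2 - 2 * x / 15) ^ 2 := pow_le_pow_left₀ hw0 f1 2
        have f7 : 4 * (R - 7 / 25 * x) *
            ((R / 5 + 1 / 4 - 2 * R ^ 2 / 15) + x * (R / 15 - 1 / 10)) ≤ 4 * (R * L + k) *
            ((R / 5 + 1 / 4 - 2 * R ^ 2 / 15) + x * (R / 15 - 1 / 10)) :=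
          mul_le_mul_of_nonneg_right (by linarith) hg
        have f8 : ((R + 1) / 2 - 2 * x / 15) ^ 2 ≤ 4 * (R - 7 / 25 * x) *
            ((R / 5 + 1 / 4 - 2 * R ^ 2 / 15) + x * (R / 15 - 1 / 10)) := by
          nlinarith [mul_nonneg (sub_nonneg.2 hR) (sub_nonneg.2 hR3.le), mul_nonneg hx0
            (sub_nonneg.2 hx), mul_nonneg (mul_nonneg (sub_nonneg.2 hR) (sub_nonneg.2 hR3.le)) hx0,
            mul_nonneg (mul_nonneg (sub_nonneg.2 hR) (sub_nonneg.2 hR3.le)) (sub_nonneg.2 hx),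
            mul_nonneg (mul_nonneg (sub_nonneg.2 hR) (sub_nonneg.2 hR3.le)) (sub_nonneg.2 hR),
            mul_nonneg (mul_nonneg hx0 (sub_nonneg.2 hx)) (sub_nonneg.2 hR),
            mul_nonneg (mul_nonneg hx0 (sub_nonneg.2 hx)) (sub_nonneg.2 hR3.le),
            mul_nonneg (sub_nonneg.2 hR3.le) hx0, mul_nonneg (sub_nonneg.2 hR3.le) (sub_nonneg.2 hx)]
        linarith
      have h3 : 0 ≤ 4 * (R * L + k) * ((x ^ 2 * (R / 5 + 1 / 4 - 2 * R ^ 2 / 15)
          + x ^ 3 * (R / 15 - 1 / 10)) - b * (x * w) + b ^ 2 * (R * L + k)) := by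
        have e3 : 4 * (R * L + k) * ((x ^ 2 * (R / 5 + 1 / 4 - 2 * R ^ 2 / 15)
          + x ^ 3 * (R / 15 - 1 / 10)) - b * (x * w) + b ^ 2 * (R * L + k)) =
          x ^ 2 * (4 * (R * L + k) *
          ((R / 5 + 1 / 4 - 2 * R ^ 2 / 15) + x * (R / 15 - 1 / 10)) - w ^ 2) +
          (2 * (R * L + k) * b - x * w) ^ 2 := by ring
        rw [e3]
        exact add_nonneg (mul_nonneg (sq_nonneg x) (by linarith)) (sq_nonneg _)
      have h4 := nonneg_of_mul_nonneg_right h3 (by linarith : 0 < 4 * (R * L + k))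
      rw [e2]
      linarith

end Pool.Agent.Lib.MP_af3a4a_an.P1.H81
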