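import Pool.Agent.Lib.MP_af3a4a_an.P1.H81.Vt
import Pool.Agent.Lib.MP_af3a4a_an.P1.H81.Vt2A
import Pool.Agent.Lib.MP_af3a4a_an.P1.H81.Vt2B

/-!
# The two families of pure duals (helper81, council 2)
-/

namespace Pool.Agent.Lib.MP_af3a4a_an.P1.H81

open Finset MeasureTheory ComplexConjugate
open Pool.Agent.Lib.MP_af3a4a_an.SV (uu av EE)
open Pool.Agent.Lib.MP_af3a4a_an.P1.H80
open Pool.Agent.Lib.MP_af3a4a_an.P1.H74

/-- the dual for `R ≥ 1` -/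
theorem dual_hi {R x : ℝ} (hR : 1 ≤ R) (hR2 : R ≤ 21 / 10) (hx0 : 0 ≤ x) (hx : x ≤ 2 / 5)
    (hKb : (1 + 2 * x ^ 2 / 15) * (1 + x) ^ 2 ≤ 1 + R) :
    ∃ α, Dual R x α 0 ((x ^ 2 / 2 - x ^ 3 / 5) / R) := by
  have hR0 : 0 < R := by linarith
  obtain ⟨k, hk⟩ : ∃ k, k = x / 2 - x ^ 2 / 5 := ⟨_, rfl⟩
  have hk0 : 0 ≤ k := by rw [hk]; nlinarith
  obtain ⟨L, hL⟩ : ∃ L, L = 1 - x / 2 + x ^ 2 / 3 := ⟨_, rfl⟩
  have hL0 : 4 / 5 ≤ L := by rw [hL]; nlinarith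
  have hh : (x ^ 2 / 2 - x ^ 3 / 5) / R = x * k / R := by rw [hk]; ring
  refine ⟨x / R * (L + k / R), dual_of hR0 hx0 (by linarith) (by positivity) ?_ ?_ ?_ ?_⟩
  · have := Real.sqrt_nonneg (R ^ 2 - R * x)
    linarith
  · have e1 : x / R * (L + k / R) * R - (x ^ 2 / 2 - x ^ 3 / 5) / R =
        x - x ^ 2 / 2 + x ^ 3 / 3 := by
      rw [hh, hL]
      field_simp
      ring
    rw [e1]
    exact log_one_add_le3 hx0
  · have h1 : k / R ≤ k := div_le_self hk0 hR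
    have h2 : L + k / R ≤ 1 + 2 * x ^ 2 / 15 := by
      have : L + k = 1 + 2 * x ^ 2 / 15 := by rw [hL, hk]; ring
      linarith
    have h3 : (L + k / R) * (1 + x) ^ 2 ≤ 1 + R :=
      (mul_le_mul_of_nonneg_right h2 (by positivity)).trans hKb
    calc x / R * (L + k / R) * (1 + x) ^ 2 = x / R * ((L + k / R) * (1 + x) ^ 2) := by ring
      _ ≤ x / R * (1 + R) := mul_le_mul_of_nonneg_left h3 (by positivity)
  · intro s hs1 _ hs2
    have hsx : 0 < s - x / 2 := by linarith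
    rw [le_div_iff₀ hsx, hh]
    have h1 := poly_hi (b := s - R) hR hR2 hx0 hx (by linarith) (by linarith)
    rw [← hL, ← hk] at h1
    have e1 : (x / R * (L + k / R) * (R + 1 - s) + x * k / R) * (s - x / 2) =
        x * (((R + (s - R) - x / 2) * ((R * L + k) * (1 - (s - R)) + k * R)) / R ^ 2) := by
      field_simp
      ring
    rw [e1]
    have h2 : ((R + (s - R) - x / 2) * ((R * L + k) * (1 - (s - R)) + k * R)) / R ^ 2 ≤ 1 := by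
      rw [div_le_one (by positivity)]
      exact h1
    exact mul_le_of_le_one_right hx0 h2

/-- the dual for `R ≤ 1` -/
theorem dual_lo {R x : ℝ} (hR : 4 / 5 ≤ R) (hR2 : R ≤ 1) (hx0 : 0 ≤ x) (hx : x ≤ 3 / 10) :
    ∃ α, Dual R x α 0 (x ^ 2 / 2 - x ^ 3 / 5) := by
  have hR0 : 0 < R := by linarith
  obtain ⟨k, hk⟩ : ∃ k, k = x / 2 - x ^ 2 / 5 := ⟨_, rfl⟩
  obtain ⟨a, ha⟩ : ∃ a, a = 1 + 2 * x ^ 2 / 15 := ⟨_, rfl⟩
  have ha1 : 1 ≤ a := by rw [ha]; nlinarith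
  have hk0 : 0 ≤ k := by rw [hk]; nlinarith
  have hh : x ^ 2 / 2 - x ^ 3 / 5 = x * k := by rw [hk]; ring
  refine ⟨x / R * a, dual_of hR0 hx0 (by linarith) (by positivity) ?_ ?_ ?_ ?_⟩
  · have h1 : 1 - R ≤ Real.sqrt (R ^ 2 - R * x) := by
      apply Real.le_sqrt_of_sq_le
      nlinarith
    linarith
  · have e1 : x / R * a * R - (x ^ 2 / 2 - x ^ 3 / 5) = x - x ^ 2 / 2 + x ^ 3 / 3 := by
      rw [ha]
      field_simp
      ring
    rw [e1]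
    exact log_one_add_le3 hx0
  · have h1 : a ≤ 253 / 250 := by rw [ha]; nlinarith
    have h2 : (1 + x) ^ 2 ≤ 169 / 100 := by nlinarith
    have h3 : a * (1 + x) ^ 2 ≤ 253 / 250 * (169 / 100) :=
      mul_le_mul h1 h2 (by positivity) (by norm_num)
    calc x / R * a * (1 + x) ^ 2 = x / R * (a * (1 + x) ^ 2) := by ring
      _ ≤ x / R * (1 + R) := mul_le_mul_of_nonneg_left (by linarith) (by positivity)
  · intro s _ hs1 hs2
    have hsx : 0 < s - x / 2 := by linarith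
    rw [le_div_iff₀ hsx, hh]
    have h1 := poly_lo (b := s - 1) hR hR2 hx0 hx (by linarith) (by linarith)
    rw [← ha, ← hk] at h1
    have e1 : (x / R * a * (R + 1 - s) + x * k) * (s - x / 2) =
        x * (((1 + (s - 1) - x / 2) * (a * (R - (s - 1)) + k * R)) / R) := by
      field_simp
      ring
    rw [e1]
    have h2 : ((1 + (s - 1) - x / 2) * (a * (R - (s - 1)) + k * R)) / R ≤ 1 := by
      rw [div_le_one hR0]
      exact h1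
    exact mul_le_of_le_one_right hx0 h2

/-- the bound of `|q|`, `R ∈ [21/20, 21/10]`, `x ≤ 2/5` -/
theorem qq_hi {N : ℕ} (hN : 1 ≤ N) {w : Fin N → ℂ} {R x : ℝ} (hw : ∀ k, 1 ≤ ‖w k‖)
    (ht : ∑ k, ‖w k - (R : ℂ)‖ ≤ N) (hR : 21 / 20 ≤ R) (hR2 : R ≤ 21 / 10) (hx0 : 0 ≤ x)
    (hx : x ≤ 2 / 5) : ‖qq (uu w) x‖ ≤ Real.exp (-(N * ((x ^ 2 / 2 - x ^ 3 / 5) / R))) := by
  have hKb : (1 + 2 * x ^ 2 / 15) * (1 + x) ^ 2 ≤ 1 + R := by
    have h1 : 1 + 2 * x ^ 2 / 15 ≤ 383 / 375 := by nlinarith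
    have h2 : (1 + x) ^ 2 ≤ 49 / 25 := by nlinarith
    have h3 : (1 + 2 * x ^ 2 / 15) * (1 + x) ^ 2 ≤ 383 / 375 * (49 / 25) :=
      mul_le_mul h1 h2 (by positivity) (by norm_num)
    linarith
  obtain ⟨α, hD⟩ := dual_hi (by linarith) hR2 hx0 hx hKb
  have h := hD.qq_le hN hw ht
  simpa using h

/-- the bound of `|q|`, `R ∈ [4/5, 21/20]`, `x ≤ 3/10` -/
theorem qq_lo {N : ℕ} (hN : 1 ≤ N) {w : Fin N → ℂ} {R x : ℝ} (hw : ∀ k, 1 ≤ ‖w k‖)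
    (ht : ∑ k, ‖w k - (R : ℂ)‖ ≤ N) (hR : 4 / 5 ≤ R) (hR2 : R ≤ 21 / 20) (hx0 : 0 ≤ x)
    (hx : x ≤ 3 / 10) :
    ‖qq (uu w) x‖ ≤ Real.exp (-(N * ((x ^ 2 / 2 - x ^ 3 / 5) / (21 / 20)))) := by
  have hNpos : (0 : ℝ) < N := by exact_mod_cast hN
  have hh : 0 ≤ x ^ 2 / 2 - x ^ 3 / 5 := by
    have : x ^ 2 / 2 - x ^ 3 / 5 = x ^ 2 * (1 / 2 - x / 5) := by ring
    rw [this]
    exact mul_nonneg (sq_nonneg x) (by linarith)
  rcases le_or_gt R 1 with h1 | h1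
  · obtain ⟨α, hD⟩ := dual_lo hR h1 hx0 hx
    have h := hD.qq_le hN hw ht
    refine h.trans (Real.exp_le_exp.2 (neg_le_neg ?_))
    apply mul_le_mul_of_nonneg_left _ hNpos.le
    have h2 : (x ^ 2 / 2 - x ^ 3 / 5) / (21 / 20) ≤ x ^ 2 / 2 - x ^ 3 / 5 :=
      div_le_self hh (by norm_num)
    linarith
  · have hKb : (1 + 2 * x ^ 2 / 15) * (1 + x) ^ 2 ≤ 1 + R := by
      have h1 : 1 + 2 * x ^ 2 / 15 ≤ 253 / 250 := by nlinarith
      have h2 : (1 + x) ^ 2 ≤ 169 / 100 := by nlinarith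
      have h3 : (1 + 2 * x ^ 2 / 15) * (1 + x) ^ 2 ≤ 253 / 250 * (169 / 100) :=
        mul_le_mul h1 h2 (by positivity) (by norm_num)
      linarith
    obtain ⟨α, hD⟩ := dual_hi h1.le (by linarith) hx0 (by linarith) hKb
    have h := hD.qq_le hN hw ht
    refine h.trans (Real.exp_le_exp.2 (neg_le_neg ?_))
    apply mul_le_mul_of_nonneg_left _ hNpos.le
    have h2 : (x ^ 2 / 2 - x ^ 3 / 5) / (21 / 20) ≤ (x ^ 2 / 2 - x ^ 3 / 5) / R :=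
      div_le_div_of_nonneg_left hh (by linarith) hR2
    linarith

end Pool.Agent.Lib.MP_af3a4a_an.P1.H81
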