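import Pool.Agent.Lib.MP_af3a4a_an.P1.H81.Func

/-!
# MASS with the sweep: `massR` (helper81, council 2)

`((1 - x/R) q)' = - q (C₀ + K x ((1 - x/R) E₂(x) - μ/R))`, `C₀ = 1/R + (N - K)/R + K μ`,
`|E₂|, |E₃| ≤ (1 + x μ₁)/(1 - x²)`, `|e₂| ≤ 1`, `|μ| ≤ 1`.
-/

set_option autoImplicit false

namespace Pool.Agent.Lib.MP_af3a4a_an.P1.H81

open Finset MeasureTheory intervalIntegral ComplexConjugate Metric Set
open Pool.Agent.Lib.MP_af3a4a_an.SV (uu av EE)
open Pool.Agent.Lib.MP_af3a4a_an.P1.H80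
open Pool.Agent.Lib.MP_af3a4a_an.P1.H32 (om norm_sub_pos norm_le_norm_R harnack_aux PPr muR LamR
  QR)

variable {N : ℕ} {K R : ℝ} {u : Fin N → ℂ}

theorem LL_congr {f g : ℂ → ℂ} (h : ∀ v, ‖v‖ ≤ 1 → f v = g v) (hR : 1 < R)
    (hu : ∀ k, ‖u k‖ ≤ 1) : LL K R u f = LL K R u g := by
  have hR0 : 0 < R := by linarith
  have hbn : ‖((1 / R : ℝ) : ℂ)‖ ≤ 1 := by
    rw [Complex.norm_real, Real.norm_of_nonneg (by positivity), div_le_one hR0]
    exact hR.le
  unfold LL
  rw [h _ hbn]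
  congr 1
  exact Finset.sum_congr rfl fun k _ => h _ (hu k)

/-- `E₂ = e₂ + x E₃` -/
theorem E2R_eq (hR : 1 < R) (hu : ∀ k, ‖u k‖ ≤ 1) {x : ℝ} (h0 : 0 ≤ x) (h1 : x < 1) :
    E2R K R u x = e2R K R u + x * E3R K R u x := by
  have h2 : LL K R u (fun v => v ^ 2 / (1 - (x : ℂ) * v)) =
      LL K R u (fun v => v ^ 2 + x * (v ^ 3 / (1 - (x : ℂ) * v))) := by
    apply LL_congr _ hR hu
    intro v hv
    have hne := one_sub_ne' hv h0 h1
    rw [div_eq_iff hne, add_mul, mul_assoc, div_mul_cancel₀ _ hne]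
    ring
  unfold E2R e2R E3R
  rw [h2, LL_add (fun v => v ^ 2) (fun v => (x : ℂ) * (v ^ 3 / (1 - (x : ℂ) * v))), LL_smul]
  ring

/-- the logarithmic derivative -/
theorem lam_eq (hK : 0 < K) (hN : 1 ≤ N) (hR : 1 < R) (hu : ∀ k, ‖u k‖ ≤ 1) {x : ℝ}
    (h0 : 0 ≤ x) (h1 : x < 1) :
    (N : ℂ) * lam u x = K * (muR K R u + x * E2R K R u x) + (((N - K) / (R - x) : ℝ) : ℂ) := by
  have hK0 : (K : ℂ) ≠ 0 := by exact_mod_cast hK.ne'
  have hR0 : 0 < R := by linarith
  have hRx : R - x ≠ 0 := by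
    have : x < R := h1.trans hR
    linarith
  have h2 : LL K R u (fun v => v / (1 - (x : ℂ) * v)) =
      LL K R u (fun v => v + x * (v ^ 2 / (1 - (x : ℂ) * v))) := by
    apply LL_congr _ hR hu
    intro v hv
    have hne := one_sub_ne' hv h0 h1
    rw [div_eq_iff hne, add_mul, mul_assoc, div_mul_cancel₀ _ hne]
    ring
  rw [LL_add (fun v => v) (fun v => (x : ℂ) * (v ^ 2 / (1 - (x : ℂ) * v))), LL_smul] at h2
  have h3 : LL K R u (fun v => v / (1 - (x : ℂ) * v)) =
      (N : ℂ) * lam u x - (((N - K) / (R - x) : ℝ) : ℂ) := by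
    unfold LL
    rw [H32.lam_sum hN]
    congr 1
    have h4 : (N - K) / (R - x) = (N - K) * (1 / R / (1 - x * (1 / R))) := by
      have : 1 - x * (1 / R) = (R - x) / R := by field_simp
      rw [this]
      field_simp
    rw [h4]
    push_cast
    ring
  rw [h3] at h2
  have h4 : LL K R u (fun v => v) = K * muR K R u := by
    rw [muR_eq hN]
    field_simp
  have h5 : LL K R u (fun v => v ^ 2 / (1 - (x : ℂ) * v)) = K * E2R K R u x := by
    unfold E2R
    rw [mul_div_assoc', mul_div_cancel_left₀ _ hK0]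
  rw [h4, h5] at h2
  linear_combination h2

/-- `C₀ = 1/R + (N - K)/R + K μ` -/
noncomputable def C0R (K R : ℝ) (u : Fin N → ℂ) : ℂ :=
  ((1 / R + (N - K) / R : ℝ) : ℂ) + K * muR K R u

noncomputable def cR (K R : ℝ) (u : Fin N → ℂ) (x : ℝ) : ℂ :=
  C0R K R u + K * x * (((1 - x / R : ℝ) : ℂ) * E2R K R u x - ((1 / R : ℝ) : ℂ) * muR K R u)

theorem E2R_cont (hR : 1 < R) (hu : ∀ k, ‖u k‖ ≤ 1) {y : ℝ} (hy1 : y < 1) :
    ContinuousOn (E2R K R u) (Set.Icc 0 y) := by
  have hR0 : 0 < R := by linarith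
  have hbn : ‖((1 / R : ℝ) : ℂ)‖ ≤ 1 := by
    rw [Complex.norm_real, Real.norm_of_nonneg (by positivity), div_le_one hR0]
    exact hR.le
  unfold E2R LL
  apply ContinuousOn.div_const
  apply ContinuousOn.sub
  · apply continuousOn_finsetSum
    intro k _
    apply ContinuousOn.div continuousOn_const (by fun_prop)
    intro x hx
    exact one_sub_ne' (hu k) hx.1 (lt_of_le_of_lt hx.2 hy1)
  · apply continuousOn_const.mul
    apply ContinuousOn.div continuousOn_const (by fun_prop)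
    intro x hx
    exact one_sub_ne' hbn hx.1 (lt_of_le_of_lt hx.2 hy1)

theorem cR_cont (hR : 1 < R) (hu : ∀ k, ‖u k‖ ≤ 1) {y : ℝ} (hy1 : y < 1) :
    ContinuousOn (cR K R u) (Set.Icc 0 y) := by
  unfold cR
  apply continuousOn_const.add
  apply ContinuousOn.mul (by fun_prop)
  apply ContinuousOn.sub _ continuousOn_const
  apply ContinuousOn.mul (by fun_prop) (E2R_cont hR hu hy1)

theorem hasDerivAt_R (hK : 0 < K) (hN : 1 ≤ N) (hR : 1 < R) (hu : ∀ k, ‖u k‖ ≤ 1) {x : ℝ}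
    (h0 : 0 ≤ x) (h1 : x < 1) :
    HasDerivAt (fun x : ℝ => ((1 - x / R : ℝ) : ℂ) * qq u x) (-(cR K R u x * qq u x)) x := by
  have hR0 : 0 < R := by linarith
  have hRx : R - x ≠ 0 := by
    have : x < R := h1.trans hR
    linarith
  have d1 := qq_hasDerivAt hN hu h0 h1
  have d2 : HasDerivAt (fun x : ℝ => 1 - x / R) (-(1 / R)) x := by
    simpa using ((hasDerivAt_id x).div_const R).const_sub 1
  refine (d2.ofReal_comp.mul d1).congr_deriv ?_
  have e1 := lam_eq (K := K) hK hN hR hu h0 h1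
  have e2 : (((N - K) / (R - x) : ℝ) : ℂ) * ((1 - x / R : ℝ) : ℂ) = (((N - K) / R : ℝ) : ℂ) := by
    rw [← Complex.ofReal_mul]
    congr 1
    field_simp
  unfold cR C0R
  rw [e1]
  push_cast at e2 ⊢
  linear_combination (-(qq u x)) * e2

theorem one_sub_R (hK : 0 < K) (hN : 1 ≤ N) (hR : 1 < R) (hu : ∀ k, ‖u k‖ ≤ 1) {y : ℝ}
    (hy0 : 0 ≤ y) (hy1 : y < 1) :
    1 - ((1 - y / R : ℝ) : ℂ) * qq u y = ∫ x in (0 : ℝ)..y, cR K R u x * qq u x := by
  have h2 := intervalIntegral.integral_eq_sub_of_hasDerivAt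
    (f := fun x : ℝ => ((1 - x / R : ℝ) : ℂ) * qq u x)
    (f' := fun x => -(cR K R u x * qq u x)) (a := 0) (b := y)
    (fun x hx => by
      rw [Set.uIcc_of_le hy0] at hx
      exact hasDerivAt_R hK hN hR hu hx.1 (lt_of_le_of_lt hx.2 hy1))
    (by
      apply ContinuousOn.intervalIntegrable
      rw [Set.uIcc_of_le hy0]
      exact ((cR_cont hR hu hy1).mul (qq_cont u).continuousOn).neg)
  rw [intervalIntegral.integral_neg, qq_zero] at h2
  rw [zero_div, sub_zero, Complex.ofReal_one, one_mul] at h2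
  linear_combination h2

/-- the comparison with the constant -/
theorem cR_sub (hK : 0 < K) (hN : 1 ≤ N) (hR : 1 < R) (hu : ∀ k, ‖u k‖ ≤ 1)
    (ht : ∑ k, om R (u k) ≤ K) {x t : ℝ} (ht0 : 0 ≤ t) (h0 : 0 ≤ x) (h1 : x < 1) :
    ‖cR K R u x - (C0R K R u + K * t * (e2R K R u - ((1 / R : ℝ) : ℂ) * muR K R u))‖ ≤
      K * (|x - t| * ((1 - x / R) * kap1 (muR K R u).re x + 1 / R) +
        t * (x * ((1 + 1 / R) * kap1 (muR K R u).re x))) := by
  have hR0 : 0 < R := by linarith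
  have hi : 0 ≤ 1 / R := by positivity
  have hxR : 0 ≤ 1 - x / R := by
    rw [sub_nonneg, div_le_one hR0]
    linarith
  have hmu := H32.muR_norm_le hK hN hR hu ht
  have hE2 := E2R_norm hK hN hR hu ht h0 h1
  have hE3 := E3R_norm hK hN hR hu ht h0 h1
  have e1 : cR K R u x - (C0R K R u + K * t * (e2R K R u - ((1 / R : ℝ) : ℂ) * muR K R u)) =
      K * (((x - t : ℝ) : ℂ) * (((1 - x / R : ℝ) : ℂ) * E2R K R u x -
        ((1 / R : ℝ) : ℂ) * muR K R u) +
        t * (x * (E3R K R u x - ((1 / R : ℝ) : ℂ) * E2R K R u x))) := by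
    unfold cR
    have e2 := E2R_eq (K := K) hR hu h0 h1
    push_cast
    linear_combination ((K : ℂ) * t) * e2
  rw [e1, norm_mul, Complex.norm_real, Real.norm_of_nonneg hK.le]
  apply mul_le_mul_of_nonneg_left _ hK.le
  refine (norm_add_le _ _).trans ?_
  rw [norm_mul, norm_mul, norm_mul, Complex.norm_real, Complex.norm_real, Complex.norm_real,
    Real.norm_of_nonneg h0, Real.norm_of_nonneg ht0, Real.norm_eq_abs]
  have h2 : ‖((1 - x / R : ℝ) : ℂ) * E2R K R u x - ((1 / R : ℝ) : ℂ) * muR K R u‖ ≤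
      (1 - x / R) * kap1 (muR K R u).re x + 1 / R := by
    refine (norm_sub_le _ _).trans ?_
    rw [norm_mul, norm_mul, Complex.norm_real, Complex.norm_real, Real.norm_of_nonneg hxR,
      Real.norm_of_nonneg hi]
    have h3 := mul_le_mul_of_nonneg_left hE2 hxR
    have h4 := mul_le_mul_of_nonneg_left hmu hi
    linarith
  have h3 : ‖E3R K R u x - ((1 / R : ℝ) : ℂ) * E2R K R u x‖ ≤
      (1 + 1 / R) * kap1 (muR K R u).re x := by
    refine (norm_sub_le _ _).trans ?_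
    rw [norm_mul, Complex.norm_real, Real.norm_of_nonneg hi]
    have h4 := mul_le_mul_of_nonneg_left hE2 hi
    linarith
  have h4 := mul_le_mul_of_nonneg_left h2 (abs_nonneg (x - t))
  have h5 := mul_le_mul_of_nonneg_left (mul_le_mul_of_nonneg_left h3 h0) ht0
  linarith

/-- **MASS with the sweep** -/
theorem massR (hK : 0 < K) (hN : 1 ≤ N) (hR : 1 < R) (hu : ∀ k, ‖u k‖ ≤ 1)
    (ht : ∑ k, om R (u k) ≤ K) {y t T : ℝ} (ht0 : 0 ≤ t) (hy0 : 0 ≤ y) (hy1 : y < 1)
    {e : ℝ → ℝ} (he : ContinuousOn e (Set.Icc 0 y))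
    (hqe : ∀ x ∈ Set.Icc 0 y, ‖qq u x‖ ≤ e x) (hT : ‖qq u y‖ ≤ T) :
    1 - (1 - y / R) * T - K * (∫ x in (0 : ℝ)..y,
        (|x - t| * ((1 - x / R) * kap1 (muR K R u).re x + 1 / R) +
          t * (x * ((1 + 1 / R) * kap1 (muR K R u).re x))) * e x) ≤
      ‖∫ x in (0 : ℝ)..y, qq u x‖ * (‖C0R K R u‖ + K * (t * (1 + 1 / R))) := by
  have hR0 : 0 < R := by linarith
  have hi : 0 ≤ 1 / R := by positivity
  have hyR : 0 ≤ 1 - y / R := by
    rw [sub_nonneg, div_le_one hR0]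
    linarith
  have hq := qq_cont u
  have hd := one_sub_R hK hN hR hu hy0 hy1
  have hlc := cR_cont (K := K) hR hu hy1
  have hmu := H32.muR_norm_le hK hN hR hu ht
  have he2 := e2R_norm hK hR hu ht
  obtain ⟨c, hc⟩ : ∃ c, c = C0R K R u + K * t * (e2R K R u - ((1 / R : ℝ) : ℂ) * muR K R u) :=
    ⟨_, rfl⟩
  have hI1 : IntervalIntegrable (fun x => c * qq u x) volume 0 y :=
    (continuous_const.mul hq).intervalIntegrable _ _
  have hI2 : IntervalIntegrable (fun x => (cR K R u x - c) * qq u x) volume 0 y := by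
    apply ContinuousOn.intervalIntegrable
    rw [Set.uIcc_of_le hy0]
    exact (hlc.sub continuousOn_const).mul hq.continuousOn
  have hsplit : ∫ x in (0 : ℝ)..y, cR K R u x * qq u x =
      c * (∫ x in (0 : ℝ)..y, qq u x) + ∫ x in (0 : ℝ)..y, (cR K R u x - c) * qq u x := by
    rw [← intervalIntegral.integral_const_mul, ← intervalIntegral.integral_add hI1 hI2]
    congr 1
    funext x
    ring
  have hk := kap1_cont (m := (muR K R u).re) hy1
  have hJ : IntervalIntegrable (fun x => K *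
      ((|x - t| * ((1 - x / R) * kap1 (muR K R u).re x + 1 / R) +
          t * (x * ((1 + 1 / R) * kap1 (muR K R u).re x))) * e x)) volume 0 y := by
    apply ContinuousOn.intervalIntegrable
    rw [Set.uIcc_of_le hy0]
    apply continuousOn_const.mul
    apply ContinuousOn.mul _ he
    apply ContinuousOn.add
    · apply ContinuousOn.mul
      · exact ((continuous_id.sub continuous_const).abs).continuousOn
      · apply ContinuousOn.add _ continuousOn_const
        exact ContinuousOn.mul (by fun_prop) hk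
    · apply continuousOn_const.mul
      apply continuousOn_id.mul
      exact continuousOn_const.mul hk
  have hb : ‖∫ x in (0 : ℝ)..y, (cR K R u x - c) * qq u x‖ ≤
      ∫ x in (0 : ℝ)..y, K * ((|x - t| * ((1 - x / R) * kap1 (muR K R u).re x + 1 / R) +
          t * (x * ((1 + 1 / R) * kap1 (muR K R u).re x))) * e x) := by
    refine (intervalIntegral.norm_integral_le_integral_norm hy0).trans ?_
    apply intervalIntegral.integral_mono_on hy0 hI2.norm hJ
    intro x hx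
    rw [norm_mul]
    have h1 := cR_sub hK hN hR hu ht ht0 hx.1 (lt_of_le_of_lt hx.2 hy1)
    rw [← hc] at h1
    have h3 := mul_le_mul h1 (hqe x hx) (norm_nonneg _) ((norm_nonneg _).trans h1)
    linarith
  rw [intervalIntegral.integral_const_mul] at hb
  have hcn : ‖c‖ ≤ ‖C0R K R u‖ + K * (t * (1 + 1 / R)) := by
    rw [hc]
    refine (norm_add_le _ _).trans ?_
    have h2 : ‖e2R K R u - ((1 / R : ℝ) : ℂ) * muR K R u‖ ≤ 1 + 1 / R := by
      refine (norm_sub_le _ _).trans ?_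
      rw [norm_mul, Complex.norm_real, Real.norm_of_nonneg hi]
      have h4 := mul_le_mul_of_nonneg_left hmu hi
      linarith
    rw [norm_mul, norm_mul, Complex.norm_real, Complex.norm_real, Real.norm_of_nonneg hK.le,
      Real.norm_of_nonneg ht0]
    have h4 := mul_le_mul_of_nonneg_left h2 (by positivity : 0 ≤ K * t)
    linarith
  have h1 : 1 - (1 - y / R) * T ≤ ‖1 - ((1 - y / R : ℝ) : ℂ) * qq u y‖ := by
    have h2 := norm_sub_norm_le (1 : ℂ) (((1 - y / R : ℝ) : ℂ) * qq u y)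
    rw [norm_one, norm_mul, Complex.norm_real, Real.norm_of_nonneg hyR] at h2
    have h3 := mul_le_mul_of_nonneg_left hT hyR
    linarith
  rw [hd, hsplit] at h1
  have h2 := norm_add_le (c * (∫ x in (0 : ℝ)..y, qq u x))
    (∫ x in (0 : ℝ)..y, (cR K R u x - c) * qq u x)
  rw [norm_mul] at h2
  have h3 := mul_le_mul_of_nonneg_right hcn (norm_nonneg (∫ x in (0 : ℝ)..y, qq u x))
  linarith

end Pool.Agent.Lib.MP_af3a4a_an.P1.H81
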