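import Pool.Agent.Lib.MP_af3a4a_an.P1.H81.Fin24
import Pool.Agent.Lib.MP_af3a4a_an.P1.H81.MassR
import Pool.Agent.Lib.MP_af3a4a_an.P1.H79.Chain

/-!
# MAIN24: `((N+1)/R) |∫₀¹ q| ≥ 1/50` when `N M* > 24`, `R ≥ 29/12` (helper81, council 2)
-/

set_option autoImplicit false

namespace Pool.Agent.Lib.MP_af3a4a_an.P1.H81

open Finset MeasureTheory intervalIntegral ComplexConjugate Metric Set
open Pool.Agent.Lib.MP_af3a4a_an.SV (uu av EE)
open Pool.Agent.Lib.MP_af3a4a_an.P1.H80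
open Pool.Agent.Lib.MP_af3a4a_an.P1.CHK.H80 (gg)
open Pool.Agent.Lib.MP_af3a4a_an.P1.H32 (om norm_sub_pos norm_le_norm_R harnack_aux PPr muR LamR
  QR)

variable {N : ℕ} {K R : ℝ} {u : Fin N → ℂ}

theorem q_bound (hK : 0 < K) (hN : 1 ≤ N) (hR : 1 < R) (hu : ∀ k, ‖u k‖ ≤ 1)
    (ht : ∑ k, om R (u k) ≤ K) (hKN : (N : ℝ) = K * (R - (muR K R u).re)) {x : ℝ}
    (h0 : 0 ≤ x) (h1 : x < 1) : ‖qq u x‖ ≤ eq24 K R (1 + (muR K R u).re) x := by
  have h := (H32.sweepR hK hN hR hu ht).norm_le h0 h1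
  rw [H32.qq_eq_QR (K := K) (R := R), norm_mul, Complex.norm_real,
    Real.norm_of_nonneg (Real.exp_pos _).le]
  refine (mul_le_mul_of_nonneg_left h (Real.exp_pos _).le).trans (le_of_eq ?_)
  unfold eq24 GG
  rw [← Real.exp_add]
  congr 1
  have e : (1 + x) ^ 2 - 2 * x * (1 + (muR K R u).re) = gg (muR K R u).re x := by
    unfold gg
    ring
  rw [e]
  have e2 : (N : ℝ) - K = K * (R - (1 + (muR K R u).re)) := by rw [hKN]; ring
  rw [e2]
  ring

theorem C0R_bound (hK : 0 < K) (hR : 29 / 12 ≤ R) (hmu : ‖muR K R u‖ ≤ 1)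
    (hKN : (N : ℝ) = K * (R - (muR K R u).re)) {s : ℝ} (hs0 : 0 ≤ s)
    (hs : s ^ 2 = 2 * (1 + (muR K R u).re)) :
    ‖C0R K R u‖ ≤ 1 / R + K * s ∧
      ‖C0R K R u‖ ≤ 1 / R + K * (s * (1 + 1 / R - 1 / R * (1 + (muR K R u).re))) := by
  have hR0 : 0 < R := by linarith
  obtain ⟨ε, hε⟩ : ∃ ε, ε = 1 / R := ⟨_, rfl⟩
  have hε0 : 0 ≤ ε := by rw [hε]; positivity
  have hε1 : ε ≤ 12 / 29 := by
    rw [hε, div_le_div_iff₀ hR0 (by norm_num)]
    linarith
  have hRε : R * ε = 1 := by rw [hε]; field_simp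
  obtain ⟨μ, hμ⟩ : ∃ μ, μ = muR K R u := ⟨_, rfl⟩
  rw [← hμ] at hmu hKN hs
  obtain ⟨d, hd⟩ : ∃ d, d = 1 + μ.re := ⟨_, rfl⟩
  have hre := abs_le.1 ((Complex.abs_re_le_norm μ).trans hmu)
  have hd0 : 0 ≤ d := by linarith [hre.1]
  have hd2 : d ≤ 2 := by linarith [hre.2]
  obtain ⟨z, hz⟩ : ∃ z : ℂ, z = (((1 - ε) * d : ℝ) : ℂ) + (μ.im : ℂ) * Complex.I := ⟨_, rfl⟩
  have e1 : C0R K R u = ((ε : ℝ) : ℂ) + K * z := by
    unfold C0R
    rw [← hμ]
    have e2 : 1 / R + (N - K) / R = ε + K * (1 - ε * d) := by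
      rw [hKN, hd, ← hε]
      have : (K * (R - μ.re) - K) / R = K * (R * ε - μ.re * ε - ε) := by
        rw [hε]
        field_simp
      rw [this, hRε]
      ring
    have e3 : μ = (μ.re : ℂ) + (μ.im : ℂ) * Complex.I := (Complex.re_add_im μ).symm
    have e4 : (μ.re : ℂ) = (d : ℂ) - 1 := by
      rw [hd]
      push_cast
      ring
    rw [e2, hz]
    conv_lhs => rw [e3, e4]
    push_cast
    ring
  have hzn : ‖z‖ ^ 2 = ((1 - ε) * d) ^ 2 + μ.im ^ 2 := by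
    rw [norm_sq_re_im, hz]
    simp
  have hμn : μ.re ^ 2 + μ.im ^ 2 ≤ 1 := by
    rw [← norm_sq_re_im]
    exact pow_le_one₀ (norm_nonneg _) hmu
  have hμre : μ.re = d - 1 := by linarith
  rw [hμre] at hμn
  have hb : ‖C0R K R u‖ ≤ ε + K * ‖z‖ := by
    rw [e1]
    refine (norm_add_le _ _).trans ?_
    rw [norm_mul, Complex.norm_real, Complex.norm_real, Real.norm_of_nonneg hε0,
      Real.norm_of_nonneg hK.le]
  have hω : 0 ≤ 1 + ε - ε * d := by nlinarith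
  have h1 : ‖z‖ ≤ s := by
    apply le_of_sq_le_sq _ hs0
    rw [hzn, hs, ← hd]
    have h2 : 0 ≤ ε * (2 - ε) * d ^ 2 := by
      apply mul_nonneg (mul_nonneg hε0 (by linarith)) (sq_nonneg _)
    nlinarith
  have h2 : ‖z‖ ≤ s * (1 + ε - ε * d) := by
    apply le_of_sq_le_sq _ (mul_nonneg hs0 hω)
    rw [hzn, mul_pow s, hs, ← hd]
    have h3 : 0 ≤ ε * d * (2 - d) * (2 + ε * (1 - 2 * d)) := by
      apply mul_nonneg
      · apply mul_nonneg (mul_nonneg hε0 hd0) (by linarith)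
      · nlinarith
    have e5 : 2 * d * (1 + ε - ε * d) ^ 2 - (((1 - ε) * d) ^ 2 + (1 - (d - 1) ^ 2)) =
        ε * d * (2 - d) * (2 + ε * (1 - 2 * d)) := by ring
    linarith
  rw [← hμ, ← hε, ← hd]
  exact ⟨hb.trans (by
    have := mul_le_mul_of_nonneg_left h1 hK.le
    linarith), hb.trans (by
    have := mul_le_mul_of_nonneg_left h2 hK.le
    linarith)⟩
where
  le_of_sq_le_sq {a b : ℝ} (h : a ^ 2 ≤ b ^ 2) (hb : 0 ≤ b) : a ≤ b := by
    by_contra hcon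
    push Not at hcon
    nlinarith

theorem fin_arith {K ε s ω h I0 J C : ℝ} (hK : 24 ≤ K) (hε0 : 0 ≤ ε) (hs0 : 0 ≤ s) (hω : 17 / 29 ≤ ω)
    (hh0 : 0 ≤ h) (hI0 : 0 ≤ I0) (hJ0 : 0 ≤ J) (hC0 : 0 ≤ C)
    (hc : 22 / 125 ≤ I0 * (C + 2 / 5 * h)) (hC1 : C ≤ ε + K * s) (hC2 : C ≤ ε + K * (s * ω))
    (hh1 : 2 / 5 * h ≤ K * ω) (hh2 : ε + 2 / 5 * h ≤ 23 / 200 * K)
    (hV : (s + 23 / 200) * (K * J) + (s + 1) / 50 < 22 / 125) :
    1 / 50 ≤ (K * ω + ε) * (I0 - J) := by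
  by_contra hcon
  push Not at hcon
  obtain ⟨nf, hnf⟩ : ∃ nf, nf = K * ω + ε := ⟨_, rfl⟩
  obtain ⟨D, hD⟩ : ∃ D, D = C + 2 / 5 * h := ⟨_, rfl⟩
  rw [← hnf] at hcon
  rw [← hD] at hc
  have hnf0 : 0 < nf := by
    rw [hnf]
    have : 0 < K * ω := mul_pos (by linarith) (by linarith)
    linarith
  have hD0 : 0 ≤ D := by rw [hD]; positivity
  have hD1 : D ≤ (s + 1) * nf := by
    rw [hD, hnf]
    have h1 : 0 ≤ s * ε := mul_nonneg hs0 hε0
    nlinarith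
  have hD2 : D ≤ K * (s + 23 / 200) := by
    rw [hD]
    linarith
  have h1 : nf * (22 / 125) ≤ (nf * I0) * D := by
    have := mul_le_mul_of_nonneg_left hc hnf0.le
    linarith
  have h2 : (nf * I0) * D ≤ (1 / 50 + nf * J) * D :=
    mul_le_mul_of_nonneg_right (by linarith) hD0
  have h3 : J * D ≤ J * (K * (s + 23 / 200)) := mul_le_mul_of_nonneg_left hD2 hJ0
  have h4 : nf * (J * D) ≤ nf * (J * (K * (s + 23 / 200))) := mul_le_mul_of_nonneg_left h3 hnf0.le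
  have h5 : nf * (22 / 125) ≤ nf * ((s + 23 / 200) * (K * J) + (s + 1) / 50) := by
    have : (1 / 50 + nf * J) * D = D / 50 + nf * (J * D) := by ring
    rw [this] at h2
    have e : nf * ((s + 23 / 200) * (K * J) + (s + 1) / 50) =
        nf * (J * (K * (s + 23 / 200))) + (s + 1) * nf / 50 := by ring
    rw [e]
    linarith
  have h6 := le_of_mul_le_mul_left h5 hnf0
  linarith

/-- **MAIN24** for points of the disc -/
theorem main24_core (hK : 24 ≤ K) (hN : 1 ≤ N) (hR : 29 / 12 ≤ R) (hu : ∀ k, ‖u k‖ ≤ 1)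
    (ht : ∑ k, om R (u k) ≤ K) (hKN : (N : ℝ) = K * (R - (muR K R u).re)) :
    1 / 50 ≤ (((N : ℝ) + 1) / R) * ‖∫ x in (0 : ℝ)..1, qq u x‖ := by
  have hK0 : 0 < K := by linarith
  have hR1 : 1 < R := by linarith
  have hR0 : 0 < R := by linarith
  have hmu := H32.muR_norm_le hK0 hN hR1 hu ht
  obtain ⟨d, hd⟩ : ∃ d, d = 1 + (muR K R u).re := ⟨_, rfl⟩
  have hre := abs_le.1 ((Complex.abs_re_le_norm (muR K R u)).trans hmu)
  have hd0 : 0 ≤ d := by linarith [hre.1]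
  have hd2 : d ≤ 2 := by linarith [hre.2]
  obtain ⟨s, hs'⟩ : ∃ s, s = Real.sqrt (2 * d) := ⟨_, rfl⟩
  have hs0 : 0 ≤ s := by rw [hs']; exact Real.sqrt_nonneg _
  have hs : s ^ 2 = 2 * d := by rw [hs', Real.sq_sqrt (by linarith)]
  obtain ⟨L, hL⟩ : ∃ L, L = K * (1 + 1 / R) := ⟨_, rfl⟩
  obtain ⟨ε, hε⟩ : ∃ ε, ε = 1 / R := ⟨_, rfl⟩
  have hε0 : 0 ≤ ε := by rw [hε]; positivity
  have hε1 : ε ≤ 12 / 29 := by
    rw [hε, div_le_div_iff₀ hR0 (by norm_num)]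
    linarith
  have hRε : R * ε = 1 := by rw [hε]; field_simp
  have hL0 : 0 < L := by rw [hL, ← hε]; positivity
  have hL1 : L ≤ 41 / 29 * K := by rw [hL, ← hε]; nlinarith
  obtain ⟨h, hh⟩ : ∃ h, h = Real.sqrt L := ⟨_, rfl⟩
  have hh2 : h ^ 2 = L := by rw [hh, Real.sq_sqrt hL0.le]
  have hh0 : 0 < h := by rw [hh]; exact Real.sqrt_pos.2 hL0
  obtain ⟨t, ht'⟩ : ∃ t, t = 2 / 5 / Real.sqrt (K * (1 + 1 / R)) := ⟨_, rfl⟩
  have ht0 : 0 ≤ t := by rw [ht']; positivity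
  have htL : K * (t * (1 + 1 / R)) = 2 / 5 * h := by
    have e : K * (t * (1 + 1 / R)) = t * L := by rw [hL]; ring
    rw [e, ht', ← hL, ← hh, ← hh2]
    field_simp
  -- the mass
  have hm := massR hK0 hN hR1 hu ht ht0 (show (0 : ℝ) ≤ 1 / 2 by norm_num) (by norm_num)
    (e := eq24 K R d) (T := eq24 K R d (1 / 2)) (eq24_cont hR1 hd2 (by norm_num)) (by
      intro x hx
      rw [hd]
      exact q_bound hK0 hN hR1 hu ht hKN hx.1 (by linarith [hx.2])) (by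
      rw [hd]
      exact q_bound hK0 hN hR1 hu ht hKN (by norm_num) (by norm_num))
  have hn := num24 hK hR hd0 hd2 ht'
  have hd1 : (muR K R u).re = d - 1 := by linarith
  have hc : 22 / 125 ≤ ‖∫ x in (0 : ℝ)..(1 / 2), qq u x‖ * (‖C0R K R u‖ + 2 / 5 * h) := by
    rw [← htL]
    rw [hd1] at hm
    unfold WR at hn
    exact hn.trans hm
  obtain ⟨hC1, hC2⟩ := C0R_bound hK0 hR hmu hKN hs0 (by rw [hs, hd])
  rw [← hd, ← hε] at hC2
  rw [← hε] at hC1
  -- the tail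
  obtain ⟨J, hJ⟩ : ∃ J, J = ∫ x in (1 / 2 : ℝ)..1, ‖qq u x‖ := ⟨_, rfl⟩
  have hJ0 : 0 ≤ J := by
    rw [hJ]
    apply intervalIntegral.integral_nonneg (by norm_num)
    intro x _
    exact norm_nonneg _
  have hV := V_tail hK hR hd0 hd2 hs0 hs (J := J) (by
    intro g hg hle
    rw [hJ]
    apply intervalIntegral.integral_mono_on_of_le_Ioo (by norm_num)
    · exact (qq_cont u).norm.intervalIntegrable _ _
    · apply ContinuousOn.intervalIntegrable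
      rw [Set.uIcc_of_le (by norm_num)]
      exact hg
    · intro x hx
      have h1 := q_bound hK0 hN hR1 hu ht hKN (show 0 ≤ x by linarith [hx.1]) hx.2
      rw [← hd] at h1
      exact h1.trans (hle x hx.1.le hx.2))
  -- the numbers
  have hω : 17 / 29 ≤ 1 + ε - ε * d := by nlinarith
  have hh1 : 2 / 5 * h ≤ K * (1 + ε - ε * d) := by
    have h1 : h ≤ 85 / 58 * K := by
      rw [hh]
      apply Real.sqrt_le_iff.2
      constructor
      · linarith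
      · nlinarith
    have h2 : K * (17 / 29) ≤ K * (1 + ε - ε * d) := mul_le_mul_of_nonneg_left hω hK0.le
    linarith
  have hh3 : ε + 2 / 5 * h ≤ 23 / 200 * K := by
    have h1 : h ≤ 5 / 2 * (23 / 200 * K - 12 / 29) := by
      rw [hh]
      apply Real.sqrt_le_iff.2
      constructor
      · linarith
      · nlinarith
    linarith
  have hfin := fin_arith hK hε0 hs0 hω hh0.le (norm_nonneg (∫ x in (0 : ℝ)..(1 / 2), qq u x))
    hJ0 (norm_nonneg (C0R K R u)) hc hC1 hC2 hh1 hh3 hV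
  -- conclusion
  have hnf : ((N : ℝ) + 1) / R = K * (1 + ε - ε * d) + ε := by
    rw [hKN, hd1]
    have e : (K * (R - (d - 1)) + 1) / R = K * (R * ε + ε - ε * d) + ε := by
      rw [hε]
      field_simp
      ring
    rw [e, hRε]
  rw [hnf]
  refine hfin.trans ?_
  apply mul_le_mul_of_nonneg_left
  · have hI1 : IntervalIntegrable (qq u) volume 0 (1 / 2) := (qq_cont u).intervalIntegrable _ _
    have hI2 : IntervalIntegrable (qq u) volume (1 / 2) 1 := (qq_cont u).intervalIntegrable _ _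
    rw [← intervalIntegral.integral_add_adjacent_intervals hI1 hI2]
    have h1 := norm_sub_le ((∫ x in (0 : ℝ)..(1 / 2), qq u x) + ∫ x in (1 / 2 : ℝ)..1, qq u x)
      (∫ x in (1 / 2 : ℝ)..1, qq u x)
    rw [add_sub_cancel_right] at h1
    have h2 : ‖∫ x in (1 / 2 : ℝ)..1, qq u x‖ ≤ J := by
      rw [hJ]
      exact intervalIntegral.norm_integral_le_integral_norm (by norm_num)
    linarith
  · have : 0 ≤ K * (1 + ε - ε * d) := mul_nonneg hK0.le (by linarith)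
    linarith

/-- **MAIN24** -/
theorem main24 {N : ℕ} {z w : Fin N → ℂ} {R : ℝ} {σ : Fin N → ℂ} (hC : Cfg2 N z w R σ)
    (hR : 29 / 12 ≤ R) (hK : 24 < H79.NM N w R) :
    1 / 50 ≤ (((N : ℝ) + 1) / R) * ‖∫ x in (0 : ℝ)..1, qq (uu w) x‖ := by
  have hN : 1 ≤ N := by linarith [hC.hN]
  have hR0 : 0 < R := by linarith
  have hR2 : 0 < R ^ 2 - 1 := by nlinarith
  have hu : ∀ k, ‖uu w k‖ ≤ 1 := by
    intro k
    unfold uu
    rw [norm_inv]
    exact inv_le_one_of_one_le₀ (hC.cfg.far k)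
  obtain ⟨K, hKd⟩ : ∃ K, K = H79.NM N w R := ⟨_, rfl⟩
  rw [← hKd] at hK
  have hK0 : 0 < K := by linarith
  apply main24_core hK.le hN hR hu
  · rw [hKd]
    exact H28.cost_sum hC hR
  · have hm : (muR K R (uu w)).re = ((N : ℝ) * (av (uu w)).re - (N - K) / R) / K := by
      unfold muR
      rw [Complex.div_ofReal_re, Complex.sub_re, Complex.ofReal_re]
      congr 2
      have := Complex.re_ofReal_mul (N : ℝ) (av (uu w))
      push_cast at this
      exact this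
    rw [hm]
    have e1 : K * (R ^ 2 - 1) = N * (R - 1 + R * (av (uu w)).re) := by
      rw [hKd]
      unfold H79.NM
      field_simp
    field_simp
    nlinarith [e1]

end Pool.Agent.Lib.MP_af3a4a_an.P1.H81
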