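import Pool.Agent.Lib.MP_af3a4a_an.P1.H81.ZoneB5
import Pool.Agent.Lib.MP_af3a4a_an.P1.H74.C0b
import Pool.Agent.Lib.MP_af3a4a_an.P1.CHK.H58.SZ2

/-!
# `N ≥ 250`, `R ≤ 21/10`: no configuration (helper81, helper58, helper74, helper39; council 2)
-/

namespace Pool.Agent.Lib.MP_af3a4a_an.P1.H81

open MeasureTheory intervalIntegral Set
open Pool.Agent.Lib.MP_af3a4a_an.SV (uu av EE)
open Pool.Agent.Lib.MP_af3a4a_an.P1.H80
open Pool.Agent.Lib.MP_af3a4a_an.P1.H74

/-- `e^{-8N/275} ≤ 1/1400` -/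
theorem exp_tail {N : ℝ} (hN : 250 ≤ N) : Real.exp (-(N * (8 / 275))) ≤ 1 / 1400 := by
  have h1 : Real.exp (-(N * (8 / 275))) ≤ Real.exp (-(80 / 11)) :=
    Real.exp_le_exp.2 (by linarith)
  refine h1.trans ?_
  have h2 := Real.exp_one_gt_d9
  have h3 : Real.exp (80 / 11) = Real.exp 1 ^ 7 * Real.exp (3 / 11) := by
    rw [← Real.exp_nat_mul, ← Real.exp_add]
    norm_num
  have h4 : (2.7182818283 : ℝ) ^ 7 ≤ Real.exp 1 ^ 7 :=
    pow_le_pow_left₀ (by norm_num) h2.le 7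
  have h5 : (1.309 : ℝ) ≤ Real.exp (3 / 11) := by
    have := Real.quadratic_le_exp_of_nonneg (x := (3 / 11 : ℝ)) (by norm_num)
    norm_num at this ⊢
    linarith
  have h6 : (1400 : ℝ) ≤ Real.exp (80 / 11) := by
    rw [h3]
    have h7 : (2.7182818283 : ℝ) ^ 7 * 1.309 ≤ Real.exp 1 ^ 7 * Real.exp (3 / 11) :=
      mul_le_mul h4 h5 (by norm_num) (by positivity)
    refine le_trans ?_ h7
    norm_num
  rw [Real.exp_neg, one_div]
  exact inv_anti₀ (by norm_num) h6

/-- the first tail -/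
theorem tail1 {N : ℕ} (hN : 250 ≤ N) {w : Fin N → ℂ} {R : ℝ} (hw : ∀ k, 1 ≤ ‖w k‖)
    (ht : ∑ k, ‖w k - (R : ℂ)‖ ≤ N) (hR0 : 21 / 20 ≤ R) (hR1 : R ≤ 21 / 10) :
    N * ‖∫ x in (2 / 5 : ℝ)..(R - 77 / 200), qq (uu w) x‖ ≤ 1 / 200 := by
  have hN1 : 1 ≤ N := by omega
  have hNr : (250 : ℝ) ≤ N := by exact_mod_cast hN
  have hNpos : (0 : ℝ) < N := by linarith
  have hab : (2 / 5 : ℝ) ≤ R - 77 / 200 := by linarith
  have hb : ∀ x ∈ Set.Icc (2 / 5 : ℝ) (R - 77 / 200),
      ‖qq (uu w) x‖ ≤ Real.exp (-(N * (8 / 55 * x - 8 / 275))) := by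
    intro x hx
    have hP := (P1.CHK.H39.pure_t (by linarith) hR1 hN1 hw ht (x := x) (by linarith [hx.1])
      (by linarith [hx.2])).1 hx.2
    rcases le_total x 1 with h1 | h1
    · refine (hP.2 h1).trans (Real.exp_le_exp.2 (neg_le_neg ?_))
      apply mul_le_mul_of_nonneg_left _ hNpos.le
      nlinarith [sq_nonneg (x - 2 / 5)]
    · refine hP.1.trans (Real.exp_le_exp.2 (neg_le_neg ?_))
      apply mul_le_mul_of_nonneg_left _ hNpos.le
      nlinarith
  have hd : ∀ x ∈ Set.uIcc (2 / 5 : ℝ) (R - 77 / 200), HasDerivAt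
      (fun x : ℝ => -(Real.exp (-(N * (8 / 55 * x - 8 / 275))) / (N * (8 / 55))))
      (Real.exp (-(N * (8 / 55 * x - 8 / 275)))) x := by
    intro x _
    have e1 : HasDerivAt (fun x : ℝ => Real.exp (-(N * (8 / 55 * x - 8 / 275))))
        (Real.exp (-(N * (8 / 55 * x - 8 / 275))) * (-(N * (8 / 55)))) x := by
      have := (((((hasDerivAt_id x).const_mul (8 / 55 : ℝ)).sub_const (8 / 275)).const_mul
        (N : ℝ)).neg).exp
      simpa using this
    refine (e1.div_const (N * (8 / 55))).neg.congr_deriv ?_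
    field_simp
  have hi : IntervalIntegrable (fun x : ℝ => Real.exp (-(N * (8 / 55 * x - 8 / 275)))) volume
      (2 / 5) (R - 77 / 200) := Continuous.intervalIntegrable (by fun_prop) _ _
  have h1 := intervalIntegral.integral_eq_sub_of_hasDerivAt hd hi
  have h2 : ‖∫ x in (2 / 5 : ℝ)..(R - 77 / 200), qq (uu w) x‖ ≤
      ∫ x in (2 / 5 : ℝ)..(R - 77 / 200), Real.exp (-(N * (8 / 55 * x - 8 / 275))) := by
    refine (intervalIntegral.norm_integral_le_integral_norm hab).trans ?_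
    apply intervalIntegral.integral_mono_on hab _ hi hb
    exact ((qq_cont (uu w)).norm).intervalIntegrable _ _
  rw [h1] at h2
  have h3 := mul_le_mul_of_nonneg_left h2 hNpos.le
  refine h3.trans ?_
  have h4 : 0 ≤ Real.exp (-(N * (8 / 55 * (R - 77 / 200) - 8 / 275))) / (N * (8 / 55)) := by
    positivity
  have e2 : Real.exp (-(N * (8 / 55 * (2 / 5) - 8 / 275))) = Real.exp (-(N * (8 / 275))) := by
    congr 1
    ring
  rw [e2]
  have h5 := exp_tail hNr
  have h6 : N * (-(Real.exp (-(N * (8 / 55 * (R - 77 / 200) - 8 / 275))) / (N * (8 / 55))) -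
      -(Real.exp (-(N * (8 / 275))) / (N * (8 / 55)))) ≤
      N * (Real.exp (-(N * (8 / 275))) / (N * (8 / 55))) := by
    apply mul_le_mul_of_nonneg_left _ hNpos.le
    linarith
  refine h6.trans ?_
  have e3 : N * (Real.exp (-(N * (8 / 275))) / (N * (8 / 55))) =
      55 / 8 * Real.exp (-(N * (8 / 275))) := by
    field_simp
  rw [e3]
  linarith

/-- a piece with `|q| ≤ e^{-N/32}` -/
theorem tail2 {N : ℕ} (hN : 250 ≤ N) {w : Fin N → ℂ} {a b : ℝ} (hab : a ≤ b)
    (h : ∀ x ∈ Set.Ioc a b, ‖qq (uu w) x‖ ≤ Real.exp (-(N * (1 / 32)))) :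
    N * ‖∫ x in a..b, qq (uu w) x‖ ≤ 13 / 125 * (b - a) := by
  have hNr : (250 : ℝ) ≤ N := by exact_mod_cast hN
  have h1 := intervalIntegral.norm_integral_le_of_norm_le_const (a := a) (b := b)
    (f := qq (uu w)) (C := Real.exp (-(N * (1 / 32)))) (by
      intro x hx
      rw [Set.uIoc_of_le hab] at hx
      exact h x hx)
  rw [abs_of_nonneg (by linarith)] at h1
  have h3 := N_exp3 hNr
  have h4 := mul_le_mul_of_nonneg_left h1 (by linarith : (0 : ℝ) ≤ N)
  have h5 : N * (Real.exp (-(N * (1 / 32))) * (b - a)) =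
      (N * Real.exp (-(N * (1 / 32)))) * (b - a) := by ring
  rw [h5] at h4
  have h6 : (N * Real.exp (-(N * (1 / 32)))) * (b - a) ≤ 13 / 125 * (b - a) :=
    mul_le_mul_of_nonneg_right h3 (by linarith)
  linarith

/-- the lower bound up to `R - 3/20` -/
theorem up_to3 {N : ℕ} (hN : 250 ≤ N) {w : Fin N → ℂ} {R : ℝ} (hw : ∀ k, 1 ≤ ‖w k‖)
    (ht : ∑ k, ‖w k - (R : ℂ)‖ ≤ N) (hR0 : 4 / 5 ≤ R) (hR1 : R ≤ 21 / 10) :
    1 / 400 ≤ N * ‖∫ x in (0 : ℝ)..(R - 3 / 20), qq (uu w) x‖ := by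
  have hN1 : 1 ≤ N := by omega
  have hNr : (250 : ℝ) ≤ N := by exact_mod_cast hN
  have hNpos : (0 : ℝ) < N := by linarith
  have hq := qq_cont (uu w)
  have hsplit : ∀ a b : ℝ, (N : ℝ) * ‖∫ x in (0 : ℝ)..a, qq (uu w) x‖ ≤
      N * ‖∫ x in (0 : ℝ)..b, qq (uu w) x‖ + N * ‖∫ x in a..b, qq (uu w) x‖ := by
    intro a b
    rw [← mul_add]
    apply mul_le_mul_of_nonneg_left _ hNpos.le
    have h1 : (∫ x in (0 : ℝ)..b, qq (uu w) x) =
        (∫ x in (0 : ℝ)..a, qq (uu w) x) + ∫ x in a..b, qq (uu w) x :=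
      (intervalIntegral.integral_add_adjacent_intervals (hq.intervalIntegrable _ _)
        (hq.intervalIntegrable _ _)).symm
    have h2 := norm_sub_le (∫ x in (0 : ℝ)..b, qq (uu w) x) (∫ x in a..b, qq (uu w) x)
    rw [h1, add_sub_cancel_right, ← h1] at h2
    exact h2
  rcases le_or_gt R (21 / 20) with h | h
  · have h1 := nz_1 hN hw ht hR0 h
    have h2 := tail2 (w := w) hN (a := 3 / 10) (b := R - 3 / 20) (by linarith) (fun x hx =>
      P1.CHK.H39.pure_t32 hR0 hR1 hN1 hw ht (by linarith [hx.1]) hx.2 (Or.inr h))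
    have h3 := hsplit (3 / 10) (R - 3 / 20)
    linarith
  · have h1 := near_zero3 hN hw ht h.le hR1
    have h2 := tail1 hN hw ht h.le hR1
    have h4 := tail2 (w := w) hN (a := R - 77 / 200) (b := R - 3 / 20) (by linarith)
      (fun x hx => P1.CHK.H39.pure_t32 hR0 hR1 hN1 hw ht (by linarith [hx.1]) hx.2
        (Or.inl (by linarith [hx.1])))
    have h5 := hsplit (2 / 5) (R - 77 / 200)
    have h6 := hsplit (R - 77 / 200) (R - 3 / 20)
    linarith

theorem kap_a3 : (3 : ℝ) / 20 ≤ kap (3 / 20) := le_kap (by norm_num) (by norm_num)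

/-- **Zone B**, `N ≥ 250` -/
theorem zoneB3 {N : ℕ} (hN : 250 ≤ N) {z w : Fin N → ℂ} {R : ℝ} {σ : Fin N → ℂ}
    (hC : Cfg2 N z w R σ) (hR0 : 4 / 5 ≤ R) (hR1 : R ≤ 21 / 10)
    (hm : (av (uu w)).re ≤ 9 / 20 * R) : False := by
  have hNr : (250 : ℝ) ≤ N := by exact_mod_cast hN
  have hNpos : (0 : ℝ) < N := by linarith
  have hJ := up_to3 hN hC.cfg.far hC.dist.le hR0 hR1
  obtain ⟨y, hy⟩ : ∃ y, y = R - 3 / 20 := ⟨_, rfl⟩
  rw [← hy] at hJ
  have hy0 : 13 / 20 ≤ y := by linarith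
  have hy1 : y ≤ 39 / 20 := by linarith
  have hkap := kap_a3
  have hfrac : ((N : ℝ) + 1) / N ≤ 251 / 250 := by
    rw [div_le_iff₀ hNpos]
    linarith
  have hfrac0 : 0 ≤ ((N : ℝ) + 1) / N := by positivity
  have hlog1 : Real.log (1 + 3 / 20) ≤ 3 / 20 := by
    have := Real.log_le_sub_one_of_pos (x := 1 + 3 / 20) (by norm_num)
    linarith
  have hFree : Free N (3 / 20) 0 1 y (y + 1) := by
    refine ⟨by norm_num, by norm_num, by norm_num, by linarith, by nlinarith, ?_, ?_, ?_⟩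
    · have e1 : (3 / 20 : ℝ) / (1 + 3 / 20) * (y * (1 + 3 / 20 * 1)) = 3 / 20 * y := by ring
      rw [e1]
      linarith
    · have h1 : 1 - (y + 1)⁻¹ ≤ Real.log (y + 1) := Real.one_sub_inv_le_log_of_pos (by linarith)
      have h2 : 3 / 20 * (((N : ℝ) + 1) / N) ≤ 1 / 5 := by linarith
      have h3 : (0 : ℝ) ≤ y + 1 - 1 / (y + 1) := by
        have h4 : 1 / (y + 1) ≤ 1 := by
          rw [div_le_one (by linarith)]
          linarith
        linarith
      have h5 : 3 / 20 * (((N : ℝ) + 1) / N) * (y + 1 - 1 / (y + 1)) ≤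
          1 / 5 * (y + 1 - 1 / (y + 1)) := mul_le_mul_of_nonneg_right h2 h3
      have h6 : 1 / 5 * (y + 1 - 1 / (y + 1)) ≤ 1 - (y + 1)⁻¹ := by
        have h7 : 0 < y + 1 := by linarith
        rw [one_div (y + 1)]
        have e2 : 1 - (y + 1)⁻¹ - 1 / 5 * (y + 1 - (y + 1)⁻¹) = y * (3 - y) / (5 * (y + 1)) := by
          field_simp
          ring
        have h8 : 0 ≤ y * (3 - y) / (5 * (y + 1)) :=
          div_nonneg (mul_nonneg (by linarith) (by linarith)) (by linarith)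
        linarith
      linarith
    · linarith
  have hpay : pay (3 / 20) 1 y ≤ 1 / 10 := by
    unfold pay
    apply max_le _ (by norm_num)
    have h1 : (3 : ℝ) / 23 ≤ Real.log (1 + 3 / 20) := by
      have := Real.one_sub_inv_le_log_of_pos (x := 1 + 3 / 20) (by norm_num)
      norm_num at this ⊢
      linarith
    have e1 : (3 / 20 : ℝ) / (1 + 3 / 20) * (y * (1 - 3 / 20 * 1)) = 51 / 460 * y := by ring
    rw [e1]
    linarith
  have hG : (0 : ℝ) < 1 / 400 / N := by positivity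
  refine phi_ray hC (a := 3 / 20) (X₀ := y + 1) (y := y) (G := 1 / 400 / N) (by linarith)
    (by linarith) hFree (by linarith) hG ?_ ?_
  · rw [div_le_iff₀ hNpos]
    linarith
  · have hl1 : -(9 / 391 : ℝ) ≤ Real.log (1 - (3 / 20) ^ 2) := by
      have := Real.one_sub_inv_le_log_of_pos (x := 1 - (3 / 20) ^ 2) (by norm_num)
      norm_num at this ⊢
      linarith
    have hl2 : -(694 / 100 : ℝ) ≤ Real.log (((N : ℝ) + 1) * (1 / 400 / N) / y) := by
      have h1 : (1 / 2 : ℝ) ^ 10 ≤ ((N : ℝ) + 1) * (1 / 400 / N) / y := by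
        rw [le_div_iff₀ (by linarith)]
        have h2 : (1 / 400 : ℝ) ≤ ((N : ℝ) + 1) * (1 / 400 / N) := by
          have e1 : ((N : ℝ) + 1) * (1 / 400 / N) = 1 / 400 * (((N : ℝ) + 1) / N) := by ring
          rw [e1]
          have : 1 ≤ ((N : ℝ) + 1) / N := by
            rw [le_div_iff₀ hNpos]
            linarith
          linarith
        norm_num at h2 ⊢
        linarith
      have h3 := Real.log_le_log (by norm_num) h1
      rw [Real.log_pow, one_div, Real.log_inv] at h3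
      have := Real.log_two_lt_d9
      push_cast at h3
      linarith
    have h1 : (N : ℝ) * (av (uu w)).re ≤ N * (9 / 20 * R) := mul_le_mul_of_nonneg_left hm hNpos.le
    have h2 : (250 : ℝ) * (33 / 400 * R - 9 / 400 - 9 / 782) ≤
        N * (33 / 400 * R - 9 / 400 - 9 / 782) :=
      mul_le_mul_of_nonneg_right hNr (by linarith)
    have h3 : (N : ℝ) * (-(9 / 391)) ≤ N * Real.log (1 - (3 / 20) ^ 2) :=
      mul_le_mul_of_nonneg_left hl1 hNpos.le
    have h4 : (N : ℝ) * y = N * R - N * (3 / 20) := by rw [hy]; ring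
    linarith

/-- **Large `N`**: `N ≥ 250`, `R ≤ 21/10` -/
theorem big250 {N : ℕ} (hN : 250 ≤ N) {z w : Fin N → ℂ} {R : ℝ} {σ : Fin N → ℂ}
    (hC : Cfg2 N z w R σ) (hR : R ≤ 21 / 10) : False := by
  have hR0 := hC.hR
  rcases le_or_gt R (4 / 5) with h1 | h1
  · rcases le_or_gt (av (uu w)).re (1 / 20 * R) with h2 | h2
    · rcases le_or_gt ((N : ℝ) * R ^ 2) (484 / 25) with h3 | h3
      · refine C0.c0_250 hN hC ?_
        have h4 : (av (uu w)).re ≤ 2 / 25 * R := by linarith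
        right; right; right; right; right; right; right; right; right; left
        exact ⟨h3, h4⟩
      · exact zoneA3 hN hC h1 h3.le (by linarith)
    · exact CHK.H58.S.small_250 hN hC h1 h2.le
  · rcases le_or_gt (av (uu w)).re (9 / 20 * R) with h2 | h2
    · exact zoneB3 hN hC h1.le hR h2
    · exact CHK.H58.S.mid_250 hN hC h1.le hR h2.le

end Pool.Agent.Lib.MP_af3a4a_an.P1.H81
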