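import Pool.Agent.Lib.MP_af3a4a_an.P1.H81.Pade

/-!
# The domination lemma for `K ≥ 24` (helper81, council 2)

`G = - (R - d) log (1 - x/R) - (1/2) log ((1 + x)² - 2 x d)`, `A = x - log (1 + x)`,
`log (1 + d x/(1 - x)) ≤ 24 (G - (1 + 1/R) A)` for `0 ≤ x ≤ 1/2`, `0 ≤ d ≤ 2`, `R ≥ 29/12`.
-/

set_option autoImplicit false

namespace Pool.Agent.Lib.MP_af3a4a_an.P1.H81

theorem ab_alpha {x : ℝ} (h0 : 0 ≤ x) (h1 : x ≤ 1 / 2) :
    x / (1 - x) - 24 * (x / (1 + x) ^ 2) +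
      24 * (12 / 29 * x * (29 * (29 - 10 * x) / ((29 - 12 * x) * (29 - 4 * x)))) ≤
    2 * (23 / 25 * x) * (24 * (x / (1 + x) ^ 2) ^ 2 + 3 / 14 * (x / (1 - x)) ^ 2) := by
  have p1 : 0 < 1 - x := by linarith
  have p2 : 0 < 1 + x := by linarith
  have p3 : 0 < 29 - 12 * x := by linarith
  have p4 : 0 < 29 - 4 * x := by linarith
  obtain ⟨y, hy⟩ : ∃ y, y = 1 / 2 - x := ⟨_, rfl⟩
  have hy0 : 0 ≤ y := by linarith
  have key : 0 ≤ (10991) + (-27019) * x + (2104927 / 175) * x ^ 2 + (-6712638 / 175) * x ^ 3 + (17102123 / 175) * x ^ 4 + (-9730037 / 175) * x ^ 5 + (12781 / 175) * x ^ 6 + (493632 / 175) * x ^ 7 + (3312 / 175) * x ^ 8 := by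
    have e : (10991) + (-27019) * x + (2104927 / 175) * x ^ 2 + (-6712638 / 175) * x ^ 3 + (17102123 / 175) * x ^ 4 + (-9730037 / 175) * x ^ 5 + (12781 / 175) * x ^ 6 + (493632 / 175) * x ^ 7 + (3312 / 175) * x ^ 8 =
      2813696 * y ^ 8 +
      19051136 * x ^ 1 * y ^ 7 +
      (9685246528 / 175) * x ^ 2 * y ^ 6 +
      (2208281536 / 25) * x ^ 3 * y ^ 5 +
      (2072174544 / 25) * x ^ 4 * y ^ 4 +
      (7954282776 / 175) * x ^ 5 * y ^ 3 +
      (2358392604 / 175) * x ^ 6 * y ^ 2 +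
      (298969584 / 175) * x ^ 7 * y ^ 1 +
      (3917484 / 175) * x ^ 8 := by
      rw [hy]; ring
    rw [e]
    positivity
  have e2 : 2 * (23 / 25 * x) * (24 * (x / (1 + x) ^ 2) ^ 2 + 3 / 14 * (x / (1 - x)) ^ 2) -
      (x / (1 - x) - 24 * (x / (1 + x) ^ 2) +
      24 * (12 / 29 * x * (29 * (29 - 10 * x) / ((29 - 12 * x) * (29 - 4 * x))))) =
      x * ((10991) + (-27019) * x + (2104927 / 175) * x ^ 2 + (-6712638 / 175) * x ^ 3 + (17102123 / 175) * x ^ 4 + (-9730037 / 175) * x ^ 5 + (12781 / 175) * x ^ 6 + (493632 / 175) * x ^ 7 + (3312 / 175) * x ^ 8) /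
        ((1 - x) ^ 2 * (1 + x) ^ 4 * (29 - 12 * x) * (29 - 4 * x)) := by
    obtain ⟨a, ha⟩ : ∃ a, a = 29 - 12 * x := ⟨_, rfl⟩
    obtain ⟨b, hb⟩ : ∃ b, b = 29 - 4 * x := ⟨_, rfl⟩
    rw [← ha] at p3 ⊢
    rw [← hb] at p4 ⊢
    field_simp
    rw [ha, hb]
    ring
  have h3 : 0 ≤ x * ((10991) + (-27019) * x + (2104927 / 175) * x ^ 2 + (-6712638 / 175) * x ^ 3 + (17102123 / 175) * x ^ 4 + (-9730037 / 175) * x ^ 5 + (12781 / 175) * x ^ 6 + (493632 / 175) * x ^ 7 + (3312 / 175) * x ^ 8) /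
        ((1 - x) ^ 2 * (1 + x) ^ 4 * (29 - 12 * x) * (29 - 4 * x)) := by
    apply div_nonneg (mul_nonneg h0 key)
    positivity
  linarith

theorem ab_beta {x : ℝ} (h0 : 0 ≤ x) (h1 : x ≤ 1 / 2) :
    (23 / 25 * x) ^ 2 * (24 * (x / (1 + x) ^ 2) ^ 2 + 3 / 14 * (x / (1 - x)) ^ 2) ≤
    24 * (12 / 29) * (x ^ 3 * (4 + x) / (2 * (6 + 6 * x + x ^ 2))) := by
  have p1 : 0 < 1 - x := by linarith
  have p2 : 0 < 1 + x := by linarith
  have p3 : 0 < 6 + 6 * x + x ^ 2 := by positivity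
  obtain ⟨y, hy⟩ : ∃ y, y = 1 / 2 - x := ⟨_, rfl⟩
  have hy0 : 0 ≤ y := by linarith
  have key : 0 ≤ (576 / 29) + (-9931797 / 126875) * x + (13513383 / 126875) * x ^ 2 + (1545477 / 253750) * x ^ 3 + (-16821888 / 126875) * x ^ 4 + (1004298 / 126875) * x ^ 5 + (709977 / 25375) * x ^ 6 + (1213977 / 253750) * x ^ 7 := by
    have e : (576 / 29) + (-9931797 / 126875) * x + (13513383 / 126875) * x ^ 2 + (1545477 / 253750) * x ^ 3 + (-16821888 / 126875) * x ^ 4 + (1004298 / 126875) * x ^ 5 + (709977 / 25375) * x ^ 6 + (1213977 / 253750) * x ^ 7 =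
      (73728 / 29) * y ^ 7 +
      (1622284992 / 126875) * x ^ 1 * y ^ 6 +
      (3392378208 / 126875) * x ^ 2 * y ^ 5 +
      (561368568 / 18125) * x ^ 3 * y ^ 4 +
      (563212512 / 25375) * x ^ 4 * y ^ 3 +
      (1237992216 / 126875) * x ^ 5 * y ^ 2 +
      (38159334 / 18125) * x ^ 6 * y ^ 1 +
      (17731821 / 253750) * x ^ 7 := by
      rw [hy]; ring
    rw [e]
    positivity
  have e2 : 24 * (12 / 29) * (x ^ 3 * (4 + x) / (2 * (6 + 6 * x + x ^ 2))) -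
      (23 / 25 * x) ^ 2 * (24 * (x / (1 + x) ^ 2) ^ 2 + 3 / 14 * (x / (1 - x)) ^ 2) =
      x ^ 3 * ((576 / 29) + (-9931797 / 126875) * x + (13513383 / 126875) * x ^ 2 + (1545477 / 253750) * x ^ 3 + (-16821888 / 126875) * x ^ 4 + (1004298 / 126875) * x ^ 5 + (709977 / 25375) * x ^ 6 + (1213977 / 253750) * x ^ 7) /
        ((1 - x) ^ 2 * (1 + x) ^ 4 * (6 + 6 * x + x ^ 2)) := by
    field_simp
    ring
  have h3 : 0 ≤ x ^ 3 * ((576 / 29) + (-9931797 / 126875) * x + (13513383 / 126875) * x ^ 2 + (1545477 / 253750) * x ^ 3 + (-16821888 / 126875) * x ^ 4 + (1004298 / 126875) * x ^ 5 + (709977 / 25375) * x ^ 6 + (1213977 / 253750) * x ^ 7) /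
        ((1 - x) ^ 2 * (1 + x) ^ 4 * (6 + 6 * x + x ^ 2)) := by
    apply div_nonneg (mul_nonneg (by positivity) key)
    positivity
  linarith

/-- **domination** -/
theorem dom {R d x : ℝ} (hR : 29 / 12 ≤ R) (hd0 : 0 ≤ d) (hd2 : d ≤ 2) (h0 : 0 ≤ x)
    (h1 : x ≤ 1 / 2) :
    Real.log (1 + d * (x / (1 - x))) ≤ 24 * (-(R - d) * Real.log (1 - x / R) -
      Real.log ((1 + x) ^ 2 - 2 * x * d) / 2 - (1 + 1 / R) * (x - Real.log (1 + x))) := by
  have hR0 : 0 < R := by linarith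
  have p1 : 0 < 1 - x := by linarith
  have p2 : 0 < 1 + x := by linarith
  obtain ⟨ε, hε⟩ : ∃ ε, ε = 1 / R := ⟨_, rfl⟩
  have hε0 : 0 ≤ ε := by rw [hε]; positivity
  have hε1 : ε ≤ 12 / 29 := by
    rw [hε, div_le_div_iff₀ hR0 (by norm_num)]
    linarith
  have hRε : R * ε = 1 := by rw [hε]; field_simp
  have hxR : x / R = ε * x := by rw [hε]; ring
  obtain ⟨X, hX⟩ : ∃ X, X = x / (1 - x) := ⟨_, rfl⟩
  obtain ⟨v, hv⟩ : ∃ v, v = x / (1 + x) ^ 2 := ⟨_, rfl⟩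
  obtain ⟨h, hh⟩ : ∃ h, h = 29 * (29 - 10 * x) / ((29 - 12 * x) * (29 - 4 * x)) := ⟨_, rfl⟩
  obtain ⟨m, hm⟩ : ∃ m, m = x ^ 3 * (4 + x) / (2 * (6 + 6 * x + x ^ 2)) := ⟨_, rfl⟩
  have hX0 : 0 ≤ X := by rw [hX]; positivity
  have hX1 : X ≤ 1 := by rw [hX, div_le_one p1]; linarith
  have hv0 : 0 ≤ v := by rw [hv]; positivity
  have hv1 : v ≤ 2 / 9 := by
    rw [hv, div_le_div_iff₀ (by positivity) (by norm_num)]
    nlinarith [mul_nonneg (sub_nonneg.2 h1) (by linarith : 0 ≤ 2 - x)]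
  have hXv : X ≤ 24 * v := by
    rw [hX, hv, ← mul_div_assoc, div_le_div_iff₀ p1 (by positivity)]
    have : (1 + x) ^ 2 ≤ 24 * (1 - x) := by nlinarith
    nlinarith
  have hz0 : 0 ≤ ε * x := by positivity
  have hz1 : ε * x ≤ 12 / 29 * x := mul_le_mul_of_nonneg_right hε1 h0
  have hz2 : ε * x < 1 := by linarith
  -- the logarithms
  have l1 : ε * x + (ε * x) ^ 2 / 2 ≤ -Real.log (1 - ε * x) := neg_log_lo2 hz0 hz2
  have l1' : x + ε * x ^ 2 / 2 ≤ R * (-Real.log (1 - ε * x)) := by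
    have h2 := mul_le_mul_of_nonneg_left l1 hR0.le
    have e : R * (ε * x + (ε * x) ^ 2 / 2) = (R * ε) * x + (R * ε) * (ε * x ^ 2 / 2) := by ring
    rw [e, hRε] at h2
    linarith
  have l2 : -Real.log (1 - ε * x) ≤ ε * x * h := by
    refine (neg_log_up hz0 hz2).trans ?_
    have q1 : 0 < 1 - ε * x := by linarith
    have q2 : 0 < 6 - 2 * (ε * x) := by linarith
    have q3 : 0 < 29 - 12 * x := by linarith
    have q4 : 0 < 29 - 4 * x := by linarith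
    have e1 : ε * x * (6 - 5 * (ε * x)) / ((1 - ε * x) * (6 - 2 * (ε * x))) =
        ε * x * ((6 - 5 * (ε * x)) / ((1 - ε * x) * (6 - 2 * (ε * x)))) := by ring
    rw [e1]
    apply mul_le_mul_of_nonneg_left _ hz0
    have e2 : h = (6 - 5 * (12 / 29 * x)) / ((1 - 12 / 29 * x) * (6 - 2 * (12 / 29 * x))) := by
      rw [hh]
      have q5 : 0 < 1 - 12 / 29 * x := by linarith
      have q6 : 0 < 6 - 2 * (12 / 29 * x) := by linarith
      rw [div_eq_div_iff (by positivity) (by positivity)]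
      ring
    rw [e2]
    exact hfun_mono hz0 hz1 (by linarith)
  have l3 : 2 * v * d + (2 * v * d) ^ 2 / 2 ≤ -Real.log (1 - 2 * v * d) := by
    apply neg_log_lo2 (by positivity)
    nlinarith
  have l4 : Real.log ((1 + x) ^ 2 - 2 * x * d) = 2 * Real.log (1 + x) + Real.log (1 - 2 * v * d) := by
    have e : (1 + x) ^ 2 - 2 * x * d = (1 + x) ^ 2 * (1 - 2 * v * d) := by
      rw [hv]; field_simp
    have q : 1 - 2 * v * d ≠ 0 := by
      have : 0 < 1 - 2 * v * d := by nlinarith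
      exact this.ne'
    rw [e, Real.log_mul (by positivity) q, Real.log_pow]
    push_cast
    ring
  have l5 : m + x - x ^ 2 / 2 ≤ Real.log (1 + x) := by
    refine le_trans (le_of_eq ?_) (log_pade_lo h0)
    rw [hm]
    field_simp
    ring
  have l6 : Real.log (1 + d * X) ≤ d * X - 3 / 14 * (d * X) ^ 2 := by
    have hs0 : 0 ≤ d * X := mul_nonneg hd0 hX0
    have hs2 : d * X ≤ 2 := by nlinarith
    refine (log_pade_up hs0).trans ?_
    obtain ⟨s, hs⟩ : ∃ s, s = d * X := ⟨_, rfl⟩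
    rw [← hs] at hs0 hs2 ⊢
    rw [div_le_iff₀ (by positivity)]
    nlinarith [mul_nonneg (mul_nonneg hs0 hs0) (by linarith : 0 ≤ 2 - s)]
  -- the quadratic polynomial
  obtain ⟨D, hD⟩ : ∃ D, D = 24 * v ^ 2 + 3 / 14 * X ^ 2 := ⟨_, rfl⟩
  have hD0 : 0 ≤ D := by rw [hD]; positivity
  have ha := ab_alpha h0 h1
  have hb := ab_beta h0 h1
  rw [← hX, ← hv, ← hh, ← hD] at ha
  rw [← hX, ← hv, ← hm, ← hD] at hb
  have P1 : 0 ≤ 24 * (12 / 29) * m - d * (X - 24 * v + 24 * (12 / 29 * x * h)) + D * d ^ 2 := by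
    have h2 := mul_le_mul_of_nonneg_left ha hd0
    nlinarith [mul_nonneg hD0 (sq_nonneg (d - 23 / 25 * x))]
  have P0 : 0 ≤ d * (24 * v - X) + D * d ^ 2 := by
    have h2 := mul_nonneg hd0 (sub_nonneg.2 hXv)
    have h3 := mul_nonneg hD0 (sq_nonneg d)
    linarith
  obtain ⟨ρ, hρ⟩ : ∃ ρ, ρ = 29 / 12 * ε := ⟨_, rfl⟩
  have hρ0 : 0 ≤ ρ := by rw [hρ]; positivity
  have hρ1 : ρ ≤ 1 := by rw [hρ]; linarith
  have hF : 0 ≤ 24 * ε * m - 24 * d * (ε * x * h) + d * (24 * v - X) + D * d ^ 2 := by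
    have e : 24 * ε * m - 24 * d * (ε * x * h) + d * (24 * v - X) + D * d ^ 2 =
        (1 - ρ) * (d * (24 * v - X) + D * d ^ 2) +
        ρ * (24 * (12 / 29) * m - d * (X - 24 * v + 24 * (12 / 29 * x * h)) + D * d ^ 2) := by
      rw [hρ]; ring
    rw [e]
    exact add_nonneg (mul_nonneg (by linarith) P0) (mul_nonneg hρ0 P1)
  have l2' := mul_le_mul_of_nonneg_left l2 hd0
  have l5' := mul_le_mul_of_nonneg_left l5 hε0
  rw [hxR, l4, ← hX, ← hε]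
  rw [hD] at hF
  nlinarith

end Pool.Agent.Lib.MP_af3a4a_an.P1.H81
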