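import Pool.Agent.Lib.MP_af3a4a_an.P1.H81.VHalf

/-!
# The final inequality for `K ≥ 24` (helper81, council 2)
-/

set_option autoImplicit false

namespace Pool.Agent.Lib.MP_af3a4a_an.P1.H81

open MeasureTheory intervalIntegral

theorem tail_int {K G s : ℝ} (hK : 24 ≤ K) (hG : 0 ≤ G) (hs : 0 < s) :
    K * ∫ x in (1 / 2 : ℝ)..1, Real.exp (-(K * (G + s * (x - 1 / 2)))) ≤
      Real.exp (-(24 * G)) / s := by
  have hK0 : 0 < K := by linarith
  have hc : Continuous fun x : ℝ => K * Real.exp (-(K * (G + s * (x - 1 / 2)))) := by fun_prop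
  have h := intervalIntegral.integral_eq_sub_of_hasDerivAt
    (f := fun x => -(Real.exp (-(K * (G + s * (x - 1 / 2)))) / s))
    (f' := fun x => K * Real.exp (-(K * (G + s * (x - 1 / 2)))))
    (a := 1 / 2) (b := 1) (by
      intro x _
      have d0 : HasDerivAt (fun x : ℝ => -(K * (G + s * (x - 1 / 2)))) (-(K * (s * 1))) x :=
        (((((hasDerivAt_id x).sub_const (1 / 2)).const_mul s).const_add G).const_mul K).neg
      refine (d0.exp.div_const s).neg.congr_deriv ?_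
      field_simp) (hc.intervalIntegrable _ _)
  rw [intervalIntegral.integral_const_mul] at h
  rw [h]
  have h1 : 0 ≤ Real.exp (-(K * (G + s * (1 - 1 / 2)))) / s := by positivity
  have h2 : Real.exp (-(K * (G + s * (1 / 2 - 1 / 2)))) / s ≤ Real.exp (-(24 * G)) / s := by
    apply div_le_div_of_nonneg_right _ hs.le
    apply Real.exp_le_exp.2
    have := mul_le_mul_of_nonneg_right hK hG
    have e : G + s * (1 / 2 - 1 / 2) = G := by ring
    rw [e]
    linarith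
  linarith

theorem e94 : Real.exp (-(9 / 4)) ≤ 211 / 2000 := by
  have h : (2000 / 211 : ℝ) ≤ Real.exp (9 / 4) := by
    refine le_trans ?_ (Real.sum_le_exp_of_nonneg (by norm_num) 12)
    norm_num [Finset.sum_range_succ, Nat.factorial]
  rw [Real.exp_neg]
  have h2 : (Real.exp (9 / 4))⁻¹ ≤ (2000 / 211 : ℝ)⁻¹ := by
    apply inv_anti₀ (by norm_num) h
  norm_num at h2 ⊢
  exact h2

theorem e319 : Real.exp (-(319 / 100)) ≤ 1031 / 25000 := by
  have h : (25000 / 1031 : ℝ) ≤ Real.exp (319 / 100) := by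
    refine le_trans ?_ (Real.sum_le_exp_of_nonneg (by norm_num) 16)
    norm_num [Finset.sum_range_succ, Nat.factorial]
  rw [Real.exp_neg]
  have h2 : (Real.exp (319 / 100))⁻¹ ≤ (25000 / 1031 : ℝ)⁻¹ := by
    apply inv_anti₀ (by norm_num) h
  norm_num at h2 ⊢
  exact h2

theorem e516 : Real.exp (-(129 / 25)) ≤ 1 / 170 := by
  have h : (170 : ℝ) ≤ Real.exp (129 / 25) := by
    refine le_trans ?_ (Real.sum_le_exp_of_nonneg (by norm_num) 16)
    norm_num [Finset.sum_range_succ, Nat.factorial]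
  rw [Real.exp_neg]
  have h2 : (Real.exp (129 / 25))⁻¹ ≤ (170 : ℝ)⁻¹ := by
    apply inv_anti₀ (by norm_num) h
  norm_num at h2 ⊢
  exact h2

theorem exp_neg_le_inv {z : ℝ} (hz : 0 ≤ z) : Real.exp (-z) ≤ 1 / (1 + z) := by
  rw [Real.exp_neg, ← one_div]
  apply one_div_le_one_div_of_le (by linarith)
  have := Real.add_one_le_exp z
  linarith

/-- branch `1/R = 0` -/
theorem fin_b0 {s : ℝ} (h0 : 0 ≤ s) (h1 : s ≤ 3 / 2) :
    (s + 23 / 200) * (Real.exp (-(9 / 4 + 8 / 3 * s ^ 2)) / (3 / 10)) + (s + 1) / 50 < 22 / 125 := by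
  have h2 : Real.exp (-(9 / 4 + 8 / 3 * s ^ 2)) ≤ 211 / 2000 * (1 / (1 + 8 / 3 * s ^ 2)) := by
    have e : -(9 / 4 + 8 / 3 * s ^ 2) = -(9 / 4) + -(8 / 3 * s ^ 2) := by ring
    rw [e, Real.exp_add]
    exact mul_le_mul e94 (exp_neg_le_inv (by positivity)) (Real.exp_pos _).le (by norm_num)
  have h3 : (s + 23 / 200) * (Real.exp (-(9 / 4 + 8 / 3 * s ^ 2)) / (3 / 10)) ≤
      (s + 23 / 200) * (211 / 2000 * (1 / (1 + 8 / 3 * s ^ 2)) / (3 / 10)) := by
    apply mul_le_mul_of_nonneg_left _ (by linarith)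
    exact div_le_div_of_nonneg_right h2 (by norm_num)
  refine lt_of_le_of_lt (add_le_add_left h3 _) ?_
  have hp : 0 < 1 + 8 / 3 * s ^ 2 := by positivity
  have e : (s + 23 / 200) * (211 / 2000 * (1 / (1 + 8 / 3 * s ^ 2)) / (3 / 10)) =
      (211 / 600 * (s + 23 / 200)) / (1 + 8 / 3 * s ^ 2) := by
    field_simp
    ring
  rw [e]
  have h4 : (211 / 600 * (s + 23 / 200)) / (1 + 8 / 3 * s ^ 2) < 22 / 125 - (s + 1) / 50 := by
    rw [div_lt_iff₀ hp]
    nlinarith [sq_nonneg (s - 1 / 2), mul_nonneg h0 (sq_nonneg (s - 1 / 2)),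
      mul_nonneg h0 (sub_nonneg.2 h1), mul_nonneg (mul_nonneg h0 h0) (sub_nonneg.2 h1)]
  linarith

/-- branch `1/R = 12/29` -/
theorem fin_b1 {s : ℝ} (h0 : 0 ≤ s) (h1 : s ≤ 3 / 2) :
    (s + 23 / 200) * (Real.exp (-(319 / 100 + 9 / 20 * s ^ 2)) / (3 / 10)) + (s + 1) / 50 <
      22 / 125 := by
  have h2 : Real.exp (-(319 / 100 + 9 / 20 * s ^ 2)) ≤
      1031 / 25000 * (1 / (1 + 9 / 20 * s ^ 2)) := by
    have e : -(319 / 100 + 9 / 20 * s ^ 2) = -(319 / 100) + -(9 / 20 * s ^ 2) := by ring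
    rw [e, Real.exp_add]
    exact mul_le_mul e319 (exp_neg_le_inv (by positivity)) (Real.exp_pos _).le (by norm_num)
  have h3 : (s + 23 / 200) * (Real.exp (-(319 / 100 + 9 / 20 * s ^ 2)) / (3 / 10)) ≤
      (s + 23 / 200) * (1031 / 25000 * (1 / (1 + 9 / 20 * s ^ 2)) / (3 / 10)) := by
    apply mul_le_mul_of_nonneg_left _ (by linarith)
    exact div_le_div_of_nonneg_right h2 (by norm_num)
  refine lt_of_le_of_lt (add_le_add_left h3 _) ?_
  have hp : 0 < 1 + 9 / 20 * s ^ 2 := by positivity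
  have e : (s + 23 / 200) * (1031 / 25000 * (1 / (1 + 9 / 20 * s ^ 2)) / (3 / 10)) =
      (1031 / 7500 * (s + 23 / 200)) / (1 + 9 / 20 * s ^ 2) := by
    field_simp
    ring
  rw [e]
  have h4 : (1031 / 7500 * (s + 23 / 200)) / (1 + 9 / 20 * s ^ 2) < 22 / 125 - (s + 1) / 50 := by
    rw [div_lt_iff₀ hp]
    nlinarith [sq_nonneg (s - 1), mul_nonneg h0 (sq_nonneg (s - 1)),
      mul_nonneg h0 (sub_nonneg.2 h1), mul_nonneg (mul_nonneg h0 h0) (sub_nonneg.2 h1)]
  linarith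

/-- `d ≤ 1` -/
theorem fin_d1 {R d s : ℝ} (hR : 29 / 12 ≤ R) (hd0 : 0 ≤ d) (hd1 : d ≤ 1) (hs0 : 0 ≤ s)
    (hs : s ^ 2 = 2 * d) :
    (s + 23 / 200) * (Real.exp (-(24 * GG R d (1 / 2))) / (3 / 10)) + (s + 1) / 50 < 22 / 125 := by
  have hR0 : 0 < R := by linarith
  obtain ⟨ε, hε⟩ : ∃ ε, ε = 1 / R := ⟨_, rfl⟩
  have hε0 : 0 ≤ ε := by rw [hε]; positivity
  have hε1 : ε ≤ 12 / 29 := by
    rw [hε, div_le_div_iff₀ hR0 (by norm_num)]
    linarith
  have hs1 : s ≤ 3 / 2 := by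
    by_contra hcon
    push Not at hcon
    nlinarith
  have h1 := GG_half hR hd0 hd1
  rw [← hε] at h1
  have hmin : 9 / 4 + 8 / 3 * s ^ 2 ≤ 24 * GG R d (1 / 2) ∨
      319 / 100 + 9 / 20 * s ^ 2 ≤ 24 * GG R d (1 / 2) := by
    rw [hs]
    rcases le_total (27 / 2 * d) 3 with h | h
    · left
      nlinarith [mul_nonneg hε0 (sub_nonneg.2 h)]
    · right
      have h2 : (12 / 29) * (3 - 27 / 2 * d) ≤ ε * (3 - 27 / 2 * d) := by
        nlinarith [mul_nonneg (sub_nonneg.2 hε1) (sub_nonneg.2 h)]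
      nlinarith [sq_nonneg (d - 1 / 2)]
  have hmono : ∀ E : ℝ, E ≤ 24 * GG R d (1 / 2) →
      (s + 23 / 200) * (Real.exp (-(24 * GG R d (1 / 2))) / (3 / 10)) ≤
        (s + 23 / 200) * (Real.exp (-E) / (3 / 10)) := by
    intro E hE
    apply mul_le_mul_of_nonneg_left _ (by linarith)
    apply div_le_div_of_nonneg_right _ (by norm_num)
    exact Real.exp_le_exp.2 (by linarith)
  rcases hmin with h | h
  · have a := hmono _ h
    have b := fin_b0 hs0 hs1
    linarith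
  · have a := hmono _ h
    have b := fin_b1 hs0 hs1
    linarith

/-- `d ≥ 1` -/
theorem fin_d2 {s : ℝ} (hs0 : 0 ≤ s) (hs2 : s ≤ 2) :
    (s + 23 / 200) * (Real.exp (-(24 * (43 / 200))) / (11 / 50)) + (s + 1) / 50 < 22 / 125 := by
  have e : (24 * (43 / 200) : ℝ) = 129 / 25 := by norm_num
  rw [e]
  have h1 : (s + 23 / 200) * (Real.exp (-(129 / 25)) / (11 / 50)) ≤
      (s + 23 / 200) * (1 / 170 / (11 / 50)) := by
    apply mul_le_mul_of_nonneg_left _ (by linarith)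
    exact div_le_div_of_nonneg_right e516 (by norm_num)
  have h2 : (s + 23 / 200) * (1 / 170 / (11 / 50)) ≤ (2 + 23 / 200) * (1 / 170 / (11 / 50)) :=
    mul_le_mul_of_nonneg_right (by linarith) (by norm_num)
  norm_num at h1 h2 ⊢
  linarith

/-- the tail on `[1/2, 1]` -/
theorem V_tail {K R d s : ℝ} (hK : 24 ≤ K) (hR : 29 / 12 ≤ R) (hd0 : 0 ≤ d) (hd2 : d ≤ 2)
    (hs0 : 0 ≤ s) (hs : s ^ 2 = 2 * d) {J : ℝ}
    (hJ : ∀ g : ℝ → ℝ, ContinuousOn g (Set.Icc (1 / 2) 1) →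
      (∀ x, 1 / 2 ≤ x → x < 1 → eq24 K R d x ≤ g x) → J ≤ ∫ x in (1 / 2 : ℝ)..1, g x) :
    (s + 23 / 200) * (K * J) + (s + 1) / 50 < 22 / 125 := by
  have hK0 : 0 ≤ K := by linarith
  have hs2 : s ≤ 2 := by
    by_contra hcon
    push Not at hcon
    nlinarith
  have key : ∀ G σ : ℝ, 0 ≤ G → 0 < σ →
      (∀ x, 1 / 2 ≤ x → x < 1 → G + σ * (x - 1 / 2) ≤ GG R d x) →
      K * J ≤ Real.exp (-(24 * G)) / σ := by
    intro G σ hG hσ h
    refine le_trans ?_ (tail_int hK hG hσ)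
    apply mul_le_mul_of_nonneg_left _ hK0
    apply hJ
    · apply Continuous.continuousOn
      fun_prop
    · intro x h0 h1
      unfold eq24
      apply Real.exp_le_exp.2
      have := mul_le_mul_of_nonneg_left (h x h0 h1) hK0
      linarith
  rcases le_total d 1 with hd1 | hd1
  · have hG0 : 0 ≤ GG R d (1 / 2) := by
      have h1 := dom hR hd0 hd2 (show (0 : ℝ) ≤ 1 / 2 by norm_num) le_rfl
      have hX : 0 ≤ d * (1 / 2 / (1 - 1 / 2)) := mul_nonneg hd0 (by norm_num)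
      have hl : 0 ≤ Real.log (1 + d * (1 / 2 / (1 - 1 / 2))) := Real.log_nonneg (by linarith)
      have hR0 : 0 < R := by linarith
      have h2 : 0 ≤ (1 + 1 / R) * (1 / 2 - Real.log (1 + 1 / 2)) := by
        apply mul_nonneg (by positivity)
        have := Real.log_le_sub_one_of_pos (show (0 : ℝ) < 1 + 1 / 2 by norm_num)
        linarith
      unfold GG
      linarith
    have h1 := key _ _ hG0 (show (0 : ℝ) < 3 / 10 by norm_num)
      (fun x h0 h1 => GG_slope hR hd0 hd1 h0 h1)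
    have h2 := fin_d1 hR hd0 hd1 hs0 hs
    have h3 := mul_le_mul_of_nonneg_left h1 (show 0 ≤ s + 23 / 200 by linarith)
    linarith
  · have h1 := key (43 / 200) (11 / 50) (by norm_num) (by norm_num) (by
      intro x h0 h1
      have a := GG_conv hR hd1 hd2 h0 h1
      have b := GG_slope hR (show (0 : ℝ) ≤ 1 by norm_num) le_rfl h0 h1
      have c := GG_one_half hR
      linarith)
    have h2 := fin_d2 hs0 hs2
    have h3 := mul_le_mul_of_nonneg_left h1 (show 0 ≤ s + 23 / 200 by linarith)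
    linarith

end Pool.Agent.Lib.MP_af3a4a_an.P1.H81
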