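import Pool.Agent.Lib.MP_af3a4a_an.P1.H81.MassK

/-!
# MASS with an arbitrary kernel (helper81, council 2, asked for by helper58)

`massG`: `u` in the unit disc, `κ x ≥ mean |u|²/|1 - x u|` on `[0,y]`, `s₂ ≥ |mean u²|`:
`1 - T - N (∫ |x - t| κ e + t ∫ x κ e) ≤ N (|∫ q| (|m| + t s₂))`.
`kap1_bound`: the kernel `(1 + x Re m)/(1 - x²)`, for all `R`.
-/

namespace Pool.Agent.Lib.MP_af3a4a_an.P1.H81

open Finset MeasureTheory intervalIntegral ComplexConjugate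
open Pool.Agent.Lib.MP_af3a4a_an.SV (uu av EE)
open Pool.Agent.Lib.MP_af3a4a_an.P1.H80

/-- the chord bound in sharp form -/
theorem chord2 {u : ℂ} (hu : ‖u‖ ≤ 1) {x : ℝ} (h0 : 0 ≤ x) (h1 : x < 1) :
    1 / ‖1 - (x : ℂ) * u‖ ≤ (1 + x * u.re) / (1 - x ^ 2 * ‖u‖ ^ 2) := by
  obtain ⟨τ, hτ⟩ : ∃ τ, τ = ‖1 - (x : ℂ) * u‖ := ⟨_, rfl⟩
  obtain ⟨v, hv⟩ : ∃ v, v = x * ‖u‖ := ⟨_, rfl⟩
  have hv0 : 0 ≤ v := by rw [hv]; positivity
  have hv1 : v < 1 := by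
    rw [hv]
    exact lt_of_le_of_lt (mul_le_of_le_one_right h0 hu) h1
  have hlow : 1 - v ≤ τ := by
    have h2 := norm_sub_norm_le (1 : ℂ) ((x : ℂ) * u)
    rw [norm_one, norm_mul, Complex.norm_real, Real.norm_of_nonneg h0, ← hv] at h2
    rw [hτ]
    linarith
  have hup : τ ≤ 1 + v := by
    have h2 := norm_sub_le (1 : ℂ) ((x : ℂ) * u)
    rw [norm_one, norm_mul, Complex.norm_real, Real.norm_of_nonneg h0, ← hv] at h2
    rw [hτ]
    linarith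
  have hsq : τ ^ 2 = 1 - 2 * x * u.re + v ^ 2 := by
    rw [hτ, hv, mul_pow, norm_sq_re_im, norm_sq_re_im]
    simp only [Complex.sub_re, Complex.sub_im, Complex.one_re, Complex.one_im, Complex.mul_re,
      Complex.mul_im, Complex.ofReal_re, Complex.ofReal_im]
    ring
  have hv2 : x ^ 2 * ‖u‖ ^ 2 = v ^ 2 := by rw [hv]; ring
  rw [← hτ, hv2]
  have hτ0 : 0 < τ := by linarith
  have hx : 0 < 1 - v ^ 2 := by nlinarith
  rw [div_le_div_iff₀ hτ0 hx]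
  have e1 : 1 + x * u.re = (3 + v ^ 2 - τ ^ 2) / 2 := by
    rw [hsq]; ring
  rw [e1]
  have h4 : 0 ≤ (τ - (1 - v)) * ((1 + v) - τ) * (τ + 2) :=
    mul_nonneg (mul_nonneg (by linarith) (by linarith)) (by linarith)
  have e2 : (τ - (1 - v)) * ((1 + v) - τ) * (τ + 2) =
      (3 + v ^ 2 - τ ^ 2) * τ - 2 * (1 - v ^ 2) := by ring
  rw [e2] at h4
  linarith

theorem point_kap1 {u : ℂ} (hu : ‖u‖ ≤ 1) {x : ℝ} (h0 : 0 ≤ x) (h1 : x < 1) :
    ‖u‖ ^ 2 / ‖1 - (x : ℂ) * u‖ ≤ (1 + x * u.re) / (1 - x ^ 2) := by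
  have hx : 0 < 1 - x ^ 2 := by nlinarith
  obtain ⟨s, hs⟩ : ∃ s, s = ‖u‖ ^ 2 := ⟨_, rfl⟩
  have hs0 : 0 ≤ s := by rw [hs]; positivity
  have hs1 : s ≤ 1 := by rw [hs]; exact pow_le_one₀ (norm_nonneg _) hu
  have h2 := mul_le_mul_of_nonneg_left (chord2 hu h0 h1) hs0
  rw [← hs] at h2 ⊢
  have hre : -1 ≤ u.re := (abs_le.1 ((Complex.abs_re_le_norm u).trans hu)).1
  have hpos : 0 ≤ 1 + x * u.re := by nlinarith
  have hxs : 0 < 1 - x ^ 2 * s := by nlinarith [sq_nonneg x]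
  have h3 : s * ((1 + x * u.re) / (1 - x ^ 2 * s)) ≤ (1 + x * u.re) / (1 - x ^ 2) := by
    rw [← mul_div_assoc, div_le_div_iff₀ hxs hx]
    have e1 : (1 + x * u.re) * (1 - x ^ 2 * s) - s * (1 + x * u.re) * (1 - x ^ 2) =
        (1 + x * u.re) * (1 - s) := by ring
    have h4 : 0 ≤ (1 + x * u.re) * (1 - s) := mul_nonneg hpos (by linarith)
    linarith
  have e2 : s / ‖1 - (x : ℂ) * u‖ = s * (1 / ‖1 - (x : ℂ) * u‖) := by ring
  rw [e2]
  exact h2.trans h3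

/-- the kernel `(1 + x m)/(1 - x²)` -/
noncomputable def kap1 (m x : ℝ) : ℝ := (1 + x * m) / (1 - x ^ 2)

theorem kap1_bound {N : ℕ} (hN : 1 ≤ N) {u : Fin N → ℂ} (hu : ∀ k, ‖u k‖ ≤ 1) {x : ℝ}
    (h0 : 0 ≤ x) (h1 : x < 1) :
    1 / (N : ℝ) * ∑ k, ‖u k‖ ^ 2 / ‖1 - (x : ℂ) * u k‖ ≤ kap1 (av u).re x := by
  have hNpos : (0 : ℝ) < N := by exact_mod_cast (show 0 < N by omega)
  have hx : 0 < 1 - x ^ 2 := by nlinarith
  have h2 : ∑ k, ‖u k‖ ^ 2 / ‖1 - (x : ℂ) * u k‖ ≤ ∑ k, (1 + x * (u k).re) / (1 - x ^ 2) :=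
    Finset.sum_le_sum fun k _ => point_kap1 (hu k) h0 h1
  rw [← Finset.sum_div, Finset.sum_add_distrib, ← Finset.mul_sum, av_re hN] at h2
  simp only [Finset.sum_const, Finset.card_univ, Fintype.card_fin, nsmul_eq_mul, mul_one] at h2
  have h3 := mul_le_mul_of_nonneg_left h2 (by positivity : 0 ≤ 1 / (N : ℝ))
  refine h3.trans (le_of_eq ?_)
  unfold kap1
  field_simp

theorem kap1_cont {m y : ℝ} (hy1 : y < 1) :
    ContinuousOn (fun x : ℝ => kap1 m x) (Set.Icc 0 y) := by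
  unfold kap1
  apply ContinuousOn.div (by fun_prop) (by fun_prop)
  intro x hx
  have h1 := hx.1
  have h2 : x < 1 := lt_of_le_of_lt hx.2 hy1
  have : 0 < 1 - x ^ 2 := by nlinarith
  exact this.ne'

theorem kapK_cont {R m y : ℝ} (hy1 : y < 1) :
    ContinuousOn (fun x : ℝ => kapK R m x) (Set.Icc 0 y) := by
  unfold kapK
  apply ContinuousOn.div (by fun_prop) (by fun_prop)
  intro x hx
  have h1 := hx.1
  have h2 : x < 1 := lt_of_le_of_lt hx.2 hy1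
  have : 0 < 1 - x ^ 2 := by nlinarith
  exact this.ne'

/-- the remainder of `λ`, arbitrary kernel -/
theorem lam_G {N : ℕ} {u : Fin N → ℂ} (hu : ∀ k, ‖u k‖ ≤ 1) {x t κ : ℝ} (ht0 : 0 ≤ t)
    (h0 : 0 ≤ x) (h1 : x < 1)
    (hκ : 1 / (N : ℝ) * ∑ k, ‖u k‖ ^ 2 / ‖1 - (x : ℂ) * u k‖ ≤ κ) :
    ‖lam u x - (av u + t * av (fun k => u k ^ 2))‖ ≤ |x - t| * κ + t * (x * κ) := by
  have e1 : lam u x - (av u + t * av (fun k => u k ^ 2)) =
      ((x - t : ℝ) : ℂ) * av (fun k => u k ^ 2 / (1 - (x : ℂ) * u k)) +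
      (t : ℂ) * ((x : ℂ) * av (fun k => u k ^ 3 / (1 - (x : ℂ) * u k))) := by
    unfold lam
    rw [← av_smul', ← av_smul', ← av_smul', ← av_smul']
    unfold av
    rw [← mul_add, ← mul_add, ← mul_sub, ← Finset.sum_add_distrib, ← Finset.sum_add_distrib,
      ← Finset.sum_sub_distrib]
    congr 1
    apply Finset.sum_congr rfl
    intro k _
    have hne := one_sub_ne' (hu k) h0 h1
    obtain ⟨D, hD⟩ : ∃ D, D = 1 - (x : ℂ) * u k := ⟨_, rfl⟩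
    rw [← hD] at hne ⊢
    push_cast
    have e2 : u k / D - (u k + t * u k ^ 2) = (u k - (u k + t * u k ^ 2) * D) / D := by
      field_simp
    have e3 : (x - t : ℂ) * (u k ^ 2 / D) + t * (x * (u k ^ 3 / D)) =
        ((x - t) * u k ^ 2 + t * (x * u k ^ 3)) / D := by
      field_simp
    rw [e2, e3]
    congr 1
    rw [hD]
    ring
  rw [e1]
  refine (norm_add_le _ _).trans ?_
  rw [norm_mul, norm_mul, norm_mul, Complex.norm_real, Complex.norm_real, Complex.norm_real,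
    Real.norm_of_nonneg h0, Real.norm_of_nonneg ht0, Real.norm_eq_abs]
  have h2 : ‖av (fun k => u k ^ 2 / (1 - (x : ℂ) * u k))‖ ≤ κ := by
    refine (av_le _ (fun k => ‖u k‖ ^ 2 / ‖1 - (x : ℂ) * u k‖) fun k => ?_).trans hκ
    rw [norm_div, norm_pow]
  have h3 : ‖av (fun k => u k ^ 3 / (1 - (x : ℂ) * u k))‖ ≤ κ := by
    refine (av_le _ (fun k => ‖u k‖ ^ 2 / ‖1 - (x : ℂ) * u k‖) fun k => ?_).trans hκ
    rw [norm_div, norm_pow]
    apply div_le_div_of_nonneg_right _ (norm_nonneg _)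
    exact pow_le_pow_of_le_one (norm_nonneg _) (hu k) (by norm_num)
  have h4 := mul_le_mul_of_nonneg_left h2 (abs_nonneg (x - t))
  have h5 := mul_le_mul_of_nonneg_left (mul_le_mul_of_nonneg_left h3 h0) ht0
  linarith

/-- **MASS with an arbitrary kernel** -/
theorem massG {N : ℕ} (hN : 1 ≤ N) {u : Fin N → ℂ} (hu : ∀ k, ‖u k‖ ≤ 1) {y t T s₂ : ℝ}
    (ht0 : 0 ≤ t) (hy0 : 0 ≤ y) (hy1 : y < 1) {κ e : ℝ → ℝ}
    (hkc : ContinuousOn κ (Set.Icc 0 y)) (he : ContinuousOn e (Set.Icc 0 y))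
    (hκ : ∀ x ∈ Set.Icc 0 y, 1 / (N : ℝ) * ∑ k, ‖u k‖ ^ 2 / ‖1 - (x : ℂ) * u k‖ ≤ κ x)
    (hqe : ∀ x ∈ Set.Icc 0 y, ‖qq u x‖ ≤ e x) (hT : ‖qq u y‖ ≤ T)
    (hs : ‖av (fun k => u k ^ 2)‖ ≤ s₂) :
    1 - T - N * ((∫ x in (0 : ℝ)..y, |x - t| * κ x * e x) +
        t * ∫ x in (0 : ℝ)..y, x * κ x * e x) ≤
      N * (‖∫ x in (0 : ℝ)..y, qq u x‖ * (‖av u‖ + t * s₂)) := by
  have hNpos : (0 : ℝ) < N := by exact_mod_cast (show 0 < N by omega)
  have hq := qq_cont u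
  have hd := one_sub_q hN hu hy0 hy1
  have hlc := lam_contOn hu hy1
  obtain ⟨c, hc⟩ : ∃ c, c = av u + t * av (fun k => u k ^ 2) := ⟨_, rfl⟩
  have hI1 : IntervalIntegrable (fun x => c * qq u x) volume 0 y :=
    (continuous_const.mul hq).intervalIntegrable _ _
  have hI2 : IntervalIntegrable (fun x => (lam u x - c) * qq u x) volume 0 y := by
    apply ContinuousOn.intervalIntegrable
    rw [Set.uIcc_of_le hy0]
    exact (hlc.sub continuousOn_const).mul hq.continuousOn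
  have hsplit : ∫ x in (0 : ℝ)..y, lam u x * qq u x =
      c * (∫ x in (0 : ℝ)..y, qq u x) + ∫ x in (0 : ℝ)..y, (lam u x - c) * qq u x := by
    rw [← intervalIntegral.integral_const_mul, ← intervalIntegral.integral_add hI1 hI2]
    congr 1
    funext x
    ring
  have hJ1 : IntervalIntegrable (fun x => |x - t| * κ x * e x) volume 0 y := by
    apply ContinuousOn.intervalIntegrable
    rw [Set.uIcc_of_le hy0]
    exact (((continuous_id.sub continuous_const).abs).continuousOn.mul hkc).mul he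
  have hJ2 : IntervalIntegrable (fun x => t * (x * κ x * e x)) volume 0 y := by
    apply ContinuousOn.intervalIntegrable
    rw [Set.uIcc_of_le hy0]
    exact continuousOn_const.mul ((continuousOn_id.mul hkc).mul he)
  have hb : ‖∫ x in (0 : ℝ)..y, (lam u x - c) * qq u x‖ ≤
      ∫ x in (0 : ℝ)..y, (|x - t| * κ x * e x + t * (x * κ x * e x)) := by
    refine (intervalIntegral.norm_integral_le_integral_norm hy0).trans ?_
    apply intervalIntegral.integral_mono_on hy0 hI2.norm (hJ1.add hJ2)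
    intro x hx
    rw [norm_mul]
    have h1 := lam_G hu ht0 hx.1 (lt_of_le_of_lt hx.2 hy1) (hκ x hx)
    rw [← hc] at h1
    have h3 := mul_le_mul h1 (hqe x hx) (norm_nonneg _) ((norm_nonneg _).trans h1)
    linarith
  rw [intervalIntegral.integral_add hJ1 hJ2, intervalIntegral.integral_const_mul] at hb
  have hcn : ‖c‖ ≤ ‖av u‖ + t * s₂ := by
    rw [hc]
    refine (norm_add_le _ _).trans ?_
    rw [norm_mul, Complex.norm_real, Real.norm_of_nonneg ht0]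
    have h4 := mul_le_mul_of_nonneg_left hs ht0
    linarith
  have h1 : 1 - T ≤ ‖1 - qq u y‖ := by
    have := norm_sub_norm_le (1 : ℂ) (qq u y)
    rw [norm_one] at this
    linarith
  rw [hd, hsplit, norm_mul, Complex.norm_natCast] at h1
  have h2 := norm_add_le (c * (∫ x in (0 : ℝ)..y, qq u x))
    (∫ x in (0 : ℝ)..y, (lam u x - c) * qq u x)
  rw [norm_mul] at h2
  have h3 := mul_le_mul_of_nonneg_right hcn (norm_nonneg (∫ x in (0 : ℝ)..y, qq u x))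
  have h4 := mul_le_mul_of_nonneg_left (h2.trans (add_le_add h3 hb)) hNpos.le
  linarith

/-- the second moment: `|mean u²| ≤ min 1 ((1 + 2 m₁)/R)` -/
theorem sq_min {N : ℕ} (hN : 1 ≤ N) {w : Fin N → ℂ} {R : ℝ} (hw : ∀ k, 1 ≤ ‖w k‖)
    (ht : ∑ k, ‖w k - (R : ℂ)‖ ≤ N) (hR0 : 0 < R) :
    ‖av (fun k => uu w k ^ 2)‖ ≤ min 1 ((1 + 2 * (av (uu w)).re) / R) := by
  have hNpos : (0 : ℝ) < N := by exact_mod_cast (show 0 < N by omega)
  have hu : ∀ k, ‖uu w k‖ ≤ 1 := by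
    intro k
    unfold uu
    rw [norm_inv]
    exact inv_le_one_of_one_le₀ (hw k)
  apply le_min
  · refine (av_le _ (fun _ => 1) fun k => ?_).trans (le_of_eq ?_)
    · rw [norm_pow]
      exact pow_le_one₀ (norm_nonneg _) (hu k)
    · simp only [Finset.sum_const, Finset.card_univ, Fintype.card_fin, nsmul_eq_mul, mul_one]
      field_simp
  · have h1 := av_sq_le (u := uu w) hN
    have h2 := sq_bound hN hw ht hR0
    have h3 : SV.sq (uu w) ≤ (1 + 2 * (av (uu w)).re) / R := by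
      rw [le_div_iff₀ hR0]
      linarith
    exact h1.trans h3

/-- **MASS with the kernel `(1 + x m₁)/(1 - x²)`, all `R > 0`** -/
theorem massK1 {N : ℕ} (hN : 1 ≤ N) {w : Fin N → ℂ} {R : ℝ} (hw : ∀ k, 1 ≤ ‖w k‖)
    (ht : ∑ k, ‖w k - (R : ℂ)‖ ≤ N) (hR : 0 < R) {y t T : ℝ} (ht0 : 0 ≤ t) (hy0 : 0 ≤ y)
    (hy1 : y < 1) {e : ℝ → ℝ} (he : ContinuousOn e (Set.Icc 0 y))
    (hqe : ∀ x ∈ Set.Icc 0 y, ‖qq (uu w) x‖ ≤ e x) (hT : ‖qq (uu w) y‖ ≤ T) :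
    1 - T - N * ((∫ x in (0 : ℝ)..y, |x - t| * kap1 (av (uu w)).re x * e x) +
        t * ∫ x in (0 : ℝ)..y, x * kap1 (av (uu w)).re x * e x) ≤
      N * (‖∫ x in (0 : ℝ)..y, qq (uu w) x‖ *
        (‖av (uu w)‖ + t * min 1 ((1 + 2 * (av (uu w)).re) / R))) := by
  have hu : ∀ k, ‖uu w k‖ ≤ 1 := by
    intro k
    unfold uu
    rw [norm_inv]
    exact inv_le_one_of_one_le₀ (hw k)
  exact massG hN hu ht0 hy0 hy1 (kap1_cont hy1) he
    (fun x hx => kap1_bound hN hu hx.1 (lt_of_le_of_lt hx.2 hy1)) hqe hT (sq_min hN hw ht hR)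

/-- **MASS with the minimum of the two kernels, `R ≥ 1`** -/
theorem massKmin {N : ℕ} (hN : 1 ≤ N) {w : Fin N → ℂ} {R : ℝ} (hw : ∀ k, 1 ≤ ‖w k‖)
    (ht : ∑ k, ‖w k - (R : ℂ)‖ ≤ N) (hR : 1 ≤ R) {y t T : ℝ} (ht0 : 0 ≤ t) (hy0 : 0 ≤ y)
    (hy1 : y < 1) {e : ℝ → ℝ} (he : ContinuousOn e (Set.Icc 0 y))
    (hqe : ∀ x ∈ Set.Icc 0 y, ‖qq (uu w) x‖ ≤ e x) (hT : ‖qq (uu w) y‖ ≤ T) :
    1 - T - N * ((∫ x in (0 : ℝ)..y,
          |x - t| * min (kapK R (av (uu w)).re x) (kap1 (av (uu w)).re x) * e x) +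
        t * ∫ x in (0 : ℝ)..y,
          x * min (kapK R (av (uu w)).re x) (kap1 (av (uu w)).re x) * e x) ≤
      N * (‖∫ x in (0 : ℝ)..y, qq (uu w) x‖ *
        (‖av (uu w)‖ + t * min 1 ((1 + 2 * (av (uu w)).re) / R))) := by
  have hu : ∀ k, ‖uu w k‖ ≤ 1 := by
    intro k
    unfold uu
    rw [norm_inv]
    exact inv_le_one_of_one_le₀ (hw k)
  have hkc : ContinuousOn (fun x : ℝ => min (kapK R (av (uu w)).re x) (kap1 (av (uu w)).re x))
      (Set.Icc 0 y) := (kapK_cont hy1).inf (kap1_cont hy1)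
  exact massG hN hu ht0 hy0 hy1 hkc he
    (fun x hx => le_min (kap_bound hN hw ht hR hx.1 (lt_of_le_of_lt hx.2 hy1))
      (kap1_bound hN hu hx.1 (lt_of_le_of_lt hx.2 hy1))) hqe hT
    (sq_min hN hw ht (by linarith))

end Pool.Agent.Lib.MP_af3a4a_an.P1.H81
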