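import Pool.Agent.Lib.MP_af3a4a_an.P1.H32.SweepR
import Pool.Agent.Lib.MP_af3a4a_an.P1.H81.MassG

/-!
# Harnack for analytic functions, the bound of the functional (helper81, council 2)

`LL K R u f = ∑ f (u_k) - (N - K) f (1/R)`.
`func_norm`: `|f| ≤ Re G` on the closed unit disc, `∑ om ≤ K`: `|LL f| ≤ Re (LL G)`.
-/

set_option autoImplicit false

namespace Pool.Agent.Lib.MP_af3a4a_an.P1.H81

open Finset MeasureTheory intervalIntegral ComplexConjugate Metric Set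
open Pool.Agent.Lib.MP_af3a4a_an.SV (uu av EE)
open Pool.Agent.Lib.MP_af3a4a_an.P1.H80
open Pool.Agent.Lib.MP_af3a4a_an.P1.H32 (om norm_sub_pos norm_le_norm_R harnack_aux PPr muR LamR
  QR)

/-- the Moebius map preserves the disc -/
theorem moeb_lt {b : ℝ} (hb0 : 0 ≤ b) (hb1 : b < 1) {z : ℂ} (hz : ‖z‖ < 1) :
    ‖z + (b : ℂ)‖ < ‖1 + (b : ℂ) * z‖ := by
  have h : ‖z + (b : ℂ)‖ ^ 2 < ‖1 + (b : ℂ) * z‖ ^ 2 := by
    have e : ‖1 + (b : ℂ) * z‖ ^ 2 - ‖z + (b : ℂ)‖ ^ 2 = (1 - b ^ 2) * (1 - ‖z‖ ^ 2) := by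
      rw [norm_sq_re_im, norm_sq_re_im, norm_sq_re_im]
      simp only [Complex.add_re, Complex.add_im, Complex.mul_re, Complex.mul_im, Complex.one_re,
        Complex.one_im, Complex.ofReal_re, Complex.ofReal_im]
      ring
    have : 0 < (1 - b ^ 2) * (1 - ‖z‖ ^ 2) :=
      mul_pos (by nlinarith) (by nlinarith [norm_nonneg z])
    linarith
  exact lt_of_pow_lt_pow_left₀ 2 (norm_nonneg _) h

theorem moeb_ne {b : ℝ} (hb0 : 0 ≤ b) (hb1 : b < 1) {z : ℂ} (hz : ‖z‖ < 1) :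
    1 + (b : ℂ) * z ≠ 0 := by
  intro h
  have h1 := moeb_lt hb0 hb1 hz
  rw [h, norm_zero] at h1
  exact absurd (norm_nonneg (z + (b : ℂ))) (not_le.2 h1)

/-- **Harnack** between `1/R` and `u` for a function with nonnegative real part -/
theorem harnack_gen {R : ℝ} (hR : 1 < R) {H : ℂ → ℂ} (hd : DifferentiableOn ℂ H (ball 0 1))
    (hre : ∀ v, ‖v‖ ≤ 1 → 0 ≤ (H v).re) {u : ℂ} (hu : ‖u‖ ≤ 1) :
    (1 - om R u) * (H ((1 / R : ℝ) : ℂ)).re ≤ (H u).re := by
  have hR0 : 0 < R := by linarith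
  have hRc : (R : ℂ) ≠ 0 := by exact_mod_cast hR0.ne'
  have hp := norm_sub_pos hR hu
  have hr : 0 ≤ ‖(R : ℂ) * u - 1‖ := norm_nonneg _
  have hrp := norm_le_norm_R hR hu
  obtain ⟨b, hb⟩ : ∃ b : ℝ, b = 1 / R := ⟨_, rfl⟩
  rw [← hb]
  have hb0 : 0 ≤ b := by rw [hb]; positivity
  have hb1 : b < 1 := by rw [hb, div_lt_one hR0]; exact hR
  have hbR : (R : ℂ) * (b : ℂ) = 1 := by
    rw [hb]
    push_cast
    field_simp
  have hbn : ‖(b : ℂ)‖ < 1 := by
    rw [Complex.norm_real, Real.norm_of_nonneg hb0]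
    exact hb1
  have hs : 0 < ‖(R : ℂ) - u‖ + ‖(R : ℂ) * u - 1‖ := by linarith
  have e4 : 1 - om R u = (‖(R : ℂ) - u‖ - ‖(R : ℂ) * u - 1‖) /
      (‖(R : ℂ) - u‖ + ‖(R : ℂ) * u - 1‖) := by
    unfold om
    field_simp
    ring
  have hA : 0 ≤ (H u).re := hre u hu
  have hB : 0 ≤ (H (b : ℂ)).re := hre _ hbn.le
  rcases hu.lt_or_eq with hu1 | hu1
  · rcases hB.lt_or_eq with hB1 | hB1
    · have hψ : ∀ z : ℂ, ‖z‖ < 1 → ‖(z + (b : ℂ)) / (1 + (b : ℂ) * z)‖ < 1 := by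
        intro z hz
        rw [norm_div, div_lt_one (norm_pos_iff.2 (moeb_ne hb0 hb1 hz))]
        exact moeb_lt hb0 hb1 hz
      have hden : ∀ z : ℂ, ‖z‖ < 1 →
          H ((z + (b : ℂ)) / (1 + (b : ℂ) * z)) + conj (H (b : ℂ)) ≠ 0 := by
        intro z hz h
        have h1 := congrArg Complex.re h
        rw [Complex.add_re, Complex.conj_re, Complex.zero_re] at h1
        have h2 := hre _ (hψ z hz).le
        linarith
      have hψd : DifferentiableOn ℂ (fun z : ℂ => (z + (b : ℂ)) / (1 + (b : ℂ) * z)) (ball 0 1) := by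
        apply DifferentiableOn.div
        · fun_prop
        · fun_prop
        · intro z hz
          exact moeb_ne hb0 hb1 (mem_ball_zero_iff.1 hz)
      have hHψ : DifferentiableOn ℂ (fun z : ℂ => H ((z + (b : ℂ)) / (1 + (b : ℂ) * z)))
          (ball 0 1) :=
        hd.comp hψd (fun z hz => mem_ball_zero_iff.2 (hψ z (mem_ball_zero_iff.1 hz)))
      obtain ⟨z, hz⟩ : ∃ z : ℂ, z = (u - (b : ℂ)) / (1 - (b : ℂ) * u) := ⟨_, rfl⟩
      have hne1 : 1 - (b : ℂ) * u ≠ 0 := by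
        intro h
        have h1 : (R : ℂ) - u = R * (1 - (b : ℂ) * u) := by linear_combination u * hbR
        rw [h, mul_zero] at h1
        rw [h1, norm_zero] at hp
        exact lt_irrefl _ hp
      have hzn : ‖z‖ = ‖(R : ℂ) * u - 1‖ / ‖(R : ℂ) - u‖ := by
        rw [hz, norm_div]
        have h1 : (R : ℂ) - u = R * (1 - (b : ℂ) * u) := by linear_combination u * hbR
        have h2 : (R : ℂ) * u - 1 = R * (u - (b : ℂ)) := by linear_combination hbR
        rw [h1, h2, norm_mul, norm_mul]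
        have h3 : ‖(R : ℂ)‖ ≠ 0 := norm_ne_zero_iff.2 hRc
        field_simp
      have hlt : ‖(R : ℂ) * u - 1‖ < ‖(R : ℂ) - u‖ := by
        have h : ‖(R : ℂ) * u - 1‖ ^ 2 < ‖(R : ℂ) - u‖ ^ 2 := by
          have e : ‖(R : ℂ) - u‖ ^ 2 - ‖(R : ℂ) * u - 1‖ ^ 2 = (R ^ 2 - 1) * (1 - ‖u‖ ^ 2) := by
            rw [norm_sq_re_im, norm_sq_re_im, norm_sq_re_im]
            simp only [Complex.sub_re, Complex.sub_im, Complex.mul_re, Complex.mul_im,
              Complex.one_re, Complex.one_im, Complex.ofReal_re, Complex.ofReal_im]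
            ring
          have : 0 < (R ^ 2 - 1) * (1 - ‖u‖ ^ 2) :=
            mul_pos (by nlinarith) (by nlinarith [norm_nonneg u])
          linarith
        exact lt_of_pow_lt_pow_left₀ 2 (norm_nonneg _) h
      have hz1 : ‖z‖ < 1 := by
        rw [hzn, div_lt_one hp]
        exact hlt
      have hψz : (z + (b : ℂ)) / (1 + (b : ℂ) * z) = u := by
        have hz2 : z * (1 - (b : ℂ) * u) = u - b := by
          rw [hz, div_mul_cancel₀ _ hne1]
        rw [div_eq_iff (moeb_ne hb0 hb1 hz1)]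
        linear_combination hz2
      have hmain : ‖(R : ℂ) - u‖ * ‖H u - H (b : ℂ)‖ ≤
          ‖(R : ℂ) * u - 1‖ * ‖H u + conj (H (b : ℂ))‖ := by
        have hT := Complex.norm_le_norm_of_mapsTo_ball
          (f := fun z => (H ((z + (b : ℂ)) / (1 + (b : ℂ) * z)) - H (b : ℂ)) /
            (H ((z + (b : ℂ)) / (1 + (b : ℂ) * z)) + conj (H (b : ℂ))))
          (R := 1) (z := z) ?_ ?_ ?_ hz1
        · have hdu := hden z hz1
          simp only [hψz] at hT hdu
          rw [norm_div, hzn, div_le_div_iff₀ (norm_pos_iff.2 hdu) hp] at hT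
          linarith
        · apply DifferentiableOn.div
          · exact hHψ.sub_const _
          · exact hHψ.add_const _
          · intro w hw
            exact hden w (mem_ball_zero_iff.1 hw)
        · intro w hw
          have hw' := mem_ball_zero_iff.1 hw
          rw [mem_closedBall_zero_iff, norm_div, div_le_one (norm_pos_iff.2 (hden w hw'))]
          have h2 := hre _ (hψ w hw').le
          obtain ⟨A, hA'⟩ : ∃ A, A = H ((w + (b : ℂ)) / (1 + (b : ℂ) * w)) := ⟨_, rfl⟩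
          rw [← hA'] at h2 ⊢
          have h3 : ‖A - H (b : ℂ)‖ ^ 2 ≤ ‖A + conj (H (b : ℂ))‖ ^ 2 := by
            rw [norm_sq_re_im, norm_sq_re_im, Complex.sub_re, Complex.sub_im, Complex.add_re,
              Complex.add_im, Complex.conj_re, Complex.conj_im]
            nlinarith [mul_nonneg h2 hB]
          exact (pow_le_pow_iff_left₀ (norm_nonneg _) (norm_nonneg _) two_ne_zero).1 h3
        · simp
      have h5 := harnack_aux hp hr hrp hA hB hmain
      rw [e4, div_mul_eq_mul_div, div_le_iff₀ hs]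
      linarith
    · rw [← hB1, mul_zero]
      exact hA
  · have h6 : ‖(R : ℂ) * u - 1‖ = ‖(R : ℂ) - u‖ := by
      have h : ‖(R : ℂ) * u - 1‖ ^ 2 = ‖(R : ℂ) - u‖ ^ 2 := by
        have e : ‖(R : ℂ) - u‖ ^ 2 - ‖(R : ℂ) * u - 1‖ ^ 2 = (R ^ 2 - 1) * (1 - ‖u‖ ^ 2) := by
          rw [norm_sq_re_im, norm_sq_re_im, norm_sq_re_im]
          simp only [Complex.sub_re, Complex.sub_im, Complex.mul_re, Complex.mul_im,
            Complex.one_re, Complex.one_im, Complex.ofReal_re, Complex.ofReal_im]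
          ring
        rw [hu1] at e
        linarith
      exact (pow_left_inj₀ (norm_nonneg _) (norm_nonneg _) two_ne_zero).1 h
    rw [e4, h6, sub_self, zero_div, zero_mul]
    exact hA

section

variable {N : ℕ} {K R : ℝ} {u : Fin N → ℂ}

/-- the functional `∑ f (u_k) - (N - K) f (1/R)` -/
noncomputable def LL (K R : ℝ) (u : Fin N → ℂ) (f : ℂ → ℂ) : ℂ :=
  ∑ k, f (u k) - ((N - K : ℝ) : ℂ) * f ((1 / R : ℝ) : ℂ)

theorem LL_re_nonneg (hR : 1 < R) (hu : ∀ k, ‖u k‖ ≤ 1) (ht : ∑ k, om R (u k) ≤ K) {H : ℂ → ℂ}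
    (hd : DifferentiableOn ℂ H (ball 0 1)) (hre : ∀ v, ‖v‖ ≤ 1 → 0 ≤ (H v).re) :
    0 ≤ (LL K R u H).re := by
  have hR0 : 0 < R := by linarith
  have hbn : ‖((1 / R : ℝ) : ℂ)‖ ≤ 1 := by
    rw [Complex.norm_real, Real.norm_of_nonneg (by positivity), div_le_one hR0]
    exact hR.le
  have hB := hre _ hbn
  have h1 : ∑ k, (1 - om R (u k)) * (H ((1 / R : ℝ) : ℂ)).re ≤ ∑ k, (H (u k)).re :=
    Finset.sum_le_sum fun k _ => harnack_gen hR hd hre (hu k)
  rw [← Finset.sum_mul, Finset.sum_sub_distrib] at h1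
  simp only [Finset.sum_const, Finset.card_univ, Fintype.card_fin, nsmul_eq_mul, mul_one] at h1
  have h2 : (N - K) * (H ((1 / R : ℝ) : ℂ)).re ≤
      (N - ∑ k, om R (u k)) * (H ((1 / R : ℝ) : ℂ)).re :=
    mul_le_mul_of_nonneg_right (by linarith) hB
  unfold LL
  rw [Complex.sub_re, Complex.re_sum, Complex.re_ofReal_mul]
  linarith

theorem LL_sub (f g : ℂ → ℂ) : LL K R u (fun v => f v - g v) = LL K R u f - LL K R u g := by
  unfold LL
  rw [Finset.sum_sub_distrib]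
  ring

theorem LL_add (f g : ℂ → ℂ) : LL K R u (fun v => f v + g v) = LL K R u f + LL K R u g := by
  unfold LL
  rw [Finset.sum_add_distrib]
  ring

theorem LL_smul (c : ℂ) (f : ℂ → ℂ) : LL K R u (fun v => c * f v) = c * LL K R u f := by
  unfold LL
  rw [← Finset.mul_sum]
  ring

theorem LL_one : LL K R u (fun _ => 1) = K := by
  unfold LL
  simp only [Finset.sum_const, Finset.card_univ, Fintype.card_fin, nsmul_eq_mul, mul_one]
  push_cast
  ring

/-- **the bound of the functional** -/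
theorem func_norm (hR : 1 < R) (hu : ∀ k, ‖u k‖ ≤ 1) (ht : ∑ k, om R (u k) ≤ K) {f G : ℂ → ℂ}
    (hf : DifferentiableOn ℂ f (ball 0 1)) (hG : DifferentiableOn ℂ G (ball 0 1))
    (h : ∀ v, ‖v‖ ≤ 1 → ‖f v‖ ≤ (G v).re) : ‖LL K R u f‖ ≤ (LL K R u G).re := by
  obtain ⟨e, he, hw⟩ : ∃ e : ℂ, ‖e‖ ≤ 1 ∧ e * LL K R u f = ‖LL K R u f‖ := by
    by_cases h0 : LL K R u f = 0
    · exact ⟨0, by simp, by rw [h0]; simp⟩
    · have hn : ‖LL K R u f‖ ≠ 0 := norm_ne_zero_iff.2 h0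
      have hnc : (‖LL K R u f‖ : ℂ) ≠ 0 := by exact_mod_cast hn
      refine ⟨conj (LL K R u f) / ‖LL K R u f‖, ?_, ?_⟩
      · rw [norm_div, Complex.norm_conj, Complex.norm_real, Real.norm_of_nonneg (norm_nonneg _),
          div_self hn]
      · rw [div_mul_eq_mul_div, Complex.conj_mul', div_eq_iff hnc]
        ring
  have h1 := LL_re_nonneg (K := K) hR hu ht (H := fun v => G v - e * f v)
    (hG.sub (hf.const_mul e)) (by
      intro v hv
      rw [Complex.sub_re]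
      have h2 : (e * f v).re ≤ ‖f v‖ := by
        refine (Complex.re_le_norm _).trans ?_
        rw [norm_mul]
        exact mul_le_of_le_one_left (norm_nonneg _) he
      have h3 := h v hv
      linarith)
  rw [LL_sub, LL_smul, hw, Complex.sub_re, Complex.ofReal_re] at h1
  linarith

/-! ### the second and third moments -/

theorem muR_eq (hN : 1 ≤ N) : muR K R u = LL K R u (fun v => v) / K := H32.muR_sum hN

/-- `e₂ = (∑ u² - (N - K)/R²)/K` -/
noncomputable def e2R (K R : ℝ) (u : Fin N → ℂ) : ℂ := LL K R u (fun v => v ^ 2) / K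

noncomputable def E2R (K R : ℝ) (u : Fin N → ℂ) (x : ℝ) : ℂ :=
  LL K R u (fun v => v ^ 2 / (1 - (x : ℂ) * v)) / K

noncomputable def E3R (K R : ℝ) (u : Fin N → ℂ) (x : ℝ) : ℂ :=
  LL K R u (fun v => v ^ 3 / (1 - (x : ℂ) * v)) / K

theorem norm_div_K (hK : 0 < K) (w : ℂ) : ‖w / (K : ℂ)‖ = ‖w‖ / K := by
  rw [norm_div, Complex.norm_real, Real.norm_of_nonneg hK.le]

theorem e2R_norm (hK : 0 < K) (hR : 1 < R) (hu : ∀ k, ‖u k‖ ≤ 1) (ht : ∑ k, om R (u k) ≤ K) :
    ‖e2R K R u‖ ≤ 1 := by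
  unfold e2R
  rw [norm_div_K hK, div_le_one hK]
  have h1 := func_norm (K := K) hR hu ht (f := fun v => v ^ 2) (G := fun _ => 1)
    (by fun_prop) (by fun_prop) (by
      intro v hv
      rw [norm_pow, Complex.one_re]
      exact pow_le_one₀ (norm_nonneg _) hv)
  rw [LL_one, Complex.ofReal_re] at h1
  exact h1

theorem LL_G (hK : 0 < K) (hN : 1 ≤ N) (x : ℝ) :
    (LL K R u (fun v => ((1 / (1 - x ^ 2) : ℝ) : ℂ) * (1 + (x : ℂ) * v))).re =
      K * kap1 (muR K R u).re x := by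
  have hK0 : (K : ℂ) ≠ 0 := by exact_mod_cast hK.ne'
  have h1 : LL K R u (fun v => v) = K * muR K R u := by
    rw [muR_eq hN]
    field_simp
  rw [LL_smul, LL_add (fun _ => 1) (fun v => (x : ℂ) * v), LL_smul, LL_one, h1,
    Complex.re_ofReal_mul, Complex.add_re, Complex.ofReal_re, Complex.re_ofReal_mul,
    Complex.re_ofReal_mul]
  unfold kap1
  ring

theorem one_sub_mul_diff {x : ℝ} (h0 : 0 ≤ x) (h1 : x < 1) (n : ℕ) :
    DifferentiableOn ℂ (fun v : ℂ => v ^ n / (1 - (x : ℂ) * v)) (ball 0 1) := by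
  apply DifferentiableOn.div
  · fun_prop
  · fun_prop
  · intro v hv
    exact one_sub_ne' (mem_ball_zero_iff.1 hv).le h0 h1

theorem G_re (x : ℝ) (v : ℂ) : (((1 / (1 - x ^ 2) : ℝ) : ℂ) * (1 + (x : ℂ) * v)).re =
    (1 + x * v.re) / (1 - x ^ 2) := by
  rw [Complex.re_ofReal_mul, Complex.add_re, Complex.one_re, Complex.re_ofReal_mul]
  ring

theorem E2R_norm (hK : 0 < K) (hN : 1 ≤ N) (hR : 1 < R) (hu : ∀ k, ‖u k‖ ≤ 1)
    (ht : ∑ k, om R (u k) ≤ K) {x : ℝ} (h0 : 0 ≤ x) (h1 : x < 1) :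
    ‖E2R K R u x‖ ≤ kap1 (muR K R u).re x := by
  unfold E2R
  rw [norm_div_K hK, div_le_iff₀ hK, mul_comm, ← LL_G hK hN x]
  apply func_norm hR hu ht (one_sub_mul_diff h0 h1 2) (by fun_prop)
  intro v hv
  rw [G_re, norm_div, norm_pow]
  exact point_kap1 hv h0 h1

theorem E3R_norm (hK : 0 < K) (hN : 1 ≤ N) (hR : 1 < R) (hu : ∀ k, ‖u k‖ ≤ 1)
    (ht : ∑ k, om R (u k) ≤ K) {x : ℝ} (h0 : 0 ≤ x) (h1 : x < 1) :
    ‖E3R K R u x‖ ≤ kap1 (muR K R u).re x := by
  unfold E3R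
  rw [norm_div_K hK, div_le_iff₀ hK, mul_comm, ← LL_G hK hN x]
  apply func_norm hR hu ht (one_sub_mul_diff h0 h1 3) (by fun_prop)
  intro v hv
  rw [G_re, norm_div, norm_pow]
  refine le_trans ?_ (point_kap1 hv h0 h1)
  apply div_le_div_of_nonneg_right _ (norm_nonneg _)
  exact pow_le_pow_of_le_one (norm_nonneg _) hv (by norm_num)

end

end Pool.Agent.Lib.MP_af3a4a_an.P1.H81
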