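import Pool.Agent.Lib.MP_af3a4a_an.P1.H81.Mom
import Mathlib.Analysis.SpecialFunctions.Gaussian.GaussianIntegral
import Mathlib.Analysis.Real.Pi.Bounds

/-!
# Gaussian estimates (helper81, council 2)
-/

namespace Pool.Agent.Lib.MP_af3a4a_an.P1.H81

open MeasureTheory intervalIntegral Set

/-- the Gaussian on `[0, 1/5]` -/
noncomputable def M0a (b : ℝ) : ℝ := ∫ x in (0 : ℝ)..(1 / 5), Real.exp (-(b * x ^ 2))

theorem gauss_cont (b : ℝ) : Continuous fun x : ℝ => Real.exp (-(b * x ^ 2)) := by fun_prop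

theorem gauss_split {b : ℝ} (hb : 0 < b) :
    M0a b + ∫ x in Ioi (1 / 5 : ℝ), Real.exp (-(b * x ^ 2)) = Real.sqrt (Real.pi / b) / 2 := by
  have h1 : ∫ x in Ioi (0 : ℝ), Real.exp (-(b * x ^ 2)) = Real.sqrt (Real.pi / b) / 2 := by
    rw [← integral_gaussian_Ioi b]
    congr 1
    funext x
    congr 1
    ring
  have hint : Integrable fun x : ℝ => Real.exp (-(b * x ^ 2)) := by
    have := integrable_exp_neg_mul_sq hb
    refine this.congr (Filter.Eventually.of_forall fun x => ?_)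
    simp only
    congr 1
    ring
  unfold M0a
  rw [← h1, intervalIntegral.integral_of_le (by norm_num : (0 : ℝ) ≤ 1 / 5),
    ← MeasureTheory.setIntegral_union (Ioc_disjoint_Ioi le_rfl) measurableSet_Ioi
      hint.integrableOn hint.integrableOn, Ioc_union_Ioi_eq_Ioi (by norm_num)]

theorem gauss_tail {b : ℝ} (hb : 0 < b) :
    ∫ x in Ioi (1 / 5 : ℝ), Real.exp (-(b * x ^ 2)) ≤ Real.exp (-(b / 25)) * (5 / (2 * b)) := by
  have ha : -(2 * b / 5) < 0 := by linarith
  have h1 := integral_exp_mul_Ioi ha (1 / 5)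
  have h2 : ∫ x in Ioi (1 / 5 : ℝ), Real.exp (b / 25) * Real.exp (-(2 * b / 5) * x) =
      Real.exp (-(b / 25)) * (5 / (2 * b)) := by
    rw [MeasureTheory.integral_const_mul, h1]
    have e1 : Real.exp (-(2 * b / 5) * (1 / 5)) = Real.exp (-(b / 25)) * Real.exp (-(b / 25)) := by
      rw [← Real.exp_add]
      congr 1
      ring
    rw [e1]
    have e2 : Real.exp (b / 25) * Real.exp (-(b / 25)) = 1 := by
      rw [← Real.exp_add]
      simp
    field_simp
    linear_combination e2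
  rw [← h2]
  apply MeasureTheory.setIntegral_mono_on
  · have := integrable_exp_neg_mul_sq hb
    refine (this.congr (Filter.Eventually.of_forall fun x => ?_)).integrableOn
    simp only
    congr 1
    ring
  · exact (integrableOn_exp_mul_Ioi ha (1 / 5)).const_mul _
  · exact measurableSet_Ioi
  · intro x _
    rw [← Real.exp_add]
    apply Real.exp_le_exp.2
    nlinarith [mul_nonneg hb.le (sq_nonneg (x - 1 / 5))]

theorem sqrt_pi_div {b : ℝ} :
    Real.sqrt (Real.pi / b) / 2 = (Real.sqrt Real.pi / 2) / Real.sqrt b := by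
  rw [Real.sqrt_div Real.pi_pos.le]
  ring

theorem sqrt_pi_lo : 88622 / 100000 ≤ Real.sqrt Real.pi / 2 := by
  have h : (177244 / 100000 : ℝ) ≤ Real.sqrt Real.pi := by
    apply Real.le_sqrt_of_sq_le
    have := Real.pi_gt_d6
    norm_num at this ⊢
    linarith
  linarith

theorem sqrt_pi_hi : Real.sqrt Real.pi / 2 ≤ 8863 / 10000 := by
  have h : Real.sqrt Real.pi ≤ (17726 / 10000 : ℝ) := by
    rw [Real.sqrt_le_iff]
    refine ⟨by norm_num, ?_⟩
    have := Real.pi_lt_d4
    norm_num at this ⊢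
    linarith
  linarith

theorem M0a_le {b : ℝ} (hb : 0 < b) : M0a b ≤ 8863 / 10000 / Real.sqrt b := by
  have h1 := gauss_split hb
  have h2 : 0 ≤ ∫ x in Ioi (1 / 5 : ℝ), Real.exp (-(b * x ^ 2)) :=
    MeasureTheory.setIntegral_nonneg measurableSet_Ioi fun x _ => (Real.exp_pos _).le
  rw [sqrt_pi_div] at h1
  have h3 := div_le_div_of_nonneg_right sqrt_pi_hi (Real.sqrt_nonneg b)
  linarith

theorem M0a_ge {b : ℝ} (hb : 0 < b) :
    88622 / 100000 / Real.sqrt b - Real.exp (-(b / 25)) * (5 / (2 * b)) ≤ M0a b := by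
  have h1 := gauss_split hb
  have h2 := gauss_tail hb
  rw [sqrt_pi_div] at h1
  have h3 := div_le_div_of_nonneg_right sqrt_pi_lo (Real.sqrt_nonneg b)
  linarith

/-- the moments on `[0, 1/5]` -/
theorem mom_a {b : ℝ} (hb : 0 < b) :
    ∫ x in (0 : ℝ)..(1 / 5), (x + x ^ 2 + 5 / 4 * x ^ 3) * Real.exp (-(b * x ^ 2)) =
      1 / (2 * b) + 5 / (8 * b ^ 2) + M0a b / (2 * b) - Real.exp (-(b / 25)) *
        (1 / (2 * b) + 1 / (10 * b) + 5 / (8 * b) * (1 / 25 + 1 / b)) := by
  have hd : ∀ x ∈ Set.uIcc (0 : ℝ) (1 / 5), HasDerivAt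
      (fun x : ℝ => -(Real.exp (-(b * x ^ 2)) *
        (1 / (2 * b) + x / (2 * b) + 5 / (8 * b) * (x ^ 2 + 1 / b))))
      ((x + x ^ 2 + 5 / 4 * x ^ 3) * Real.exp (-(b * x ^ 2))
        - Real.exp (-(b * x ^ 2)) / (2 * b)) x := by
    intro x _
    have e1 : HasDerivAt (fun x : ℝ => Real.exp (-(b * x ^ 2)))
        (Real.exp (-(b * x ^ 2)) * (-(b * (2 * x)))) x := by
      have := (((hasDerivAt_pow 2 x).const_mul b).neg).exp
      simpa using this
    have e2 : HasDerivAt (fun x : ℝ => 1 / (2 * b) + x / (2 * b) + 5 / (8 * b) * (x ^ 2 + 1 / b))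
        (1 / (2 * b) + 5 / (8 * b) * (2 * x)) x := by
      have := (((hasDerivAt_id x).div_const (2 * b)).const_add (1 / (2 * b))).add
        (((hasDerivAt_pow 2 x).add_const (1 / b)).const_mul (5 / (8 * b)))
      refine this.congr_deriv ?_
      norm_num
    refine (e1.mul e2).neg.congr_deriv ?_
    field_simp
    ring
  have hi1 : IntervalIntegrable (fun x : ℝ => (x + x ^ 2 + 5 / 4 * x ^ 3) *
      Real.exp (-(b * x ^ 2))) volume 0 (1 / 5) := Continuous.intervalIntegrable (by fun_prop) _ _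
  have hi2 : IntervalIntegrable (fun x : ℝ => Real.exp (-(b * x ^ 2)) / (2 * b)) volume 0 (1 / 5) :=
    Continuous.intervalIntegrable (by fun_prop) _ _
  have h := intervalIntegral.integral_eq_sub_of_hasDerivAt hd (hi1.sub hi2)
  rw [intervalIntegral.integral_sub hi1 hi2, intervalIntegral.integral_div] at h
  unfold M0a
  have e3 : Real.exp (-(b * (1 / 5) ^ 2)) = Real.exp (-(b / 25)) := by
    congr 1
    ring
  rw [e3] at h
  simp only [ne_eq, OfNat.ofNat_ne_zero, not_false_eq_true, zero_pow, mul_zero, neg_zero,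
    Real.exp_zero, zero_div, add_zero, zero_add, one_mul] at h
  have e4 : 1 / (2 * b) + 5 / (8 * b) * (1 / b) = 1 / (2 * b) + 5 / (8 * b ^ 2) := by
    field_simp
  have e5 : (1 / 5 : ℝ) / (2 * b) = 1 / (10 * b) := by
    field_simp
    norm_num
  have e6 : (1 / 5 : ℝ) ^ 2 = 1 / 25 := by norm_num
  rw [e5, e6] at h
  linear_combination h + e4

end Pool.Agent.Lib.MP_af3a4a_an.P1.H81
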