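import Pool.Agent.Lib.MP_af3a4a_an.P1.H80.Formula

/-!
# The mass certificate for `∫_0^y ∏ (1 - x u_k) dx` (helper81, council 2)

`q = qq u`, `m = av u`, `S ≥ SV.sq u`, `|q| ≤ e ≤ 1` on `[0,y]`, `T ≥ |q(y)|`, `0 < t ≤ y < 1`:

* `mass`: `∫ e - t - (∫ x e/(1-x) - (1-T)/(N S))/t ≤ |∫ q| (1 + |m|/(S t))`;
* `s0two`: `1 - T - N S ∫ x e/(1-x) ≤ N |m| |∫ q|`.
-/

namespace Pool.Agent.Lib.MP_af3a4a_an.P1.H81

open Finset MeasureTheory intervalIntegral ComplexConjugate
open Pool.Agent.Lib.MP_af3a4a_an.SV (uu av EE)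
open Pool.Agent.Lib.MP_af3a4a_an.P1.H80

section

variable {N : ℕ} {u : Fin N → ℂ}

theorem av_norm_le_sq (hN : 1 ≤ N) {f : Fin N → ℂ} {C : ℝ}
    (h : ∀ k, ‖f k‖ ≤ C * ‖u k‖ ^ 2) : ‖av f‖ ≤ C * SV.sq u := by
  have hNpos : (0 : ℝ) < N := by exact_mod_cast hN
  unfold av SV.sq
  rw [norm_mul, norm_div, norm_one, Complex.norm_natCast]
  have h1 : ‖∑ k, f k‖ ≤ C * ∑ k, ‖u k‖ ^ 2 := by
    rw [Finset.mul_sum]
    exact (norm_sum_le _ _).trans (Finset.sum_le_sum fun k _ => h k)
  calc 1 / (N : ℝ) * ‖∑ k, f k‖ ≤ 1 / (N : ℝ) * (C * ∑ k, ‖u k‖ ^ 2) :=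
        mul_le_mul_of_nonneg_left h1 (by positivity)
    _ = C * (1 / (N : ℝ) * ∑ k, ‖u k‖ ^ 2) := by ring

theorem sq_nonneg' (u : Fin N → ℂ) : 0 ≤ SV.sq u := by
  unfold SV.sq
  positivity

theorem av_sub' (f g : Fin N → ℂ) : av (fun k => f k - g k) = av f - av g := by
  unfold av
  rw [Finset.sum_sub_distrib]
  ring

theorem av_smul' (c : ℂ) (f : Fin N → ℂ) : av (fun k => c * f k) = c * av f := by
  unfold av
  rw [← Finset.mul_sum]
  ring

/-- first order expansion of `λ` -/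
theorem lam_one (hN : 1 ≤ N) (hu : ∀ k, ‖u k‖ ≤ 1) {x : ℝ} (h0 : 0 ≤ x) (h1 : x < 1) :
    ‖lam u x - av u‖ ≤ x / (1 - x) * SV.sq u := by
  unfold lam
  rw [← av_sub']
  apply av_norm_le_sq hN
  intro k
  have hne := one_sub_ne' (hu k) h0 h1
  have hlow : 1 - x ≤ ‖1 - (x : ℂ) * u k‖ := by
    have h2 := norm_sub_norm_le (1 : ℂ) ((x : ℂ) * u k)
    rw [norm_one, norm_mul, Complex.norm_real, Real.norm_of_nonneg h0] at h2
    have h3 : x * ‖u k‖ ≤ x := mul_le_of_le_one_right h0 (hu k)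
    linarith
  have e1 : u k / (1 - (x : ℂ) * u k) - u k = x * u k ^ 2 / (1 - (x : ℂ) * u k) := by
    rw [eq_div_iff hne, sub_mul, div_mul_cancel₀ _ hne]
    ring
  rw [e1, norm_div, norm_mul, norm_pow, Complex.norm_real, Real.norm_of_nonneg h0,
    div_mul_eq_mul_div]
  exact div_le_div_of_nonneg_left (by positivity) (by linarith) hlow

/-- second order expansion of `λ` -/
theorem lam_two (hN : 1 ≤ N) (hu : ∀ k, ‖u k‖ ≤ 1) {x : ℝ} (h0 : 0 ≤ x) (h1 : x < 1) :
    ‖lam u x - av u - x * av (fun k => u k ^ 2)‖ ≤ x ^ 2 / (1 - x) * SV.sq u := by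
  unfold lam
  rw [← av_sub', ← av_smul', ← av_sub']
  apply av_norm_le_sq hN
  intro k
  have hne := one_sub_ne' (hu k) h0 h1
  have hlow : 1 - x ≤ ‖1 - (x : ℂ) * u k‖ := by
    have h2 := norm_sub_norm_le (1 : ℂ) ((x : ℂ) * u k)
    rw [norm_one, norm_mul, Complex.norm_real, Real.norm_of_nonneg h0] at h2
    have h3 : x * ‖u k‖ ≤ x := mul_le_of_le_one_right h0 (hu k)
    linarith
  have e1 : u k / (1 - (x : ℂ) * u k) - u k - x * u k ^ 2 =
      x ^ 2 * u k ^ 3 / (1 - (x : ℂ) * u k) := by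
    rw [eq_div_iff hne, sub_mul, sub_mul, div_mul_cancel₀ _ hne]
    ring
  rw [e1, norm_div, norm_mul, norm_pow, norm_pow, Complex.norm_real, Real.norm_of_nonneg h0,
    div_mul_eq_mul_div]
  have h4 : ‖u k‖ ^ 3 ≤ ‖u k‖ ^ 2 := pow_le_pow_of_le_one (norm_nonneg _) (hu k) (by norm_num)
  apply div_le_div₀ (by positivity) _ (by linarith) hlow
  exact mul_le_mul_of_nonneg_left h4 (by positivity)

theorem av_sq_le (hN : 1 ≤ N) : ‖av (fun k => u k ^ 2)‖ ≤ SV.sq u := by
  have := av_norm_le_sq (u := u) (f := fun k => u k ^ 2) (C := 1) hN (fun k => by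
    rw [norm_pow, one_mul])
  rwa [one_mul] at this

/-- `1 - q(y) = N ∫ λ q` -/
theorem one_sub_q (hN : 1 ≤ N) (hu : ∀ k, ‖u k‖ ≤ 1) {y : ℝ} (h0 : 0 ≤ y) (h1 : y < 1) :
    1 - qq u y = N * ∫ x in (0 : ℝ)..y, lam u x * qq u x := by
  have hI : ContinuousOn (fun x => lam u x * qq u x) (Set.Icc 0 y) :=
    (lam_contOn hu h1).mul (qq_cont u).continuousOn
  have h2 := intervalIntegral.integral_eq_sub_of_hasDerivAt (f := qq u)
    (f' := fun x => -(N * lam u x * qq u x)) (a := 0) (b := y)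
    (fun x hx => by
      rw [Set.uIcc_of_le h0] at hx
      exact qq_hasDerivAt hN hu hx.1 (lt_of_le_of_lt hx.2 h1))
    (by
      apply ContinuousOn.intervalIntegrable
      rw [Set.uIcc_of_le h0]
      exact ((continuousOn_const.mul (lam_contOn hu h1)).mul (qq_cont u).continuousOn).neg)
  rw [qq_zero, intervalIntegral.integral_neg] at h2
  have e1 : (fun x => (N : ℂ) * lam u x * qq u x) = fun x => (N : ℂ) * (lam u x * qq u x) := by
    funext x; ring
  rw [e1, intervalIntegral.integral_const_mul] at h2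
  linear_combination h2

/-- **S0₂** -/
theorem s0two (hN : 1 ≤ N) (hu : ∀ k, ‖u k‖ ≤ 1) {y S T : ℝ} (h0 : 0 ≤ y) (h1 : y < 1)
    (hSq : SV.sq u ≤ S) {e : ℝ → ℝ} (he : ContinuousOn e (Set.Icc 0 y))
    (hqe : ∀ x ∈ Set.Icc 0 y, ‖qq u x‖ ≤ e x) (hT : ‖qq u y‖ ≤ T) :
    1 - T - N * S * ∫ x in (0 : ℝ)..y, x / (1 - x) * e x ≤
      N * (‖av u‖ * ‖∫ x in (0 : ℝ)..y, qq u x‖) := by
  have hq := qq_cont u
  have hd := one_sub_q hN hu h0 h1
  have hlc := lam_contOn hu h1
  have hcx : ContinuousOn (fun x : ℝ => x / (1 - x)) (Set.Icc 0 y) := by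
    apply ContinuousOn.div continuousOn_id (by fun_prop)
    intro x hx
    have := hx.2
    have : (0 : ℝ) < 1 - x := by linarith
    exact this.ne'
  have hI1 : IntervalIntegrable (fun x => av u * qq u x) volume 0 y :=
    (continuous_const.mul hq).intervalIntegrable 0 y
  have hI2c : ContinuousOn (fun x => (lam u x - av u) * qq u x) (Set.Icc 0 y) :=
    (hlc.sub continuousOn_const).mul hq.continuousOn
  have hI2 : IntervalIntegrable (fun x => (lam u x - av u) * qq u x) volume 0 y := by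
    apply ContinuousOn.intervalIntegrable
    rw [Set.uIcc_of_le h0]
    exact hI2c
  have e1 : ∫ x in (0 : ℝ)..y, lam u x * qq u x =
      av u * (∫ x in (0 : ℝ)..y, qq u x) + ∫ x in (0 : ℝ)..y, (lam u x - av u) * qq u x := by
    rw [← intervalIntegral.integral_const_mul, ← intervalIntegral.integral_add hI1 hI2]
    congr 1
    funext x
    ring
  have hb : ‖∫ x in (0 : ℝ)..y, (lam u x - av u) * qq u x‖ ≤
      S * ∫ x in (0 : ℝ)..y, x / (1 - x) * e x := by
    rw [← intervalIntegral.integral_const_mul]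
    refine (intervalIntegral.norm_integral_le_integral_norm h0).trans ?_
    apply intervalIntegral.integral_mono_on h0
    · apply ContinuousOn.intervalIntegrable
      rw [Set.uIcc_of_le h0]
      exact hI2c.norm
    · apply ContinuousOn.intervalIntegrable
      rw [Set.uIcc_of_le h0]
      exact continuousOn_const.mul (hcx.mul he)
    · intro x hx
      have hx1 : x < 1 := lt_of_le_of_lt hx.2 h1
      have h2 := lam_one hN hu hx.1 hx1
      have h3 : 0 ≤ x / (1 - x) := div_nonneg hx.1 (by linarith)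
      have h4 : ‖lam u x - av u‖ ≤ x / (1 - x) * S :=
        h2.trans (mul_le_mul_of_nonneg_left hSq h3)
      rw [norm_mul]
      calc ‖lam u x - av u‖ * ‖qq u x‖ ≤ (x / (1 - x) * S) * e x :=
            mul_le_mul h4 (hqe x hx) (norm_nonneg _) ((norm_nonneg _).trans h4)
        _ = _ := by ring
  have h5 : (1 : ℝ) ≤ ‖qq u y‖ + N * (‖av u‖ * ‖∫ x in (0 : ℝ)..y, qq u x‖ +
      ‖∫ x in (0 : ℝ)..y, (lam u x - av u) * qq u x‖) := by
    calc (1 : ℝ) = ‖qq u y + N * (av u * (∫ x in (0 : ℝ)..y, qq u x) +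
          ∫ x in (0 : ℝ)..y, (lam u x - av u) * qq u x)‖ := by
          rw [← e1, ← hd, add_sub_cancel, norm_one]
      _ ≤ _ := by
          refine (norm_add_le _ _).trans (add_le_add le_rfl ?_)
          rw [norm_mul, Complex.norm_natCast]
          apply mul_le_mul_of_nonneg_left _ (Nat.cast_nonneg N)
          refine (norm_add_le _ _).trans (add_le_add ?_ le_rfl)
          rw [norm_mul]
  have h6 := mul_le_mul_of_nonneg_left hb (Nat.cast_nonneg (α := ℝ) N)
  linarith

/-- the first moment form -/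
theorem mass_one (hN : 1 ≤ N) (hu : ∀ k, ‖u k‖ ≤ 1) {y S T : ℝ} (h0 : 0 ≤ y) (h1 : y < 1)
    (hSq : SV.sq u ≤ S) {e : ℝ → ℝ} (he : ContinuousOn e (Set.Icc 0 y))
    (hqe : ∀ x ∈ Set.Icc 0 y, ‖qq u x‖ ≤ e x) (hT : ‖qq u y‖ ≤ T) :
    1 - T ≤ N * (‖av u‖ * ‖∫ x in (0 : ℝ)..y, qq u x‖ +
      S * (‖∫ x in (0 : ℝ)..y, (x : ℂ) * qq u x‖ + ∫ x in (0 : ℝ)..y, x ^ 2 / (1 - x) * e x)) := by
  have hq := qq_cont u
  have hd := one_sub_q hN hu h0 h1
  have hlc := lam_contOn hu h1
  have hcx : ContinuousOn (fun x : ℝ => x ^ 2 / (1 - x)) (Set.Icc 0 y) := by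
    apply ContinuousOn.div (by fun_prop) (by fun_prop)
    intro x hx
    have := hx.2
    have : (0 : ℝ) < 1 - x := by linarith
    exact this.ne'
  set m := av u with hm
  set m2 := av (fun k => u k ^ 2) with hm2
  have hxc : Continuous fun x : ℝ => (x : ℂ) * qq u x := Complex.continuous_ofReal.mul hq
  have hI1 : IntervalIntegrable (fun x => m * qq u x) volume 0 y :=
    (continuous_const.mul hq).intervalIntegrable 0 y
  have hI3 : IntervalIntegrable (fun x : ℝ => m2 * ((x : ℂ) * qq u x)) volume 0 y :=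
    (continuous_const.mul hxc).intervalIntegrable 0 y
  have hI2c : ContinuousOn (fun x : ℝ => (lam u x - m - x * m2) * qq u x) (Set.Icc 0 y) := by
    apply ContinuousOn.mul _ hq.continuousOn
    apply (hlc.sub continuousOn_const).sub
    exact (Complex.continuous_ofReal.mul continuous_const).continuousOn
  have hI2 : IntervalIntegrable (fun x : ℝ => (lam u x - m - x * m2) * qq u x) volume 0 y := by
    apply ContinuousOn.intervalIntegrable
    rw [Set.uIcc_of_le h0]
    exact hI2c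
  have e1 : ∫ x in (0 : ℝ)..y, lam u x * qq u x =
      m * (∫ x in (0 : ℝ)..y, qq u x) + (m2 * (∫ x in (0 : ℝ)..y, (x : ℂ) * qq u x) +
        ∫ x in (0 : ℝ)..y, (lam u x - m - x * m2) * qq u x) := by
    rw [← intervalIntegral.integral_const_mul, ← intervalIntegral.integral_const_mul,
      ← intervalIntegral.integral_add hI3 hI2, ← intervalIntegral.integral_add hI1 (hI3.add hI2)]
    congr 1
    funext x
    ring
  have hb : ‖∫ x in (0 : ℝ)..y, (lam u x - m - x * m2) * qq u x‖ ≤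
      S * ∫ x in (0 : ℝ)..y, x ^ 2 / (1 - x) * e x := by
    rw [← intervalIntegral.integral_const_mul]
    refine (intervalIntegral.norm_integral_le_integral_norm h0).trans ?_
    apply intervalIntegral.integral_mono_on h0
    · apply ContinuousOn.intervalIntegrable
      rw [Set.uIcc_of_le h0]
      exact hI2c.norm
    · apply ContinuousOn.intervalIntegrable
      rw [Set.uIcc_of_le h0]
      exact continuousOn_const.mul (hcx.mul he)
    · intro x hx
      have hx1 : x < 1 := lt_of_le_of_lt hx.2 h1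
      have h2 := lam_two hN hu hx.1 hx1
      have h3 : 0 ≤ x ^ 2 / (1 - x) := div_nonneg (by positivity) (by linarith)
      have h4 : ‖lam u x - m - x * m2‖ ≤ x ^ 2 / (1 - x) * S :=
        h2.trans (mul_le_mul_of_nonneg_left hSq h3)
      rw [norm_mul]
      calc ‖lam u x - m - x * m2‖ * ‖qq u x‖ ≤ (x ^ 2 / (1 - x) * S) * e x :=
            mul_le_mul h4 (hqe x hx) (norm_nonneg _) ((norm_nonneg _).trans h4)
        _ = _ := by ring
  have hm2S : ‖m2‖ ≤ S := (av_sq_le hN).trans hSq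
  have h5 : (1 : ℝ) ≤ ‖qq u y‖ + N * (‖m‖ * ‖∫ x in (0 : ℝ)..y, qq u x‖ +
      (S * ‖∫ x in (0 : ℝ)..y, (x : ℂ) * qq u x‖ +
      ‖∫ x in (0 : ℝ)..y, (lam u x - m - x * m2) * qq u x‖)) := by
    calc (1 : ℝ) = ‖qq u y + N * (m * (∫ x in (0 : ℝ)..y, qq u x) +
          (m2 * (∫ x in (0 : ℝ)..y, (x : ℂ) * qq u x) +
          ∫ x in (0 : ℝ)..y, (lam u x - m - x * m2) * qq u x))‖ := by
          rw [← e1, ← hd, add_sub_cancel, norm_one]
      _ ≤ _ := by
          refine (norm_add_le _ _).trans (add_le_add le_rfl ?_)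
          rw [norm_mul, Complex.norm_natCast]
          apply mul_le_mul_of_nonneg_left _ (Nat.cast_nonneg N)
          refine (norm_add_le _ _).trans (add_le_add ?_ ?_)
          · rw [norm_mul]
          · refine (norm_add_le _ _).trans (add_le_add ?_ le_rfl)
            rw [norm_mul]
            exact mul_le_mul_of_nonneg_right hm2S (norm_nonneg _)
  have h6 := mul_le_mul_of_nonneg_left hb (Nat.cast_nonneg (α := ℝ) N)
  linarith

/-- the mass inequality: `p = e - Re (ω q)` has `0 ≤ p ≤ 2` -/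
theorem mass_two {q : ℝ → ℂ} (hq : Continuous q) {y t : ℝ} (ht : 0 < t) (hty : t ≤ y)
    {e : ℝ → ℝ} (he : ContinuousOn e (Set.Icc 0 y))
    (hqe : ∀ x ∈ Set.Icc 0 y, ‖q x‖ ≤ e x) (he1 : ∀ x ∈ Set.Icc 0 y, e x ≤ 1) :
    (∫ x in (0 : ℝ)..y, e x) - ‖∫ x in (0 : ℝ)..y, q x‖ ≤
      t + ((∫ x in (0 : ℝ)..y, x * e x) - ‖∫ x in (0 : ℝ)..y, (x : ℂ) * q x‖) / t := by
  have h0 : 0 ≤ y := ht.le.trans hty
  obtain ⟨ω, hω, hωJ⟩ : ∃ ω : ℂ, ‖ω‖ = 1 ∧
      ω * (∫ x in (0 : ℝ)..y, (x : ℂ) * q x) = ‖∫ x in (0 : ℝ)..y, (x : ℂ) * q x‖ := by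
    set J := ∫ x in (0 : ℝ)..y, (x : ℂ) * q x
    rcases eq_or_ne J 0 with hJ | hJ
    · exact ⟨1, norm_one, by rw [hJ]; simp⟩
    · have hn : (‖J‖ : ℂ) ≠ 0 := by exact_mod_cast (norm_pos_iff.2 hJ).ne'
      refine ⟨conj J / ‖J‖, ?_, ?_⟩
      · rw [norm_div, Complex.norm_conj, Complex.norm_real, Real.norm_of_nonneg (norm_nonneg _)]
        exact div_self (norm_pos_iff.2 hJ).ne'
      · rw [div_mul_eq_mul_div, mul_comm, Complex.mul_conj, Complex.normSq_eq_norm_sq,
          div_eq_iff hn]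
        push_cast
        ring
  have hqr : Continuous fun x : ℝ => (ω * q x).re :=
    Complex.continuous_re.comp (continuous_const.mul hq)
  set p : ℝ → ℝ := fun x => e x - (ω * q x).re with hp
  have hpc : ContinuousOn p (Set.Icc 0 y) := he.sub hqr.continuousOn
  have hbd : ∀ x ∈ Set.Icc 0 y, 0 ≤ p x ∧ p x ≤ 2 := by
    intro x hx
    have h1 := Complex.abs_re_le_norm (ω * q x)
    rw [norm_mul, hω, one_mul] at h1
    have h2 := abs_le.1 h1
    have h3 := hqe x hx
    have h4 := he1 x hx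
    simp only [hp]
    constructor
    · linarith [h2.2]
    · linarith [h2.1]
  have hie : IntervalIntegrable e volume 0 y := by
    apply ContinuousOn.intervalIntegrable
    rw [Set.uIcc_of_le h0]
    exact he
  have hixe : IntervalIntegrable (fun x => x * e x) volume 0 y := by
    apply ContinuousOn.intervalIntegrable
    rw [Set.uIcc_of_le h0]
    exact continuousOn_id.mul he
  have hip : IntervalIntegrable p volume 0 y := by
    apply ContinuousOn.intervalIntegrable
    rw [Set.uIcc_of_le h0]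
    exact hpc
  have hixp : IntervalIntegrable (fun x => x * p x) volume 0 y := by
    apply ContinuousOn.intervalIntegrable
    rw [Set.uIcc_of_le h0]
    exact continuousOn_id.mul hpc
  -- the integral of `p`
  have e1 : ∫ x in (0 : ℝ)..y, p x =
      (∫ x in (0 : ℝ)..y, e x) - (ω * ∫ x in (0 : ℝ)..y, q x).re := by
    simp only [hp]
    rw [intervalIntegral.integral_sub hie (hqr.intervalIntegrable 0 y)]
    congr 1
    have h1 : (ω * ∫ x in (0 : ℝ)..y, q x) = ∫ x in (0 : ℝ)..y, ω * q x := by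
      rw [intervalIntegral.integral_const_mul]
    rw [h1]
    exact Complex.reCLM.intervalIntegral_comp_comm
      ((continuous_const.mul hq).intervalIntegrable 0 y)
  have e2 : ∫ x in (0 : ℝ)..y, x * p x =
      (∫ x in (0 : ℝ)..y, x * e x) - ‖∫ x in (0 : ℝ)..y, (x : ℂ) * q x‖ := by
    have h1 : ‖∫ x in (0 : ℝ)..y, (x : ℂ) * q x‖ = ∫ x in (0 : ℝ)..y, x * (ω * q x).re := by
      have h2 : ((‖∫ x in (0 : ℝ)..y, (x : ℂ) * q x‖ : ℝ) : ℂ).re =
          ∫ x in (0 : ℝ)..y, x * (ω * q x).re := by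
        rw [← hωJ, ← intervalIntegral.integral_const_mul]
        have h3 := Complex.reCLM.intervalIntegral_comp_comm (a := 0) (b := y) (μ := volume)
          (f := fun x : ℝ => ω * ((x : ℂ) * q x))
          ((continuous_const.mul (Complex.continuous_ofReal.mul hq)).intervalIntegrable 0 y)
        simp only [Complex.reCLM_apply] at h3
        rw [← h3]
        congr 1
        funext x
        rw [show ω * ((x : ℂ) * q x) = (x : ℂ) * (ω * q x) by ring, Complex.re_ofReal_mul]
      rwa [Complex.ofReal_re] at h2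
    have hc : Continuous fun x : ℝ => x * (ω * q x).re := continuous_id.mul hqr
    rw [h1, ← intervalIntegral.integral_sub hixe (hc.intervalIntegrable 0 y)]
    congr 1
    funext x
    simp only [hp]
    ring
  -- the split at `t`
  have hi1 : IntervalIntegrable (fun x => p x * (1 - x / t)) volume 0 t := by
    apply ContinuousOn.intervalIntegrable
    rw [Set.uIcc_of_le ht.le]
    exact (hpc.mono (Set.Icc_subset_Icc_right hty)).mul (by fun_prop)
  have hi2 : IntervalIntegrable (fun x => p x * (1 - x / t)) volume t y := by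
    apply ContinuousOn.intervalIntegrable
    rw [Set.uIcc_of_le hty]
    exact (hpc.mono (Set.Icc_subset_Icc_left ht.le)).mul (by fun_prop)
  have h5 : ∫ x in (0 : ℝ)..t, p x * (1 - x / t) ≤ t := by
    have h6 : ∫ x in (0 : ℝ)..t, p x * (1 - x / t) ≤ ∫ x in (0 : ℝ)..t, 2 * (1 - x / t) := by
      apply intervalIntegral.integral_mono_on ht.le hi1
      · exact Continuous.intervalIntegrable (by fun_prop) 0 t
      · intro x hx
        have h7 : 0 ≤ 1 - x / t := by
          rw [sub_nonneg, div_le_one ht]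
          exact hx.2
        exact mul_le_mul_of_nonneg_right (hbd x ⟨hx.1, hx.2.trans hty⟩).2 h7
    have h8 : ∫ x in (0 : ℝ)..t, 2 * (1 - x / t) = t := by
      have hd : ∀ x ∈ Set.uIcc 0 t, HasDerivAt (fun x : ℝ => 2 * (x - x ^ 2 / (2 * t)))
          (2 * (1 - x / t)) x := by
        intro x _
        have h9 := (((hasDerivAt_id x).sub ((hasDerivAt_pow 2 x).div_const (2 * t))).const_mul 2)
        refine h9.congr_deriv ?_
        field_simp
        norm_num
        ring
      rw [intervalIntegral.integral_eq_sub_of_hasDerivAt hd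
        (Continuous.intervalIntegrable (by fun_prop) 0 t)]
      field_simp
      ring
    linarith
  have h6 : ∫ x in t..y, p x * (1 - x / t) ≤ 0 := by
    have h7 : ∫ x in t..y, p x * (1 - x / t) ≤ ∫ x in t..y, (0 : ℝ) := by
      apply intervalIntegral.integral_mono_on hty hi2
      · exact Continuous.intervalIntegrable (by fun_prop) t y
      · intro x hx
        have h8 : 1 - x / t ≤ 0 := by
          rw [sub_nonpos, one_le_div ht]
          exact hx.1
        exact mul_nonpos_of_nonneg_of_nonpos (hbd x ⟨ht.le.trans hx.1, hx.2⟩).1 h8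
    simpa using h7
  have h7 : ∫ x in (0 : ℝ)..y, p x * (1 - x / t) ≤ t := by
    rw [← intervalIntegral.integral_add_adjacent_intervals hi1 hi2]
    linarith
  have h8 : ∫ x in (0 : ℝ)..y, p x * (1 - x / t) =
      (∫ x in (0 : ℝ)..y, p x) - (∫ x in (0 : ℝ)..y, x * p x) / t := by
    rw [← intervalIntegral.integral_div, ← intervalIntegral.integral_sub hip (hixp.div_const t)]
    congr 1
    funext x
    ring
  have h9 : (ω * ∫ x in (0 : ℝ)..y, q x).re ≤ ‖∫ x in (0 : ℝ)..y, q x‖ := by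
    refine (Complex.re_le_norm _).trans (le_of_eq ?_)
    rw [norm_mul, hω, one_mul]
  rw [h8, e1, e2] at h7
  linarith

/-- **MASS** -/
theorem mass (hN : 1 ≤ N) (hu : ∀ k, ‖u k‖ ≤ 1) {y t S T : ℝ} (ht : 0 < t) (hty : t ≤ y)
    (h1 : y < 1) (hS : 0 < S) (hSq : SV.sq u ≤ S) {e : ℝ → ℝ} (he : ContinuousOn e (Set.Icc 0 y))
    (hqe : ∀ x ∈ Set.Icc 0 y, ‖qq u x‖ ≤ e x) (he1 : ∀ x ∈ Set.Icc 0 y, e x ≤ 1)
    (hT : ‖qq u y‖ ≤ T) :
    (∫ x in (0 : ℝ)..y, e x) - t -
        ((∫ x in (0 : ℝ)..y, x / (1 - x) * e x) - (1 - T) / (N * S)) / t ≤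
      ‖∫ x in (0 : ℝ)..y, qq u x‖ * (1 + ‖av u‖ / (S * t)) := by
  have h0 : 0 ≤ y := ht.le.trans hty
  have hNpos : (0 : ℝ) < N := by exact_mod_cast hN
  have hA := mass_one hN hu h0 h1 hSq he hqe hT
  have hB := mass_two (qq_cont u) ht hty he hqe he1
  set J := ‖∫ x in (0 : ℝ)..y, qq u x‖
  set J1 := ‖∫ x in (0 : ℝ)..y, (x : ℂ) * qq u x‖
  set r := ‖av u‖
  have hcx : ContinuousOn (fun x : ℝ => x ^ 2 / (1 - x) * e x) (Set.Icc 0 y) := by
    apply ContinuousOn.mul _ he
    apply ContinuousOn.div (by fun_prop) (by fun_prop)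
    intro x hx
    have := hx.2
    have : (0 : ℝ) < 1 - x := by linarith
    exact this.ne'
  have e3 : ∫ x in (0 : ℝ)..y, x / (1 - x) * e x =
      (∫ x in (0 : ℝ)..y, x * e x) + ∫ x in (0 : ℝ)..y, x ^ 2 / (1 - x) * e x := by
    rw [← intervalIntegral.integral_add]
    · apply intervalIntegral.integral_congr
      intro x hx
      rw [Set.uIcc_of_le h0] at hx
      have := hx.2
      have h2 : (1 : ℝ) - x ≠ 0 := by
        have : (0 : ℝ) < 1 - x := by linarith
        exact this.ne'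
      simp only
      field_simp
      ring
    · apply ContinuousOn.intervalIntegrable
      rw [Set.uIcc_of_le h0]
      exact continuousOn_id.mul he
    · apply ContinuousOn.intervalIntegrable
      rw [Set.uIcc_of_le h0]
      exact hcx
  set A := ∫ x in (0 : ℝ)..y, x * e x
  set D := ∫ x in (0 : ℝ)..y, x ^ 2 / (1 - x) * e x
  set M := ∫ x in (0 : ℝ)..y, e x
  rw [e3]
  have hC : (1 - T) / (N * S) ≤ r * J / S + J1 + D := by
    rw [div_le_iff₀ (by positivity)]
    have e4 : (r * J / S + J1 + D) * (N * S) = N * (r * J + S * (J1 + D)) := by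
      field_simp
      ring
    rw [e4]
    exact hA
  have hD : (A + D - (1 - T) / (N * S)) / t ≥ (A - J1) / t - r * J / (S * t) := by
    have e5 : (A - J1) / t - r * J / (S * t) = (A - J1 - r * J / S) / t := by
      field_simp
    rw [e5]
    exact div_le_div_of_nonneg_right (by linarith) ht.le
  have e6 : J * (1 + r / (S * t)) = J + r * J / (S * t) := by ring
  rw [e6]
  linarith

end

end Pool.Agent.Lib.MP_af3a4a_an.P1.H81
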