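import Pool.Agent.Lib.MP_af3a4a_an.P1.H81.ZoneA

/-!
# MASS with the two-piece profile `exp (-g x max(x, x'))` (helper81, council 2)
-/

namespace Pool.Agent.Lib.MP_af3a4a_an.P1.H81

open MeasureTheory intervalIntegral Set
open Pool.Agent.Lib.MP_af3a4a_an.SV (uu av EE)
open Pool.Agent.Lib.MP_af3a4a_an.P1.H80

theorem int_exp0 {K a : ℝ} (hK : 0 < K) :
    ∫ x in (0 : ℝ)..a, Real.exp (-(K * x)) = (1 - Real.exp (-(K * a))) / K := by
  have hd : ∀ x ∈ Set.uIcc (0 : ℝ) a, HasDerivAt (fun x : ℝ => -(Real.exp (-(K * x)) / K))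
      (Real.exp (-(K * x))) x := by
    intro x _
    have e1 : HasDerivAt (fun x : ℝ => Real.exp (-(K * x))) (Real.exp (-(K * x)) * (-K)) x := by
      have := (((hasDerivAt_id x).const_mul K).neg).exp
      simpa using this
    refine (e1.div_const K).neg.congr_deriv ?_
    field_simp
  rw [intervalIntegral.integral_eq_sub_of_hasDerivAt hd
    (Continuous.intervalIntegrable (by fun_prop) _ _)]
  simp
  ring

theorem int_exp_poly {K a : ℝ} (hK : 0 < K) :
    ∫ x in (0 : ℝ)..a, (x + x ^ 2 + 5 / 3 * x ^ 3) * Real.exp (-(K * x)) =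
      (1 / K ^ 2 + 2 / K ^ 3 + 10 / K ^ 4) - Real.exp (-(K * a)) *
        ((a / K + 1 / K ^ 2) + (a ^ 2 / K + 2 * a / K ^ 2 + 2 / K ^ 3) +
          5 / 3 * (a ^ 3 / K + 3 * a ^ 2 / K ^ 2 + 6 * a / K ^ 3 + 6 / K ^ 4)) := by
  have hd : ∀ x ∈ Set.uIcc (0 : ℝ) a, HasDerivAt (fun x : ℝ => -(Real.exp (-(K * x)) *
        ((x / K + 1 / K ^ 2) + (x ^ 2 / K + 2 * x / K ^ 2 + 2 / K ^ 3) +
          5 / 3 * (x ^ 3 / K + 3 * x ^ 2 / K ^ 2 + 6 * x / K ^ 3 + 6 / K ^ 4))))
      ((x + x ^ 2 + 5 / 3 * x ^ 3) * Real.exp (-(K * x))) x := by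
    intro x _
    have e1 : HasDerivAt (fun x : ℝ => Real.exp (-(K * x))) (Real.exp (-(K * x)) * (-K)) x := by
      have := (((hasDerivAt_id x).const_mul K).neg).exp
      simpa using this
    have d1 : HasDerivAt (fun x : ℝ => x / K + 1 / K ^ 2) (1 / K) x :=
      ((hasDerivAt_id x).div_const K).add_const _
    have d2 : HasDerivAt (fun x : ℝ => x ^ 2 / K + 2 * x / K ^ 2 + 2 / K ^ 3)
        (2 * x / K + 2 / K ^ 2) x := by
      have := (((hasDerivAt_pow 2 x).div_const K).add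
        (((hasDerivAt_id x).const_mul 2).div_const (K ^ 2))).add_const (2 / K ^ 3)
      refine this.congr_deriv ?_
      norm_num
    have d3 : HasDerivAt (fun x : ℝ => x ^ 3 / K + 3 * x ^ 2 / K ^ 2 + 6 * x / K ^ 3 + 6 / K ^ 4)
        (3 * x ^ 2 / K + 3 * (2 * x) / K ^ 2 + 6 / K ^ 3) x := by
      have := ((((hasDerivAt_pow 3 x).div_const K).add
        (((hasDerivAt_pow 2 x).const_mul 3).div_const (K ^ 2))).add
        (((hasDerivAt_id x).const_mul 6).div_const (K ^ 3))).add_const (6 / K ^ 4)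
      refine this.congr_deriv ?_
      norm_num
    have d := e1.mul ((d1.add d2).add (d3.const_mul (5 / 3)))
    refine d.neg.congr_deriv ?_
    simp only [Pi.add_apply]
    field_simp
    ring
  rw [intervalIntegral.integral_eq_sub_of_hasDerivAt hd
    (Continuous.intervalIntegrable (by fun_prop) _ _)]
  simp
  ring

theorem gauss_deriv (g x : ℝ) : HasDerivAt (fun x : ℝ => Real.exp (-(g * x ^ 2)))
    (Real.exp (-(g * x ^ 2)) * (-(g * (2 * x)))) x := by
  have := (((hasDerivAt_pow 2 x).const_mul g).neg).exp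
  simpa using this

theorem int_g0 {g a y : ℝ} (hg : 0 < g) (ha : 0 < a) (hay : a ≤ y) :
    a * Real.exp (-(g * a ^ 2)) / (2 * (g * a ^ 2) + 1) -
      y * Real.exp (-(g * y ^ 2)) / (2 * (g * y ^ 2) + 1) ≤
      ∫ x in a..y, Real.exp (-(g * x ^ 2)) := by
  have hd : ∀ x ∈ Set.uIcc a y, HasDerivAt
      (fun x : ℝ => -(x * Real.exp (-(g * x ^ 2)) / (2 * (g * x ^ 2) + 1)))
      (Real.exp (-(g * x ^ 2)) * (1 - 2 / (2 * (g * x ^ 2) + 1) ^ 2)) x := by
    intro x _
    have hp : 0 < 2 * (g * x ^ 2) + 1 := by positivity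
    have d2 : HasDerivAt (fun x : ℝ => 2 * (g * x ^ 2) + 1) (2 * (g * (2 * x))) x := by
      have := (((hasDerivAt_pow 2 x).const_mul g).const_mul 2).add_const 1
      refine this.congr_deriv ?_
      norm_num
    have d := (((hasDerivAt_id x).mul (gauss_deriv g x)).div d2 hp.ne').neg
    refine d.congr_deriv ?_
    simp only [id, Pi.mul_apply]
    field_simp
    ring
  have hi : IntervalIntegrable (fun x : ℝ => Real.exp (-(g * x ^ 2)) *
      (1 - 2 / (2 * (g * x ^ 2) + 1) ^ 2)) volume a y := by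
    apply Continuous.intervalIntegrable
    apply Continuous.mul (by fun_prop)
    apply Continuous.sub continuous_const
    apply Continuous.div continuous_const (by fun_prop)
    intro x
    positivity
  have h := intervalIntegral.integral_eq_sub_of_hasDerivAt hd hi
  have h2 : ∫ x in a..y, Real.exp (-(g * x ^ 2)) * (1 - 2 / (2 * (g * x ^ 2) + 1) ^ 2) ≤
      ∫ x in a..y, Real.exp (-(g * x ^ 2)) := by
    apply intervalIntegral.integral_mono_on hay hi
      (Continuous.intervalIntegrable (by fun_prop) _ _)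
    intro x _
    have h3 : 0 ≤ Real.exp (-(g * x ^ 2)) * (2 / (2 * (g * x ^ 2) + 1) ^ 2) := by positivity
    linarith
  rw [h] at h2
  linarith

theorem int_g1 {g a y : ℝ} (hg : 0 < g) (ha : 0 < a) (hay : a ≤ y) :
    ∫ x in a..y, (x + x ^ 2 + 5 / 3 * x ^ 3) * Real.exp (-(g * x ^ 2)) ≤
      Real.exp (-(g * a ^ 2)) * (1 / (2 * g) + (a / (2 * g) + 1 / (4 * g ^ 2 * a)) +
        5 / 3 * (a ^ 2 / (2 * g) + 1 / (2 * g ^ 2))) := by
  have hd : ∀ x ∈ Set.uIcc a y, HasDerivAt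
      (fun x : ℝ => -(Real.exp (-(g * x ^ 2)) *
        (1 / (2 * g) + (x / (2 * g) + 1 / (4 * g ^ 2 * a)) +
        5 / 3 * (x ^ 2 / (2 * g) + 1 / (2 * g ^ 2)))))
      (Real.exp (-(g * x ^ 2)) * (x + x ^ 2 + 5 / 3 * x ^ 3 + (x - a) / (2 * g * a))) x := by
    intro x _
    have d1 : HasDerivAt (fun x : ℝ => 1 / (2 * g) + (x / (2 * g) + 1 / (4 * g ^ 2 * a)) +
        5 / 3 * (x ^ 2 / (2 * g) + 1 / (2 * g ^ 2)))
        (1 / (2 * g) + 5 / 3 * (2 * x / (2 * g))) x := by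
      have := ((((hasDerivAt_id x).div_const (2 * g)).add_const (1 / (4 * g ^ 2 * a))).const_add
        (1 / (2 * g))).add ((((hasDerivAt_pow 2 x).div_const (2 * g)).add_const
        (1 / (2 * g ^ 2))).const_mul (5 / 3))
      refine this.congr_deriv ?_
      norm_num
    refine ((gauss_deriv g x).mul d1).neg.congr_deriv ?_
    field_simp
    ring
  have hi : IntervalIntegrable (fun x : ℝ => Real.exp (-(g * x ^ 2)) *
      (x + x ^ 2 + 5 / 3 * x ^ 3 + (x - a) / (2 * g * a))) volume a y :=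
    Continuous.intervalIntegrable (by fun_prop) _ _
  have h := intervalIntegral.integral_eq_sub_of_hasDerivAt hd hi
  have h2 : ∫ x in a..y, (x + x ^ 2 + 5 / 3 * x ^ 3) * Real.exp (-(g * x ^ 2)) ≤
      ∫ x in a..y, Real.exp (-(g * x ^ 2)) *
      (x + x ^ 2 + 5 / 3 * x ^ 3 + (x - a) / (2 * g * a)) := by
    apply intervalIntegral.integral_mono_on hay
      (Continuous.intervalIntegrable (by fun_prop) _ _) hi
    intro x hx
    have h3 : 0 ≤ Real.exp (-(g * x ^ 2)) * ((x - a) / (2 * g * a)) := by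
      have : 0 ≤ x - a := by linarith [hx.1]
      positivity
    linarith
  rw [h] at h2
  have hy : 0 < y := by linarith
  have h4 : 0 ≤ Real.exp (-(g * y ^ 2)) *
        (1 / (2 * g) + (y / (2 * g) + 1 / (4 * g ^ 2 * a)) +
        5 / 3 * (y ^ 2 / (2 * g) + 1 / (2 * g ^ 2))) := by positivity
  linarith

theorem exp_8 {t : ℝ} (ht : 799 / 100 ≤ t) : Real.exp (-t) ≤ 1 / 2500 := by
  refine (Real.exp_le_exp.2 (neg_le_neg ht)).trans ?_
  have h2 := Real.exp_one_gt_d9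
  have h3 : Real.exp (799 / 100) = Real.exp 1 ^ 7 * (Real.exp (99 / 200) * Real.exp (99 / 200)) := by
    rw [← Real.exp_nat_mul, ← Real.exp_add, ← Real.exp_add]
    norm_num
  have h4 : (2.7182818283 : ℝ) ^ 7 ≤ Real.exp 1 ^ 7 :=
    pow_le_pow_left₀ (by norm_num) h2.le 7
  have h5 : (1.6 : ℝ) ≤ Real.exp (99 / 200) := by
    have := Real.quadratic_le_exp_of_nonneg (x := (99 / 200 : ℝ)) (by norm_num)
    norm_num at this ⊢
    linarith
  have h6 : (2500 : ℝ) ≤ Real.exp (799 / 100) := by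
    rw [h3]
    have h8 : (1.6 : ℝ) * 1.6 ≤ Real.exp (99 / 200) * Real.exp (99 / 200) :=
      mul_le_mul h5 h5 (by norm_num) (by positivity)
    have h7 : (2.7182818283 : ℝ) ^ 7 * (1.6 * 1.6) ≤
        Real.exp 1 ^ 7 * (Real.exp (99 / 200) * Real.exp (99 / 200)) :=
      mul_le_mul h4 h8 (by norm_num) (by positivity)
    refine le_trans ?_ h7
    norm_num
  rw [Real.exp_neg, one_div]
  exact inv_anti₀ (by norm_num) h6

/-- MASS with the two-piece profile -/
theorem mass2 {N : ℕ} {u : Fin N → ℂ} (hN1 : 1 ≤ N) (hu : ∀ k, ‖u k‖ ≤ 1) {β s S v K E : ℝ}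
    (hβ : 707 / 100 ≤ β) (hs1 : 1 ≤ s) (hs2 : s ≤ 2) (hv : v = s ^ 2) (hK : K = s * β)
    (hE : E = Real.exp (-v)) (hS : 0 < S) (hSq : SV.sq u ≤ S)
    (hq : ∀ x, 0 ≤ x → x ≤ 2 / 5 → ‖qq u x‖ ≤ Real.exp (-(β ^ 2 * (x * max x (s / β))))) :
    1 - 1 / 2500 - N * S / K ^ 2 * ((3 / 4 - E * (1 / 2 + v / 2 + v / (4 * v + 2))) +
      (2 - (2 + 7 / 4 * v + v ^ 2 / 2) * E) / K +
      5 / 3 * (6 - (6 + 6 * v + 5 / 2 * v ^ 2 + v ^ 3 / 2) * E) / K ^ 2 + 1 / 10000) ≤
      (N * ‖∫ x in (0 : ℝ)..(2 / 5), qq u x‖) * (‖av u‖ + S / (2 * K)) := by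
  have hNpos : (0 : ℝ) < N := by exact_mod_cast (show 0 < N by omega)
  have hβ0 : 0 < β := by linarith
  have hs0 : 0 < s := by linarith
  have hK0 : 0 < K := by rw [hK]; positivity
  have hv0 : 0 < v := by rw [hv]; positivity
  have hβ2 : 4998 / 100 ≤ β ^ 2 := by nlinarith
  obtain ⟨a, ha⟩ : ∃ a, a = s / β := ⟨_, rfl⟩
  have ha0 : 0 < a := by rw [ha]; positivity
  have ha1 : a ≤ 2 / 5 := by
    rw [ha, div_le_iff₀ hβ0]
    linarith
  have hKa : K * a = v := by
    rw [hK, ha, hv]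
    field_simp
  have hga : β ^ 2 * a ^ 2 = v := by
    rw [ha, hv]
    field_simp
  have hgK : β ^ 2 * a = K := by
    rw [ha, hK]
    field_simp
  rw [← ha] at hq
  have hE0 : 0 < E := by rw [hE]; exact Real.exp_pos _
  have hcont : Continuous fun x : ℝ => Real.exp (-(β ^ 2 * (x * max x a))) := by fun_prop
  have he1 : ∀ x ∈ Set.uIcc (0 : ℝ) a, Real.exp (-(β ^ 2 * (x * max x a))) =
      Real.exp (-(K * x)) := by
    intro x hx
    rw [Set.uIcc_of_le ha0.le] at hx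
    rw [max_eq_right hx.2, ← hgK]
    congr 1
    ring
  have he2 : ∀ x ∈ Set.uIcc a (2 / 5 : ℝ), Real.exp (-(β ^ 2 * (x * max x a))) =
      Real.exp (-(β ^ 2 * x ^ 2)) := by
    intro x hx
    rw [Set.uIcc_of_le ha1] at hx
    rw [max_eq_left hx.1]
    congr 1
    ring
  have hT : ‖qq u (2 / 5)‖ ≤ 1 / 2500 := by
    refine (hq (2 / 5) (by norm_num) le_rfl).trans ?_
    rw [max_eq_left ha1]
    apply exp_8
    linarith
  have ht0 : 0 < 1 / (2 * K) := by positivity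
  have hty : 1 / (2 * K) ≤ 2 / 5 := by
    rw [div_le_iff₀ (by positivity)]
    have : 7 ≤ K := by rw [hK]; nlinarith
    linarith
  have h := mass hN1 hu (T := 1 / 2500) ht0 hty (by norm_num) hS hSq
    (e := fun x => Real.exp (-(β ^ 2 * (x * max x a)))) hcont.continuousOn
    (fun x hx => hq x hx.1 hx.2)
    (fun x hx => by
      rw [Real.exp_le_one_iff]
      have h1 : 0 ≤ max x a := le_trans ha0.le (le_max_right _ _)
      have h2 := hx.1
      have : 0 ≤ β ^ 2 * (x * max x a) := by positivity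
      linarith) hT
  -- the mass
  have hM0 : (1 - E + v * E / (2 * v + 1)) / K - 1 / (5000 * K) ≤
      ∫ x in (0 : ℝ)..(2 / 5), Real.exp (-(β ^ 2 * (x * max x a))) := by
    rw [← intervalIntegral.integral_add_adjacent_intervals
      (hcont.intervalIntegrable 0 a) (hcont.intervalIntegrable a (2 / 5)),
      intervalIntegral.integral_congr he1, intervalIntegral.integral_congr he2, int_exp0 hK0, hKa,
      ← hE]
    have h1 := int_g0 (g := β ^ 2) (by positivity) ha0 ha1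
    rw [hga, ← hE] at h1
    have h2 : a * E / (2 * v + 1) = v * E / (2 * v + 1) / K := by
      rw [← hKa]
      field_simp
    have h3 : 2 / 5 * Real.exp (-(β ^ 2 * (2 / 5) ^ 2)) / (2 * (β ^ 2 * (2 / 5) ^ 2) + 1) ≤
        1 / (5000 * K) := by
      have h4 : Real.exp (-(β ^ 2 * (2 / 5) ^ 2)) ≤ 1 / 2500 := exp_8 (by linarith)
      rw [div_le_div_iff₀ (by positivity) (by positivity)]
      have h5 : 2 / 5 * Real.exp (-(β ^ 2 * (2 / 5) ^ 2)) ≤ 2 / 5 * (1 / 2500) :=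
        mul_le_mul_of_nonneg_left h4 (by norm_num)
      have h6 : 2 / 5 * Real.exp (-(β ^ 2 * (2 / 5) ^ 2)) * (5000 * K) ≤
          2 / 5 * (1 / 2500) * (5000 * K) := mul_le_mul_of_nonneg_right h5 (by positivity)
      have h7 : K ≤ 2 * β := by
        rw [hK]
        exact mul_le_mul_of_nonneg_right hs2 hβ0.le
      nlinarith
    have e1 : (1 - E + v * E / (2 * v + 1)) / K = (1 - E) / K + v * E / (2 * v + 1) / K := by ring
    rw [e1, ← h2]
    linarith
  -- the first moment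
  have hM1 : ∫ x in (0 : ℝ)..(2 / 5), x / (1 - x) * Real.exp (-(β ^ 2 * (x * max x a))) ≤
      (1 - (1 + v / 2) * E) / K ^ 2 + (2 - (2 + 7 / 4 * v + v ^ 2 / 2) * E) / K ^ 3 +
        5 / 3 * (6 - (6 + 6 * v + 5 / 2 * v ^ 2 + v ^ 3 / 2) * E) / K ^ 4 := by
    have h1 : ∫ x in (0 : ℝ)..(2 / 5), x / (1 - x) * Real.exp (-(β ^ 2 * (x * max x a))) ≤
        ∫ x in (0 : ℝ)..(2 / 5), (x + x ^ 2 + 5 / 3 * x ^ 3) *
          Real.exp (-(β ^ 2 * (x * max x a))) := by
      apply intervalIntegral.integral_mono_on (by norm_num)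
      · apply ContinuousOn.intervalIntegrable
        rw [Set.uIcc_of_le (by norm_num)]
        apply ContinuousOn.mul _ (by fun_prop)
        apply ContinuousOn.div continuousOn_id (by fun_prop)
        intro x hx
        have := hx.2
        have : (0 : ℝ) < 1 - x := by linarith
        exact this.ne'
      · exact Continuous.intervalIntegrable (by fun_prop) _ _
      · intro x hx
        apply mul_le_mul_of_nonneg_right _ (Real.exp_pos _).le
        have hx1 : 0 < 1 - x := by linarith [hx.2]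
        rw [div_le_iff₀ hx1]
        have e1 : (x + x ^ 2 + 5 / 3 * x ^ 3) * (1 - x) = x + x ^ 3 * (2 / 3 - 5 / 3 * x) := by
          ring
        rw [e1]
        have h3 : 0 ≤ x ^ 3 * (2 / 3 - 5 / 3 * x) :=
          mul_nonneg (pow_nonneg hx.1 3) (by linarith [hx.2])
        linarith
    refine h1.trans ?_
    have hc2 : Continuous fun x : ℝ => (x + x ^ 2 + 5 / 3 * x ^ 3) *
          Real.exp (-(β ^ 2 * (x * max x a))) := by fun_prop
    rw [← intervalIntegral.integral_add_adjacent_intervals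
      (hc2.intervalIntegrable 0 a) (hc2.intervalIntegrable a (2 / 5))]
    have e1 : ∫ x in (0 : ℝ)..a, (x + x ^ 2 + 5 / 3 * x ^ 3) *
          Real.exp (-(β ^ 2 * (x * max x a))) =
        ∫ x in (0 : ℝ)..a, (x + x ^ 2 + 5 / 3 * x ^ 3) * Real.exp (-(K * x)) := by
      apply intervalIntegral.integral_congr
      intro x hx
      simp only
      rw [he1 x hx]
    have e2 : ∫ x in a..(2 / 5), (x + x ^ 2 + 5 / 3 * x ^ 3) *
          Real.exp (-(β ^ 2 * (x * max x a))) =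
        ∫ x in a..(2 / 5), (x + x ^ 2 + 5 / 3 * x ^ 3) * Real.exp (-(β ^ 2 * x ^ 2)) := by
      apply intervalIntegral.integral_congr
      intro x hx
      simp only
      rw [he2 x hx]
    rw [e1, e2, int_exp_poly hK0, hKa, ← hE]
    have h2 := int_g1 (g := β ^ 2) (by positivity) ha0 ha1
    rw [hga, ← hE] at h2
    refine (add_le_add le_rfl h2).trans (le_of_eq ?_)
    have ha' : a = v / K := by
      rw [← hKa]
      field_simp
    have hg' : β ^ 2 = K ^ 2 / v := by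
      rw [← hKa, ← hgK]
      field_simp
    rw [hg', ha']
    field_simp
    ring
  set J := ‖∫ x in (0 : ℝ)..(2 / 5), qq u x‖ with hJ
  set A := ∫ x in (0 : ℝ)..(2 / 5), Real.exp (-(β ^ 2 * (x * max x a)))
  set D := ∫ x in (0 : ℝ)..(2 / 5), x / (1 - x) * Real.exp (-(β ^ 2 * (x * max x a)))
  have h1 := mul_le_mul_of_nonneg_left h (by positivity : 0 ≤ N * S / (2 * K))
  have e1 : N * S / (2 * K) * (A - 1 / (2 * K) - (D - (1 - 1 / 2500) / (N * S)) / (1 / (2 * K))) =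
      (1 - 1 / 2500) + N * S * (A / (2 * K) - 1 / (4 * K ^ 2) - D) := by
    field_simp
    ring
  have e2 : N * S / (2 * K) * (J * (1 + ‖av u‖ / (S * (1 / (2 * K))))) =
      (N * J) * (‖av u‖ + S / (2 * K)) := by
    field_simp
    ring
  rw [e1, e2] at h1
  refine le_trans ?_ h1
  have h2 : (1 - E + v * E / (2 * v + 1)) / (2 * K ^ 2) - 1 / (10000 * K ^ 2) ≤ A / (2 * K) := by
    have h3 := div_le_div_of_nonneg_right hM0 (by positivity : 0 ≤ 2 * K)
    refine le_trans (le_of_eq ?_) h3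
    field_simp
    ring
  have h3 : -(((3 / 4 - E * (1 / 2 + v / 2 + v / (4 * v + 2))) +
      (2 - (2 + 7 / 4 * v + v ^ 2 / 2) * E) / K +
      5 / 3 * (6 - (6 + 6 * v + 5 / 2 * v ^ 2 + v ^ 3 / 2) * E) / K ^ 2 + 1 / 10000) / K ^ 2) ≤
      A / (2 * K) - 1 / (4 * K ^ 2) - D := by
    have e3 : -(((3 / 4 - E * (1 / 2 + v / 2 + v / (4 * v + 2))) +
      (2 - (2 + 7 / 4 * v + v ^ 2 / 2) * E) / K +
      5 / 3 * (6 - (6 + 6 * v + 5 / 2 * v ^ 2 + v ^ 3 / 2) * E) / K ^ 2 + 1 / 10000) / K ^ 2) =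
      ((1 - E + v * E / (2 * v + 1)) / (2 * K ^ 2) - 1 / (10000 * K ^ 2)) - 1 / (4 * K ^ 2) -
      ((1 - (1 + v / 2) * E) / K ^ 2 + (2 - (2 + 7 / 4 * v + v ^ 2 / 2) * E) / K ^ 3 +
        5 / 3 * (6 - (6 + 6 * v + 5 / 2 * v ^ 2 + v ^ 3 / 2) * E) / K ^ 4) := by
      have e4 : v / (4 * v + 2) = v / (2 * v + 1) / 2 := by
        field_simp
        ring
      rw [e4]
      field_simp
      ring
    rw [e3]
    linarith
  have h4 := mul_le_mul_of_nonneg_left h3 (by positivity : 0 ≤ N * S)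
  have e5 : N * S * -(((3 / 4 - E * (1 / 2 + v / 2 + v / (4 * v + 2))) +
      (2 - (2 + 7 / 4 * v + v ^ 2 / 2) * E) / K +
      5 / 3 * (6 - (6 + 6 * v + 5 / 2 * v ^ 2 + v ^ 3 / 2) * E) / K ^ 2 + 1 / 10000) / K ^ 2) =
      -(N * S / K ^ 2 * ((3 / 4 - E * (1 / 2 + v / 2 + v / (4 * v + 2))) +
      (2 - (2 + 7 / 4 * v + v ^ 2 / 2) * E) / K +
      5 / 3 * (6 - (6 + 6 * v + 5 / 2 * v ^ 2 + v ^ 3 / 2) * E) / K ^ 2 + 1 / 10000)) := by
    ring
  rw [e5] at h4
  linarith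

end Pool.Agent.Lib.MP_af3a4a_an.P1.H81
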