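import Pool.Agent.Lib.MP_af3a4a_an.P1.H81.ZoneA

/-!
# Moments with the cubic profile (first part of MassV) (helper81, council 2)
-/

namespace Pool.Agent.Lib.MP_af3a4a_an.P1.H81

open MeasureTheory intervalIntegral Set

/-- `e^z ≤ 1 + z + z²/2 + z³/6 e^z` -/
theorem exp_le3 {z : ℝ} (hz : 0 ≤ z) :
    Real.exp z ≤ 1 + z + z ^ 2 / 2 + z ^ 3 / 6 * Real.exp z := by
  have hd : ∀ x : ℝ, HasDerivAt
      (fun t : ℝ => Real.exp (-t) * (1 + t + t ^ 2 / 2) + t ^ 3 / 6)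
      (x ^ 2 / 2 * (1 - Real.exp (-x))) x := by
    intro x
    have e1 : HasDerivAt (fun t : ℝ => Real.exp (-t)) (-Real.exp (-x)) x := by
      have := ((hasDerivAt_id x).neg).exp
      simpa using this
    have e2 : HasDerivAt (fun t : ℝ => 1 + t + t ^ 2 / 2) (1 + x) x := by
      have := ((hasDerivAt_id x).const_add 1).add ((hasDerivAt_pow 2 x).div_const 2)
      refine this.congr_deriv ?_
      norm_num
    have e3 : HasDerivAt (fun t : ℝ => t ^ 3 / 6) (x ^ 2 / 2) x := by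
      have := (hasDerivAt_pow 3 x).div_const 6
      refine this.congr_deriv ?_
      norm_num
      ring
    refine ((e1.mul e2).add e3).congr_deriv ?_
    ring
  have hmono : MonotoneOn (fun t : ℝ => Real.exp (-t) * (1 + t + t ^ 2 / 2) + t ^ 3 / 6)
      (Set.Ici 0) := by
    apply monotoneOn_of_deriv_nonneg (convex_Ici 0)
    · exact fun x _ => (hd x).continuousAt.continuousWithinAt
    · exact fun x _ => (hd x).differentiableAt.differentiableWithinAt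
    · intro x hx
      rw [interior_Ici] at hx
      rw [(hd x).deriv]
      have h1 : Real.exp (-x) ≤ 1 := by
        rw [Real.exp_le_one_iff]
        have := Set.mem_Ioi.1 hx
        linarith
      have : 0 ≤ 1 - Real.exp (-x) := by linarith
      positivity
  have h := hmono (Set.mem_Ici.2 le_rfl) (Set.mem_Ici.2 hz) hz
  simp only [neg_zero, Real.exp_zero, ne_eq, OfNat.ofNat_ne_zero, not_false_eq_true, zero_pow,
    zero_div, add_zero, mul_one] at h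
  have h2 := mul_le_mul_of_nonneg_left h (Real.exp_pos z).le
  have e1 : Real.exp z * (Real.exp (-z) * (1 + z + z ^ 2 / 2) + z ^ 3 / 6) =
      (Real.exp z * Real.exp (-z)) * (1 + z + z ^ 2 / 2) + z ^ 3 / 6 * Real.exp z := by ring
  have e2 : Real.exp z * Real.exp (-z) = 1 := by
    rw [← Real.exp_add]
    simp
  rw [e1, e2] at h2
  linarith

/-- Gaussian moments on `[0, y]` -/
noncomputable def Mo (n : ℕ) (b y : ℝ) : ℝ := ∫ x in (0 : ℝ)..y, x ^ n * Real.exp (-(b * x ^ 2))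

theorem Mo_nonneg {b y : ℝ} (hy : 0 ≤ y) (n : ℕ) : 0 ≤ Mo n b y := by
  unfold Mo
  apply intervalIntegral.integral_nonneg hy
  intro x hx
  have := hx.1
  positivity

theorem Mo_rec {b y : ℝ} (hb : 0 < b) (hy : 0 ≤ y) (n : ℕ) :
    Mo (n + 2) b y ≤ (n + 1) / (2 * b) * Mo n b y := by
  have hd : ∀ x ∈ Set.uIcc (0 : ℝ) y, HasDerivAt
      (fun x : ℝ => -(x ^ (n + 1) * Real.exp (-(b * x ^ 2)) / (2 * b)))
      (x ^ (n + 2) * Real.exp (-(b * x ^ 2)) -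
        (n + 1) / (2 * b) * (x ^ n * Real.exp (-(b * x ^ 2)))) x := by
    intro x _
    have e1 : HasDerivAt (fun x : ℝ => Real.exp (-(b * x ^ 2)))
        (Real.exp (-(b * x ^ 2)) * (-(b * (2 * x)))) x := by
      have := (((hasDerivAt_pow 2 x).const_mul b).neg).exp
      simpa using this
    refine (((hasDerivAt_pow (n + 1) x).mul e1).div_const (2 * b)).neg.congr_deriv ?_
    simp only [Nat.cast_add, Nat.cast_one, add_tsub_cancel_right]
    field_simp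
    ring
  have hi1 : IntervalIntegrable (fun x : ℝ => x ^ (n + 2) * Real.exp (-(b * x ^ 2))) volume 0 y :=
    Continuous.intervalIntegrable (by fun_prop) _ _
  have hi2 : IntervalIntegrable (fun x : ℝ => (n + 1) / (2 * b) *
      (x ^ n * Real.exp (-(b * x ^ 2)))) volume 0 y :=
    Continuous.intervalIntegrable (by fun_prop) _ _
  have h := intervalIntegral.integral_eq_sub_of_hasDerivAt hd (hi1.sub hi2)
  rw [intervalIntegral.integral_sub hi1 hi2, intervalIntegral.integral_const_mul] at h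
  unfold Mo
  have h2 : 0 ≤ y ^ (n + 1) * Real.exp (-(b * y ^ 2)) / (2 * b) := by positivity
  have h3 : (0 : ℝ) ^ (n + 1) = 0 := by simp
  rw [h3] at h
  simp only [zero_mul, zero_div, neg_zero, sub_zero] at h
  linarith

theorem Mo_zero {b y v : ℝ} (hb : 0 < b) (hy : 0 ≤ y) (hv : 0 ≤ v) (hbv : 1 ≤ b * v ^ 2) :
    Mo 0 b y ≤ 8863 / 10000 * v ^ 1 := by
  have h := gauss_upper hb hy
  have h1 : Mo 0 b y = ∫ x in (0 : ℝ)..y, Real.exp (-(b * x ^ 2)) := by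
    unfold Mo
    simp
  rw [h1]
  refine h.trans ?_
  have hs : 0 < Real.sqrt b := Real.sqrt_pos.2 hb
  rw [pow_one, div_le_iff₀ hs]
  have h2 : 1 ≤ v * Real.sqrt b := by
    have h3 : (1 : ℝ) ^ 2 ≤ (v * Real.sqrt b) ^ 2 := by
      rw [mul_pow, Real.sq_sqrt hb.le]
      linarith
    exact le_of_sq_le_sq h3 (by positivity)
  linarith

theorem Mo_one {b y v : ℝ} (hb : 0 < b) (hbv : 1 ≤ b * v ^ 2) :
    Mo 1 b y ≤ 1 / 2 * v ^ 2 := by
  have hd : ∀ x ∈ Set.uIcc (0 : ℝ) y, HasDerivAt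
      (fun x : ℝ => -(Real.exp (-(b * x ^ 2)) / (2 * b)))
      (x ^ 1 * Real.exp (-(b * x ^ 2))) x := by
    intro x _
    have e1 : HasDerivAt (fun x : ℝ => Real.exp (-(b * x ^ 2)))
        (Real.exp (-(b * x ^ 2)) * (-(b * (2 * x)))) x := by
      have := (((hasDerivAt_pow 2 x).const_mul b).neg).exp
      simpa using this
    refine (e1.div_const (2 * b)).neg.congr_deriv ?_
    field_simp
  have h := intervalIntegral.integral_eq_sub_of_hasDerivAt hd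
    (Continuous.intervalIntegrable (by fun_prop) _ _)
  unfold Mo
  rw [h]
  have h2 : 0 ≤ Real.exp (-(b * y ^ 2)) / (2 * b) := by positivity
  have h3 : Real.exp (-(b * 0 ^ 2)) = 1 := by simp
  rw [h3]
  have h4 : 1 / (2 * b) ≤ 1 / 2 * v ^ 2 := by
    rw [div_le_iff₀ (by positivity)]
    nlinarith
  linarith

/-- one step of the recursion -/
theorem Mo_step {b y v c : ℝ} (hb : 0 < b) (hy : 0 ≤ y) (hbv : 1 ≤ b * v ^ 2) {n : ℕ}
    (h : Mo n b y ≤ c * v ^ (n + 1)) :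
    Mo (n + 2) b y ≤ ((n + 1) / 2 * c) * v ^ (n + 3) := by
  refine (Mo_rec hb hy n).trans ?_
  have h0 := Mo_nonneg (b := b) hy n
  have h1 : (n + 1 : ℝ) / (2 * b) ≤ (n + 1) / 2 * v ^ 2 := by
    rw [div_le_iff₀ (by positivity)]
    have : (0 : ℝ) ≤ n + 1 := by positivity
    have h2 := mul_le_mul_of_nonneg_left hbv this
    linarith
  calc (n + 1 : ℝ) / (2 * b) * Mo n b y ≤ ((n + 1) / 2 * v ^ 2) * Mo n b y :=
        mul_le_mul_of_nonneg_right h1 h0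
    _ ≤ ((n + 1) / 2 * v ^ 2) * (c * v ^ (n + 1)) :=
        mul_le_mul_of_nonneg_left h (by positivity)
    _ = ((n + 1) / 2 * c) * v ^ (n + 3) := by ring

theorem L_eq {b y : ℝ} (j : ℕ) :
    ∫ x in (0 : ℝ)..y, x ^ j * (x + x ^ 2 + x ^ 3 + 5 / 3 * x ^ 4) * Real.exp (-(b * x ^ 2)) =
      Mo (j + 1) b y + Mo (j + 2) b y + Mo (j + 3) b y + 5 / 3 * Mo (j + 4) b y := by
  unfold Mo
  have hi : ∀ n : ℕ, IntervalIntegrable (fun x : ℝ => x ^ n * Real.exp (-(b * x ^ 2)))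
      volume 0 y := fun n => Continuous.intervalIntegrable (by fun_prop) _ _
  rw [← intervalIntegral.integral_const_mul, ← intervalIntegral.integral_add (hi _) (hi _),
    ← intervalIntegral.integral_add ((hi _).add (hi _)) (hi _),
    ← intervalIntegral.integral_add (((hi _).add (hi _)).add (hi _)) ((hi _).const_mul _)]
  congr 1
  funext x
  ring

theorem M1V {b y : ℝ} (hb : 0 < b) (hy0 : 0 ≤ y) (hy : y ≤ 2 / 5) :
    ∫ x in (0 : ℝ)..y, x / (1 - x) * Real.exp (-(b * x ^ 2 - 2 * b / 5 * x ^ 3)) ≤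
      (Mo 1 b y + Mo 2 b y + Mo 3 b y + 5 / 3 * Mo 4 b y) +
      2 * b / 5 * (Mo 4 b y + Mo 5 b y + Mo 6 b y + 5 / 3 * Mo 7 b y) +
      2 * b ^ 2 / 25 * (Mo 7 b y + Mo 8 b y + Mo 9 b y + 5 / 3 * Mo 10 b y) +
      4 * b ^ 3 / 375 * (Mo 10 (21 / 25 * b) y + Mo 11 (21 / 25 * b) y + Mo 12 (21 / 25 * b) y +
        5 / 3 * Mo 13 (21 / 25 * b) y) := by
  have h0 := L_eq (b := b) (y := y) 0
  have h3 := L_eq (b := b) (y := y) 3
  have h6 := L_eq (b := b) (y := y) 6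
  have h9 := L_eq (b := 21 / 25 * b) (y := y) 9
  norm_num only [Nat.reduceAdd, zero_add] at h0 h3 h6 h9
  rw [← h0, ← h3, ← h6, ← h9]
  have hi : ∀ (j : ℕ) (b : ℝ), IntervalIntegrable
      (fun x : ℝ => x ^ j * (x + x ^ 2 + x ^ 3 + 5 / 3 * x ^ 4) * Real.exp (-(b * x ^ 2)))
      volume 0 y := fun n b => Continuous.intervalIntegrable (by fun_prop) _ _
  rw [← intervalIntegral.integral_const_mul, ← intervalIntegral.integral_const_mul,
    ← intervalIntegral.integral_const_mul,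
    ← intervalIntegral.integral_add (hi _ _) ((hi _ _).const_mul _),
    ← intervalIntegral.integral_add ((hi _ _).add ((hi _ _).const_mul _)) ((hi _ _).const_mul _),
    ← intervalIntegral.integral_add (((hi _ _).add ((hi _ _).const_mul _)).add
      ((hi _ _).const_mul _)) ((hi _ _).const_mul _)]
  apply intervalIntegral.integral_mono_on hy0
  · apply ContinuousOn.intervalIntegrable
    rw [Set.uIcc_of_le hy0]
    apply ContinuousOn.mul _ (by fun_prop)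
    apply ContinuousOn.div continuousOn_id (by fun_prop)
    intro x hx
    have := hx.2
    have : (0 : ℝ) < 1 - x := by linarith
    exact this.ne'
  · exact Continuous.intervalIntegrable (by fun_prop) _ _
  · intro x hx
    have hx0 := hx.1
    have hx1 : x ≤ 2 / 5 := hx.2.trans hy
    obtain ⟨q, hq⟩ : ∃ q, q = x + x ^ 2 + x ^ 3 + 5 / 3 * x ^ 4 := ⟨_, rfl⟩
    obtain ⟨z, hz⟩ : ∃ z, z = 2 * b / 5 * x ^ 3 := ⟨_, rfl⟩
    have hq0 : 0 ≤ q := by rw [hq]; positivity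
    have hz0 : 0 ≤ z := by rw [hz]; positivity
    have h1 : x / (1 - x) ≤ q := by
      rw [div_le_iff₀ (by linarith), hq]
      have e1 : (x + x ^ 2 + x ^ 3 + 5 / 3 * x ^ 4) * (1 - x) = x + x ^ 4 * (2 / 3 - 5 / 3 * x) := by
        ring
      rw [e1]
      have : 0 ≤ x ^ 4 * (2 / 3 - 5 / 3 * x) := mul_nonneg (pow_nonneg hx0 4) (by linarith)
      linarith
    have h2 : Real.exp (-(b * x ^ 2 - 2 * b / 5 * x ^ 3)) ≤
        Real.exp (-(b * x ^ 2)) * (1 + z + z ^ 2 / 2) +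
          z ^ 3 / 6 * Real.exp (-(21 / 25 * b * x ^ 2)) := by
      rw [← hz]
      have e1 : Real.exp (-(b * x ^ 2 - z)) = Real.exp (-(b * x ^ 2)) * Real.exp z := by
        rw [← Real.exp_add]
        congr 1
        ring
      have h3 := mul_le_mul_of_nonneg_left (exp_le3 hz0) (Real.exp_pos (-(b * x ^ 2))).le
      have h4 : Real.exp (-(b * x ^ 2)) * Real.exp z ≤ Real.exp (-(21 / 25 * b * x ^ 2)) := by
        rw [← Real.exp_add]
        apply Real.exp_le_exp.2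
        have h5 : 0 ≤ b * x ^ 2 * (4 / 25 - 2 / 5 * x) := by
          apply mul_nonneg (by positivity)
          linarith
        have e2 : b * x ^ 2 * (4 / 25 - 2 / 5 * x) = 4 / 25 * b * x ^ 2 - z := by rw [hz]; ring
        linarith
      have h5 := mul_le_mul_of_nonneg_left h4 (by positivity : 0 ≤ z ^ 3 / 6)
      rw [e1]
      calc Real.exp (-(b * x ^ 2)) * Real.exp z ≤
          Real.exp (-(b * x ^ 2)) * (1 + z + z ^ 2 / 2 + z ^ 3 / 6 * Real.exp z) := h3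
        _ = Real.exp (-(b * x ^ 2)) * (1 + z + z ^ 2 / 2) +
            z ^ 3 / 6 * (Real.exp (-(b * x ^ 2)) * Real.exp z) := by ring
        _ ≤ _ := by linarith
    have h3 := mul_le_mul h1 h2 (Real.exp_pos _).le hq0
    refine h3.trans (le_of_eq ?_)
    rw [hz, hq]
    ring

/-- the numeric bound of the first moment -/
theorem M1V_num {b v y : ℝ} (hv0 : 0 < v) (hv : v ≤ 13 / 100) (hbv : b * v ^ 2 = 1)
    (hy0 : 0 ≤ y) (hy : y ≤ 2 / 5) :
    b * ∫ x in (0 : ℝ)..y, x / (1 - x) * Real.exp (-(b * x ^ 2 - 2 * b / 5 * x ^ 3)) ≤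
      1 / 2 + 71 / 100 * v + 57 / 50 * v ^ 2 + 19 / 5 * v ^ 3 := by
  have hb : b = (v ^ 2)⁻¹ := eq_inv_of_mul_eq_one_left hbv
  have hb0 : 0 < b := by rw [hb]; positivity
  have h := M1V hb0 hy0 hy
  have g0 := Mo_zero hb0 hy0 hv0.le hbv.ge
  have g1 := Mo_one (y := y) hb0 hbv.ge
  have g2 := Mo_step hb0 hy0 hbv.ge g0
  have g3 := Mo_step hb0 hy0 hbv.ge g1
  have g4 := Mo_step hb0 hy0 hbv.ge g2
  have g5 := Mo_step hb0 hy0 hbv.ge g3
  have g6 := Mo_step hb0 hy0 hbv.ge g4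
  have g7 := Mo_step hb0 hy0 hbv.ge g5
  have g8 := Mo_step hb0 hy0 hbv.ge g6
  have g9 := Mo_step hb0 hy0 hbv.ge g7
  have g10 := Mo_step hb0 hy0 hbv.ge g8
  obtain ⟨b', hb'⟩ : ∃ b', b' = 21 / 25 * b := ⟨_, rfl⟩
  have hb'0 : 0 < b' := by rw [hb']; positivity
  obtain ⟨v', hv'⟩ : ∃ v', v' = 682 / 625 * v := ⟨_, rfl⟩
  have hv'0 : 0 ≤ v' := by rw [hv']; positivity
  have hbv' : 1 ≤ b' * v' ^ 2 := by
    have : b' * v' ^ 2 = 21 / 25 * (682 / 625) ^ 2 * (b * v ^ 2) := by rw [hb', hv']; ring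
    rw [this, hbv]
    norm_num
  have k0 := Mo_zero hb'0 hy0 hv'0 hbv'
  have k1 := Mo_one (y := y) hb'0 hbv'
  have k2 := Mo_step hb'0 hy0 hbv' k0
  have k3 := Mo_step hb'0 hy0 hbv' k1
  have k4 := Mo_step hb'0 hy0 hbv' k2
  have k5 := Mo_step hb'0 hy0 hbv' k3
  have k6 := Mo_step hb'0 hy0 hbv' k4
  have k7 := Mo_step hb'0 hy0 hbv' k5
  have k8 := Mo_step hb'0 hy0 hbv' k6
  have k9 := Mo_step hb'0 hy0 hbv' k7
  have k10 := Mo_step hb'0 hy0 hbv' k8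
  have k11 := Mo_step hb'0 hy0 hbv' k9
  have k12 := Mo_step hb'0 hy0 hbv' k10
  have k13 := Mo_step hb'0 hy0 hbv' k11
  rw [← hb'] at h
  norm_num at g2 g3 g4 g5 g6 g7 g8 g9 g10 k2 k3 k4 k5 k6 k7 k8 k9 k10 k11 k12 k13
  have h1 : ∫ x in (0 : ℝ)..y, x / (1 - x) * Real.exp (-(b * x ^ 2 - 2 * b / 5 * x ^ 3)) ≤
      (1 / 2 * v ^ 2 + 4432 / 10000 * v ^ 3 + 1 / 2 * v ^ 4 + 5 / 3 * (6648 / 10000 * v ^ 5)) +
      2 * b / 5 * (6648 / 10000 * v ^ 5 + v ^ 6 + 1662 / 1000 * v ^ 7 + 5 / 3 * (3 * v ^ 8)) +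
      2 * b ^ 2 / 25 * (3 * v ^ 8 + 5817 / 1000 * v ^ 9 + 12 * v ^ 10 +
        5 / 3 * (26174 / 1000 * v ^ 11)) +
      4 * b ^ 3 / 375 * (26174 / 1000 * v' ^ 11 + 60 * v' ^ 12 + 14396 / 100 * v' ^ 13 +
        5 / 3 * (360 * v' ^ 14)) := by
    have p : ∀ n : ℕ, 0 ≤ v ^ n := fun n => pow_nonneg hv0.le n
    have p' : ∀ n : ℕ, 0 ≤ v' ^ n := fun n => pow_nonneg hv'0 n
    have q1 : Mo 4 b y + Mo 5 b y + Mo 6 b y + 5 / 3 * Mo 7 b y ≤
        6648 / 10000 * v ^ 5 + v ^ 6 + 1662 / 1000 * v ^ 7 + 5 / 3 * (3 * v ^ 8) := by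
      linarith [p 5, p 6, p 7, p 8]
    have q2 : Mo 7 b y + Mo 8 b y + Mo 9 b y + 5 / 3 * Mo 10 b y ≤
        3 * v ^ 8 + 5817 / 1000 * v ^ 9 + 12 * v ^ 10 + 5 / 3 * (26174 / 1000 * v ^ 11) := by
      linarith [p 8, p 9, p 10, p 11]
    have q3 : Mo 10 b' y + Mo 11 b' y + Mo 12 b' y + 5 / 3 * Mo 13 b' y ≤
        26174 / 1000 * v' ^ 11 + 60 * v' ^ 12 + 14396 / 100 * v' ^ 13 +
          5 / 3 * (360 * v' ^ 14) := by
      linarith [p' 11, p' 12, p' 13, p' 14]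
    have q1' := mul_le_mul_of_nonneg_left q1 (by positivity : 0 ≤ 2 * b / 5)
    have q2' := mul_le_mul_of_nonneg_left q2 (by positivity : 0 ≤ 2 * b ^ 2 / 25)
    have q3' := mul_le_mul_of_nonneg_left q3 (by positivity : 0 ≤ 4 * b ^ 3 / 375)
    have q0 : Mo 1 b y + Mo 2 b y + Mo 3 b y + 5 / 3 * Mo 4 b y ≤
        1 / 2 * v ^ 2 + 4432 / 10000 * v ^ 3 + 1 / 2 * v ^ 4 + 5 / 3 * (6648 / 10000 * v ^ 5) := by
      linarith [p 2, p 3, p 4, p 5]
    linarith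
  have h2 := mul_le_mul_of_nonneg_left h1 hb0.le
  refine h2.trans ?_
  rw [hv', hb]
  have e1 : (v ^ 2)⁻¹ * (1 / 2 * v ^ 2 + 4432 / 10000 * v ^ 3 + 1 / 2 * v ^ 4 +
      5 / 3 * (6648 / 10000 * v ^ 5) +
      2 * (v ^ 2)⁻¹ / 5 * (6648 / 10000 * v ^ 5 + v ^ 6 + 1662 / 1000 * v ^ 7 +
        5 / 3 * (3 * v ^ 8)) +
      2 * ((v ^ 2)⁻¹) ^ 2 / 25 * (3 * v ^ 8 + 5817 / 1000 * v ^ 9 + 12 * v ^ 10 +
        5 / 3 * (26174 / 1000 * v ^ 11)) +
      4 * ((v ^ 2)⁻¹) ^ 3 / 375 * (26174 / 1000 * (682 / 625 * v) ^ 11 +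
        60 * (682 / 625 * v) ^ 12 + 14396 / 100 * (682 / 625 * v) ^ 13 +
        5 / 3 * (360 * (682 / 625 * v) ^ 14))) =
      1 / 2 + (4432 / 10000 + 2 / 5 * (6648 / 10000)) * v + (1 / 2 + 2 / 5 + 6 / 25) * v ^ 2 +
      (5 / 3 * (6648 / 10000) + 2 / 5 * (1662 / 1000) + 2 / 25 * (5817 / 1000) +
        4 / 375 * (26174 / 1000) * (682 / 625) ^ 11) * v ^ 3 +
      (2 + 24 / 25 + 4 / 375 * 60 * (682 / 625) ^ 12) * v ^ 4 +
      (2 / 25 * (5 / 3) * (26174 / 1000) + 4 / 375 * (14396 / 100) * (682 / 625) ^ 13) * v ^ 5 +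
      4 / 375 * (5 / 3) * 360 * (682 / 625) ^ 14 * v ^ 6 := by
    field_simp
    ring
  rw [e1]
  have p3 : 0 ≤ v ^ 3 := by positivity
  have r4 : v ^ 4 ≤ 13 / 100 * v ^ 3 := by
    have : v ^ 4 = v * v ^ 3 := by ring
    rw [this]
    exact mul_le_mul_of_nonneg_right hv p3
  have r5 : v ^ 5 ≤ 169 / 10000 * v ^ 3 := by
    have e : v ^ 5 = v * v ^ 4 := by ring
    have : v * v ^ 4 ≤ 13 / 100 * (13 / 100 * v ^ 3) :=
      mul_le_mul hv r4 (by positivity) (by norm_num)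
    rw [e]
    linarith
  have r6 : v ^ 6 ≤ 2197 / 1000000 * v ^ 3 := by
    have e : v ^ 6 = v * v ^ 5 := by ring
    have : v * v ^ 5 ≤ 13 / 100 * (169 / 10000 * v ^ 3) :=
      mul_le_mul hv r5 (by positivity) (by norm_num)
    rw [e]
    linarith
  have s11 : ((682 : ℝ) / 625) ^ 11 ≤ 2613 / 1000 := by norm_num
  have s12 : ((682 : ℝ) / 625) ^ 12 ≤ 2852 / 1000 := by norm_num
  have s13 : ((682 : ℝ) / 625) ^ 13 ≤ 3112 / 1000 := by norm_num
  have s14 : ((682 : ℝ) / 625) ^ 14 ≤ 3396 / 1000 := by norm_num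
  have t3 := mul_le_mul_of_nonneg_right s11 p3
  have t4 := mul_le_mul s12 r4 (by positivity) (by norm_num)
  have t5 := mul_le_mul s13 r5 (by positivity) (by norm_num)
  have t6 := mul_le_mul s14 r6 (by positivity) (by norm_num)
  have p2 : 0 ≤ v ^ 2 := by positivity
  linarith

end Pool.Agent.Lib.MP_af3a4a_an.P1.H81
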