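import Pool.Agent.Lib.MP_af3a4a_an.P1.H81.ZoneA
import Pool.Agent.Lib.MP_af3a4a_an.P1.H81.MassVA

/-!
# MASS with the cubic profile `exp (-(b x² - 2b/5 x³))` (helper81, council 2)
-/

namespace Pool.Agent.Lib.MP_af3a4a_an.P1.H81

open MeasureTheory intervalIntegral Set
open Pool.Agent.Lib.MP_af3a4a_an.SV (uu av EE)
open Pool.Agent.Lib.MP_af3a4a_an.P1.H80

/-! ## The mass -/

theorem exp_tiny {t : ℝ} (ht : 19 / 2 ≤ t) : (1 + t) * Real.exp (-t) ≤ 1 / 40 := by
  have h1 : (80 : ℝ) ≤ Real.exp (19 / 4) := by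
    have h2 := Real.exp_one_gt_d9
    have h3 : Real.exp (19 / 4) = Real.exp 1 ^ 4 * Real.exp (3 / 4) := by
      rw [← Real.exp_nat_mul, ← Real.exp_add]
      norm_num
    rw [h3]
    have h4 : (2.7182818283 : ℝ) ^ 4 ≤ Real.exp 1 ^ 4 :=
      pow_le_pow_left₀ (by norm_num) h2.le 4
    have h5 : (7 / 4 : ℝ) ≤ Real.exp (3 / 4) := by
      have := Real.add_one_le_exp (3 / 4 : ℝ)
      linarith
    have h6 : (2.7182818283 : ℝ) ^ 4 * (7 / 4) ≤ Real.exp 1 ^ 4 * Real.exp (3 / 4) :=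
      mul_le_mul h4 h5 (by norm_num) (by positivity)
    refine le_trans ?_ h6
    norm_num
  have h2 : (80 : ℝ) ≤ Real.exp (t / 2) := h1.trans (Real.exp_le_exp.2 (by linarith))
  have h3 : 1 + t / 2 ≤ Real.exp (t / 2) := by
    have := Real.add_one_le_exp (t / 2)
    linarith
  have h4 : Real.exp (-t) * (Real.exp (t / 2) * Real.exp (t / 2)) = 1 := by
    rw [← Real.exp_add, ← Real.exp_add]
    rw [Real.exp_eq_one_iff]
    ring
  have hE := Real.exp_pos (-t)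
  have hP := Real.exp_pos (t / 2)
  -- `(1 + t) ≤ 2 e^{t/2}`, `1 = e^{-t} e^{t/2} e^{t/2} ≥ 80 e^{-t} e^{t/2}`
  have h5 : 80 * (Real.exp (-t) * Real.exp (t / 2)) ≤ 1 := by
    have := mul_le_mul_of_nonneg_left h2 (by positivity : 0 ≤ Real.exp (-t) * Real.exp (t / 2))
    nlinarith
  have h6 : (1 + t) * Real.exp (-t) ≤ (2 * Real.exp (t / 2)) * Real.exp (-t) :=
    mul_le_mul_of_nonneg_right (by linarith) hE.le
  linarith

theorem M0V {b y : ℝ} (hb : 0 < b) (hy0 : 0 < y) (hy : y ≤ 2 / 5) :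
    88622 / 100000 / Real.sqrt b - Real.exp (-(b * y ^ 2)) / (2 * b * y) +
      2 * b / 5 * (1 / (2 * b ^ 2) - Real.exp (-(b * y ^ 2)) * (y ^ 2 / (2 * b) +
        1 / (2 * b ^ 2))) ≤
      ∫ x in (0 : ℝ)..y, Real.exp (-(b * x ^ 2 - 2 * b / 5 * x ^ 3)) := by
  have hd : ∀ x ∈ Set.uIcc (0 : ℝ) y, HasDerivAt
      (fun x : ℝ => -(Real.exp (-(b * x ^ 2)) * (x ^ 2 / (2 * b) + 1 / (2 * b ^ 2))))
      (x ^ 3 * Real.exp (-(b * x ^ 2))) x := by
    intro x _
    have e1 : HasDerivAt (fun x : ℝ => Real.exp (-(b * x ^ 2)))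
        (Real.exp (-(b * x ^ 2)) * (-(b * (2 * x)))) x := by
      have := (((hasDerivAt_pow 2 x).const_mul b).neg).exp
      simpa using this
    have e2 : HasDerivAt (fun x : ℝ => x ^ 2 / (2 * b) + 1 / (2 * b ^ 2)) (2 * x / (2 * b)) x := by
      have := ((hasDerivAt_pow 2 x).div_const (2 * b)).add_const (1 / (2 * b ^ 2))
      refine this.congr_deriv ?_
      norm_num
    refine (e1.mul e2).neg.congr_deriv ?_
    field_simp
    ring
  have hi3 : IntervalIntegrable (fun x : ℝ => x ^ 3 * Real.exp (-(b * x ^ 2))) volume 0 y :=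
    Continuous.intervalIntegrable (by fun_prop) _ _
  have h3 := intervalIntegral.integral_eq_sub_of_hasDerivAt hd hi3
  have e3 : (-(Real.exp (-(b * y ^ 2)) * (y ^ 2 / (2 * b) + 1 / (2 * b ^ 2)))) -
      (-(Real.exp (-(b * (0 : ℝ) ^ 2)) * ((0 : ℝ) ^ 2 / (2 * b) + 1 / (2 * b ^ 2)))) =
      1 / (2 * b ^ 2) - Real.exp (-(b * y ^ 2)) * (y ^ 2 / (2 * b) + 1 / (2 * b ^ 2)) := by
    simp
    ring
  rw [e3] at h3
  have h0 := gauss_lower hb hy0
  have hi0 : IntervalIntegrable (fun x : ℝ => Real.exp (-(b * x ^ 2))) volume 0 y :=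
    Continuous.intervalIntegrable (by fun_prop) _ _
  have h4 : (∫ x in (0 : ℝ)..y, Real.exp (-(b * x ^ 2))) +
      2 * b / 5 * ∫ x in (0 : ℝ)..y, x ^ 3 * Real.exp (-(b * x ^ 2)) ≤
      ∫ x in (0 : ℝ)..y, Real.exp (-(b * x ^ 2 - 2 * b / 5 * x ^ 3)) := by
    rw [← intervalIntegral.integral_const_mul, ← intervalIntegral.integral_add hi0
      (hi3.const_mul _)]
    apply intervalIntegral.integral_mono_on hy0.le
    · exact Continuous.intervalIntegrable (by fun_prop) _ _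
    · exact Continuous.intervalIntegrable (by fun_prop) _ _
    · intro x _
      have e1 : Real.exp (-(b * x ^ 2 - 2 * b / 5 * x ^ 3)) =
          Real.exp (-(b * x ^ 2)) * Real.exp (2 * b / 5 * x ^ 3) := by
        rw [← Real.exp_add]
        congr 1
        ring
      rw [e1]
      have h5 := mul_le_mul_of_nonneg_left (Real.add_one_le_exp (2 * b / 5 * x ^ 3))
        (Real.exp_pos (-(b * x ^ 2))).le
      linarith
  rw [h3] at h4
  linarith

/-- MASS with the cubic profile -/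
theorem mass_V {N : ℕ} {u : Fin N → ℂ} (hN1 : 1 ≤ N) (hu : ∀ k, ‖u k‖ ≤ 1) {b v y S g : ℝ}
    (hv0 : 0 < v) (hv : v ≤ 13 / 100) (hbv : b * v ^ 2 = 1) (hy0 : 0 < y) (hy : y ≤ 2 / 5)
    (hby : 19 / 2 ≤ b * y ^ 2) (hS : 0 < S) (hSq : SV.sq u ≤ S) (hg : g * (N * S) = b)
    (hq : ∀ x, 0 ≤ x → x ≤ y → ‖qq u x‖ ≤ Real.exp (-(b * x ^ 2 - 2 * b / 5 * x ^ 3))) :
    8851 / 10000 + v / 5 - 11 / 25 - (1 / 2 + 71 / 100 * v + 57 / 50 * v ^ 2 + 19 / 5 * v ^ 3
      - (1 - 1 / 1000) * g) / (11 / 25) ≤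
      (N * ‖∫ x in (0 : ℝ)..y, qq u x‖) * (b * v / N + ‖av u‖ * g / (11 / 25)) := by
  have hNpos : (0 : ℝ) < N := by exact_mod_cast (show 0 < N by omega)
  have hb : b = (v ^ 2)⁻¹ := eq_inv_of_mul_eq_one_left hbv
  have hb0 : 0 < b := by rw [hb]; positivity
  have hg0 : 0 < g := by
    by_contra hn
    push Not at hn
    have : g * (N * S) ≤ 0 := mul_nonpos_of_nonpos_of_nonneg hn (by positivity)
    linarith
  obtain ⟨β, hβ⟩ : ∃ β, β = b * v := ⟨_, rfl⟩
  have hβ0 : 0 < β := by rw [hβ]; positivity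
  have hβ2 : β ^ 2 = b := by
    rw [hβ]
    calc (b * v) ^ 2 = b * (b * v ^ 2) := by ring
      _ = b := by rw [hbv, mul_one]
  have hβs : Real.sqrt b = β := by
    rw [← hβ2]
    exact Real.sqrt_sq hβ0.le
  have hβv : β * v = 1 := by rw [hβ, ← hbv]; ring
  obtain ⟨E, hE⟩ : ∃ E, E = Real.exp (-(b * y ^ 2)) := ⟨_, rfl⟩
  have hE0 : 0 < E := by rw [hE]; exact Real.exp_pos _
  have hE1 : (1 + b * y ^ 2) * E ≤ 1 / 40 := by rw [hE]; exact exp_tiny hby
  have hE2 : E ≤ 1 / 420 := by nlinarith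
  have hqe : ∀ x ∈ Set.Icc (0 : ℝ) y,
      ‖qq u x‖ ≤ Real.exp (-(b * x ^ 2 - 2 * b / 5 * x ^ 3)) := fun x hx => hq x hx.1 hx.2
  have hT : ‖qq u y‖ ≤ 1 / 1000 := by
    refine (hqe y ⟨hy0.le, le_rfl⟩).trans ?_
    have h1 : Real.exp (-(b * y ^ 2 - 2 * b / 5 * y ^ 3)) ≤ Real.exp (-(399 / 50)) := by
      apply Real.exp_le_exp.2
      have h2 : 0 ≤ b * y ^ 2 * (4 / 25 - 2 / 5 * y) :=
        mul_nonneg (by positivity) (by linarith)
      have h3 : b * y ^ 2 * (4 / 25 - 2 / 5 * y) = 4 / 25 * (b * y ^ 2) - 2 * b / 5 * y ^ 3 := by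
        ring
      linarith
    refine h1.trans ?_
    have h2 := Real.exp_one_gt_d9
    have h3 : Real.exp (399 / 50) = Real.exp 1 ^ 7 * Real.exp (49 / 50) := by
      rw [← Real.exp_nat_mul, ← Real.exp_add]
      norm_num
    have h4 : (2.7182818283 : ℝ) ^ 7 ≤ Real.exp 1 ^ 7 :=
      pow_le_pow_left₀ (by norm_num) h2.le 7
    have h5 : (1 : ℝ) ≤ Real.exp (49 / 50) := by
      have := Real.add_one_le_exp (49 / 50 : ℝ)
      linarith
    have h6 : (1000 : ℝ) ≤ Real.exp (399 / 50) := by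
      rw [h3]
      have h7 : (2.7182818283 : ℝ) ^ 7 * 1 ≤ Real.exp 1 ^ 7 * Real.exp (49 / 50) :=
        mul_le_mul h4 h5 (by norm_num) (by positivity)
      refine le_trans ?_ h7
      norm_num
    rw [Real.exp_neg, one_div]
    exact inv_anti₀ (by norm_num) h6
  have ht0 : 0 < 11 / 25 * v := by positivity
  have hvy : 11 / 25 * v ≤ y := by
    by_contra hn
    push Not at hn
    have h1 : b * y ^ 2 ≤ b * (11 / 25 * v) ^ 2 :=
      mul_le_mul_of_nonneg_left (pow_le_pow_left₀ hy0.le hn.le 2) hb0.le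
    have h2 : b * (11 / 25 * v) ^ 2 = 121 / 625 * (b * v ^ 2) := by ring
    rw [h2, hbv] at h1
    linarith
  have h := mass hN1 hu (T := 1 / 1000) ht0 hvy (by linarith) hS hSq
    (e := fun x => Real.exp (-(b * x ^ 2 - 2 * b / 5 * x ^ 3))) (by fun_prop) hqe
    (fun x hx => by
      rw [Real.exp_le_one_iff]
      have h1 : 0 ≤ b * x ^ 2 * (1 - 2 / 5 * x) :=
        mul_nonneg (by positivity) (by linarith [hx.2])
      linarith) hT
  have hM0 := M0V hb0 hy0 hy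
  have hM1 := M1V_num hv0 hv hbv hy0.le hy
  rw [hβs, ← hE] at hM0
  set J := ‖∫ x in (0 : ℝ)..y, qq u x‖ with hJ
  have hJ0 : 0 ≤ J := norm_nonneg _
  set A := ∫ x in (0 : ℝ)..y, Real.exp (-(b * x ^ 2 - 2 * b / 5 * x ^ 3))
  set D := ∫ x in (0 : ℝ)..y, x / (1 - x) * Real.exp (-(b * x ^ 2 - 2 * b / 5 * x ^ 3))
  have h1 := mul_le_mul_of_nonneg_left h hβ0.le
  have e2 : β * (A - 11 / 25 * v - (D - (1 - 1 / 1000) / (N * S)) / (11 / 25 * v)) =
      β * A - 11 / 25 - (b * D - (1 - 1 / 1000) * g) / (11 / 25) := by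
    have e3 : b / (N * S) = g := by
      rw [← hg]
      field_simp
    have e4 : (1 - 1 / 1000) * g = b * ((1 - 1 / 1000) / (N * S)) := by
      rw [← e3]
      ring
    rw [e4, ← mul_sub]
    have e5 : β * ((D - (1 - 1 / 1000) / (N * S)) / (11 / 25 * v)) =
        b * (D - (1 - 1 / 1000) / (N * S)) / (11 / 25) := by
      rw [hβ]
      field_simp
    rw [mul_sub, mul_sub, e5]
    have e6 : β * (11 / 25 * v) = 11 / 25 := by
      rw [show β * (11 / 25 * v) = 11 / 25 * (β * v) by ring, hβv, mul_one]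
    rw [e6]
  have e7 : β * (J * (1 + ‖av u‖ / (S * (11 / 25 * v)))) =
      (N * J) * (b * v / N + ‖av u‖ * g / (11 / 25)) := by
    have e3 : g = b / (N * S) := by
      rw [← hg]
      field_simp
    rw [e3, hβ]
    have e8 : b * v * (J * (1 + ‖av u‖ / (S * (11 / 25 * v)))) =
        J * (b * v + ‖av u‖ * b / (S * (11 / 25))) := by
      field_simp
    rw [e8]
    field_simp
  rw [e2, e7] at h1
  refine le_trans ?_ h1
  have h2 : 8851 / 10000 + v / 5 ≤ β * A := by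
    have h3 := mul_le_mul_of_nonneg_left hM0 hβ0.le
    refine le_trans ?_ h3
    have e9 : β * (88622 / 100000 / β - E / (2 * b * y) + 2 * b / 5 * (1 / (2 * b ^ 2) -
        E * (y ^ 2 / (2 * b) + 1 / (2 * b ^ 2)))) =
        88622 / 100000 - E / (2 * (β * y)) + v / 5 * (1 - (1 + b * y ^ 2) * E) := by
      have e10 : v = 1 / β := by
        rw [eq_div_iff hβ0.ne']
        linarith
      rw [e10, ← hβ2]
      field_simp
      ring
    rw [e9]
    have h4 : E / (2 * (β * y)) ≤ 1 / 2500 := by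
      have h5 : 3 ≤ β * y := by
        have h6 : (3 : ℝ) ^ 2 ≤ (β * y) ^ 2 := by
          rw [mul_pow, hβ2]
          linarith
        exact le_of_sq_le_sq h6 (by positivity)
      rw [div_le_div_iff₀ (by positivity) (by norm_num)]
      linarith
    have h5 : 0 ≤ v / 5 * (1 / 40 - (1 + b * y ^ 2) * E) :=
      mul_nonneg (by positivity) (by linarith)
    linarith
  have h4 : (b * D - (1 - 1 / 1000) * g) / (11 / 25) ≤
      (1 / 2 + 71 / 100 * v + 57 / 50 * v ^ 2 + 19 / 5 * v ^ 3 - (1 - 1 / 1000) * g) /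
        (11 / 25) :=
    div_le_div_of_nonneg_right (by linarith) (by norm_num)
  linarith

end Pool.Agent.Lib.MP_af3a4a_an.P1.H81
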