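import Pool.Agent.Lib.MP_af3a4a_an.P1.H81.ZoneA2

/-!
# Zone A: `N ≥ 250`, `R ≤ 4/5`, `N R² ≥ 484/25`, `Re m ≤ R/20` (helper81, council 2)
-/

namespace Pool.Agent.Lib.MP_af3a4a_an.P1.H81

open MeasureTheory intervalIntegral Set ComplexConjugate
open Pool.Agent.Lib.MP_af3a4a_an.SV (uu av EE)
open Pool.Agent.Lib.MP_af3a4a_an.P1.H80
open Pool.Agent.Lib.MP_af3a4a_an.P1.H74

/-- MASS with the Gaussian `exp (-37/100 N x²)`, `S = 1` -/
theorem mass_gauss2 {N : ℕ} {u : Fin N → ℂ} (hN : 250 ≤ N) (hu : ∀ k, ‖u k‖ ≤ 1) {y : ℝ}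
    (hy0 : 0 < y) (hy : y ≤ 153 / 500) (hby : 33 / 10 ≤ 37 / 100 * N * y ^ 2)
    (hr : ‖av u‖ ≤ 317 / 1000)
    (hq : ∀ x, 0 ≤ x → x ≤ y → ‖qq u x‖ ≤ Real.exp (-(37 / 100 * N * x ^ 2))) :
    88 / 1000 ≤ N * ‖∫ x in (0 : ℝ)..y, qq u x‖ := by
  have hN1 : 1 ≤ N := by omega
  have hNr : (250 : ℝ) ≤ N := by exact_mod_cast hN
  have hNpos : (0 : ℝ) < N := by linarith
  obtain ⟨b, hb⟩ : ∃ b : ℝ, b = 37 / 100 * N := ⟨_, rfl⟩
  rw [← hb] at hby
  have hb150 : 92 ≤ b := by linarith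
  have hb0 : 0 < b := by linarith
  obtain ⟨β, hβ⟩ : ∃ β, β = Real.sqrt b := ⟨_, rfl⟩
  have hβ0 : 0 < β := by rw [hβ]; exact Real.sqrt_pos.2 hb0
  have hβ2 : β ^ 2 = b := by rw [hβ]; exact Real.sq_sqrt hb0.le
  have hβ12 : 959 / 100 ≤ β := by
    rw [hβ]
    apply Real.le_sqrt_of_sq_le
    linarith
  have hβy : 181 / 100 ≤ β * y := by
    have h1 : (181 / 100 : ℝ) ^ 2 ≤ (β * y) ^ 2 := by
      rw [mul_pow, hβ2]
      norm_num
      linarith
    exact le_of_sq_le_sq h1 (by positivity)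
  obtain ⟨E, hE⟩ : ∃ E, E = Real.exp (-(b * y ^ 2)) := ⟨_, rfl⟩
  have hE0 : 0 < E := by rw [hE]; exact Real.exp_pos _
  have hqe : ∀ x ∈ Set.Icc (0 : ℝ) y, ‖qq u x‖ ≤ Real.exp (-(b * x ^ 2)) := by
    intro x hx
    rw [hb]
    exact hq x hx.1 hx.2
  have hT : ‖qq u y‖ ≤ E := by
    rw [hE]
    exact hqe y ⟨hy0.le, le_rfl⟩
  have ht0 : 0 < 43 / 100 / β := by positivity
  have hty : 43 / 100 / β ≤ y := by
    rw [div_le_iff₀ hβ0]
    linarith
  have h := mass hN1 hu (T := E) ht0 hty (by linarith) one_pos (sq_le_one' hN1 hu)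
    (e := fun x => Real.exp (-(b * x ^ 2))) (by fun_prop) hqe
    (fun x _ => by
      rw [Real.exp_le_one_iff]
      have : 0 ≤ b * x ^ 2 := by positivity
      linarith) hT
  have hM0 := gauss_lower hb0 hy0
  have hM0' := gauss_upper hb0 hy0.le
  have hM1 : ∫ x in (0 : ℝ)..y, x / (1 - x) * Real.exp (-(b * x ^ 2)) ≤
      1 / (2 * b) + 29 / 20 / (2 * b ^ 2) +
        (∫ x in (0 : ℝ)..y, Real.exp (-(b * x ^ 2))) / (2 * b) - E *
        (1 / (2 * b) + y / (2 * b) + 29 / 20 / (2 * b) * (y ^ 2 + 1 / b)) := by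
    rw [hE, ← mom_y hb0]
    apply intervalIntegral.integral_mono_on hy0.le
    · apply ContinuousOn.intervalIntegrable
      rw [Set.uIcc_of_le hy0.le]
      apply ContinuousOn.mul _ (by fun_prop)
      apply ContinuousOn.div continuousOn_id (by fun_prop)
      intro x hx
      have := hx.2
      have : (0 : ℝ) < 1 - x := by linarith
      exact this.ne'
    · exact Continuous.intervalIntegrable (by fun_prop) _ _
    · intro x hx
      apply mul_le_mul_of_nonneg_right _ (Real.exp_pos _).le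
      have hx1 : 0 < 1 - x := by linarith [hx.2]
      rw [div_le_iff₀ hx1]
      have e1 : (x + x ^ 2 + 29 / 20 * x ^ 3) * (1 - x) = x + x ^ 3 * (9 / 20 - 29 / 20 * x) := by
        ring
      rw [e1]
      have h3 : 0 ≤ x ^ 3 * (9 / 20 - 29 / 20 * x) :=
        mul_nonneg (pow_nonneg hx.1 3) (by linarith [hx.2])
      linarith
  rw [← hβ] at hM0 hM0'
  rw [← hE] at hM0
  set J := ‖∫ x in (0 : ℝ)..y, qq u x‖ with hJ
  have hJ0 : 0 ≤ J := norm_nonneg _
  set A := ∫ x in (0 : ℝ)..y, Real.exp (-(b * x ^ 2))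
  set D := ∫ x in (0 : ℝ)..y, x / (1 - x) * Real.exp (-(b * x ^ 2))
  have h1 : β * (A - 43 / 100 / β - (D - (1 - E) / (N * 1)) / (43 / 100 / β)) ≤
      β * (J * (1 + ‖av u‖ / (1 * (43 / 100 / β)))) := mul_le_mul_of_nonneg_left h hβ0.le
  have e1 : ‖av u‖ / (1 * (43 / 100 / β)) = ‖av u‖ * β / (43 / 100) := by
    field_simp
  have e2 : β * (A - 43 / 100 / β - (D - (1 - E) / (N * 1)) / (43 / 100 / β)) =
      β * A - 43 / 100 - (b * D - 37 / 100 * (1 - E)) / (43 / 100) := by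
    have e3 : b * ((1 - E) / (N * 1)) = 37 / 100 * (1 - E) := by
      rw [hb]
      field_simp
    rw [← e3, ← hβ2]
    field_simp
  rw [e1, e2] at h1
  have h2 : 88622 / 100000 - 277 / 1000 * E ≤ β * A := by
    have h3 := mul_le_mul_of_nonneg_left hM0 hβ0.le
    have e3 : β * (88622 / 100000 / β - E / (2 * b * y)) = 88622 / 100000 - E / (2 * (β * y)) := by
      rw [← hβ2]
      field_simp
    have h4 : E / (2 * (β * y)) ≤ E / (2 * (181 / 100)) :=
      div_le_div_of_nonneg_left hE0.le (by norm_num) (by linarith)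
    rw [e3] at h3
    norm_num at h4 h3 ⊢
    linarith
  have h3 : b * D ≤ 1 / 2 + 29 / 40 / b + 4432 / 10000 / β - E / 2 := by
    have h4 := mul_le_mul_of_nonneg_left hM1 hb0.le
    have e3 : b * (1 / (2 * b) + 29 / 20 / (2 * b ^ 2) + A / (2 * b) - E *
        (1 / (2 * b) + y / (2 * b) + 29 / 20 / (2 * b) * (y ^ 2 + 1 / b))) =
        1 / 2 + 29 / 40 / b + A / 2 - E / 2 - E * (y / 2 + 29 / 40 * (y ^ 2 + 1 / b)) := by
      field_simp
      ring
    rw [e3] at h4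
    have h5 : 0 ≤ E * (y / 2 + 29 / 40 * (y ^ 2 + 1 / b)) := by positivity
    have h6 : A / 2 ≤ 4432 / 10000 / β := by
      have h7 : 8863 / 10000 / β / 2 ≤ 4432 / 10000 / β := by
        rw [div_div, div_le_div_iff₀ (by positivity) hβ0]
        linarith
      linarith
    linarith
  have h4 : b * D - 37 / 100 * (1 - E) ≤ 1842 / 10000 - 13 / 100 * E := by
    have h5 : 29 / 40 / b ≤ 29 / 40 / 92 :=
      div_le_div_of_nonneg_left (by norm_num) (by norm_num) hb150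
    have h6 : 4432 / 10000 / β ≤ 4432 / 10000 / (959 / 100) :=
      div_le_div_of_nonneg_left (by norm_num) (by norm_num) hβ12
    norm_num at h5 h6 ⊢
    linarith
  have hPhi : 278 / 10000 ≤ β * (J * (1 + ‖av u‖ * β / (43 / 100))) := by
    refine le_trans ?_ h1
    have h5 : (b * D - 37 / 100 * (1 - E)) / (43 / 100) ≤
        (1842 / 10000 - 13 / 100 * E) / (43 / 100) :=
      div_le_div_of_nonneg_right h4 (by norm_num)
    linarith
  have h6 : β * (1 + ‖av u‖ * β / (43 / 100)) ≤ 313 / 1000 * N := by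
    have h8 : β * (‖av u‖ * β / (43 / 100)) = ‖av u‖ * (b / (43 / 100)) := by
      rw [← hβ2]; ring
    have h9 : β ≤ b / (959 / 100) := by
      rw [le_div_iff₀ (by norm_num), ← hβ2]
      nlinarith
    have h10 : ‖av u‖ * (b / (43 / 100)) ≤ 317 / 1000 * (b / (43 / 100)) :=
      mul_le_mul_of_nonneg_right hr (by positivity)
    have h11 : b / (959 / 100) + 317 / 1000 * (b / (43 / 100)) ≤ 313 / 1000 * N := by
      rw [hb]
      norm_num
      linarith
    calc β * (1 + ‖av u‖ * β / (43 / 100)) = β + β * (‖av u‖ * β / (43 / 100)) := by ring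
      _ ≤ 313 / 1000 * N := by rw [h8]; linarith
  have h7 : 278 / 10000 ≤ J * (313 / 1000 * N) := by
    calc (278 : ℝ) / 10000 ≤ β * (J * (1 + ‖av u‖ * β / (43 / 100))) := hPhi
      _ = J * (β * (1 + ‖av u‖ * β / (43 / 100))) := by ring
      _ ≤ J * (313 / 1000 * N) := mul_le_mul_of_nonneg_left h6 hJ0
  linarith

/-- `N e^{-N/32} ≤ 13/125` for `N ≥ 250` -/
theorem N_exp3 {N : ℝ} (hN : 250 ≤ N) : N * Real.exp (-(N * (1 / 32))) ≤ 13 / 125 := by
  have h1 : (2421 : ℝ) ≤ Real.exp (125 / 16) := by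
    have h2 := Real.exp_one_gt_d9
    have h3 : Real.exp (125 / 16) = Real.exp 1 ^ 8 * Real.exp (-(3 / 16)) := by
      rw [← Real.exp_nat_mul, ← Real.exp_add]
      norm_num
    rw [h3]
    have h4 : (2.7182818283 : ℝ) ^ 8 ≤ Real.exp 1 ^ 8 :=
      pow_le_pow_left₀ (by norm_num) h2.le 8
    have h5 : (13 / 16 : ℝ) ≤ Real.exp (-(3 / 16)) := by
      have := Real.add_one_le_exp (-(3 / 16 : ℝ))
      linarith
    have h6 : (2.7182818283 : ℝ) ^ 8 * (13 / 16) ≤ Real.exp 1 ^ 8 * Real.exp (-(3 / 16)) :=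
      mul_le_mul h4 h5 (by norm_num) (by positivity)
    refine le_trans ?_ h6
    norm_num
  have h3 : N / 250 ≤ Real.exp ((N - 250) / 32) := by
    have := Real.add_one_le_exp ((N - 250) / 32)
    linarith
  have h4 : 125 / 13 * N ≤ Real.exp (N * (1 / 32)) := by
    have e1 : Real.exp (N * (1 / 32)) = Real.exp (125 / 16) * Real.exp ((N - 250) / 32) := by
      rw [← Real.exp_add]
      congr 1
      ring
    rw [e1]
    have h5 : (2421 : ℝ) * (N / 250) ≤ Real.exp (125 / 16) * Real.exp ((N - 250) / 32) :=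
      mul_le_mul h1 h3 (by positivity) (Real.exp_pos _).le
    refine le_trans ?_ h5
    linarith
  rw [Real.exp_neg]
  have hE : 0 < Real.exp (N * (1 / 32)) := Real.exp_pos _
  rw [← div_eq_mul_inv, div_le_iff₀ hE]
  linarith

/-- the exponent of V2* for `0 ≤ m1 ≤ R/20` -/
theorem expo_A3 {R x m1 : ℝ} (hR : 0 < R) (hx0 : 0 ≤ x)
    (hm0 : 0 ≤ m1) (hm : m1 ≤ R / 20) :
    9 / 10 * (x ^ 2 / 2 - x ^ 3 / 3) + x * (R - x) / (20 * (1 + x) ^ 2) ≤
      hV x + gV R (x / R) * R * m1 ∨ x ^ 2 / 2 - x ^ 3 / 3 ≤ hV x + gV R (x / R) * R * m1 := by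
  have hh := hV_ge hx0
  have hxR : x / R * R = x := by field_simp
  rcases le_or_gt 0 (gV R (x / R)) with h1 | h1
  · right
    have : 0 ≤ gV R (x / R) * R * m1 := by positivity
    linarith
  · left
    have h2 : gV R (x / R) * R * (R / 20) ≤ gV R (x / R) * R * m1 := by
      have : 0 ≤ -(gV R (x / R) * R) := by
        have := mul_pos_of_neg_of_neg h1 (neg_neg_of_pos hR)
        linarith
      have h3 := mul_le_mul_of_nonneg_left hm this
      linarith
    have h4 : gV R (x / R) * R * (R / 20) =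
        x * (R - x) / (20 * (1 + x) ^ 2) - 1 / 10 * hV x := by
      unfold gV
      rw [hxR]
      have : 0 < 1 + x := by linarith
      field_simp
      ring
    rw [h4] at h2
    linarith

theorem qq_A3 {N : ℕ} (hN : 1 ≤ N) {w : Fin N → ℂ} {R x : ℝ} (hw : ∀ k, 1 ≤ ‖w k‖)
    (ht : ∑ k, ‖w k - (R : ℂ)‖ ≤ N) (hR : 0 < R) (hR1 : R ≤ 4 / 5) (hx0 : 0 ≤ x)
    (hx : x ≤ 17 / 25 * R) (hm : (av (uu w)).re ≤ R / 20) :
    ‖qq (uu w) x‖ ≤ Real.exp (-(N * (9 / 10 * (x ^ 2 / 2 - x ^ 3 / 3)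
      + x * (R - x) / (20 * (1 + x) ^ 2)))) ∨
      ‖qq (uu w) x‖ ≤ Real.exp (-(N * (x ^ 2 / 2 - x ^ 3 / 3))) := by
  have hNpos : (0 : ℝ) < N := by exact_mod_cast hN
  have hl1 : x / R ≤ 1 := by
    rw [div_le_one hR]
    linarith
  have hD := dual_V2 (l := x / R) hR hR1 (by positivity) hl1
  have hxR : x / R * R = x := by field_simp
  rw [hxR] at hD
  have h := hD.qq_le hN hw ht
  have hm0 := m1_nonneg hN hw ht hR
  rcases expo_A3 hR hx0 hm0 hm with h1 | h1
  · left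
    refine h.trans (Real.exp_le_exp.2 (neg_le_neg ?_))
    exact mul_le_mul_of_nonneg_left h1 hNpos.le
  · right
    refine h.trans (Real.exp_le_exp.2 (neg_le_neg ?_))
    exact mul_le_mul_of_nonneg_left h1 hNpos.le

/-- the Gaussian bound for `x ≤ 153/500` -/
theorem qq_A13 {N : ℕ} (hN : 1 ≤ N) {w : Fin N → ℂ} {R x : ℝ} (hw : ∀ k, 1 ≤ ‖w k‖)
    (ht : ∑ k, ‖w k - (R : ℂ)‖ ≤ N) (hR : 0 < R) (hR1 : R ≤ 4 / 5) (hx0 : 0 ≤ x)
    (hx : x ≤ 17 / 25 * R) (hx2 : x ≤ 153 / 500) (hm : (av (uu w)).re ≤ R / 20) :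
    ‖qq (uu w) x‖ ≤ Real.exp (-(37 / 100 * N * x ^ 2)) := by
  have hNpos : (0 : ℝ) < N := by exact_mod_cast hN
  rcases qq_A3 hN hw ht hR hR1 hx0 hx hm with h | h
  · refine h.trans (Real.exp_le_exp.2 (neg_le_neg ?_))
    have h1 : 37 / 100 * x ^ 2 ≤ 9 / 10 * (x ^ 2 / 2 - x ^ 3 / 3)
        + x * (R - x) / (20 * (1 + x) ^ 2) := by
      have h2 : 13 / 1000 * x ^ 2 ≤ x * (R - x) / (20 * (1 + x) ^ 2) := by
        rw [le_div_iff₀ (by positivity)]
        have h3 : 8 / 17 * x ≤ R - x := by linarith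
        have h4 : (1 + x) ^ 2 ≤ 853 / 500 := by nlinarith
        have h5 : 13 / 1000 * x ^ 2 * (20 * (1 + x) ^ 2) ≤ 13 / 1000 * x ^ 2 * (20 * (853 / 500)) := by
          apply mul_le_mul_of_nonneg_left _ (by positivity)
          linarith
        have h6 : x * (8 / 17 * x) ≤ x * (R - x) := mul_le_mul_of_nonneg_left h3 hx0
        nlinarith [sq_nonneg x]
      have h7 : 0 ≤ x ^ 2 * (463 / 1000 - 3 / 10 * x - 37 / 100) :=
        mul_nonneg (sq_nonneg x) (by linarith)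
      nlinarith
    have h8 := mul_le_mul_of_nonneg_left h1 hNpos.le
    linarith
  · refine h.trans (Real.exp_le_exp.2 (neg_le_neg ?_))
    have h1 : 37 / 100 * x ^ 2 ≤ x ^ 2 / 2 - x ^ 3 / 3 := by
      have h7 : 0 ≤ x ^ 2 * (1 / 2 - 1 / 3 * x - 37 / 100) :=
        mul_nonneg (sq_nonneg x) (by linarith)
      nlinarith
    have h8 := mul_le_mul_of_nonneg_left h1 hNpos.le
    linarith

/-- the bound for `x ≥ 3/10` -/
theorem qq_A23 {N : ℕ} (hN : 1 ≤ N) {w : Fin N → ℂ} {R x : ℝ} (hw : ∀ k, 1 ≤ ‖w k‖)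
    (ht : ∑ k, ‖w k - (R : ℂ)‖ ≤ N) (hR : 0 < R) (hR1 : R ≤ 4 / 5) (hx0 : 3 / 10 ≤ x)
    (hx : x ≤ 17 / 25 * R) (hm : (av (uu w)).re ≤ R / 20) :
    ‖qq (uu w) x‖ ≤ Real.exp (-(N * (1 / 32))) := by
  have hNpos : (0 : ℝ) < N := by exact_mod_cast hN
  have hc : 9 / 250 ≤ x ^ 2 / 2 - x ^ 3 / 3 := by
    have hx1 : x ≤ 3 / 5 := by linarith
    nlinarith [mul_nonneg (sub_nonneg.2 hx0) (sub_nonneg.2 hx1),
      mul_nonneg (mul_nonneg (sub_nonneg.2 hx0) (sub_nonneg.2 hx1)) (by linarith : 0 ≤ x)]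
  rcases qq_A3 hN hw ht hR hR1 (by linarith) hx hm with h | h
  · refine h.trans (Real.exp_le_exp.2 (neg_le_neg ?_))
    have h2 : 0 ≤ x * (R - x) / (20 * (1 + x) ^ 2) :=
      div_nonneg (mul_nonneg (by linarith) (by linarith)) (by positivity)
    exact mul_le_mul_of_nonneg_left (by linarith) hNpos.le
  · refine h.trans (Real.exp_le_exp.2 (neg_le_neg ?_))
    exact mul_le_mul_of_nonneg_left (by linarith) hNpos.le

/-- the lower bound of the integral up to `17/25 R` -/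
theorem int_A3 {N : ℕ} (hN : 250 ≤ N) {w : Fin N → ℂ} {R : ℝ} (hw : ∀ k, 1 ≤ ‖w k‖)
    (ht : ∑ k, ‖w k - (R : ℂ)‖ ≤ N) (hR : 0 < R) (hR1 : R ≤ 4 / 5)
    (hρ : 484 / 25 ≤ N * R ^ 2) (hm : (av (uu w)).re ≤ R / 20) :
    61 / 1000 ≤ N * ‖∫ x in (0 : ℝ)..(17 / 25 * R), qq (uu w) x‖ := by
  have hN1 : 1 ≤ N := by omega
  have hNr : (250 : ℝ) ≤ N := by exact_mod_cast hN
  have hu : ∀ k, ‖uu w k‖ ≤ 1 := by
    intro k
    unfold uu
    rw [norm_inv]
    exact inv_le_one_of_one_le₀ (hw k)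
  have hr : ‖av (uu w)‖ ≤ 317 / 1000 := by
    have h1 := first_moment hN1 hw ht hR
    have h2 : R * ‖av (uu w)‖ ^ 2 ≤ R * (1 / 10) := by linarith
    have h3 : ‖av (uu w)‖ ^ 2 ≤ 1 / 10 := le_of_mul_le_mul_left h2 hR
    have h4 : ‖av (uu w)‖ ^ 2 ≤ (317 / 1000) ^ 2 := h3.trans (by norm_num)
    exact le_of_sq_le_sq h4 (by norm_num)
  rcases le_or_gt R (9 / 20) with hc | hc
  · have h := mass_gauss2 hN hu (y := 17 / 25 * R) (by positivity) (by linarith)
      (by nlinarith) hr (fun x hx0 hx => qq_A13 hN1 hw ht hR hR1 hx0 hx (by linarith) hm)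
    linarith
  · have h := mass_gauss2 hN hu (y := 3 / 10) (by norm_num) (by norm_num)
      (by nlinarith) hr
      (fun x hx0 hx => qq_A13 hN1 hw ht hR hR1 hx0 (by linarith) (by linarith) hm)
    have hq := qq_cont (uu w)
    have hyY : (3 : ℝ) / 10 ≤ 17 / 25 * R := by linarith
    have hsplit : ∫ x in (0 : ℝ)..(17 / 25 * R), qq (uu w) x =
        (∫ x in (0 : ℝ)..(3 / 10), qq (uu w) x) + ∫ x in (3 / 10 : ℝ)..(17 / 25 * R), qq (uu w) x :=
      (intervalIntegral.integral_add_adjacent_intervals (hq.intervalIntegrable _ _)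
        (hq.intervalIntegrable _ _)).symm
    have htail : ‖∫ x in (3 / 10 : ℝ)..(17 / 25 * R), qq (uu w) x‖ ≤
        Real.exp (-(N * (1 / 32))) * (17 / 25 * R - 3 / 10) := by
      have h1 := intervalIntegral.norm_integral_le_of_norm_le_const (a := 3 / 10)
        (b := 17 / 25 * R) (f := qq (uu w)) (C := Real.exp (-(N * (1 / 32)))) (by
          intro x hx
          rw [Set.uIoc_of_le hyY] at hx
          exact qq_A23 hN1 hw ht hR hR1 hx.1.le hx.2 hm)
      rwa [abs_of_nonneg (by linarith)] at h1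
    have h2 : N * ‖∫ x in (3 / 10 : ℝ)..(17 / 25 * R), qq (uu w) x‖ ≤ 13 / 125 * (61 / 250) := by
      have h3 := N_exp3 hNr
      have h4 := mul_le_mul_of_nonneg_left htail (by linarith : (0 : ℝ) ≤ N)
      have h5 : N * (Real.exp (-(N * (1 / 32))) * (17 / 25 * R - 3 / 10)) =
          (N * Real.exp (-(N * (1 / 32)))) * (17 / 25 * R - 3 / 10) := by ring
      rw [h5] at h4
      have h6 : (N * Real.exp (-(N * (1 / 32)))) * (17 / 25 * R - 3 / 10) ≤ 13 / 125 * (61 / 250) :=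
        mul_le_mul h3 (by linarith) (by linarith) (by norm_num)
      linarith
    have h7 : ‖∫ x in (0 : ℝ)..(3 / 10), qq (uu w) x‖ ≤
        ‖∫ x in (0 : ℝ)..(17 / 25 * R), qq (uu w) x‖ +
        ‖∫ x in (3 / 10 : ℝ)..(17 / 25 * R), qq (uu w) x‖ := by
      rw [hsplit]
      have := norm_sub_le ((∫ x in (0 : ℝ)..(3 / 10), qq (uu w) x) +
        ∫ x in (3 / 10 : ℝ)..(17 / 25 * R), qq (uu w) x)
        (∫ x in (3 / 10 : ℝ)..(17 / 25 * R), qq (uu w) x)
      rwa [add_sub_cancel_right] at this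
    have h8 := mul_le_mul_of_nonneg_left h7 (by linarith : (0 : ℝ) ≤ N)
    linarith

/-- **Zone A**, `N ≥ 250` -/
theorem zoneA3 {N : ℕ} (hN : 250 ≤ N) {z w : Fin N → ℂ} {R : ℝ} {σ : Fin N → ℂ}
    (hC : Cfg2 N z w R σ) (hR1 : R ≤ 4 / 5) (hρ : 484 / 25 ≤ N * R ^ 2)
    (hm : (av (uu w)).re ≤ R / 20) : False := by
  have hR := hC.hR
  have hN1 : 1 ≤ N := by omega
  have hNr : (250 : ℝ) ≤ N := by exact_mod_cast hN
  have hNpos : (0 : ℝ) < N := by linarith
  have hJ := int_A3 hN hC.cfg.far hC.dist.le hR hR1 hρ hm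
  have hm0 := m1_nonneg hN1 hC.cfg.far hC.dist.le hR
  obtain ⟨y, hy⟩ : ∃ y, y = 17 / 25 * R := ⟨_, rfl⟩
  obtain ⟨a, ha⟩ : ∃ a, a = 8 / 25 * R := ⟨_, rfl⟩
  rw [← hy] at hJ
  have hy0 : 0 < y := by rw [hy]; positivity
  have hy1 : y ≤ 68 / 125 := by rw [hy]; linarith
  have ha0 : 0 < a := by rw [ha]; positivity
  have ha1 : a ≤ 32 / 125 := by rw [ha]; linarith
  have hkap := le_kap ha0.le (by linarith)
  have hfrac : ((N : ℝ) + 1) / N ≤ 251 / 250 := by
    rw [div_le_iff₀ hNpos]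
    linarith
  have hfrac0 : 0 ≤ ((N : ℝ) + 1) / N := by positivity
  have haN : a * (((N : ℝ) + 1) / N) ≤ 32 / 125 * (251 / 250) :=
    mul_le_mul ha1 hfrac hfrac0 (by norm_num)
  have hFree : Free N a 0 1 y (y + 1) := by
    refine ⟨ha0.le, by linarith, by norm_num, by linarith, ?_, ?_, ?_, ?_⟩
    · have : a ≤ y := by rw [ha, hy]; linarith
      nlinarith
    · have e1 : a / (1 + a) * (y * (1 + a * 1)) = a * y := by
        have : 1 + a ≠ 0 := by linarith
        field_simp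
      rw [e1]
      have := Real.log_le_sub_one_of_pos (x := 1 + a) (by linarith)
      linarith
    · have h1 : 1 - (y + 1)⁻¹ ≤ Real.log (y + 1) := Real.one_sub_inv_le_log_of_pos (by linarith)
      have h3 : (0 : ℝ) ≤ y + 1 - 1 / (y + 1) := by
        have h4 : 1 / (y + 1) ≤ 1 := by
          rw [div_le_one (by linarith)]
          linarith
        linarith
      have h5 : a * (((N : ℝ) + 1) / N) * (y + 1 - 1 / (y + 1)) ≤
          1 / 3 * (y + 1 - 1 / (y + 1)) := mul_le_mul_of_nonneg_right (by linarith) h3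
      have h6 : 1 / 3 * (y + 1 - 1 / (y + 1)) ≤ 1 - (y + 1)⁻¹ := by
        have h7 : 0 < y + 1 := by linarith
        rw [one_div (y + 1)]
        have e2 : 1 - (y + 1)⁻¹ - 1 / 3 * (y + 1 - (y + 1)⁻¹) = y * (1 - y) / (3 * (y + 1)) := by
          field_simp
          ring
        have h8 : 0 ≤ y * (1 - y) / (3 * (y + 1)) :=
          div_nonneg (mul_nonneg (by linarith) (by linarith)) (by linarith)
        linarith
      linarith
    · linarith
  have hpay : pay a 1 y ≤ 0 := by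
    unfold pay
    apply max_le _ le_rfl
    have h1 := Real.one_sub_inv_le_log_of_pos (x := 1 + a) (by linarith)
    have e1 : 1 - (1 + a)⁻¹ = a / (1 + a) := by
      have : 1 + a ≠ 0 := by linarith
      field_simp
      ring
    rw [e1] at h1
    have h2 : a / (1 + a) * (y * (1 - a * 1)) ≤ a / (1 + a) * 1 := by
      apply mul_le_mul_of_nonneg_left _ (by positivity)
      nlinarith
    linarith
  have hG : (0 : ℝ) < 61 / 1000 / N := by positivity
  refine phi_ray hC (a := a) (X₀ := y + 1) (y := y) (G := 61 / 1000 / N) hy0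
    (by rw [hy]; linarith) hFree ?_ hG ?_ ?_
  · rw [hy]
    rw [ha] at hkap ⊢
    linarith
  · rw [div_le_iff₀ hNpos]
    linarith
  · have ha2 : a ^ 2 ≤ 1024 / 15625 := by nlinarith
    have hl1 : -(108 / 100 * a ^ 2 : ℝ) ≤ Real.log (1 - a ^ 2) := by
      have h1 := Real.one_sub_inv_le_log_of_pos (x := 1 - a ^ 2) (by linarith)
      have h3 : (1 - a ^ 2)⁻¹ ≤ 1 + 108 / 100 * a ^ 2 := by
        rw [inv_le_iff_one_le_mul₀ (by linarith)]
        nlinarith [mul_nonneg (sq_nonneg a) (by linarith : (0 : ℝ) ≤ 8 / 100 - 108 / 100 * a ^ 2)]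
      linarith
    have hl2 : Real.log (61 / 680) - Real.log R ≤
        Real.log (((N : ℝ) + 1) * (61 / 1000 / N) / y) := by
      rw [← Real.log_div (by norm_num) hR.ne']
      apply Real.log_le_log (by positivity)
      have h2 : (61 / 1000 : ℝ) ≤ ((N : ℝ) + 1) * (61 / 1000 / N) := by
        have e1 : ((N : ℝ) + 1) * (61 / 1000 / N) = 61 / 1000 * (((N : ℝ) + 1) / N) := by ring
        rw [e1]
        have : 1 ≤ ((N : ℝ) + 1) / N := by
          rw [le_div_iff₀ hNpos]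
          linarith
        linarith
      have e2 : 61 / 680 / R = 61 / 1000 / y := by
        rw [hy]
        field_simp
        norm_num
      rw [e2]
      exact div_le_div_of_nonneg_right h2 hy0.le
    have hl3 : Real.log R ≤ R - 1 := Real.log_le_sub_one_of_pos hR
    have hl4 : -(5 / 2 : ℝ) ≤ Real.log (61 / 680) := by
      have h1 : (1 / 2 : ℝ) ^ 4 * (61 * 16 / 680) = 61 / 680 := by norm_num
      rw [← h1, Real.log_mul (by norm_num) (by norm_num), Real.log_pow, one_div, Real.log_inv]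
      have h2 := Real.one_sub_inv_le_log_of_pos (x := 61 * 16 / 680) (by norm_num)
      have := Real.log_two_lt_d9
      norm_num at h2 ⊢
      linarith
    have h1 : ((N : ℝ) + 1) * (av (uu w)).re ≤ (N + 1) * (R / 20) :=
      mul_le_mul_of_nonneg_left hm (by linarith)
    have h2 : a * (((N : ℝ) + 1) * (av (uu w)).re) ≤ a * ((N + 1) * (R / 20)) :=
      mul_le_mul_of_nonneg_left h1 ha0.le
    have h3 := mul_le_mul_of_nonneg_left hl1 hNpos.le
    have h4 : a * (N * y) = 136 / 625 * (N * R ^ 2) := by rw [ha, hy]; ring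
    have h5 : a * ((N + 1) * (R / 20)) = 2 / 125 * (N * R ^ 2) + 2 / 125 * R ^ 2 := by
      rw [ha]; ring
    have h6 : (N : ℝ) * -(108 / 100 * a ^ 2) = -(108 / 100 * (64 / 625) * (N * R ^ 2)) := by
      rw [ha]; ring
    have h7 : R ^ 2 ≤ 16 / 25 := by nlinarith
    have h8 : a + y = R := by rw [ha, hy]; ring
    rw [h6] at h3
    linarith

end Pool.Agent.Lib.MP_af3a4a_an.P1.H81
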