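import Pool.Agent.Lib.MP_af3a4a_an.P1.H81.Mass2
import Pool.Agent.Lib.MP_af3a4a_an.P1.H81.MassV
import Pool.Agent.Lib.MP_af3a4a_an.P1.H81.ZoneA3

/-!
# Numeric forms of the two-piece MASS bound (helper81, council 2)
-/

namespace Pool.Agent.Lib.MP_af3a4a_an.P1.H81

open MeasureTheory intervalIntegral Set
open Pool.Agent.Lib.MP_af3a4a_an.SV (uu av EE)
open Pool.Agent.Lib.MP_af3a4a_an.P1.H80

theorem mass2_num {N : ℕ} {u : Fin N → ℂ} (hN1 : 1 ≤ N) (hu : ∀ k, ‖u k‖ ≤ 1)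
    {β s S E0 γ β1 r1 : ℝ} (hβ1 : 707 / 100 ≤ β1) (hβ : β1 ≤ β) (hs1 : 1 ≤ s) (hs2 : s ≤ 2)
    (hE00 : 0 ≤ E0) (hE0 : E0 ≤ Real.exp (-(s ^ 2))) (hS : 0 < S) (hS1 : S ≤ 1)
    (hSq : SV.sq u ≤ S) (hγ : N * S ≤ γ * β ^ 2) (hr : ‖av u‖ ≤ r1)
    (hq : ∀ x, 0 ≤ x → x ≤ 2 / 5 → ‖qq u x‖ ≤ Real.exp (-(β ^ 2 * (x * max x (s / β)))))
    (hA : 0 ≤ 3 / 4 - E0 * (1 / 2 + s ^ 2 / 2 + s ^ 2 / (4 * s ^ 2 + 2)))
    (hP2 : 0 ≤ 2 - (2 + 7 / 4 * s ^ 2 + (s ^ 2) ^ 2 / 2) * E0)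
    (hP3 : 0 ≤ 6 - (6 + 6 * s ^ 2 + 5 / 2 * (s ^ 2) ^ 2 + (s ^ 2) ^ 3 / 2) * E0)
    (hnum : γ / s ^ 2 * ((3 / 4 - E0 * (1 / 2 + s ^ 2 / 2 + s ^ 2 / (4 * s ^ 2 + 2))) +
      (2 - (2 + 7 / 4 * s ^ 2 + (s ^ 2) ^ 2 / 2) * E0) / (s * β1) +
      5 / 3 * (6 - (6 + 6 * s ^ 2 + 5 / 2 * (s ^ 2) ^ 2 + (s ^ 2) ^ 3 / 2) * E0) /
        (s * β1) ^ 2 + 1 / 10000) + 4 / 125 * (r1 + 1 / (2 * (s * β1))) ≤ 1 - 1 / 2500) :
    4 / 125 ≤ N * ‖∫ x in (0 : ℝ)..(2 / 5), qq u x‖ := by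
  have hNpos : (0 : ℝ) < N := by exact_mod_cast (show 0 < N by omega)
  have hβ10 : 0 < β1 := by linarith
  have hβ0 : 0 < β := by linarith
  have hs0 : 0 < s := by linarith
  have h := mass2 hN1 hu (β := β) (s := s) (v := s ^ 2) (K := s * β)
    (E := Real.exp (-(s ^ 2))) (by linarith) hs1 hs2 rfl rfl rfl hS hSq hq
  obtain ⟨E, hE⟩ : ∃ E, E = Real.exp (-(s ^ 2)) := ⟨_, rfl⟩
  rw [← hE] at h hE0
  obtain ⟨v, hv⟩ : ∃ v, v = s ^ 2 := ⟨_, rfl⟩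
  have hv0 : 0 < v := by rw [hv]; positivity
  rw [← hv] at h hA hP2 hP3 hnum
  by_contra hn
  push Not at hn
  have hK : s * β1 ≤ s * β := mul_le_mul_of_nonneg_left hβ hs0.le
  have hK10 : 0 < s * β1 := by positivity
  have hK0 : 0 < s * β := by positivity
  have h1 : ‖av u‖ + S / (2 * (s * β)) ≤ r1 + 1 / (2 * (s * β1)) := by
    have : S / (2 * (s * β)) ≤ 1 / (2 * (s * β1)) :=
      div_le_div₀ (by norm_num) hS1 (by positivity) (by linarith)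
    linarith
  have h0 : 0 < ‖av u‖ + S / (2 * (s * β)) := by positivity
  have h2 : (N * ‖∫ x in (0 : ℝ)..(2 / 5), qq u x‖) * (‖av u‖ + S / (2 * (s * β))) <
      4 / 125 * (r1 + 1 / (2 * (s * β1))) :=
    lt_of_lt_of_le (mul_lt_mul_of_pos_right hn h0)
      (mul_le_mul_of_nonneg_left h1 (by norm_num))
  -- the bracket
  have b1 : 3 / 4 - E * (1 / 2 + v / 2 + v / (4 * v + 2)) ≤
      3 / 4 - E0 * (1 / 2 + v / 2 + v / (4 * v + 2)) := by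
    have : 0 ≤ 1 / 2 + v / 2 + v / (4 * v + 2) := by positivity
    have := mul_le_mul_of_nonneg_right hE0 this
    linarith
  have b2 : (2 - (2 + 7 / 4 * v + v ^ 2 / 2) * E) / (s * β) ≤
      (2 - (2 + 7 / 4 * v + v ^ 2 / 2) * E0) / (s * β1) := by
    apply div_le_div₀ hP2 _ hK10 hK
    have : 0 ≤ 2 + 7 / 4 * v + v ^ 2 / 2 := by positivity
    have := mul_le_mul_of_nonneg_left hE0 this
    linarith
  have b3 : 5 / 3 * (6 - (6 + 6 * v + 5 / 2 * v ^ 2 + v ^ 3 / 2) * E) / (s * β) ^ 2 ≤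
      5 / 3 * (6 - (6 + 6 * v + 5 / 2 * v ^ 2 + v ^ 3 / 2) * E0) / (s * β1) ^ 2 := by
    apply div_le_div₀ (by linarith) _ (by positivity) (pow_le_pow_left₀ hK10.le hK 2)
    have : 0 ≤ 6 + 6 * v + 5 / 2 * v ^ 2 + v ^ 3 / 2 := by positivity
    have := mul_le_mul_of_nonneg_left hE0 this
    linarith
  obtain ⟨B0, hB0⟩ : ∃ B0, B0 = (3 / 4 - E0 * (1 / 2 + v / 2 + v / (4 * v + 2))) +
      (2 - (2 + 7 / 4 * v + v ^ 2 / 2) * E0) / (s * β1) +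
      5 / 3 * (6 - (6 + 6 * v + 5 / 2 * v ^ 2 + v ^ 3 / 2) * E0) / (s * β1) ^ 2 + 1 / 10000 :=
    ⟨_, rfl⟩
  obtain ⟨B, hB⟩ : ∃ B, B = (3 / 4 - E * (1 / 2 + v / 2 + v / (4 * v + 2))) +
      (2 - (2 + 7 / 4 * v + v ^ 2 / 2) * E) / (s * β) +
      5 / 3 * (6 - (6 + 6 * v + 5 / 2 * v ^ 2 + v ^ 3 / 2) * E) / (s * β) ^ 2 + 1 / 10000 :=
    ⟨_, rfl⟩
  have hBB : B ≤ B0 := by rw [hB, hB0]; linarith
  have hB00 : 0 ≤ B0 := by
    rw [hB0]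
    have h3 : 0 ≤ (2 - (2 + 7 / 4 * v + v ^ 2 / 2) * E0) / (s * β1) := by positivity
    have h4 : 0 ≤ 5 / 3 * (6 - (6 + 6 * v + 5 / 2 * v ^ 2 + v ^ 3 / 2) * E0) / (s * β1) ^ 2 := by
      positivity
    linarith
  rw [← hB0] at hnum
  rw [← hB] at h
  have h3 : N * S / (s * β) ^ 2 ≤ γ / v := by
    rw [div_le_div_iff₀ (by positivity) hv0, mul_pow, ← hv]
    have := mul_le_mul_of_nonneg_right hγ hv0.le
    linarith
  have h4 : N * S / (s * β) ^ 2 * B ≤ γ / v * B0 := by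
    have h5 : N * S / (s * β) ^ 2 * B ≤ N * S / (s * β) ^ 2 * B0 :=
      mul_le_mul_of_nonneg_left hBB (by positivity)
    have h6 : N * S / (s * β) ^ 2 * B0 ≤ γ / v * B0 := mul_le_mul_of_nonneg_right h3 hB00
    linarith
  linarith

/-! ## lower bounds of the exponential -/

theorem exp_m1_ge : (36787944 / 100000000 : ℝ) ≤ Real.exp (-1) := by
  have h := Real.exp_one_lt_d9
  rw [Real.exp_neg]
  have h1 : (36787944 / 100000000 : ℝ) * Real.exp 1 ≤ 1 := by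
    have := mul_le_mul_of_nonneg_left h.le (by norm_num : (0 : ℝ) ≤ 36787944 / 100000000)
    refine this.trans ?_
    norm_num
  rw [← one_div, le_div_iff₀ (Real.exp_pos _)]
  exact h1

theorem exp_ge (n : ℕ) {x c : ℝ} (hx : 0 ≤ x)
    (hc : c ≤ (36787944 / 100000000) ^ n *
      (1 + x + x ^ 2 / 2 + x ^ 3 / 6 + x ^ 4 / 24 + x ^ 5 / 120)) :
    c ≤ Real.exp (-(n : ℝ) + x) := by
  have h1 : 1 + x + x ^ 2 / 2 + x ^ 3 / 6 + x ^ 4 / 24 + x ^ 5 / 120 ≤ Real.exp x := by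
    have h := Real.sum_le_exp_of_nonneg hx 6
    simp only [Finset.sum_range_succ, Finset.sum_range_zero, Nat.factorial] at h
    norm_num at h
    linarith
  have h2 : (36787944 / 100000000 : ℝ) ^ n ≤ Real.exp (-(n : ℝ)) := by
    have h3 : Real.exp (-(n : ℝ)) = Real.exp (-1) ^ n := by
      rw [← Real.exp_nat_mul]
      congr 1
      ring
    rw [h3]
    exact pow_le_pow_left₀ (by norm_num) exp_m1_ge n
  rw [Real.exp_add]
  refine hc.trans ?_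
  exact mul_le_mul h2 h1 (by positivity) (Real.exp_pos _).le

theorem exp_s1 : (175 / 1000 : ℝ) ≤ Real.exp (-((33 / 25) ^ 2)) := by
  have h := exp_ge 2 (x := 2 - (33 / 25) ^ 2) (c := 175 / 1000) (by norm_num) (by norm_num)
  refine h.trans (le_of_eq ?_)
  congr 1
  norm_num

theorem exp_s2 : (1293 / 10000 : ℝ) ≤ Real.exp (-((143 / 100) ^ 2)) := by
  have h := exp_ge 3 (x := 3 - (143 / 100) ^ 2) (c := 1293 / 10000) (by norm_num) (by norm_num)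
  refine h.trans (le_of_eq ?_)
  congr 1
  norm_num

theorem exp_s3 : (42 / 1000 : ℝ) ≤ Real.exp (-((89 / 50) ^ 2)) := by
  have h := exp_ge 4 (x := 4 - (89 / 50) ^ 2) (c := 42 / 1000) (by norm_num) (by norm_num)
  refine h.trans (le_of_eq ?_)
  congr 1
  norm_num

end Pool.Agent.Lib.MP_af3a4a_an.P1.H81
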