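import Pool.Agent.Lib.MP_af3a4a_an.P1.H81.Mom

/-!
# MASS with the resolvent weight `mean |u|²/|1 - x u|` (helper81, after helper58; council 2)

`massK`: `1 - T - N (∫ |x - t| κ e + t ∫ x κ e) ≤ N (|∫ q| (|m| + t (1 + 2 m₁)/R))`,
`κ = kapK R m₁ x = (S₂ + x S₃ + x²/8)/(1 - x²)`.
-/

namespace Pool.Agent.Lib.MP_af3a4a_an.P1.H81

open Finset MeasureTheory intervalIntegral ComplexConjugate
open Pool.Agent.Lib.MP_af3a4a_an.SV (uu av EE)
open Pool.Agent.Lib.MP_af3a4a_an.P1.H80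

/-- a concave quadratic is nonnegative between two points where it is nonnegative -/
theorem quad_ge {α β γ a b x : ℝ} (hα : 0 ≤ α) (ha : a ≤ x) (hb : x ≤ b)
    (h1 : 0 ≤ -α * a ^ 2 + β * a + γ) (h2 : 0 ≤ -α * b ^ 2 + β * b + γ) :
    0 ≤ -α * x ^ 2 + β * x + γ := by
  rcases (ha.trans hb).lt_or_eq with hab | hab
  · have h3 : (b - a) * (-α * x ^ 2 + β * x + γ) =
        (b - x) * (-α * a ^ 2 + β * a + γ) + (x - a) * (-α * b ^ 2 + β * b + γ) +
          α * ((b - a) * ((x - a) * (b - x))) := by ring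
    have h4 : 0 ≤ (b - a) * (-α * x ^ 2 + β * x + γ) := by
      rw [h3]
      have e1 : 0 ≤ b - x := by linarith
      have e2 : 0 ≤ x - a := by linarith
      have e3 : 0 ≤ b - a := by linarith
      positivity
    have h5 : 0 < b - a := by linarith
    exact nonneg_of_mul_nonneg_right h4 h5
  · have : x = a := le_antisymm (by linarith) ha
    rw [this]
    exact h1

/-- **(L2)** -/
theorem point_cube {w : ℂ} {R : ℝ} (hw : 1 ≤ ‖w‖) (hR : 1 ≤ R) :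
    ‖w⁻¹‖ ^ 2 * (w⁻¹).re ≤ -((R - 1) / R ^ 2) + (2 * R - 1) / R ^ 2 * (‖w - R‖ - 1) +
      (3 * R ^ 2 - 2 * R + 1) / R ^ 2 * (w⁻¹).re := by
  have hR0 : 0 < R := by linarith
  obtain ⟨ρ, hρ⟩ : ∃ ρ, ρ = ‖w‖ := ⟨_, rfl⟩
  obtain ⟨B, hB⟩ : ∃ B, B = ‖w - (R : ℂ)‖ := ⟨_, rfl⟩
  have h1 : B ≤ ρ + R := by
    have := norm_sub_le w (R : ℂ)
    rw [Complex.norm_real, Real.norm_of_nonneg hR0.le] at this
    rw [hB, hρ]
    exact this
  have h1' : |ρ - R| ≤ B := by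
    have := abs_norm_sub_norm_le w (R : ℂ)
    rw [Complex.norm_real, Real.norm_of_nonneg hR0.le] at this
    rw [hB, hρ]
    exact this
  have h2 : B ^ 2 = ρ ^ 2 - 2 * R * w.re + R ^ 2 := by
    rw [hB, hρ, norm_sq_re_im, norm_sq_re_im]
    simp only [Complex.sub_re, Complex.sub_im, Complex.ofReal_re, Complex.ofReal_im]
    ring
  have h3 : (w⁻¹).re = w.re / ρ ^ 2 := by
    rw [Complex.inv_re, Complex.normSq_eq_norm_sq, hρ]
  rw [norm_inv, h3, ← hρ, ← hB]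
  have hρ1 : 1 ≤ ρ := by rw [hρ]; exact hw
  have hρ0 : 0 < ρ := by linarith
  have e2 : w.re = (ρ ^ 2 + R ^ 2 - B ^ 2) / (2 * R) := by
    rw [eq_div_iff (by positivity)]
    linarith
  obtain ⟨c, hc⟩ : ∃ c, c = 3 * R ^ 2 - 2 * R + 1 := ⟨_, rfl⟩
  have hc0 : R ^ 2 ≤ c := by rw [hc]; nlinarith [sq_nonneg (R - 1)]
  -- the quadratic in `B`, multiplied by `2 R³ ρ⁴`
  obtain ⟨α, hα⟩ : ∃ α, α = c * ρ ^ 2 - R ^ 2 := ⟨_, rfl⟩
  obtain ⟨β, hβ⟩ : ∃ β, β = 2 * R * ρ ^ 4 * (2 * R - 1) := ⟨_, rfl⟩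
  obtain ⟨γ, hγ⟩ : ∃ γ, γ = -(2 * R * ρ ^ 4 * (R - 1)) - 2 * R * ρ ^ 4 * (2 * R - 1) +
    (ρ ^ 2 + R ^ 2) * α := ⟨_, rfl⟩
  have hα0 : 0 ≤ α := by
    rw [hα]
    have h4 : 1 ≤ ρ ^ 2 := one_le_pow₀ hρ1
    have h5 : c * 1 ≤ c * ρ ^ 2 := mul_le_mul_of_nonneg_left h4 (le_trans (sq_nonneg R) hc0)
    linarith
  have key : 0 ≤ -α * B ^ 2 + β * B + γ := by
    apply quad_ge (a := |ρ - R|) (b := ρ + R) hα0 h1' h1
    · rcases le_total ρ R with h | h
      · rw [abs_of_nonpos (by linarith)]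
        have e3 : -α * (-(ρ - R)) ^ 2 + β * (-(ρ - R)) + γ =
            2 * R * ρ * ((ρ + 1) ^ 2 * ((R - ρ) * ((2 * R - 1) * ρ - R))) := by
          rw [hγ, hβ, hα, hc]
          ring
        rw [e3]
        have h4 : 0 ≤ R - ρ := by linarith
        have h5 : 0 ≤ (2 * R - 1) * ρ - R := by nlinarith
        positivity
      · rw [abs_of_nonneg (by linarith)]
        have e3 : -α * (ρ - R) ^ 2 + β * (ρ - R) + γ =
            2 * R * ρ * ((ρ - R) * ((2 * R - 1) * ρ ^ 3 - (3 * R - 2) * ρ ^ 2 + ρ + R)) := by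
          rw [hγ, hβ, hα, hc]
          ring
        rw [e3]
        have h4 : 0 ≤ ρ - R := by linarith
        have h5 : 0 ≤ (2 * R - 1) * ρ ^ 3 - (3 * R - 2) * ρ ^ 2 + ρ + R := by
          have h6 : 0 ≤ (2 * R - 1) * ρ - (3 * R - 2) := by nlinarith [sq_nonneg (R - 1)]
          have h7 : (2 * R - 1) * ρ ^ 3 - (3 * R - 2) * ρ ^ 2 + ρ + R =
              ρ ^ 2 * ((2 * R - 1) * ρ - (3 * R - 2)) + ρ + R := by ring
          rw [h7]
          positivity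
        positivity
    · have e3 : -α * (ρ + R) ^ 2 + β * (ρ + R) + γ =
          2 * R * ρ * ((ρ - 1) ^ 2 * ((2 * R - 1) * ρ ^ 2 + R ^ 2 * (2 * ρ + 1))) := by
        rw [hγ, hβ, hα, hc]
        ring
      rw [e3]
      have h4 : 0 ≤ 2 * R - 1 := by linarith
      positivity
  have e1 : -((R - 1) / R ^ 2) + (2 * R - 1) / R ^ 2 * (B - 1) +
      (3 * R ^ 2 - 2 * R + 1) / R ^ 2 * (w.re / ρ ^ 2) - ρ⁻¹ ^ 2 * (w.re / ρ ^ 2) =
      (-α * B ^ 2 + β * B + γ) / (2 * R ^ 3 * ρ ^ 4) := by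
    rw [e2, hγ, hβ, hα, hc]
    field_simp
    ring
  have h6 : 0 ≤ (-α * B ^ 2 + β * B + γ) / (2 * R ^ 3 * ρ ^ 4) :=
    div_nonneg key (by positivity)
  linarith

/-- **(L3)** the chord bound -/
theorem chord {u : ℂ} (hu : ‖u‖ ≤ 1) {x : ℝ} (h0 : 0 ≤ x) (h1 : x < 1) :
    1 / ‖1 - (x : ℂ) * u‖ ≤ (1 + x * u.re + x ^ 2 * (1 - ‖u‖ ^ 2) / 2) / (1 - x ^ 2) := by
  obtain ⟨τ, hτ⟩ : ∃ τ, τ = ‖1 - (x : ℂ) * u‖ := ⟨_, rfl⟩
  have hlow : 1 - x ≤ τ := by
    have h2 := norm_sub_norm_le (1 : ℂ) ((x : ℂ) * u)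
    rw [norm_one, norm_mul, Complex.norm_real, Real.norm_of_nonneg h0] at h2
    have h3 : x * ‖u‖ ≤ x := mul_le_of_le_one_right h0 hu
    rw [hτ]
    linarith
  have hup : τ ≤ 1 + x := by
    have h2 := norm_sub_le (1 : ℂ) ((x : ℂ) * u)
    rw [norm_one, norm_mul, Complex.norm_real, Real.norm_of_nonneg h0] at h2
    have h3 : x * ‖u‖ ≤ x := mul_le_of_le_one_right h0 hu
    rw [hτ]
    linarith
  have hsq : τ ^ 2 = 1 - 2 * x * u.re + x ^ 2 * ‖u‖ ^ 2 := by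
    rw [hτ, norm_sq_re_im, norm_sq_re_im]
    simp only [Complex.sub_re, Complex.sub_im, Complex.one_re, Complex.one_im, Complex.mul_re,
      Complex.mul_im, Complex.ofReal_re, Complex.ofReal_im]
    ring
  rw [← hτ]
  have hτ0 : 0 < τ := by linarith
  have hx : 0 < 1 - x ^ 2 := by nlinarith
  rw [div_le_div_iff₀ hτ0 hx]
  have e1 : 1 + x * u.re + x ^ 2 * (1 - ‖u‖ ^ 2) / 2 = (3 + x ^ 2 - τ ^ 2) / 2 := by
    rw [hsq]; ring
  rw [e1]
  have h4 : 0 ≤ (τ - (1 - x)) * ((1 + x) - τ) * (τ + 2) :=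
    mul_nonneg (mul_nonneg (by linarith) (by linarith)) (by linarith)
  have e2 : (τ - (1 - x)) * ((1 + x) - τ) * (τ + 2) =
      (3 + x ^ 2 - τ ^ 2) * τ - 2 * (1 - x ^ 2) := by ring
  rw [e2] at h4
  linarith

/-- the weight -/
noncomputable def kapK (R m x : ℝ) : ℝ :=
  ((1 + 2 * m) / R + x * (-((R - 1) / R ^ 2) + (3 * R ^ 2 - 2 * R + 1) / R ^ 2 * m) + x ^ 2 / 8) /
    (1 - x ^ 2)

/-- mean of `|u|² Re u` -/
theorem cube_bound {N : ℕ} (hN : 1 ≤ N) {w : Fin N → ℂ} {R : ℝ} (hw : ∀ k, 1 ≤ ‖w k‖)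
    (ht : ∑ k, ‖w k - (R : ℂ)‖ ≤ N) (hR : 1 ≤ R) :
    ∑ k, ‖uu w k‖ ^ 2 * (uu w k).re ≤
      N * (-((R - 1) / R ^ 2) + (3 * R ^ 2 - 2 * R + 1) / R ^ 2 * (av (uu w)).re) := by
  have h1 : ∑ k, ‖uu w k‖ ^ 2 * (uu w k).re ≤
      ∑ k, (-((R - 1) / R ^ 2) + (2 * R - 1) / R ^ 2 * (‖w k - R‖ - 1) +
        (3 * R ^ 2 - 2 * R + 1) / R ^ 2 * (uu w k).re) :=
    Finset.sum_le_sum fun k _ => point_cube (hw k) hR
  refine h1.trans ?_
  rw [Finset.sum_add_distrib, Finset.sum_add_distrib, ← Finset.mul_sum, ← Finset.mul_sum,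
    av_re hN, Finset.sum_sub_distrib]
  simp only [Finset.sum_const, Finset.card_univ, Fintype.card_fin, nsmul_eq_mul, mul_one]
  have h2 : (2 * R - 1) / R ^ 2 * (∑ k, ‖w k - (R : ℂ)‖ - N) ≤ 0 :=
    mul_nonpos_of_nonneg_of_nonpos (div_nonneg (by linarith) (by positivity)) (by linarith)
  linarith

/-- mean of `|u|²/|1 - x u|` -/
theorem kap_bound {N : ℕ} (hN : 1 ≤ N) {w : Fin N → ℂ} {R : ℝ} (hw : ∀ k, 1 ≤ ‖w k‖)
    (ht : ∑ k, ‖w k - (R : ℂ)‖ ≤ N) (hR : 1 ≤ R) {x : ℝ} (h0 : 0 ≤ x) (h1 : x < 1) :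
    1 / (N : ℝ) * ∑ k, ‖uu w k‖ ^ 2 / ‖1 - (x : ℂ) * uu w k‖ ≤ kapK R (av (uu w)).re x := by
  have hNpos : (0 : ℝ) < N := by exact_mod_cast (show 0 < N by omega)
  have hR0 : 0 < R := by linarith
  have hx : 0 < 1 - x ^ 2 := by nlinarith
  have hu : ∀ k, ‖uu w k‖ ≤ 1 := by
    intro k
    unfold uu
    rw [norm_inv]
    exact inv_le_one_of_one_le₀ (hw k)
  have h2 : ∑ k, ‖uu w k‖ ^ 2 / ‖1 - (x : ℂ) * uu w k‖ ≤
      ∑ k, (‖uu w k‖ ^ 2 + x * (‖uu w k‖ ^ 2 * (uu w k).re) + x ^ 2 / 8) / (1 - x ^ 2) := by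
    apply Finset.sum_le_sum
    intro k _
    have h3 := mul_le_mul_of_nonneg_left (chord (hu k) h0 h1) (sq_nonneg ‖uu w k‖)
    rw [mul_one_div] at h3
    refine h3.trans ?_
    rw [← mul_div_assoc]
    apply div_le_div_of_nonneg_right _ hx.le
    have h4 : ‖uu w k‖ ^ 2 * (1 - ‖uu w k‖ ^ 2) ≤ 1 / 4 := by
      nlinarith [sq_nonneg (‖uu w k‖ ^ 2 - 1 / 2)]
    have h5 := mul_le_mul_of_nonneg_left h4 (by positivity : 0 ≤ x ^ 2 / 2)
    linarith
  have h3 := sq_bound hN hw ht hR0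
  have h4 := cube_bound hN hw ht hR
  have h5 : SV.sq (uu w) ≤ (1 + 2 * (av (uu w)).re) / R := by
    rw [le_div_iff₀ hR0]
    linarith
  rw [← Finset.sum_div, Finset.sum_add_distrib, Finset.sum_add_distrib, ← Finset.mul_sum,
    sq_sum hN] at h2
  simp only [Finset.sum_const, Finset.card_univ, Fintype.card_fin, nsmul_eq_mul] at h2
  have h6 : N * SV.sq (uu w) + x * ∑ k, ‖uu w k‖ ^ 2 * (uu w k).re + N * (x ^ 2 / 8) ≤
      N * ((1 + 2 * (av (uu w)).re) / R + x * (-((R - 1) / R ^ 2) +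
        (3 * R ^ 2 - 2 * R + 1) / R ^ 2 * (av (uu w)).re) + x ^ 2 / 8) := by
    have h7 := mul_le_mul_of_nonneg_left h5 hNpos.le
    have h8 := mul_le_mul_of_nonneg_left h4 h0
    linarith
  have h9 := h2.trans (div_le_div_of_nonneg_right h6 hx.le)
  have h10 := mul_le_mul_of_nonneg_left h9 (by positivity : 0 ≤ 1 / (N : ℝ))
  refine h10.trans (le_of_eq ?_)
  unfold kapK
  field_simp

theorem av_le {N : ℕ} (f : Fin N → ℂ) (g : Fin N → ℝ) (h : ∀ k, ‖f k‖ ≤ g k) :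
    ‖av f‖ ≤ 1 / (N : ℝ) * ∑ k, g k := by
  unfold av
  rw [norm_mul, norm_div, norm_one, Complex.norm_natCast]
  exact mul_le_mul_of_nonneg_left ((norm_sum_le _ _).trans (Finset.sum_le_sum fun k _ => h k))
    (by positivity)

/-- the remainder of `λ` -/
theorem lam_K {N : ℕ} (hN : 1 ≤ N) {w : Fin N → ℂ} {R : ℝ} (hw : ∀ k, 1 ≤ ‖w k‖)
    (ht : ∑ k, ‖w k - (R : ℂ)‖ ≤ N) (hR : 1 ≤ R) {x t : ℝ} (ht0 : 0 ≤ t) (h0 : 0 ≤ x)
    (h1 : x < 1) :
    ‖lam (uu w) x - (av (uu w) + t * av (fun k => uu w k ^ 2))‖ ≤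
      |x - t| * kapK R (av (uu w)).re x + t * (x * kapK R (av (uu w)).re x) := by
  have hu : ∀ k, ‖uu w k‖ ≤ 1 := by
    intro k
    unfold uu
    rw [norm_inv]
    exact inv_le_one_of_one_le₀ (hw k)
  have hkap := kap_bound hN hw ht hR h0 h1
  have e1 : lam (uu w) x - (av (uu w) + t * av (fun k => uu w k ^ 2)) =
      ((x - t : ℝ) : ℂ) * av (fun k => uu w k ^ 2 / (1 - (x : ℂ) * uu w k)) +
      (t : ℂ) * ((x : ℂ) * av (fun k => uu w k ^ 3 / (1 - (x : ℂ) * uu w k))) := by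
    unfold lam
    rw [← av_smul', ← av_smul', ← av_smul', ← av_smul']
    unfold av
    rw [← mul_add, ← mul_add, ← mul_sub, ← Finset.sum_add_distrib, ← Finset.sum_add_distrib,
      ← Finset.sum_sub_distrib]
    congr 1
    apply Finset.sum_congr rfl
    intro k _
    have hne := one_sub_ne' (hu k) h0 h1
    obtain ⟨D, hD⟩ : ∃ D, D = 1 - (x : ℂ) * uu w k := ⟨_, rfl⟩
    rw [← hD] at hne ⊢
    push_cast
    have e2 : uu w k / D - (uu w k + t * uu w k ^ 2) =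
        (uu w k - (uu w k + t * uu w k ^ 2) * D) / D := by
      field_simp
    have e3 : (x - t : ℂ) * (uu w k ^ 2 / D) + t * (x * (uu w k ^ 3 / D)) =
        ((x - t) * uu w k ^ 2 + t * (x * uu w k ^ 3)) / D := by
      field_simp
    rw [e2, e3]
    congr 1
    rw [hD]
    ring
  rw [e1]
  refine (norm_add_le _ _).trans ?_
  rw [norm_mul, norm_mul, norm_mul, Complex.norm_real, Complex.norm_real, Complex.norm_real,
    Real.norm_of_nonneg h0, Real.norm_of_nonneg ht0, Real.norm_eq_abs]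
  have h2 : ‖av (fun k => uu w k ^ 2 / (1 - (x : ℂ) * uu w k))‖ ≤ kapK R (av (uu w)).re x := by
    refine (av_le _ (fun k => ‖uu w k‖ ^ 2 / ‖1 - (x : ℂ) * uu w k‖) fun k => ?_).trans hkap
    rw [norm_div, norm_pow]
  have h3 : ‖av (fun k => uu w k ^ 3 / (1 - (x : ℂ) * uu w k))‖ ≤ kapK R (av (uu w)).re x := by
    refine (av_le _ (fun k => ‖uu w k‖ ^ 2 / ‖1 - (x : ℂ) * uu w k‖) fun k => ?_).trans hkap
    rw [norm_div, norm_pow]
    apply div_le_div_of_nonneg_right _ (norm_nonneg _)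
    exact pow_le_pow_of_le_one (norm_nonneg _) (hu k) (by norm_num)
  have h4 := mul_le_mul_of_nonneg_left h2 (abs_nonneg (x - t))
  have h5 := mul_le_mul_of_nonneg_left (mul_le_mul_of_nonneg_left h3 h0) ht0
  linarith

/-- **MASS'** -/
theorem massK {N : ℕ} (hN : 1 ≤ N) {w : Fin N → ℂ} {R : ℝ} (hw : ∀ k, 1 ≤ ‖w k‖)
    (ht : ∑ k, ‖w k - (R : ℂ)‖ ≤ N) (hR : 1 ≤ R) {y t T : ℝ} (ht0 : 0 ≤ t) (hty : t ≤ y)
    (hy1 : y < 1) {e : ℝ → ℝ} (he : ContinuousOn e (Set.Icc 0 y))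
    (hqe : ∀ x ∈ Set.Icc 0 y, ‖qq (uu w) x‖ ≤ e x) (hT : ‖qq (uu w) y‖ ≤ T) :
    1 - T - N * ((∫ x in (0 : ℝ)..y, |x - t| * kapK R (av (uu w)).re x * e x) +
        t * ∫ x in (0 : ℝ)..y, x * kapK R (av (uu w)).re x * e x) ≤
      N * (‖∫ x in (0 : ℝ)..y, qq (uu w) x‖ *
        (‖av (uu w)‖ + t * ((1 + 2 * (av (uu w)).re) / R))) := by
  have hNpos : (0 : ℝ) < N := by exact_mod_cast (show 0 < N by omega)
  have hR0 : 0 < R := by linarith
  have hy0 : 0 ≤ y := ht0.trans hty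
  have hu : ∀ k, ‖uu w k‖ ≤ 1 := by
    intro k
    unfold uu
    rw [norm_inv]
    exact inv_le_one_of_one_le₀ (hw k)
  have hq := qq_cont (uu w)
  have hd := one_sub_q hN hu hy0 hy1
  have hlc := lam_contOn hu hy1
  obtain ⟨c, hc⟩ : ∃ c, c = av (uu w) + t * av (fun k => uu w k ^ 2) := ⟨_, rfl⟩
  have hkc : ContinuousOn (fun x : ℝ => kapK R (av (uu w)).re x) (Set.Icc 0 y) := by
    unfold kapK
    apply ContinuousOn.div (by fun_prop) (by fun_prop)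
    intro x hx
    have h1 := hx.1
    have h2 : x < 1 := lt_of_le_of_lt hx.2 hy1
    have : 0 < 1 - x ^ 2 := by nlinarith
    exact this.ne'
  -- split
  have hI1 : IntervalIntegrable (fun x => c * qq (uu w) x) volume 0 y :=
    (continuous_const.mul hq).intervalIntegrable _ _
  have hI2 : IntervalIntegrable (fun x => (lam (uu w) x - c) * qq (uu w) x) volume 0 y := by
    apply ContinuousOn.intervalIntegrable
    rw [Set.uIcc_of_le hy0]
    exact (hlc.sub continuousOn_const).mul hq.continuousOn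
  have hsplit : ∫ x in (0 : ℝ)..y, lam (uu w) x * qq (uu w) x =
      c * (∫ x in (0 : ℝ)..y, qq (uu w) x) +
        ∫ x in (0 : ℝ)..y, (lam (uu w) x - c) * qq (uu w) x := by
    rw [← intervalIntegral.integral_const_mul, ← intervalIntegral.integral_add hI1 hI2]
    congr 1
    funext x
    ring
  have hb : ‖∫ x in (0 : ℝ)..y, (lam (uu w) x - c) * qq (uu w) x‖ ≤
      ∫ x in (0 : ℝ)..y, (|x - t| * kapK R (av (uu w)).re x * e x +
        t * (x * kapK R (av (uu w)).re x * e x)) := by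
    refine (intervalIntegral.norm_integral_le_integral_norm hy0).trans ?_
    apply intervalIntegral.integral_mono_on hy0 hI2.norm
    · apply ContinuousOn.intervalIntegrable
      rw [Set.uIcc_of_le hy0]
      exact ((((continuous_id.sub continuous_const).abs).continuousOn.mul hkc).mul he).add
        (continuousOn_const.mul ((continuousOn_id.mul hkc).mul he))
    · intro x hx
      rw [norm_mul]
      have h1 := lam_K hN hw ht hR ht0 hx.1 (lt_of_le_of_lt hx.2 hy1)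
      rw [← hc] at h1
      have h2 := hqe x hx
      have h3 := mul_le_mul h1 h2 (norm_nonneg _) ((norm_nonneg _).trans h1)
      linarith
  have hJ1 : IntervalIntegrable (fun x => |x - t| * kapK R (av (uu w)).re x * e x) volume 0 y := by
    apply ContinuousOn.intervalIntegrable
    rw [Set.uIcc_of_le hy0]
    exact (((continuous_id.sub continuous_const).abs).continuousOn.mul hkc).mul he
  have hJ2 : IntervalIntegrable (fun x => t * (x * kapK R (av (uu w)).re x * e x)) volume 0 y := by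
    apply ContinuousOn.intervalIntegrable
    rw [Set.uIcc_of_le hy0]
    exact continuousOn_const.mul ((continuousOn_id.mul hkc).mul he)
  rw [intervalIntegral.integral_add hJ1 hJ2, intervalIntegral.integral_const_mul] at hb
  have hcn : ‖c‖ ≤ ‖av (uu w)‖ + t * ((1 + 2 * (av (uu w)).re) / R) := by
    rw [hc]
    refine (norm_add_le _ _).trans ?_
    rw [norm_mul, Complex.norm_real, Real.norm_of_nonneg ht0]
    have h1 := av_sq_le (u := uu w) hN
    have h2 := sq_bound hN hw ht hR0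
    have h3 : SV.sq (uu w) ≤ (1 + 2 * (av (uu w)).re) / R := by
      rw [le_div_iff₀ hR0]
      linarith
    have h4 := mul_le_mul_of_nonneg_left (h1.trans h3) ht0
    linarith
  have h1 : 1 - T ≤ ‖1 - qq (uu w) y‖ := by
    have := norm_sub_norm_le (1 : ℂ) (qq (uu w) y)
    rw [norm_one] at this
    linarith
  rw [hd, hsplit, norm_mul, Complex.norm_natCast] at h1
  have h2 := norm_add_le (c * (∫ x in (0 : ℝ)..y, qq (uu w) x))
    (∫ x in (0 : ℝ)..y, (lam (uu w) x - c) * qq (uu w) x)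
  rw [norm_mul] at h2
  have h3 := mul_le_mul_of_nonneg_right hcn (norm_nonneg (∫ x in (0 : ℝ)..y, qq (uu w) x))
  have h4 := mul_le_mul_of_nonneg_left (h2.trans (add_le_add h3 hb)) hNpos.le
  linarith

end Pool.Agent.Lib.MP_af3a4a_an.P1.H81
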