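import Pool.Agent.Lib.MP_af3a4a_an.P1.H81.Num

/-!
# MASS with the majorant `ee` (helper81, council 2)
-/

namespace Pool.Agent.Lib.MP_af3a4a_an.P1.H81

open MeasureTheory intervalIntegral Set
open Pool.Agent.Lib.MP_af3a4a_an.SV (uu av EE)
open Pool.Agent.Lib.MP_af3a4a_an.P1.H80

variable {N : ℕ} {u : Fin N → ℂ}

theorem mass_gen (hN : 1 ≤ N) (hu : ∀ k, ‖u k‖ ≤ 1) {b S y : ℝ} (hb : 87 ≤ b)
    (hy : 3 / 10 ≤ y) (hy2 : y ≤ 2 / 5) (hS : 0 < S) (hSq : SV.sq u ≤ S)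
    (hlo : ∀ x, 0 ≤ x → x ≤ 1 / 5 → ‖qq u x‖ ≤ Real.exp (-(b * x ^ 2)))
    (hhi : ∀ x, 1 / 5 ≤ x → x ≤ y →
      ‖qq u x‖ ≤ Real.exp (-(b / 25)) * Real.exp (-(44 / 115 * b * (x - 1 / 5)))) :
    88622 / 100000 - 43 / 100 - (1 / 2 + 4432 / 10000 / Real.sqrt b + 5 / 8 / b + 68 / 10000
      - 767 / 768 * (b / (N * S))) / (43 / 100) ≤
      Real.sqrt b * (‖∫ x in (0 : ℝ)..y, qq u x‖ * (1 + ‖av u‖ * Real.sqrt b / (S * (43 / 100)))) := by
  have hb0 : 0 < b := by linarith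
  have hNpos : (0 : ℝ) < N := by exact_mod_cast hN
  obtain ⟨β, hβ⟩ : ∃ β, β = Real.sqrt b := ⟨_, rfl⟩
  have hβ0 : 0 < β := by rw [hβ]; exact Real.sqrt_pos.2 hb0
  have hβ2 : β ^ 2 = b := by rw [hβ]; exact Real.sq_sqrt hb0.le
  have hβ9 : 9 ≤ β := by
    rw [hβ]
    apply Real.le_sqrt_of_sq_le
    linarith
  have hqe : ∀ x ∈ Set.Icc (0 : ℝ) y, ‖qq u x‖ ≤ ee b x := by
    intro x hx
    rcases le_total x (1 / 5) with h | h
    · rw [ee_lo h]; exact hlo x hx.1 h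
    · rw [ee_hi h]; exact hhi x h hx.2
  have hT : ‖qq u y‖ ≤ 1 / 768 := by
    have h1 := hhi y (by linarith) le_rfl
    have h2 := E_le hb
    have h3 : Real.exp (-(44 / 115 * b * (y - 1 / 5))) ≤ 1 / 24 := by
      apply E2_le
      have : 44 / 115 * b * (1 / 10) ≤ 44 / 115 * b * (y - 1 / 5) :=
        mul_le_mul_of_nonneg_left (by linarith) (by positivity)
      linarith
    have h4 : Real.exp (-(b / 25)) * Real.exp (-(44 / 115 * b * (y - 1 / 5))) ≤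
        1 / 32 * (1 / 24) := mul_le_mul h2 h3 (Real.exp_pos _).le (by norm_num)
    linarith
  have ht0 : 0 < 43 / 100 / β := by positivity
  have hty : 43 / 100 / β ≤ y := by
    rw [div_le_iff₀ hβ0]
    nlinarith
  have h := mass hN hu (T := 1 / 768) ht0 hty (by linarith) hS hSq (ee_cont b).continuousOn hqe
    (fun x _ => ee_le_one hb0.le) hT
  have hM0 := ee_mass hb hy
  have hM1 := ee_mom hb (by linarith : 1 / 5 ≤ y) hy2
  rw [← hβ] at hM0 hM1 ⊢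
  set J := ‖∫ x in (0 : ℝ)..y, qq u x‖
  set A := ∫ x in (0 : ℝ)..y, ee b x
  set D := ∫ x in (0 : ℝ)..y, x / (1 - x) * ee b x
  have h1 : β * (A - 43 / 100 / β - (D - (1 - 1 / 768) / (N * S)) / (43 / 100 / β)) ≤
      β * (J * (1 + ‖av u‖ / (S * (43 / 100 / β)))) := mul_le_mul_of_nonneg_left h hβ0.le
  have e1 : ‖av u‖ / (S * (43 / 100 / β)) = ‖av u‖ * β / (S * (43 / 100)) := by
    field_simp
  rw [e1] at h1
  refine le_trans ?_ h1
  have e2 : β * (A - 43 / 100 / β - (D - (1 - 1 / 768) / (N * S)) / (43 / 100 / β)) =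
      β * A - 43 / 100 - (b * D - 767 / 768 * (b / (N * S))) / (43 / 100) := by
    rw [← hβ2]
    field_simp
    ring
  rw [e2]
  have h2 : 88622 / 100000 ≤ β * A := by
    have := mul_le_mul_of_nonneg_left hM0 hβ0.le
    have e3 : β * (88622 / 100000 / β) = 88622 / 100000 := by field_simp
    linarith
  have h3 : b * D ≤ 1 / 2 + 4432 / 10000 / β + 5 / 8 / b + 68 / 10000 := by
    have := mul_le_mul_of_nonneg_left hM1 hb0.le
    have e3 : b * ((1 / 2 + 4432 / 10000 / β + 5 / 8 / b + 68 / 10000) / b) =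
        1 / 2 + 4432 / 10000 / β + 5 / 8 / b + 68 / 10000 := by field_simp
    linarith
  have h4 : (b * D - 767 / 768 * (b / (N * S))) / (43 / 100) ≤
      (1 / 2 + 4432 / 10000 / β + 5 / 8 / b + 68 / 10000 - 767 / 768 * (b / (N * S))) / (43 / 100) :=
    div_le_div_of_nonneg_right (by linarith) (by norm_num)
  linarith

/-- the three numerical cases -/
theorem mass_num (hN : 1 ≤ N) (hu : ∀ k, ‖u k‖ ≤ 1) {b S y : ℝ}
    (hy : 3 / 10 ≤ y) (hy2 : y ≤ 2 / 5) (hS : 0 < S) (hS1 : S ≤ 1) (hSq : SV.sq u ≤ S)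
    (hlo : ∀ x, 0 ≤ x → x ≤ 1 / 5 → ‖qq u x‖ ≤ Real.exp (-(b * x ^ 2)))
    (hhi : ∀ x, 1 / 5 ≤ x → x ≤ y →
      ‖qq u x‖ ≤ Real.exp (-(b / 25)) * Real.exp (-(44 / 115 * b * (x - 1 / 5))))
    (hcase : (613 / 5 ≤ b ∧ 23 / 64 * (N * S) ≤ b) ∨ (511 / 5 ≤ b ∧ 731 / 2000 * (N * S) ≤ b) ∨
      (438 / 5 ≤ b ∧ 1861 / 5000 * (N * S) ≤ b)) (hg : b ≤ 23 / 50 * (N * S)) :
    3 / 500 ≤ N * ‖∫ x in (0 : ℝ)..y, qq u x‖ := by
  have hb : 87 ≤ b := by rcases hcase with h | h | h <;> linarith [h.1]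
  have hb0 : 0 < b := by linarith
  have hNpos : (0 : ℝ) < N := by exact_mod_cast hN
  have hNS : 0 < (N : ℝ) * S := by positivity
  have h := mass_gen hN hu hb hy hy2 hS hSq hlo hhi
  have hm := av_norm_le hN hu
  obtain ⟨β, hβ⟩ : ∃ β, β = Real.sqrt b := ⟨_, rfl⟩
  have hβ0 : 0 < β := by rw [hβ]; exact Real.sqrt_pos.2 hb0
  have hβ2 : β ^ 2 = b := by rw [hβ]; exact Real.sq_sqrt hb0.le
  rw [← hβ] at h
  set J := ‖∫ x in (0 : ℝ)..y, qq u x‖ with hJ
  have hJ0 : 0 ≤ J := norm_nonneg _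
  -- the numerical lower bound
  have key : ∀ b0 β0 g0 : ℝ, 0 < b0 → 0 < β0 → β0 ^ 2 ≤ b0 → b0 ≤ b → g0 * (N * S) ≤ b →
      7 / 1000 ≤ 88622 / 100000 - 43 / 100 - (1 / 2 + 4432 / 10000 / β0 + 5 / 8 / b0 + 68 / 10000
      - 767 / 768 * g0) / (43 / 100) →
      7 / 1000 ≤ β * (J * (1 + ‖av u‖ * β / (S * (43 / 100)))) := by
    intro b0 β0 g0 h1 h2 h3 h4 h5 h6
    refine h6.trans (le_trans ?_ h)
    have h7 : β0 ≤ β := by
      rw [hβ]
      exact Real.le_sqrt_of_sq_le (h3.trans h4)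
    have h8 : 4432 / 10000 / β ≤ 4432 / 10000 / β0 :=
      div_le_div_of_nonneg_left (by norm_num) h2 h7
    have h9 : 5 / 8 / b ≤ 5 / 8 / b0 := div_le_div_of_nonneg_left (by norm_num) h1 h4
    have h10 : g0 ≤ b / (N * S) := by
      rw [le_div_iff₀ hNS]
      exact h5
    have h11 : (1 / 2 + 4432 / 10000 / β + 5 / 8 / b + 68 / 10000 - 767 / 768 * (b / (N * S))) /
        (43 / 100) ≤ (1 / 2 + 4432 / 10000 / β0 + 5 / 8 / b0 + 68 / 10000 - 767 / 768 * g0) /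
        (43 / 100) := div_le_div_of_nonneg_right (by linarith) (by norm_num)
    linarith
  have hPhi : 7 / 1000 ≤ β * (J * (1 + ‖av u‖ * β / (S * (43 / 100)))) := by
    rcases hcase with h1 | h1 | h1
    · exact key (613 / 5) (1107 / 100) (23 / 64) (by norm_num) (by norm_num) (by norm_num)
        h1.1 h1.2 (by norm_num)
    · exact key (511 / 5) (1010 / 100) (731 / 2000) (by norm_num) (by norm_num) (by norm_num)
        h1.1 h1.2 (by norm_num)
    · exact key (438 / 5) (935 / 100) (1861 / 5000) (by norm_num) (by norm_num) (by norm_num)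
        h1.1 h1.2 (by norm_num)
  -- `β (1 + β/(.43 S)) ≤ 7/6 N`
  have h1 : β * (1 + ‖av u‖ * β / (S * (43 / 100))) ≤ 7 / 6 * N := by
    have h2 : ‖av u‖ * β / (S * (43 / 100)) ≤ β / (S * (43 / 100)) :=
      div_le_div_of_nonneg_right (mul_le_of_le_one_left hβ0.le hm) (by positivity)
    have h3 : β * (β / (S * (43 / 100))) = b / (S * (43 / 100)) := by
      rw [← hβ2]; ring
    have h4 : b / (S * (43 / 100)) ≤ 107 / 100 * N := by
      rw [div_le_iff₀ (by positivity)]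
      nlinarith
    have h5 : β ≤ N / 20 := by
      have h6 : b ≤ 23 / 50 * N := by nlinarith
      have h7 : 9 ≤ β := by
        rw [hβ]
        apply Real.le_sqrt_of_sq_le
        linarith
      have h9 : 93 / 10 ≤ β := by
        rw [hβ]
        apply Real.le_sqrt_of_sq_le
        linarith
      nlinarith
    have h8 : β * (1 + ‖av u‖ * β / (S * (43 / 100))) ≤ β + β * (β / (S * (43 / 100))) := by
      have := mul_le_mul_of_nonneg_left h2 hβ0.le
      linarith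
    linarith
  have h2 : 7 / 1000 ≤ J * (7 / 6 * N) := by
    calc (7 : ℝ) / 1000 ≤ β * (J * (1 + ‖av u‖ * β / (S * (43 / 100)))) := hPhi
      _ = J * (β * (1 + ‖av u‖ * β / (S * (43 / 100)))) := by ring
      _ ≤ J * (7 / 6 * N) := mul_le_mul_of_nonneg_left h1 hJ0
  linarith

end Pool.Agent.Lib.MP_af3a4a_an.P1.H81
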