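import Pool.Agent.Lib.MP_af3a4a_an.P1.H81.Vt2
import Pool.Agent.Lib.MP_af3a4a_an.P1.H81.Mass

/-!
# Moments of `u = 1/w` and the second majorant (helper81, council 2)
-/

namespace Pool.Agent.Lib.MP_af3a4a_an.P1.H81

open Finset MeasureTheory ComplexConjugate
open Pool.Agent.Lib.MP_af3a4a_an.SV (uu av EE)
open Pool.Agent.Lib.MP_af3a4a_an.P1.H80
open Pool.Agent.Lib.MP_af3a4a_an.P1.H74

theorem av_re {N : ℕ} (hN : 1 ≤ N) (u : Fin N → ℂ) : ∑ k, (u k).re = N * (av u).re := by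
  rw [← Complex.re_sum, sum_av hN, ← Complex.ofReal_natCast, Complex.re_ofReal_mul]

theorem sq_sum {N : ℕ} (hN : 1 ≤ N) (u : Fin N → ℂ) : ∑ k, ‖u k‖ ^ 2 = N * SV.sq u := by
  have hNpos : (0 : ℝ) < N := by exact_mod_cast hN
  unfold SV.sq
  field_simp

/-- pointwise -/
theorem point_sq {w : ℂ} {R : ℝ} (hw : 1 ≤ ‖w‖) (hR : 0 < R) :
    R * ‖w⁻¹‖ ^ 2 ≤ 1 + 2 * (w⁻¹).re + (1 + R) / R * (‖w - R‖ - 1) := by
  have hw0 : 0 < ‖w‖ := by linarith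
  obtain ⟨ρ, hρ⟩ : ∃ ρ, ρ = ‖w‖ := ⟨_, rfl⟩
  obtain ⟨B, hB⟩ : ∃ B, B = ‖w - (R : ℂ)‖ := ⟨_, rfl⟩
  have hB0 : 0 ≤ B := by rw [hB]; exact norm_nonneg _
  have h1 : B ≤ ρ + R := by
    have := norm_sub_le w (R : ℂ)
    rw [Complex.norm_real, Real.norm_of_nonneg hR.le] at this
    rw [hB, hρ]
    exact this
  have h2 : B ^ 2 = ρ ^ 2 - 2 * R * w.re + R ^ 2 := by
    rw [hB, hρ, norm_sq_re_im, norm_sq_re_im]
    simp only [Complex.sub_re, Complex.sub_im, Complex.ofReal_re, Complex.ofReal_im]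
    ring
  have h3 : (w⁻¹).re = w.re / ρ ^ 2 := by
    rw [Complex.inv_re, Complex.normSq_eq_norm_sq, hρ]
  rw [norm_inv, h3, ← hρ, ← hB]
  have hρ1 : 1 ≤ ρ := by rw [hρ]; exact hw
  have hρ0 : 0 < ρ := by linarith
  have e1 : 1 + 2 * (w.re / ρ ^ 2) + (1 + R) / R * (B - 1) - R * ρ⁻¹ ^ 2 =
      B * ((1 + R) * ρ ^ 2 - B) / (R * ρ ^ 2) := by
    have e2 : w.re = (ρ ^ 2 + R ^ 2 - B ^ 2) / (2 * R) := by
      rw [eq_div_iff (by positivity)]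
      linarith
    rw [e2]
    field_simp
    ring
  have h4 : 0 ≤ B * ((1 + R) * ρ ^ 2 - B) / (R * ρ ^ 2) := by
    apply div_nonneg _ (by positivity)
    apply mul_nonneg hB0
    have h5 : ρ ≤ ρ ^ 2 := by nlinarith
    have h6 : R ≤ R * ρ ^ 2 := by
      have : 1 ≤ ρ ^ 2 := one_le_pow₀ hρ1
      exact le_mul_of_one_le_right hR.le this
    linarith
  linarith

/-- **second moment** -/
theorem sq_bound {N : ℕ} (hN : 1 ≤ N) {w : Fin N → ℂ} {R : ℝ} (hw : ∀ k, 1 ≤ ‖w k‖)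
    (ht : ∑ k, ‖w k - (R : ℂ)‖ ≤ N) (hR : 0 < R) :
    R * SV.sq (uu w) ≤ 1 + 2 * (av (uu w)).re := by
  have hNpos : (0 : ℝ) < N := by exact_mod_cast hN
  have h1 : ∑ k, R * ‖uu w k‖ ^ 2 ≤
      ∑ k, (1 + 2 * (uu w k).re + (1 + R) / R * (‖w k - R‖ - 1)) :=
    Finset.sum_le_sum fun k _ => point_sq (hw k) hR
  rw [← Finset.mul_sum, sq_sum hN, Finset.sum_add_distrib, Finset.sum_add_distrib,
    ← Finset.mul_sum, ← Finset.mul_sum, av_re hN, Finset.sum_sub_distrib] at h1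
  simp only [Finset.sum_const, Finset.card_univ, Fintype.card_fin, nsmul_eq_mul, mul_one] at h1
  have h2 : (1 + R) / R * (∑ k, ‖w k - (R : ℂ)‖ - N) ≤ 0 :=
    mul_nonpos_of_nonneg_of_nonpos (by positivity) (by linarith)
  have h3 : (N : ℝ) * (R * SV.sq (uu w)) ≤ N * (1 + 2 * (av (uu w)).re) := by linarith
  exact le_of_mul_le_mul_left h3 hNpos

/-- `sq ≤ 1` -/
theorem sq_le_one' {N : ℕ} (hN : 1 ≤ N) {u : Fin N → ℂ} (hu : ∀ k, ‖u k‖ ≤ 1) : SV.sq u ≤ 1 := by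
  have hNpos : (0 : ℝ) < N := by exact_mod_cast hN
  have h1 : ∑ k, ‖u k‖ ^ 2 ≤ ∑ _k : Fin N, (1 : ℝ) :=
    Finset.sum_le_sum fun k _ => pow_le_one₀ (norm_nonneg _) (hu k)
  rw [sq_sum hN] at h1
  simp only [Finset.sum_const, Finset.card_univ, Fintype.card_fin, nsmul_eq_mul, mul_one] at h1
  have h3 : (N : ℝ) * SV.sq u ≤ N * 1 := by linarith
  exact le_of_mul_le_mul_left h3 hNpos

/-- the second majorant -/
theorem qq_am2 {N : ℕ} (hN : 1 ≤ N) {u : Fin N → ℂ} {x S : ℝ} (hS : SV.sq u ≤ S) :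
    ‖qq u x‖ ≤ Real.exp (-(N * (x * (av u).re - x ^ 2 * S / 2))) := by
  have hNpos : (0 : ℝ) < N := by exact_mod_cast hN
  have h1 : ‖qq u x‖ ≤ Real.exp (∑ k, (-(x * (u k).re) + x ^ 2 * ‖u k‖ ^ 2 / 2)) := by
    unfold qq
    rw [norm_prod, Real.exp_sum]
    apply Finset.prod_le_prod (fun _ _ => norm_nonneg _)
    intro k _
    have h2 : ‖1 - (x : ℂ) * u k‖ ^ 2 = 1 + 2 * (-(x * (u k).re) + x ^ 2 * ‖u k‖ ^ 2 / 2) := by
      rw [norm_sq_re_im, norm_sq_re_im]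
      simp only [Complex.sub_re, Complex.sub_im, Complex.one_re, Complex.one_im, Complex.mul_re,
        Complex.mul_im, Complex.ofReal_re, Complex.ofReal_im]
      ring
    have h3 := Real.add_one_le_exp (2 * (-(x * (u k).re) + x ^ 2 * ‖u k‖ ^ 2 / 2))
    have h4 : ‖1 - (x : ℂ) * u k‖ ^ 2 ≤
        Real.exp (-(x * (u k).re) + x ^ 2 * ‖u k‖ ^ 2 / 2) ^ 2 := by
      rw [h2, ← Real.exp_nat_mul]
      push_cast
      linarith
    exact le_of_sq_le_sq h4 (Real.exp_pos _).le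
  refine h1.trans (Real.exp_le_exp.2 ?_)
  have e1 : ∑ k, (-(x * (u k).re) + x ^ 2 * ‖u k‖ ^ 2 / 2) =
      -(x * (N * (av u).re)) + x ^ 2 / 2 * (N * SV.sq u) := by
    rw [Finset.sum_add_distrib, Finset.sum_neg_distrib, ← Finset.mul_sum, av_re hN, ← sq_sum hN,
      Finset.mul_sum]
    congr 1
    apply Finset.sum_congr rfl
    intro k _
    ring
  rw [e1]
  have h5 : x ^ 2 / 2 * (N * SV.sq u) ≤ x ^ 2 / 2 * (N * S) := by
    apply mul_le_mul_of_nonneg_left _ (by positivity)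
    exact mul_le_mul_of_nonneg_left hS hNpos.le
  linarith

/-- the weighted majorant -/
theorem qq_weighted {N : ℕ} (hN : 1 ≤ N) {u : Fin N → ℂ} {x S c : ℝ} (hS0 : 0 < S) (hc : 0 < c)
    (hS : SV.sq u ≤ S) (hV : ‖qq u x‖ ≤ Real.exp (-(N * (c * x ^ 2)))) :
    ‖qq u x‖ ≤ Real.exp (-(N * (2 * c / (2 * c + S)) * (av u).re * x)) := by
  have h2 := qq_am2 hN (x := x) hS
  rcases eq_or_ne (qq u x) 0 with hz | hz
  · rw [hz, norm_zero]
    exact (Real.exp_pos _).le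
  have hn : 0 < ‖qq u x‖ := norm_pos_iff.2 hz
  rw [← Real.log_le_iff_le_exp hn] at h2 hV ⊢
  have h3 : 0 < 2 * c + S := by linarith
  have e1 : N * (2 * c / (2 * c + S)) * (av u).re * x * (2 * c + S) =
      S * (N * (c * x ^ 2)) + 2 * c * (N * (x * (av u).re - x ^ 2 * S / 2)) := by
    field_simp
    ring
  have h4 : S * Real.log ‖qq u x‖ ≤ S * (-(N * (c * x ^ 2))) := mul_le_mul_of_nonneg_left hV hS0.le
  have h5 : 2 * c * Real.log ‖qq u x‖ ≤ 2 * c * (-(N * (x * (av u).re - x ^ 2 * S / 2))) :=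
    mul_le_mul_of_nonneg_left h2 (by linarith)
  have h6 : Real.log ‖qq u x‖ * (2 * c + S) ≤
      -(N * (2 * c / (2 * c + S)) * (av u).re * x) * (2 * c + S) := by
    rw [neg_mul, e1]
    linarith
  exact le_of_mul_le_mul_right h6 h3

end Pool.Agent.Lib.MP_af3a4a_an.P1.H81
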