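import Pool.Agent.Lib.MP_af3a4a_an.P1.H81.Gauss

/-!
# The majorant `ee` and its two moments (helper81, council 2)
-/

namespace Pool.Agent.Lib.MP_af3a4a_an.P1.H81

open MeasureTheory intervalIntegral Set
open Pool.Agent.Lib.MP_af3a4a_an.SV (uu av EE)
open Pool.Agent.Lib.MP_af3a4a_an.P1.H80

noncomputable def ee (b x : ℝ) : ℝ :=
  Real.exp (-(b * (min x (1 / 5)) ^ 2 + 44 / 115 * b * max (x - 1 / 5) 0))

theorem ee_cont (b : ℝ) : Continuous (ee b) := by
  unfold ee
  fun_prop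

theorem ee_lo {b x : ℝ} (hx : x ≤ 1 / 5) : ee b x = Real.exp (-(b * x ^ 2)) := by
  unfold ee
  rw [min_eq_left hx, max_eq_right (by linarith)]
  congr 1
  ring

theorem ee_hi {b x : ℝ} (hx : 1 / 5 ≤ x) :
    ee b x = Real.exp (-(b / 25)) * Real.exp (-(44 / 115 * b * (x - 1 / 5))) := by
  unfold ee
  rw [min_eq_right hx, max_eq_left (by linarith), ← Real.exp_add]
  congr 1
  ring

theorem ee_le_one {b x : ℝ} (hb : 0 ≤ b) : ee b x ≤ 1 := by
  unfold ee
  rw [Real.exp_le_one_iff]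
  have h1 : 0 ≤ b * (min x (1 / 5)) ^ 2 := by positivity
  have h2 : 0 ≤ 44 / 115 * b * max (x - 1 / 5) 0 := mul_nonneg (by positivity) (le_max_right _ _)
  linarith

theorem E_le {b : ℝ} (hb : 87 ≤ b) : Real.exp (-(b / 25)) ≤ 1 / 32 := by
  have h1 : (32 : ℝ) ≤ Real.exp (b / 25) := by
    have h2 : Real.log 32 ≤ b / 25 := by
      have h3 : Real.log 32 = 5 * Real.log 2 := by
        rw [show (32 : ℝ) = 2 ^ 5 by norm_num, Real.log_pow]
        norm_num
      rw [h3]
      have := Real.log_two_lt_d9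
      linarith
    exact (Real.log_le_iff_le_exp (by norm_num)).1 h2
  rw [Real.exp_neg, ← one_div]
  exact one_div_le_one_div_of_le (by norm_num) h1

theorem E2_le {t : ℝ} (ht : 33 / 10 ≤ t) : Real.exp (-t) ≤ 1 / 24 := by
  have h1 : (24 : ℝ) ≤ Real.exp t := by
    have h2 := Real.sum_le_exp_of_nonneg (x := 33 / 10) (by norm_num) 7
    have h3 : (24 : ℝ) ≤ ∑ i ∈ Finset.range 7, (33 / 10 : ℝ) ^ i / i.factorial := by
      simp only [Finset.sum_range_succ, Finset.sum_range_zero, Nat.factorial]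
      norm_num
    exact h3.trans (h2.trans (Real.exp_le_exp.2 ht))
  rw [Real.exp_neg, ← one_div]
  exact one_div_le_one_div_of_le (by norm_num) h1

/-- the integral of the exponential part -/
theorem int_hi {E s y : ℝ} (hs : 0 < s) :
    ∫ x in (1 / 5 : ℝ)..y, E * Real.exp (-(s * (x - 1 / 5))) =
      E * (1 - Real.exp (-(s * (y - 1 / 5)))) / s := by
  have hd : ∀ x ∈ Set.uIcc (1 / 5 : ℝ) y, HasDerivAt
      (fun x : ℝ => -(E * Real.exp (-(s * (x - 1 / 5)))) / s)
      (E * Real.exp (-(s * (x - 1 / 5)))) x := by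
    intro x _
    have e1 : HasDerivAt (fun x : ℝ => Real.exp (-(s * (x - 1 / 5))))
        (Real.exp (-(s * (x - 1 / 5))) * (-s)) x := by
      have := ((((hasDerivAt_id x).sub_const (1 / 5)).const_mul s).neg).exp
      refine this.congr_deriv ?_
      simp
    refine ((e1.const_mul E).neg.div_const s).congr_deriv ?_
    field_simp
  rw [intervalIntegral.integral_eq_sub_of_hasDerivAt hd
    (Continuous.intervalIntegrable (by fun_prop) _ _)]
  simp only [sub_self, mul_zero, neg_zero, Real.exp_zero, mul_one]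
  ring

theorem int_hi2 {E s y : ℝ} (hE : 0 ≤ E) (hs : 0 < s) (hy : 1 / 5 ≤ y) :
    ∫ x in (1 / 5 : ℝ)..y, (1 / 4 + 25 / 12 * (x - 1 / 5)) * (E * Real.exp (-(s * (x - 1 / 5)))) ≤
      E * (1 / (4 * s) + 25 / (12 * s ^ 2)) := by
  have hd : ∀ x ∈ Set.uIcc (1 / 5 : ℝ) y, HasDerivAt
      (fun x : ℝ => -(Real.exp (-(s * (x - 1 / 5))) *
        (E * (1 / (4 * s) + 25 / 12 * ((x - 1 / 5) / s + 1 / s ^ 2)))))
      ((1 / 4 + 25 / 12 * (x - 1 / 5)) * (E * Real.exp (-(s * (x - 1 / 5))))) x := by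
    intro x _
    have e1 : HasDerivAt (fun x : ℝ => Real.exp (-(s * (x - 1 / 5))))
        (Real.exp (-(s * (x - 1 / 5))) * (-s)) x := by
      have := ((((hasDerivAt_id x).sub_const (1 / 5)).const_mul s).neg).exp
      refine this.congr_deriv ?_
      simp
    have e2 : HasDerivAt (fun x : ℝ => E * (1 / (4 * s) +
        25 / 12 * ((x - 1 / 5) / s + 1 / s ^ 2))) (E * (25 / 12 * (1 / s))) x := by
      have := ((((((hasDerivAt_id x).sub_const (1 / 5)).div_const s).add_const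
        (1 / s ^ 2)).const_mul (25 / 12)).const_add (1 / (4 * s))).const_mul E
      exact this
    refine (e1.mul e2).neg.congr_deriv ?_
    field_simp
    ring
  rw [intervalIntegral.integral_eq_sub_of_hasDerivAt hd
    (Continuous.intervalIntegrable (by fun_prop) _ _)]
  simp only [sub_self, mul_zero, neg_zero, Real.exp_zero, one_mul, zero_div, zero_add]
  have h1 : 0 ≤ Real.exp (-(s * (y - 1 / 5))) *
        (E * (1 / (4 * s) + 25 / 12 * ((y - 1 / 5) / s + 1 / s ^ 2))) := by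
    have : 0 ≤ y - 1 / 5 := by linarith
    positivity
  have e3 : E * (1 / (4 * s) + 25 / 12 * (1 / s ^ 2)) = E * (1 / (4 * s) + 25 / (12 * s ^ 2)) := by
    field_simp
  linarith

/-- the mass of `ee` -/
theorem ee_mass {b y : ℝ} (hb : 87 ≤ b) (hy : 3 / 10 ≤ y) :
    88622 / 100000 / Real.sqrt b ≤ ∫ x in (0 : ℝ)..y, ee b x := by
  have hb0 : 0 < b := by linarith
  have hc := ee_cont b
  have h1 : ∫ x in (0 : ℝ)..(1 / 5), ee b x = M0a b := by
    unfold M0a
    apply intervalIntegral.integral_congr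
    intro x hx
    rw [Set.uIcc_of_le (by norm_num)] at hx
    exact ee_lo hx.2
  obtain ⟨E, hE⟩ : ∃ E, E = Real.exp (-(b / 25)) := ⟨_, rfl⟩
  obtain ⟨s, hs⟩ : ∃ s, s = 44 / 115 * b := ⟨_, rfl⟩
  have hs0 : 0 < s := by rw [hs]; positivity
  have hE0 : 0 < E := by rw [hE]; exact Real.exp_pos _
  have h2 : ∫ x in (1 / 5 : ℝ)..y, ee b x = E * (1 - Real.exp (-(s * (y - 1 / 5)))) / s := by
    rw [← int_hi hs0]
    apply intervalIntegral.integral_congr
    intro x hx
    rw [Set.uIcc_of_le (by linarith)] at hx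
    simp only
    rw [ee_hi hx.1, hE, hs]
  have h3 : Real.exp (-(s * (y - 1 / 5))) ≤ 1 / 24 := by
    apply E2_le
    have : s * (1 / 10) ≤ s * (y - 1 / 5) := mul_le_mul_of_nonneg_left (by linarith) hs0.le
    rw [hs] at this ⊢
    linarith
  rw [← intervalIntegral.integral_add_adjacent_intervals (hc.intervalIntegrable 0 (1 / 5))
    (hc.intervalIntegrable (1 / 5) y), h1, h2]
  have h4 := M0a_ge hb0
  rw [← hE] at h4
  have h5 : E * (5 / (2 * b)) ≤ E * (1 - Real.exp (-(s * (y - 1 / 5)))) / s := by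
    rw [mul_div_assoc]
    apply mul_le_mul_of_nonneg_left _ hE0.le
    rw [div_le_div_iff₀ (by positivity) hs0]
    rw [hs] at h3 ⊢
    nlinarith
  linarith

/-- the first moment of `ee/(1-x)` -/
theorem ee_mom {b y : ℝ} (hb : 87 ≤ b) (hy : 1 / 5 ≤ y) (hy2 : y ≤ 2 / 5) :
    ∫ x in (0 : ℝ)..y, x / (1 - x) * ee b x ≤
      (1 / 2 + 4432 / 10000 / Real.sqrt b + 5 / 8 / b + 68 / 10000) / b := by
  have hb0 : 0 < b := by linarith
  have hc := ee_cont b
  obtain ⟨E, hE⟩ : ∃ E, E = Real.exp (-(b / 25)) := ⟨_, rfl⟩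
  obtain ⟨s, hs⟩ : ∃ s, s = 44 / 115 * b := ⟨_, rfl⟩
  have hs0 : 0 < s := by rw [hs]; positivity
  have hE0 : 0 < E := by rw [hE]; exact Real.exp_pos _
  have hcc : ∀ p q : ℝ, 0 ≤ p → p ≤ q → q ≤ 2 / 5 →
      IntervalIntegrable (fun x : ℝ => x / (1 - x) * ee b x) volume p q := by
    intro p q hp hpq hq
    apply ContinuousOn.intervalIntegrable
    rw [Set.uIcc_of_le hpq]
    apply ContinuousOn.mul _ hc.continuousOn
    apply ContinuousOn.div continuousOn_id (by fun_prop)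
    intro x hx
    have := hx.2
    have : (0 : ℝ) < 1 - x := by linarith
    exact this.ne'
  have h1 : ∫ x in (0 : ℝ)..(1 / 5), x / (1 - x) * ee b x ≤
      1 / (2 * b) + 5 / (8 * b ^ 2) + M0a b / (2 * b) - E *
        (1 / (2 * b) + 1 / (10 * b) + 5 / (8 * b) * (1 / 25 + 1 / b)) := by
    rw [hE, ← mom_a hb0]
    apply intervalIntegral.integral_mono_on (by norm_num) (hcc 0 (1 / 5) le_rfl (by norm_num)
      (by norm_num)) (Continuous.intervalIntegrable (by fun_prop) _ _)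
    intro x hx
    rw [ee_lo hx.2]
    apply mul_le_mul_of_nonneg_right _ (Real.exp_pos _).le
    have hx1 : 0 < 1 - x := by linarith [hx.2]
    rw [div_le_iff₀ hx1]
    have e1 : (x + x ^ 2 + 5 / 4 * x ^ 3) * (1 - x) = x + x ^ 3 * (1 / 4 - 5 / 4 * x) := by ring
    rw [e1]
    have h3 : 0 ≤ x ^ 3 * (1 / 4 - 5 / 4 * x) :=
      mul_nonneg (pow_nonneg hx.1 3) (by linarith [hx.2])
    linarith
  have h2 : ∫ x in (1 / 5 : ℝ)..y, x / (1 - x) * ee b x ≤ E * (1 / (4 * s) + 25 / (12 * s ^ 2)) := by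
    refine le_trans ?_ (int_hi2 (E := E) (s := s) (y := y) hE0.le hs0 hy)
    apply intervalIntegral.integral_mono_on hy (hcc (1 / 5) y (by norm_num) hy hy2)
      (Continuous.intervalIntegrable (by fun_prop) _ _)
    intro x hx
    rw [ee_hi hx.1, hE, hs]
    apply mul_le_mul_of_nonneg_right _ (by positivity)
    have hx1 : 0 < 1 - x := by linarith [hx.2]
    rw [div_le_iff₀ hx1]
    have h4 := hx.1
    have h5 : x ≤ 2 / 5 := hx.2.trans hy2
    nlinarith [mul_nonneg (sub_nonneg.2 h4) (sub_nonneg.2 h5)]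
  rw [← intervalIntegral.integral_add_adjacent_intervals (hcc 0 (1 / 5) le_rfl (by norm_num)
      (by norm_num)) (hcc (1 / 5) y (by norm_num) hy hy2)]
  have h3 := M0a_le hb0
  have h4 : M0a b / (2 * b) ≤ 4432 / 10000 / Real.sqrt b / b := by
    have hsq : 0 < Real.sqrt b := Real.sqrt_pos.2 hb0
    have h5 : M0a b / (2 * b) ≤ 8863 / 10000 / Real.sqrt b / (2 * b) :=
      div_le_div_of_nonneg_right h3 (by positivity)
    refine h5.trans ?_
    rw [div_div, div_div, div_div, div_le_div_iff₀ (by positivity) (by positivity)]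
    nlinarith [mul_pos hsq hb0]
  have h6 := E_le hb
  rw [← hE] at h6
  -- the part with `E`
  have h7 : E * (1 / (4 * s) + 25 / (12 * s ^ 2)) - E *
        (1 / (2 * b) + 1 / (10 * b) + 5 / (8 * b) * (1 / 25 + 1 / b)) ≤ 68 / 10000 / b := by
    have e1 : 1 / (4 * s) = 115 / 176 / b := by rw [hs]; field_simp; norm_num
    have e2 : 25 / (12 * s ^ 2) = 330625 / 23232 / b ^ 2 := by rw [hs]; field_simp; norm_num
    have h8 : 1 / (4 * s) + 25 / (12 * s ^ 2) -
        (1 / (2 * b) + 1 / (10 * b) + 5 / (8 * b) * (1 / 25 + 1 / b)) ≤ 2176 / 10000 / b := by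
      rw [e1, e2]
      have e3 : 330625 / 23232 / b ^ 2 ≤ 164 / 1000 / b := by
        rw [div_div, div_div, div_le_div_iff₀ (by positivity) (by positivity)]
        nlinarith
      have e4 : 0 ≤ 5 / (8 * b) * (1 / 25 + 1 / b) := by positivity
      have e5 : 1 / (2 * b) + 1 / (10 * b) = 6 / 10 / b := by field_simp; norm_num
      have e6 : 115 / 176 / b + 164 / 1000 / b - 6 / 10 / b ≤ 2176 / 10000 / b := by
        rw [← add_div, ← sub_div]
        apply div_le_div_of_nonneg_right _ hb0.le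
        norm_num
      linarith
    calc E * (1 / (4 * s) + 25 / (12 * s ^ 2)) - E *
        (1 / (2 * b) + 1 / (10 * b) + 5 / (8 * b) * (1 / 25 + 1 / b)) =
        E * (1 / (4 * s) + 25 / (12 * s ^ 2) -
        (1 / (2 * b) + 1 / (10 * b) + 5 / (8 * b) * (1 / 25 + 1 / b))) := by ring
      _ ≤ E * (2176 / 10000 / b) := mul_le_mul_of_nonneg_left h8 hE0.le
      _ ≤ 1 / 32 * (2176 / 10000 / b) := mul_le_mul_of_nonneg_right h6 (by positivity)
      _ = 68 / 10000 / b := by ring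
  have e9 : (1 / 2 + 4432 / 10000 / Real.sqrt b + 5 / 8 / b + 68 / 10000) / b =
      1 / (2 * b) + 5 / (8 * b ^ 2) + 4432 / 10000 / Real.sqrt b / b + 68 / 10000 / b := by
    field_simp
    ring
  rw [e9]
  linarith

end Pool.Agent.Lib.MP_af3a4a_an.P1.H81
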