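import Pool.Agent.Lib.MP_af3a4a_an.P1.H81.Dom
import Pool.Agent.Lib.MP_af3a4a_an.P1.H81.MassG

/-!
# The numerator of `massR` for `K ≥ 24` (helper81, council 2)
-/

set_option autoImplicit false

namespace Pool.Agent.Lib.MP_af3a4a_an.P1.H81

open MeasureTheory intervalIntegral

theorem exp_T2 {u : ℝ} (hu : 0 ≤ u) : Real.exp (-u) ≤ 1 - u + u ^ 2 / 2 := by
  have h := mono_of (f := fun u => 1 - u + u ^ 2 / 2 - Real.exp (-u))
    (f' := fun u => -1 + u + Real.exp (-u)) hu (by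
      intro x _
      have d1 : HasDerivAt (fun u : ℝ => Real.exp (-u)) (Real.exp (-x) * -1) x :=
        (hasDerivAt_id x).neg.exp
      have d2 : HasDerivAt (fun u : ℝ => 1 - u + u ^ 2 / 2) (-1 + 2 * x / 2) x :=
        (((hasDerivAt_id x).const_sub 1).add ((hasDerivAt_pow 2 x).div_const 2)).congr_deriv
          (by simp)
      refine (d2.sub d1).congr_deriv ?_
      ring) (by
      intro x hx
      have := Real.one_sub_le_exp_neg x
      linarith)
  simp at h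
  linarith

theorem exp_T3 {u : ℝ} (hu : 0 ≤ u) : 1 - u + u ^ 2 / 2 - u ^ 3 / 6 ≤ Real.exp (-u) := by
  have h := mono_of (f := fun u => Real.exp (-u) - (1 - u + u ^ 2 / 2 - u ^ 3 / 6))
    (f' := fun u => -Real.exp (-u) + (1 - u + u ^ 2 / 2)) hu (by
      intro x _
      have d1 : HasDerivAt (fun u : ℝ => Real.exp (-u)) (Real.exp (-x) * -1) x :=
        (hasDerivAt_id x).neg.exp
      have d2 : HasDerivAt (fun u : ℝ => 1 - u + u ^ 2 / 2 - u ^ 3 / 6)
          (-1 + 2 * x / 2 - 3 * x ^ 2 / 6) x :=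
        ((((hasDerivAt_id x).const_sub 1).add ((hasDerivAt_pow 2 x).div_const 2)).sub
          ((hasDerivAt_pow 3 x).div_const 6)).congr_deriv (by simp)
      refine (d1.sub d2).congr_deriv ?_
      ring) (by
      intro x hx
      have := exp_T2 hx.1
      linarith)
  simp at h
  linarith

theorem exp_T4 {u : ℝ} (hu : 0 ≤ u) :
    Real.exp (-u) ≤ 1 - u + u ^ 2 / 2 - u ^ 3 / 6 + u ^ 4 / 24 := by
  have h := mono_of (f := fun u => (1 - u + u ^ 2 / 2 - u ^ 3 / 6 + u ^ 4 / 24) - Real.exp (-u))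
    (f' := fun u => Real.exp (-u) - (1 - u + u ^ 2 / 2 - u ^ 3 / 6)) hu (by
      intro x _
      have d1 : HasDerivAt (fun u : ℝ => Real.exp (-u)) (Real.exp (-x) * -1) x :=
        (hasDerivAt_id x).neg.exp
      have d2 : HasDerivAt (fun u : ℝ => 1 - u + u ^ 2 / 2 - u ^ 3 / 6 + u ^ 4 / 24)
          (-1 + 2 * x / 2 - 3 * x ^ 2 / 6 + 4 * x ^ 3 / 24) x :=
        (((((hasDerivAt_id x).const_sub 1).add ((hasDerivAt_pow 2 x).div_const 2)).sub
          ((hasDerivAt_pow 3 x).div_const 6)).add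
          ((hasDerivAt_pow 4 x).div_const 24)).congr_deriv (by simp)
      refine (d2.sub d1).congr_deriv ?_
      ring) (by
      intro x hx
      have := exp_T3 hx.1
      linarith)
  simp at h
  linarith

theorem exp_T5 {u : ℝ} (hu : 0 ≤ u) :
    1 - u + u ^ 2 / 2 - u ^ 3 / 6 + u ^ 4 / 24 - u ^ 5 / 120 ≤ Real.exp (-u) := by
  have h := mono_of
    (f := fun u => Real.exp (-u) - (1 - u + u ^ 2 / 2 - u ^ 3 / 6 + u ^ 4 / 24 - u ^ 5 / 120))
    (f' := fun u => -Real.exp (-u) + (1 - u + u ^ 2 / 2 - u ^ 3 / 6 + u ^ 4 / 24)) hu (by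
      intro x _
      have d1 : HasDerivAt (fun u : ℝ => Real.exp (-u)) (Real.exp (-x) * -1) x :=
        (hasDerivAt_id x).neg.exp
      have d2 : HasDerivAt
          (fun u : ℝ => 1 - u + u ^ 2 / 2 - u ^ 3 / 6 + u ^ 4 / 24 - u ^ 5 / 120)
          (-1 + 2 * x / 2 - 3 * x ^ 2 / 6 + 4 * x ^ 3 / 24 - 5 * x ^ 4 / 120) x :=
        ((((((hasDerivAt_id x).const_sub 1).add ((hasDerivAt_pow 2 x).div_const 2)).sub
          ((hasDerivAt_pow 3 x).div_const 6)).add
          ((hasDerivAt_pow 4 x).div_const 24)).sub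
          ((hasDerivAt_pow 5 x).div_const 120)).congr_deriv (by simp)
      refine (d1.sub d2).congr_deriv ?_
      ring) (by
      intro x hx
      have := exp_T4 hx.1
      linarith)
  simp at h
  linarith

theorem A_le {x : ℝ} (h0 : 0 ≤ x) : x - Real.log (1 + x) ≤ x ^ 2 / 2 := by
  have h := log_pade_lo h0
  have h2 : x - x ^ 2 / 2 ≤ 3 * x * (2 + x) / (6 + 6 * x + x ^ 2) := by
    rw [le_div_iff₀ (by positivity)]
    have : 0 ≤ 2 * x ^ 3 + x ^ 4 / 2 := by positivity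
    nlinarith
  linarith

/-- the kernel of the mass -/
noncomputable def gI (L x : ℝ) : ℝ := (1 - x) / (1 + x) * Real.exp (-(L * (x - Real.log (1 + x))))

theorem gI_cont (L : ℝ) : ContinuousOn (gI L) (Set.Icc 0 (1 / 2)) := by
  unfold gI
  have hne : ∀ x ∈ Set.Icc (0 : ℝ) (1 / 2), 1 + x ≠ 0 := by
    intro x hx
    have := hx.1
    linarith
  apply ContinuousOn.mul
  · exact ContinuousOn.div (by fun_prop) (by fun_prop) hne
  · apply Real.continuous_exp.comp_continuousOn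
    apply ContinuousOn.neg
    apply continuousOn_const.mul
    exact continuousOn_id.sub (ContinuousOn.log (by fun_prop) hne)

theorem gI_nonneg {L x : ℝ} (h0 : 0 ≤ x) (h1 : x ≤ 1 / 2) : 0 ≤ gI L x := by
  unfold gI
  apply mul_nonneg (div_nonneg (by linarith) (by linarith)) (Real.exp_pos _).le

theorem gI_ge {L x : ℝ} (hL : 0 ≤ L) (h0 : 0 ≤ x) (h1 : x ≤ 1 / 2) :
    (1 - 2 * x) * (1 - L * x ^ 2 / 2 + (L * x ^ 2 / 2) ^ 2 / 2 - (L * x ^ 2 / 2) ^ 3 / 6 +
      (L * x ^ 2 / 2) ^ 4 / 24 - (L * x ^ 2 / 2) ^ 5 / 120) ≤ gI L x := by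
  unfold gI
  have h2 : 1 - 2 * x ≤ (1 - x) / (1 + x) := by
    rw [le_div_iff₀ (by linarith)]
    nlinarith
  have h3 := exp_T5 (u := L * x ^ 2 / 2) (by positivity)
  have h4 : Real.exp (-(L * x ^ 2 / 2)) ≤ Real.exp (-(L * (x - Real.log (1 + x)))) := by
    apply Real.exp_le_exp.2
    have := mul_le_mul_of_nonneg_left (A_le h0) hL
    linarith
  have h5 : 0 ≤ 1 - 2 * x := by linarith
  calc _ ≤ (1 - 2 * x) * Real.exp (-(L * x ^ 2 / 2)) := mul_le_mul_of_nonneg_left h3 h5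
    _ ≤ (1 - x) / (1 + x) * Real.exp (-(L * (x - Real.log (1 + x)))) :=
        mul_le_mul h2 h4 (Real.exp_pos _).le (h5.trans h2)

/-- antiderivative -/
noncomputable def gP (L x : ℝ) : ℝ :=
  (x - x ^ 2) - L / 2 * (x ^ 3 / 3 - x ^ 4 / 2) + L ^ 2 / 8 * (x ^ 5 / 5 - x ^ 6 / 3) -
    L ^ 3 / 48 * (x ^ 7 / 7 - x ^ 8 / 4) + L ^ 4 / 384 * (x ^ 9 / 9 - x ^ 10 / 5) -
    L ^ 5 / 3840 * (x ^ 11 / 11 - x ^ 12 / 6)

theorem gP_deriv (L x : ℝ) : HasDerivAt (gP L)
    ((1 - 2 * x) * (1 - L * x ^ 2 / 2 + (L * x ^ 2 / 2) ^ 2 / 2 - (L * x ^ 2 / 2) ^ 3 / 6 +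
      (L * x ^ 2 / 2) ^ 4 / 24 - (L * x ^ 2 / 2) ^ 5 / 120)) x := by
  unfold gP
  have p : ∀ n : ℕ, ∀ c : ℝ, HasDerivAt (fun x : ℝ => x ^ n / c) ((n : ℝ) * x ^ (n - 1) / c) x :=
    fun n c => (hasDerivAt_pow n x).div_const c
  have d0 : HasDerivAt (fun x : ℝ => x - x ^ 2) (1 - 2 * x) x :=
    ((hasDerivAt_id x).sub (hasDerivAt_pow 2 x)).congr_deriv (by simp)
  have d1 := ((p 3 3).sub (p 4 2)).const_mul (L / 2)
  have d2 := ((p 5 5).sub (p 6 3)).const_mul (L ^ 2 / 8)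
  have d3 := ((p 7 7).sub (p 8 4)).const_mul (L ^ 3 / 48)
  have d4 := ((p 9 9).sub (p 10 5)).const_mul (L ^ 4 / 384)
  have d5 := ((p 11 11).sub (p 12 6)).const_mul (L ^ 5 / 3840)
  refine (((((d0.sub d1).add d2).sub d3).add d4).sub d5).congr_deriv ?_
  push_cast
  ring

theorem g_lower {L : ℝ} (hL : 24 ≤ L) :
    21 / 25 ≤ Real.sqrt L * ∫ x in (0 : ℝ)..(1 / 2), gI L x := by
  have hL0 : 0 < L := by linarith
  obtain ⟨h, hh⟩ : ∃ h, h = Real.sqrt L := ⟨_, rfl⟩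
  have hh2 : h ^ 2 = L := by rw [hh, Real.sq_sqrt hL0.le]
  have hh1 : 4898 / 1000 ≤ h := by
    rw [hh]
    apply Real.le_sqrt_of_sq_le
    norm_num
    linarith
  have hh0 : 0 < h := by linarith
  have hx0 : 0 ≤ 2 / h := by positivity
  have hx1 : 2 / h ≤ 1 / 2 := by
    rw [div_le_div_iff₀ hh0 (by norm_num)]
    linarith
  have hc := gI_cont L
  have i1 : IntervalIntegrable (gI L) volume 0 (2 / h) := by
    apply ContinuousOn.intervalIntegrable
    rw [Set.uIcc_of_le hx0]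
    exact hc.mono (Set.Icc_subset_Icc le_rfl hx1)
  have i2 : IntervalIntegrable (gI L) volume (2 / h) (1 / 2) := by
    apply ContinuousOn.intervalIntegrable
    rw [Set.uIcc_of_le hx1]
    exact hc.mono (Set.Icc_subset_Icc hx0 le_rfl)
  rw [← intervalIntegral.integral_add_adjacent_intervals i1 i2, ← hh]
  have h2 : 0 ≤ ∫ x in (2 / h)..(1 / 2), gI L x := by
    apply intervalIntegral.integral_nonneg hx1
    intro x hx
    exact gI_nonneg (hx0.trans hx.1) hx.2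
  have h3 : gP L (2 / h) ≤ ∫ x in (0 : ℝ)..(2 / h), gI L x := by
    have e := intervalIntegral.integral_eq_sub_of_hasDerivAt (f := gP L) (a := 0) (b := 2 / h)
      (fun x _ => gP_deriv L x) (by
        apply Continuous.intervalIntegrable
        fun_prop)
    have e0 : gP L 0 = 0 := by unfold gP; ring
    rw [e0, sub_zero] at e
    rw [← e]
    apply intervalIntegral.integral_mono_on hx0
    · apply Continuous.intervalIntegrable
      fun_prop
    · exact i1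
    · intro x hx
      exact gI_ge hL0.le hx.1 (hx.2.trans hx1)
  have h4 : h * gP L (2 / h) = 1185377 / 1000000 + (2 - 8 / 6 + 32 / 40 - 128 / 336 + 512 / 3456 -
      2048 / 42240 - 1185377 / 1000000) -
      (4 - 4 + 8 / 3 - 4 / 3 + 8 / 15 - 8 / 45) / h := by
    unfold gP
    rw [← hh2]
    field_simp
    ring
  have h5 : (4 - 4 + 8 / 3 - 4 / 3 + 8 / 15 - 8 / 45) / h ≤ 34483 / 100000 := by
    rw [div_le_iff₀ hh0]
    linarith
  have h6 : 21 / 25 ≤ h * gP L (2 / h) := by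
    rw [h4]
    linarith
  have h7 : h * gP L (2 / h) ≤ h * ((∫ x in (0 : ℝ)..(2 / h), gI L x) +
      ∫ x in (2 / h)..(1 / 2), gI L x) := by
    apply mul_le_mul_of_nonneg_left _ hh0.le
    linarith
  linarith

end Pool.Agent.Lib.MP_af3a4a_an.P1.H81
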