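import Pool.Agent.Lib.MP_af3a4a_an.P1.H81.Num24

/-!
# The numerator of `massR` for `K ≥ 24`, part 2 (helper81, council 2)
-/

set_option autoImplicit false

namespace Pool.Agent.Lib.MP_af3a4a_an.P1.H81

open MeasureTheory intervalIntegral

/-- the exponent of the bound of `q` -/
noncomputable def GG (R d x : ℝ) : ℝ :=
  -(R - d) * Real.log (1 - x / R) - Real.log ((1 + x) ^ 2 - 2 * x * d) / 2

theorem gg_pos' {d x : ℝ} (hd2 : d ≤ 2) (h0 : 0 ≤ x) (h1 : x < 1) :
    0 < (1 + x) ^ 2 - 2 * x * d := by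
  have h2 : 2 * x * d ≤ 2 * x * 2 := mul_le_mul_of_nonneg_left hd2 (by linarith)
  have h3 : 0 < (1 - x) ^ 2 := by
    have : 0 < 1 - x := by linarith
    positivity
  nlinarith

theorem GG_cont {R d y : ℝ} (hR : 1 < R) (hd2 : d ≤ 2) (hy1 : y < 1) :
    ContinuousOn (GG R d) (Set.Icc 0 y) := by
  have hR0 : 0 < R := by linarith
  unfold GG
  apply ContinuousOn.sub
  · apply continuousOn_const.mul
    apply ContinuousOn.log (by fun_prop)
    intro x hx
    have h2 : x < R := by linarith [hx.2]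
    have : 0 < 1 - x / R := by rw [sub_pos, div_lt_one hR0]; exact h2
    exact this.ne'
  · apply ContinuousOn.div_const
    apply ContinuousOn.log (by fun_prop)
    intro x hx
    exact (gg_pos' hd2 hx.1 (lt_of_le_of_lt hx.2 hy1)).ne'

/-- the bound of `q` -/
noncomputable def eq24 (K R d x : ℝ) : ℝ := Real.exp (-(K * GG R d x))

theorem eq24_cont {K R d y : ℝ} (hR : 1 < R) (hd2 : d ≤ 2) (hy1 : y < 1) :
    ContinuousOn (eq24 K R d) (Set.Icc 0 y) := by
  unfold eq24
  apply Real.continuous_exp.comp_continuousOn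
  exact (continuousOn_const.mul (GG_cont hR hd2 hy1)).neg

theorem dom_K {K R d x : ℝ} (hK : 24 ≤ K) (hR : 29 / 12 ≤ R) (hd0 : 0 ≤ d) (hd2 : d ≤ 2)
    (h0 : 0 ≤ x) (h1 : x ≤ 1 / 2) :
    (1 + d * (x / (1 - x))) * eq24 K R d x ≤
      Real.exp (-(K * (1 + 1 / R) * (x - Real.log (1 + x)))) := by
  have hd := dom hR hd0 hd2 h0 h1
  have p1 : 0 < 1 - x := by linarith
  have hX : 0 ≤ d * (x / (1 - x)) := mul_nonneg hd0 (div_nonneg h0 p1.le)
  have hl : 0 ≤ Real.log (1 + d * (x / (1 - x))) := Real.log_nonneg (by linarith)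
  have hp : 0 < 1 + d * (x / (1 - x)) := by linarith
  have hG : 0 ≤ GG R d x - (1 + 1 / R) * (x - Real.log (1 + x)) := by
    unfold GG
    linarith
  have h2 : Real.log (1 + d * (x / (1 - x))) ≤
      K * (GG R d x - (1 + 1 / R) * (x - Real.log (1 + x))) := by
    have h3 := mul_le_mul_of_nonneg_right hK hG
    unfold GG at h3 ⊢
    linarith
  have h3 : 1 + d * (x / (1 - x)) ≤
      Real.exp (K * (GG R d x - (1 + 1 / R) * (x - Real.log (1 + x)))) := by
    rw [← Real.exp_log hp]
    exact Real.exp_le_exp.2 h2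
  unfold eq24
  refine (mul_le_mul_of_nonneg_right h3 (Real.exp_pos _).le).trans (le_of_eq ?_)
  rw [← Real.exp_add]
  congr 1
  ring

/-- the weight of `massR` -/
noncomputable def WR (R d t x : ℝ) : ℝ :=
  |x - t| * ((1 - x / R) * kap1 (d - 1) x + 1 / R) + t * (x * ((1 + 1 / R) * kap1 (d - 1) x))

theorem kap1_eq {d x : ℝ} (h0 : 0 ≤ x) (h1 : x < 1) :
    kap1 (d - 1) x = (1 + d * (x / (1 - x))) / (1 + x) := by
  have p1 : 0 < 1 - x := by linarith
  have p2 : 0 < 1 + x := by linarith
  have e : 1 - x ^ 2 = (1 - x) * (1 + x) := by ring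
  unfold kap1
  rw [e]
  field_simp
  ring

theorem WR_le {R d t x : ℝ} (hR : 29 / 12 ≤ R) (hd0 : 0 ≤ d) (ht0 : 0 ≤ t) (h0 : 0 ≤ x)
    (h1 : x < 1) :
    WR R d t x ≤ (1 + 1 / R) * (1 + d * (x / (1 - x))) / (1 + x) * (|x - t| + t * x) := by
  have hR0 : 0 < R := by linarith
  have hi : 0 ≤ 1 / R := by positivity
  have p1 : 0 < 1 - x := by linarith
  have p2 : 0 < 1 + x := by linarith
  obtain ⟨Y, hY⟩ : ∃ Y, Y = d * (x / (1 - x)) := ⟨_, rfl⟩
  have hY0 : 0 ≤ Y := by rw [hY]; exact mul_nonneg hd0 (div_nonneg h0 p1.le)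
  unfold WR
  rw [kap1_eq h0 h1, ← hY]
  have hxR : x / R = 1 / R * x := by ring
  obtain ⟨ε, hε⟩ : ∃ ε, ε = 1 / R := ⟨_, rfl⟩
  rw [hxR, ← hε]
  rw [← hε] at hi
  have h2 : (1 - ε * x) * ((1 + Y) / (1 + x)) + ε ≤ (1 + ε) * (1 + Y) / (1 + x) := by
    have e : (1 - ε * x) * ((1 + Y) / (1 + x)) + ε = ((1 - ε * x) * (1 + Y) + ε * (1 + x)) / (1 + x) := by
      field_simp
    rw [e]
    apply div_le_div_of_nonneg_right _ p2.le
    have : 0 ≤ ε * x * Y := by positivity
    have h3 : 0 ≤ ε * Y := by positivity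
    nlinarith
  have h3 := mul_le_mul_of_nonneg_left h2 (abs_nonneg (x - t))
  have e2 : t * (x * ((1 + ε) * ((1 + Y) / (1 + x)))) = (1 + ε) * (1 + Y) / (1 + x) * (t * x) := by
    ring
  rw [e2]
  linarith

theorem int_F1 (L : ℝ) : ∫ x in (0 : ℝ)..(1 / 2),
      L * (x / (1 + x)) * Real.exp (-(L * (x - Real.log (1 + x)))) =
    1 - Real.exp (-(L * (1 / 2 - Real.log (1 + 1 / 2)))) := by
  have hne : ∀ x ∈ Set.uIcc (0 : ℝ) (1 / 2), 1 + x ≠ 0 := by
    intro x hx
    rw [Set.uIcc_of_le (by norm_num)] at hx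
    have := hx.1
    linarith
  have h := intervalIntegral.integral_eq_sub_of_hasDerivAt
    (f := fun x => -Real.exp (-(L * (x - Real.log (1 + x)))))
    (f' := fun x => L * (x / (1 + x)) * Real.exp (-(L * (x - Real.log (1 + x)))))
    (a := 0) (b := 1 / 2) (by
      intro x hx
      have hx0 : 0 ≤ x := by
        rw [Set.uIcc_of_le (by norm_num)] at hx
        exact hx.1
      have d0 : HasDerivAt (fun x : ℝ => -(L * (x - Real.log (1 + x))))
          (-(L * (1 - 1 / (1 + x)))) x :=
        (((hasDerivAt_id x).sub (hasDerivAt_log_one_add hx0)).const_mul L).neg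
      refine d0.exp.neg.congr_deriv ?_
      have h1 : 1 + x ≠ 0 := by linarith
      obtain ⟨E, hE⟩ : ∃ E, E = Real.exp (-(L * (x - Real.log (1 + x)))) := ⟨_, rfl⟩
      rw [← hE]
      field_simp
      ring) (by
      apply ContinuousOn.intervalIntegrable
      apply ContinuousOn.mul
      · exact continuousOn_const.mul (ContinuousOn.div continuousOn_id (by fun_prop) hne)
      · apply Real.continuous_exp.comp_continuousOn
        apply ContinuousOn.neg
        apply continuousOn_const.mul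
        exact continuousOn_id.sub (ContinuousOn.log (by fun_prop) hne))
  rw [h]
  simp
  ring

theorem int_F3 {t : ℝ} (h0 : 0 ≤ t) (h1 : t ≤ 1 / 2) :
    ∫ x in (0 : ℝ)..(1 / 2), max (t - x) 0 = t ^ 2 / 2 := by
  have hc : Continuous fun x : ℝ => max (t - x) 0 := by fun_prop
  rw [← intervalIntegral.integral_add_adjacent_intervals (hc.intervalIntegrable 0 t)
    (hc.intervalIntegrable t (1 / 2))]
  have e1 : ∫ x in (0 : ℝ)..t, max (t - x) 0 = ∫ x in (0 : ℝ)..t, (t - x) := by
    apply intervalIntegral.integral_congr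
    intro x hx
    rw [Set.uIcc_of_le h0] at hx
    exact max_eq_left (by linarith [hx.2])
  have e2 : ∫ x in t..(1 / 2), max (t - x) 0 = ∫ x in t..(1 / 2), (0 : ℝ) := by
    apply intervalIntegral.integral_congr
    intro x hx
    rw [Set.uIcc_of_le h1] at hx
    exact max_eq_right (by linarith [hx.1])
  rw [e1, e2, intervalIntegral.integral_sub (by simp) (by simp)]
  simp
  ring

/-- **the numerator** -/
theorem num24 {K R d t : ℝ} (hK : 24 ≤ K) (hR : 29 / 12 ≤ R) (hd0 : 0 ≤ d) (hd2 : d ≤ 2)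
    (ht : t = 2 / 5 / Real.sqrt (K * (1 + 1 / R))) :
    22 / 125 ≤ 1 - (1 - 1 / 2 / R) * eq24 K R d (1 / 2) -
      K * ∫ x in (0 : ℝ)..(1 / 2), WR R d t x * eq24 K R d x := by
  have hR0 : 0 < R := by linarith
  have hi : 0 ≤ 1 / R := by positivity
  obtain ⟨L, hL⟩ : ∃ L, L = K * (1 + 1 / R) := ⟨_, rfl⟩
  have hL24 : 24 ≤ L := by rw [hL]; nlinarith
  have hL0 : 0 < L := by linarith
  obtain ⟨h, hh⟩ : ∃ h, h = Real.sqrt L := ⟨_, rfl⟩
  have hh2 : h ^ 2 = L := by rw [hh, Real.sq_sqrt hL0.le]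
  have hh0 : 0 < h := by rw [hh]; exact Real.sqrt_pos.2 hL0
  rw [← hL, ← hh] at ht
  have ht0 : 0 ≤ t := by rw [ht]; positivity
  have hh1 : 1 ≤ h := by
    rw [hh, Real.one_le_sqrt]
    linarith
  have ht1 : t ≤ 1 / 2 := by
    rw [ht, div_le_iff₀ hh0]
    linarith
  have htL : t * L = 2 / 5 * h := by
    rw [ht, ← hh2]
    field_simp
  have ht2 : L * t ^ 2 = 4 / 25 := by
    rw [ht, ← hh2]
    field_simp
    norm_num
  have hg := g_lower hL24
  rw [← hh] at hg
  -- pointwise
  have hpt : ∀ x ∈ Set.Icc (0 : ℝ) (1 / 2), K * (WR R d t x * eq24 K R d x) ≤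
      L * (x / (1 + x)) * Real.exp (-(L * (x - Real.log (1 + x)))) - t * L * gI L x +
        2 * L * max (t - x) 0 := by
    intro x hx
    have hx0 := hx.1
    have hx1 := hx.2
    have p1 : 0 < 1 - x := by linarith
    have p2 : 0 < 1 + x := by linarith
    have w1 := WR_le hR hd0 ht0 hx0 (show x < 1 by linarith)
    have w2 := dom_K hK hR hd0 hd2 hx0 hx1
    rw [← hL] at w2
    obtain ⟨E, hE⟩ : ∃ E, E = Real.exp (-(L * (x - Real.log (1 + x)))) := ⟨_, rfl⟩
    have hE0 : 0 ≤ E := by rw [hE]; exact (Real.exp_pos _).le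
    have hE1 : E ≤ 1 := by
      rw [hE, Real.exp_le_one_iff]
      have : 0 ≤ x - Real.log (1 + x) := by
        have := Real.log_le_sub_one_of_pos p2
        linarith
      have := mul_nonneg hL0.le this
      linarith
    have he0 : 0 ≤ eq24 K R d x := (Real.exp_pos _).le
    rw [← hE] at w2
    have w3 : K * (WR R d t x * eq24 K R d x) ≤ L / (1 + x) * (|x - t| + t * x) * E := by
      have a1 := mul_le_mul_of_nonneg_right w1 he0
      have hK0 : 0 ≤ K := by linarith
      have a2 := mul_le_mul_of_nonneg_left a1 hK0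
      refine a2.trans ?_
      have e : K * ((1 + 1 / R) * (1 + d * (x / (1 - x))) / (1 + x) * (|x - t| + t * x) *
          eq24 K R d x) = L / (1 + x) * (|x - t| + t * x) *
          ((1 + d * (x / (1 - x))) * eq24 K R d x) := by
        rw [hL]
        ring
      rw [e]
      apply mul_le_mul_of_nonneg_left w2
      have : 0 ≤ |x - t| := abs_nonneg _
      positivity
    refine w3.trans ?_
    have h3 : |x - t| = (x - t) + 2 * max (t - x) 0 := by
      rcases le_total t x with h | h
      · rw [abs_of_nonneg (by linarith), max_eq_right (by linarith)]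
        ring
      · rw [abs_of_nonpos (by linarith), max_eq_left (by linarith)]
        ring
    have hm : 0 ≤ max (t - x) 0 := le_max_right _ _
    have h4 : L / (1 + x) * (2 * max (t - x) 0) * E ≤ 2 * L * max (t - x) 0 := by
      have b1 : L / (1 + x) ≤ L := div_le_self hL0.le (by linarith)
      have b2 : L / (1 + x) * (2 * max (t - x) 0) ≤ L * (2 * max (t - x) 0) :=
        mul_le_mul_of_nonneg_right b1 (by linarith)
      have b3 : L * (2 * max (t - x) 0) * E ≤ L * (2 * max (t - x) 0) * 1 :=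
        mul_le_mul_of_nonneg_left hE1 (by positivity)
      have b4 := mul_le_mul_of_nonneg_right b2 hE0
      linarith
    unfold gI
    rw [h3, ← hE]
    have e5 : L / (1 + x) * (x - t + 2 * max (t - x) 0 + t * x) * E =
        (L * (x / (1 + x)) * E - t * L * ((1 - x) / (1 + x) * E)) +
        L / (1 + x) * (2 * max (t - x) 0) * E := by
      field_simp
      ring
    rw [e5]
    linarith
  have hne : ∀ x ∈ Set.Icc (0 : ℝ) (1 / 2), 1 + x ≠ 0 := by
    intro x hx
    have := hx.1
    linarith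
  have hWc : ContinuousOn (fun x => WR R d t x * eq24 K R d x) (Set.Icc 0 (1 / 2)) := by
    have hk := kap1_cont (m := d - 1) (y := 1 / 2) (by norm_num)
    apply ContinuousOn.mul _ (eq24_cont (by linarith) hd2 (by norm_num))
    unfold WR
    apply ContinuousOn.add
    · apply ContinuousOn.mul
      · exact ((continuous_id.sub continuous_const).abs).continuousOn
      · apply ContinuousOn.add _ continuousOn_const
        exact ContinuousOn.mul (by fun_prop) hk
    · apply continuousOn_const.mul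
      apply continuousOn_id.mul
      exact continuousOn_const.mul hk
  have hF1 : IntervalIntegrable (fun x => L * (x / (1 + x)) *
      Real.exp (-(L * (x - Real.log (1 + x))))) volume 0 (1 / 2) := by
    apply ContinuousOn.intervalIntegrable
    rw [Set.uIcc_of_le (by norm_num)]
    apply ContinuousOn.mul
    · exact continuousOn_const.mul (ContinuousOn.div continuousOn_id (by fun_prop) hne)
    · apply Real.continuous_exp.comp_continuousOn
      apply ContinuousOn.neg
      apply continuousOn_const.mul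
      exact continuousOn_id.sub (ContinuousOn.log (by fun_prop) hne)
  have hF2 : IntervalIntegrable (gI L) volume 0 (1 / 2) := by
    apply ContinuousOn.intervalIntegrable
    rw [Set.uIcc_of_le (by norm_num)]
    exact gI_cont L
  have hF3 : IntervalIntegrable (fun x : ℝ => max (t - x) 0) volume 0 (1 / 2) := by
    apply Continuous.intervalIntegrable
    fun_prop
  have hint : K * ∫ x in (0 : ℝ)..(1 / 2), WR R d t x * eq24 K R d x ≤
      (1 - Real.exp (-(L * (1 / 2 - Real.log (1 + 1 / 2))))) -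
        t * L * (∫ x in (0 : ℝ)..(1 / 2), gI L x) + 2 * L * (t ^ 2 / 2) := by
    rw [← int_F1 L, ← int_F3 ht0 ht1, ← intervalIntegral.integral_const_mul,
      ← intervalIntegral.integral_const_mul, ← intervalIntegral.integral_const_mul,
      ← intervalIntegral.integral_sub hF1 (hF2.const_mul _),
      ← intervalIntegral.integral_add (hF1.sub (hF2.const_mul _)) (hF3.const_mul _)]
    apply intervalIntegral.integral_mono_on (by norm_num)
    · apply IntervalIntegrable.const_mul
      apply ContinuousOn.intervalIntegrable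
      rw [Set.uIcc_of_le (by norm_num)]
      exact hWc
    · exact (hF1.sub (hF2.const_mul _)).add (hF3.const_mul _)
    · exact hpt
  have hT : (1 - 1 / 2 / R) * eq24 K R d (1 / 2) ≤
      Real.exp (-(L * (1 / 2 - Real.log (1 + 1 / 2)))) := by
    have w2 := dom_K hK hR hd0 hd2 (show (0 : ℝ) ≤ 1 / 2 by norm_num) le_rfl
    rw [← hL] at w2
    have he0 : 0 ≤ eq24 K R d (1 / 2) := (Real.exp_pos _).le
    have h1 : (1 - 1 / 2 / R) * eq24 K R d (1 / 2) ≤ 1 * eq24 K R d (1 / 2) := by
      apply mul_le_mul_of_nonneg_right _ he0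
      have : 0 ≤ 1 / 2 / R := by positivity
      linarith
    have h2 : 1 * eq24 K R d (1 / 2) ≤
        (1 + d * (1 / 2 / (1 - 1 / 2))) * eq24 K R d (1 / 2) := by
      apply mul_le_mul_of_nonneg_right _ he0
      have : 0 ≤ d * (1 / 2 / (1 - 1 / 2)) := by
        apply mul_nonneg hd0
        norm_num
      linarith
    linarith
  have h9 : t * L * (∫ x in (0 : ℝ)..(1 / 2), gI L x) = 2 / 5 * (h *
      ∫ x in (0 : ℝ)..(1 / 2), gI L x) := by
    rw [htL]
    ring
  rw [h9] at hint
  linarith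

end Pool.Agent.Lib.MP_af3a4a_an.P1.H81
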