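import Mathlib

/-!
# Bounds of the logarithm (helper81, council 2)
-/

set_option autoImplicit false

namespace Pool.Agent.Lib.MP_af3a4a_an.P1.H81

theorem mono_of {f f' : ℝ → ℝ} {a b : ℝ} (hab : a ≤ b)
    (hf : ∀ x ∈ Set.Icc a b, HasDerivAt f (f' x) x) (h : ∀ x ∈ Set.Icc a b, 0 ≤ f' x) :
    f a ≤ f b := by
  have h1 := monotoneOn_of_deriv_nonneg (convex_Icc a b)
    (fun x hx => (hf x hx).continuousAt.continuousWithinAt)
    (fun x hx => (hf x (interior_subset hx)).differentiableAt.differentiableWithinAt)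
    (fun x hx => by
      rw [(hf x (interior_subset hx)).deriv]
      exact h x (interior_subset hx))
  exact h1 (Set.left_mem_Icc.2 hab) (Set.right_mem_Icc.2 hab) hab

theorem hasDerivAt_log_one_add {x : ℝ} (hx : 0 ≤ x) :
    HasDerivAt (fun x : ℝ => Real.log (1 + x)) (1 / (1 + x)) x := by
  have h1 : HasDerivAt (fun x : ℝ => 1 + x) 1 x := by
    simpa using (hasDerivAt_id x).const_add 1
  exact h1.log (by linarith)

/-- upper Pade bound -/
theorem log_pade_up {s : ℝ} (hs : 0 ≤ s) : Real.log (1 + s) ≤ s * (6 + s) / (6 + 4 * s) := by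
  have h := mono_of (f := fun s => s * (6 + s) / (6 + 4 * s) - Real.log (1 + s))
    (f' := fun s => 4 * s ^ 3 / ((1 + s) * (6 + 4 * s) ^ 2)) hs (by
      intro x hx
      have hx0 := hx.1
      have hne : 6 + 4 * x ≠ 0 := by linarith
      have hne1 : 1 + x ≠ 0 := by linarith
      have d1 : HasDerivAt (fun s : ℝ => s * (6 + s)) (1 * (6 + x) + x * 1) x :=
        (hasDerivAt_id x).mul ((hasDerivAt_id x).const_add 6)
      have d2 : HasDerivAt (fun s : ℝ => 6 + 4 * s) (4 * 1) x :=
        ((hasDerivAt_id x).const_mul 4).const_add 6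
      refine ((d1.div d2 hne).sub (hasDerivAt_log_one_add hx0)).congr_deriv ?_
      field_simp
      ring) (by
      intro x hx
      have hx0 := hx.1
      positivity)
  simp only [zero_mul, zero_div, add_zero, Real.log_one, sub_zero] at h
  linarith

/-- lower Pade bound -/
theorem log_pade_lo {s : ℝ} (hs : 0 ≤ s) :
    3 * s * (2 + s) / (6 + 6 * s + s ^ 2) ≤ Real.log (1 + s) := by
  have h := mono_of (f := fun s => Real.log (1 + s) - 3 * s * (2 + s) / (6 + 6 * s + s ^ 2))
    (f' := fun s => s ^ 4 / ((1 + s) * (6 + 6 * s + s ^ 2) ^ 2)) hs (by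
      intro x hx
      have hx0 := hx.1
      have hne : 6 + 6 * x + x ^ 2 ≠ 0 := by positivity
      have hne1 : 1 + x ≠ 0 := by linarith
      have d1 : HasDerivAt (fun s : ℝ => 3 * s * (2 + s)) (3 * 1 * (2 + x) + 3 * x * 1) x :=
        ((hasDerivAt_id x).const_mul 3).mul ((hasDerivAt_id x).const_add 2)
      have d2 : HasDerivAt (fun s : ℝ => 6 + 6 * s + s ^ 2) (6 * 1 + 2 * x) x := by
        exact ((((hasDerivAt_id x).const_mul 6).const_add 6).add
          (hasDerivAt_pow 2 x)).congr_deriv (by simp)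
      refine ((hasDerivAt_log_one_add hx0).sub (d1.div d2 hne)).congr_deriv ?_
      field_simp
      ring) (by
      intro x hx
      have hx0 := hx.1
      positivity)
  simp only [mul_zero, zero_mul, zero_div, add_zero, Real.log_one, sub_zero] at h
  linarith

theorem neg_log_lo2 {z : ℝ} (h0 : 0 ≤ z) (h1 : z < 1) : z + z ^ 2 / 2 ≤ -Real.log (1 - z) := by
  have h2 : |z| < 1 := by rwa [abs_of_nonneg h0]
  have h3 := Real.hasSum_pow_div_log_of_abs_lt_one h2
  have h4 := sum_le_hasSum (Finset.range 2) (fun i _ => by positivity) h3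
  simp only [Finset.sum_range_succ, Finset.sum_range_zero] at h4
  norm_num at h4
  linarith

theorem neg_log_lo3 {z : ℝ} (h0 : 0 ≤ z) (h1 : z < 1) :
    z + z ^ 2 / 2 + z ^ 3 / 3 ≤ -Real.log (1 - z) := by
  have h2 : |z| < 1 := by rwa [abs_of_nonneg h0]
  have h3 := Real.hasSum_pow_div_log_of_abs_lt_one h2
  have h4 := sum_le_hasSum (Finset.range 3) (fun i _ => by positivity) h3
  simp only [Finset.sum_range_succ, Finset.sum_range_zero] at h4
  norm_num at h4
  linarith

theorem neg_log_up {z : ℝ} (h0 : 0 ≤ z) (h1 : z < 1) :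
    -Real.log (1 - z) ≤ z * (6 - 5 * z) / ((1 - z) * (6 - 2 * z)) := by
  have p1 : 0 < 1 - z := by linarith
  have p2 : 0 < 6 - 2 * z := by linarith
  have h2 : 0 ≤ z / (1 - z) := div_nonneg h0 p1.le
  have h3 := log_pade_up h2
  have e1 : 1 + z / (1 - z) = (1 - z)⁻¹ := by field_simp; ring
  rw [e1, Real.log_inv] at h3
  refine h3.trans (le_of_eq ?_)
  have e2 : 6 + 4 * (z / (1 - z)) = (6 - 2 * z) / (1 - z) := by field_simp; ring
  rw [e2]
  field_simp
  ring

/-- `(6 - 5 z)/((1 - z)(6 - 2 z))` increases -/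
theorem hfun_mono {z w : ℝ} (h0 : 0 ≤ z) (hzw : z ≤ w) (h1 : w < 1) :
    (6 - 5 * z) / ((1 - z) * (6 - 2 * z)) ≤ (6 - 5 * w) / ((1 - w) * (6 - 2 * w)) := by
  have p1 : 0 < 1 - z := by linarith
  have p2 : 0 < 6 - 2 * z := by linarith
  have p3 : 0 < 1 - w := by linarith
  have p4 : 0 < 6 - 2 * w := by linarith
  have e : ∀ t : ℝ, t < 1 → (6 - 5 * t) / ((1 - t) * (6 - 2 * t)) =
      1 / (4 * (1 - t)) + 9 / (2 * (6 - 2 * t)) := by
    intro t ht
    have q1 : 1 - t ≠ 0 := by linarith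
    have q2 : 6 - 2 * t ≠ 0 := by linarith
    rw [div_add_div _ _ (mul_ne_zero (by norm_num) q1) (mul_ne_zero (by norm_num) q2),
      div_eq_div_iff (mul_ne_zero q1 q2)
        (mul_ne_zero (mul_ne_zero (by norm_num) q1) (mul_ne_zero (by norm_num) q2))]
    ring
  rw [e z (by linarith), e w h1]
  have h2 : 1 / (4 * (1 - z)) ≤ 1 / (4 * (1 - w)) :=
    one_div_le_one_div_of_le (by linarith) (by linarith)
  have h3 : 9 / (2 * (6 - 2 * z)) ≤ 9 / (2 * (6 - 2 * w)) :=
    div_le_div_of_nonneg_left (by norm_num) (by linarith) (by linarith)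
  linarith

end Pool.Agent.Lib.MP_af3a4a_an.P1.H81
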