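import Pool.Agent.Lib.MP_af3a4a_an.P1.H81.Num

/-!
# S0₂ with an exponential majorant (helper81, council 2)
-/

namespace Pool.Agent.Lib.MP_af3a4a_an.P1.H81

open MeasureTheory intervalIntegral Set
open Pool.Agent.Lib.MP_af3a4a_an.SV (uu av EE)
open Pool.Agent.Lib.MP_af3a4a_an.P1.H80

theorem exp_mom {K y : ℝ} (hK : 0 < K) (hy : 0 ≤ y) (hy2 : y ≤ 2 / 5) :
    ∫ x in (0 : ℝ)..y, x / (1 - x) * Real.exp (-(K * x)) ≤ 1 / K ^ 2 + 2 / K ^ 3 + 10 / K ^ 4 := by
  have hd : ∀ x ∈ Set.uIcc (0 : ℝ) y, HasDerivAt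
      (fun x : ℝ => -(Real.exp (-(K * x)) * (x / K + 1 / K ^ 2 + (x ^ 2 / K + 2 * x / K ^ 2
        + 2 / K ^ 3) + 5 / 3 * (x ^ 3 / K + 3 * x ^ 2 / K ^ 2 + 6 * x / K ^ 3 + 6 / K ^ 4))))
      ((x + x ^ 2 + 5 / 3 * x ^ 3) * Real.exp (-(K * x))) x := by
    intro x _
    have e1 : HasDerivAt (fun x : ℝ => Real.exp (-(K * x))) (Real.exp (-(K * x)) * (-K)) x := by
      have := (((hasDerivAt_id x).const_mul K).neg).exp
      refine this.congr_deriv ?_
      simp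
    have e2 : HasDerivAt (fun x : ℝ => x / K + 1 / K ^ 2 + (x ^ 2 / K + 2 * x / K ^ 2
        + 2 / K ^ 3) + 5 / 3 * (x ^ 3 / K + 3 * x ^ 2 / K ^ 2 + 6 * x / K ^ 3 + 6 / K ^ 4))
        (1 / K + (2 * x / K + 2 / K ^ 2) + 5 / 3 * (3 * x ^ 2 / K + 6 * x / K ^ 2 + 6 / K ^ 3)) x := by
      have f1 := ((hasDerivAt_id x).div_const K).add_const (1 / K ^ 2)
      have f2 := (((hasDerivAt_pow 2 x).div_const K).add
        (((hasDerivAt_id x).const_mul 2).div_const (K ^ 2))).add_const (2 / K ^ 3)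
      have f3 := (((((hasDerivAt_pow 3 x).div_const K).add
        (((hasDerivAt_pow 2 x).const_mul 3).div_const (K ^ 2))).add
        (((hasDerivAt_id x).const_mul 6).div_const (K ^ 3))).add_const (6 / K ^ 4)).const_mul (5 / 3)
      refine ((f1.add f2).add f3).congr_deriv ?_
      norm_num
      ring
    refine (e1.mul e2).neg.congr_deriv ?_
    field_simp
    ring
  have h1 : ∫ x in (0 : ℝ)..y, x / (1 - x) * Real.exp (-(K * x)) ≤
      ∫ x in (0 : ℝ)..y, (x + x ^ 2 + 5 / 3 * x ^ 3) * Real.exp (-(K * x)) := by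
    apply intervalIntegral.integral_mono_on hy
    · apply ContinuousOn.intervalIntegrable
      rw [Set.uIcc_of_le hy]
      apply ContinuousOn.mul _ (by fun_prop)
      apply ContinuousOn.div continuousOn_id (by fun_prop)
      intro x hx
      have := hx.2
      have : (0 : ℝ) < 1 - x := by linarith
      exact this.ne'
    · exact Continuous.intervalIntegrable (by fun_prop) _ _
    · intro x hx
      apply mul_le_mul_of_nonneg_right _ (Real.exp_pos _).le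
      have hx1 : 0 < 1 - x := by linarith [hx.2]
      rw [div_le_iff₀ hx1]
      have e1 : (x + x ^ 2 + 5 / 3 * x ^ 3) * (1 - x) = x + x ^ 3 * (2 / 3 - 5 / 3 * x) := by ring
      rw [e1]
      have h3 : 0 ≤ x ^ 3 * (2 / 3 - 5 / 3 * x) :=
        mul_nonneg (pow_nonneg hx.1 3) (by linarith [hx.2])
      linarith
  refine h1.trans ?_
  rw [intervalIntegral.integral_eq_sub_of_hasDerivAt hd
    (Continuous.intervalIntegrable (by fun_prop) _ _)]
  have h2 : 0 ≤ Real.exp (-(K * y)) * (y / K + 1 / K ^ 2 + (y ^ 2 / K + 2 * y / K ^ 2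
        + 2 / K ^ 3) + 5 / 3 * (y ^ 3 / K + 3 * y ^ 2 / K ^ 2 + 6 * y / K ^ 3 + 6 / K ^ 4)) := by
    positivity
  simp only [mul_zero, neg_zero, Real.exp_zero, one_mul, zero_div, zero_add, ne_eq,
    OfNat.ofNat_ne_zero, not_false_eq_true, zero_pow]
  have e3 : 5 / 3 * (6 / K ^ 4) = 10 / K ^ 4 := by ring
  rw [e3]
  linarith

variable {N : ℕ} {u : Fin N → ℂ}

theorem s0_num (hN : 400 ≤ N) (hu : ∀ k, ‖u k‖ ≤ 1) {R : ℝ} (hR : 32 / 25 ≤ R)
    (hR2 : R ≤ 21 / 10) (hp : 0 < (av u).re) (hNp : 10 ≤ N * R * (av u).re ^ 2)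
    (hSq : SV.sq u ≤ (1 + 2 * (av u).re) / R)
    (hV : ∀ x, 0 ≤ x → x ≤ 2 / 5 → ‖qq u x‖ ≤ Real.exp (-(N * (21 / 50 / R * x ^ 2)))) :
    3 / 500 ≤ N * ‖∫ x in (0 : ℝ)..(2 / 5), qq u x‖ := by
  have hN1 : 1 ≤ N := by omega
  have hNr : (400 : ℝ) ≤ N := by exact_mod_cast hN
  have hm := av_norm_le hN1 hu
  have hp1 : (av u).re ≤ 1 := (Complex.re_le_norm _).trans hm
  obtain ⟨p, hpd⟩ : ∃ p, p = (av u).re := ⟨_, rfl⟩
  obtain ⟨S, hSd⟩ : ∃ S, S = (1 + 2 * p) / R := ⟨_, rfl⟩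
  rw [← hpd] at hp hNp hp1 hSq
  rw [← hSd] at hSq
  have hR0 : 0 < R := by linarith
  have hS0 : 0 < S := by rw [hSd]; positivity
  have hc0 : 0 < 21 / 50 / R := by positivity
  obtain ⟨K, hK⟩ : ∃ K, K = N * (2 * (21 / 50 / R) / (2 * (21 / 50 / R) + S)) * p := ⟨_, rfl⟩
  have hK2 : K = 21 * N * p / (46 + 50 * p) := by
    rw [hK, hSd]
    have : 0 < 46 + 50 * p := by linarith
    field_simp
    ring
  have hK0 : 0 < K := by
    rw [hK2]
    positivity
  have hqe : ∀ x ∈ Set.Icc (0 : ℝ) (2 / 5), ‖qq u x‖ ≤ Real.exp (-(K * x)) := by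
    intro x hx
    have h := qq_weighted hN1 hS0 hc0 hSq (hV x hx.1 hx.2)
    rw [← hpd, ← hK] at h
    exact h
  have hT : ‖qq u (2 / 5)‖ ≤ 1 / 576 := by
    have h1 := hV (2 / 5) (by norm_num) le_rfl
    refine h1.trans ?_
    have h2 : Real.exp (-(33 / 10)) ≤ 1 / 24 := E2_le le_rfl
    have h3 : Real.exp (-(N * (21 / 50 / R * (2 / 5) ^ 2))) ≤
        Real.exp (-(33 / 10)) * Real.exp (-(33 / 10)) := by
      rw [← Real.exp_add]
      apply Real.exp_le_exp.2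
      have h4 : (33 / 5 : ℝ) ≤ N * (21 / 50 / R * (2 / 5) ^ 2) := by
        have h5 : (1 / 5 : ℝ) ≤ 21 / 50 / R := by
          rw [le_div_iff₀ hR0]
          linarith
        nlinarith
      linarith
    have h6 := mul_le_mul h2 h2 (Real.exp_pos _).le (by norm_num : (0 : ℝ) ≤ 1 / 24)
    linarith
  have h := s0two hN1 hu (by norm_num) (by norm_num) hSq
    (e := fun x => Real.exp (-(K * x))) (by fun_prop) hqe hT
  have hM := exp_mom hK0 (by norm_num : (0 : ℝ) ≤ 2 / 5) le_rfl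
  -- claim A
  have hA : (1 + 2 * p) * (46 + 50 * p) ^ 2 ≤ 721 / 2 * (N * R * p ^ 2) := by
    rcases le_or_gt p (7 / 50) with h1 | h1
    · have h2 : (46 + 50 * p) ^ 2 ≤ 53 ^ 2 := pow_le_pow_left₀ (by linarith) (by linarith) 2
      have h3 : (1 + 2 * p) * (46 + 50 * p) ^ 2 ≤ 32 / 25 * 53 ^ 2 :=
        mul_le_mul (by linarith) h2 (by positivity) (by norm_num)
      linarith
    · have h2 : 512 * p ^ 2 ≤ N * R * p ^ 2 := by
        apply mul_le_mul_of_nonneg_right _ (sq_nonneg p)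
        nlinarith
      have h3 : (1 + 2 * p) * (46 + 50 * p) ^ 2 ≤ 721 / 2 * (512 * p ^ 2) := by
        nlinarith [mul_nonneg (sub_nonneg.2 h1.le) (sub_nonneg.2 hp1),
          mul_nonneg (mul_nonneg (sub_nonneg.2 h1.le) (sub_nonneg.2 hp1)) hp.le]
      linarith
  -- claim B
  have hB : 35 / 2 ≤ K := by
    rw [hK2, le_div_iff₀ (by linarith)]
    have h1 : (428 / 10 : ℝ) ≤ N * p := by
      have h2 : (428 / 10 : ℝ) ^ 2 ≤ (N * p) ^ 2 := by
        have h3 : (100 / 21 : ℝ) ≤ N * p ^ 2 := by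
          have h4 : N * R * p ^ 2 = R * (N * p ^ 2) := by ring
          rw [h4] at hNp
          have h5 : 0 ≤ (N : ℝ) * p ^ 2 := by positivity
          nlinarith
        have h6 : (N * p) ^ 2 = N * (N * p ^ 2) := by ring
        rw [h6]
        nlinarith
      exact le_of_sq_le_sq h2 (by positivity)
    have h7 : 875 * p ≤ 35 / 16 * (N * p) := by nlinarith
    nlinarith
  have hX : N * S * (1 / K ^ 2) ≤ 327 / 400 := by
    have hK3 : K * (46 + 50 * p) = 21 * N * p := by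
      rw [hK2]
      have : 0 < 46 + 50 * p := by linarith
      field_simp
    have h1 : N * S * (1 / K ^ 2) = (1 + 2 * p) * (46 + 50 * p) ^ 2 / (441 * (N * R * p ^ 2)) := by
      have h2 : 0 < 46 + 50 * p := by linarith
      have h3 : K ^ 2 * (46 + 50 * p) ^ 2 = 441 * N ^ 2 * p ^ 2 := by
        rw [← mul_pow, hK3]; ring
      rw [hSd, eq_div_iff (by positivity)]
      have h4 : N * ((1 + 2 * p) / R) * (1 / K ^ 2) * (441 * (N * R * p ^ 2)) =
          (1 + 2 * p) * (441 * N ^ 2 * p ^ 2) / K ^ 2 := by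
        field_simp
      rw [h4, ← h3]
      field_simp
    rw [h1, div_le_iff₀ (by positivity)]
    have : 0 ≤ (N : ℝ) * R * p ^ 2 := by positivity
    linarith
  have hcorr : 1 + 2 / K + 10 / K ^ 2 ≤ 1147 / 1000 := by
    have h1 : 2 / K ≤ 2 / (35 / 2) := div_le_div_of_nonneg_left (by norm_num) (by norm_num) hB
    have h2 : 10 / K ^ 2 ≤ 10 / (35 / 2) ^ 2 :=
      div_le_div_of_nonneg_left (by norm_num) (by norm_num) (pow_le_pow_left₀ (by norm_num) hB 2)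
    norm_num at h1 h2 ⊢
    linarith
  have hNS : 0 < (N : ℝ) * S := by positivity
  have hfin : N * S * ∫ x in (0 : ℝ)..(2 / 5), x / (1 - x) * Real.exp (-(K * x)) ≤ 938 / 1000 := by
    have h1 := mul_le_mul_of_nonneg_left hM hNS.le
    have e1 : N * S * (1 / K ^ 2 + 2 / K ^ 3 + 10 / K ^ 4) =
        (N * S * (1 / K ^ 2)) * (1 + 2 / K + 10 / K ^ 2) := by
      field_simp
    rw [e1] at h1
    have h2 : (N * S * (1 / K ^ 2)) * (1 + 2 / K + 10 / K ^ 2) ≤ 327 / 400 * (1147 / 1000) :=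
      mul_le_mul hX hcorr (by positivity) (by norm_num)
    linarith
  have hJ0 : 0 ≤ ‖∫ x in (0 : ℝ)..(2 / 5), qq u x‖ := norm_nonneg _
  have h8 : ‖av u‖ * ‖∫ x in (0 : ℝ)..(2 / 5), qq u x‖ ≤ ‖∫ x in (0 : ℝ)..(2 / 5), qq u x‖ :=
    mul_le_of_le_one_left hJ0 hm
  have h9 := mul_le_mul_of_nonneg_left h8 (by linarith : (0 : ℝ) ≤ N)
  linarith

end Pool.Agent.Lib.MP_af3a4a_an.P1.H81
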