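import Pool.Agent.Lib.MP_af3a4a_an.P1.H81.Num24b

/-!
# The exponent on `[1/2, 1]` (helper81, council 2)
-/

set_option autoImplicit false

namespace Pool.Agent.Lib.MP_af3a4a_an.P1.H81

open MeasureTheory intervalIntegral

theorem slope_poly1 {x d : ℝ} (h0 : 1 / 2 ≤ x) (h1 : x ≤ d) (h2 : d ≤ 1) :
    0 ≤ 7 * ((1 + x) ^ 2 - 2 * x * d) * (29 - 12 * x) -
      120 * (d - x) * ((1 + x) ^ 2 - 2 * x * d) - 10 * (1 + x - d) * (29 - 12 * x) := by
  obtain ⟨p, hp⟩ : ∃ p, p = 1 - d := ⟨_, rfl⟩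
  obtain ⟨q, hq⟩ : ∃ q, q = d - x := ⟨_, rfl⟩
  obtain ⟨r, hr⟩ : ∃ r, r = x - 1 / 2 := ⟨_, rfl⟩
  have hp0 : 0 ≤ p := by linarith
  have hq0 : 0 ≤ q := by linarith
  have hr0 : 0 ≤ r := by linarith
  have e : 7 * ((1 + x) ^ 2 - 2 * x * d) * (29 - 12 * x) -
      120 * (d - x) * ((1 + x) ^ 2 - 2 * x * d) - 10 * (1 + x - d) * (29 - 12 * x) =
      414 * p ^ 3 + 678 * p ^ 2 * q + 1778 * p ^ 2 * r + 354 * p * q ^ 2 + 1472 * p * q * r +
      1824 * p * r ^ 2 + 90 * q ^ 3 + 174 * q ^ 2 * r + 592 * q * r ^ 2 + 544 * r ^ 3 := by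
    rw [hp, hq, hr]
    ring
  rw [e]
  positivity

theorem slope_poly2 {x d : ℝ} (h0 : 1 / 2 ≤ x) (h1 : x ≤ 1) (hd0 : 0 ≤ d) (h2 : d ≤ x) :
    10 * (1 + x - d) ≤ 7 * ((1 + x) ^ 2 - 2 * x * d) := by
  rcases le_total (14 * x) 10 with h | h
  · nlinarith [mul_nonneg hd0 (sub_nonneg.2 h)]
  · nlinarith [mul_nonneg (sub_nonneg.2 h2) (sub_nonneg.2 h)]

theorem GG_deriv {R d x : ℝ} (hR : 1 < R) (hd2 : d ≤ 2) (h0 : 0 ≤ x) (h1 : x < 1) :
    HasDerivAt (GG R d) ((R - d) / (R - x) - (1 + x - d) / ((1 + x) ^ 2 - 2 * x * d)) x := by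
  have hR0 : 0 < R := by linarith
  have hRx : 0 < R - x := by linarith
  have hp : 0 < 1 - x / R := by
    rw [sub_pos, div_lt_one hR0]
    linarith
  have hg := gg_pos' hd2 h0 h1
  have d1 : HasDerivAt (fun x : ℝ => 1 - x / R) (-(1 / R)) x := by
    simpa using ((hasDerivAt_id x).div_const R).const_sub 1
  have d2 : HasDerivAt (fun x : ℝ => (1 + x) ^ 2 - 2 * x * d) (2 * (1 + x) - 2 * d) x := by
    have a1 : HasDerivAt (fun x : ℝ => (1 + x) ^ 2) (2 * (1 + x) ^ 1 * 1) x :=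
      ((hasDerivAt_id x).const_add 1).pow 2
    have a2 : HasDerivAt (fun x : ℝ => 2 * x * d) (2 * 1 * d) x :=
      ((hasDerivAt_id x).const_mul 2).mul_const d
    exact (a1.sub a2).congr_deriv (by ring)
  refine (((d1.log hp.ne').const_mul (-(R - d))).sub ((d2.log hg.ne').div_const 2)).congr_deriv ?_
  have e1 : 1 - x / R = (R - x) / R := by field_simp
  rw [e1]
  have h2 := hRx.ne'
  have h3 := hg.ne'
  generalize (1 + x) ^ 2 - 2 * x * d = g at h3 ⊢
  field_simp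

/-- the slope for `d ≤ 1` -/
theorem GG_slope {R d x : ℝ} (hR : 29 / 12 ≤ R) (hd0 : 0 ≤ d) (hd1 : d ≤ 1) (h0 : 1 / 2 ≤ x)
    (h1 : x < 1) : GG R d (1 / 2) + 3 / 10 * (x - 1 / 2) ≤ GG R d x := by
  have h := mono_of (f := fun x => GG R d x - 3 / 10 * x)
    (f' := fun x => ((R - d) / (R - x) - (1 + x - d) / ((1 + x) ^ 2 - 2 * x * d)) - 3 / 10 * 1)
    h0 (by
      intro y hy
      have hy0 : 0 ≤ y := by linarith [hy.1]
      have hy1 : y < 1 := lt_of_le_of_lt hy.2 h1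
      exact (GG_deriv (by linarith) (by linarith) hy0 hy1).sub
        ((hasDerivAt_id y).const_mul (3 / 10))) (by
      intro y hy
      have hy0 := hy.1
      have hy1 : y < 1 := lt_of_le_of_lt hy.2 h1
      have hg := gg_pos' (show d ≤ 2 by linarith) (show 0 ≤ y by linarith) hy1
      have hRy : 0 < R - y := by linarith
      rcases le_total d y with hdy | hdy
      · have h2 : 1 ≤ (R - d) / (R - y) := by
          rw [one_le_div hRy]
          linarith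
        have h3 := slope_poly2 hy0 hy1.le hd0 hdy
        have h4 : (1 + y - d) / ((1 + y) ^ 2 - 2 * y * d) ≤ 7 / 10 := by
          rw [div_le_div_iff₀ hg (by norm_num)]
          linarith
        linarith
      · have h3 := slope_poly1 hy0 hdy hd1
        have hc : 0 < 29 - 12 * y := by linarith
        have h2 : 1 - 12 * (d - y) / (29 - 12 * y) ≤ (R - d) / (R - y) := by
          have e1 : (R - d) / (R - y) = 1 - (d - y) / (R - y) := by
            field_simp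
            ring
          have e2 : 12 * (d - y) / (29 - 12 * y) = (d - y) / (29 / 12 - y) := by
            have : 29 / 12 - y = (29 - 12 * y) / 12 := by ring
            rw [this]
            field_simp
          rw [e1, e2]
          have h4 : (d - y) / (R - y) ≤ (d - y) / (29 / 12 - y) :=
            div_le_div_of_nonneg_left (by linarith) (by linarith) (by linarith)
          linarith
        have h5 : 0 ≤ 1 - 12 * (d - y) / (29 - 12 * y) -
            (1 + y - d) / ((1 + y) ^ 2 - 2 * y * d) - 3 / 10 * 1 := by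
          generalize hgd : (1 + y) ^ 2 - 2 * y * d = g at *
          generalize hcd : 29 - 12 * y = c at *
          have e : 1 - 12 * (d - y) / c - (1 + y - d) / g - 3 / 10 * 1 =
              (7 * g * c - 120 * (d - y) * g - 10 * (1 + y - d) * c) / (10 * c * g) := by
            have := hg.ne'
            have := hc.ne'
            field_simp
            ring
          rw [e]
          positivity
        linarith)
  linarith

theorem b_poly {x : ℝ} (h0 : 1 / 2 ≤ x) (h1 : x ≤ 1) :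
    12 * x * (29 - 10 * x) / ((29 - 12 * x) * (29 - 4 * x)) ≤
      x / (1 + x ^ 2) + 2 / 25 * (x - 1 / 2) := by
  have p3 : 0 < 29 - 12 * x := by linarith
  have p4 : 0 < 29 - 4 * x := by linarith
  have p5 : 0 < 1 + x ^ 2 := by positivity
  obtain ⟨a, ha⟩ : ∃ a, a = x - 1 / 2 := ⟨_, rfl⟩
  obtain ⟨b, hb⟩ : ∃ b, b = 1 - x := ⟨_, rfl⟩
  have ha0 : 0 ≤ a := by linarith
  have hb0 : 0 ≤ b := by linarith
  have key : 0 ≤ (-841 / 25) + (14471 / 25) * x + (-10417 / 25) * x ^ 2 + (-5258 / 25) * x ^ 3 +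
      (2024 / 25) * x ^ 4 + (96 / 25) * x ^ 5 := by
    have e : (-841 / 25) + (14471 / 25) * x + (-10417 / 25) * x ^ 2 + (-5258 / 25) * x ^ 3 +
      (2024 / 25) * x ^ 4 + (96 / 25) * x ^ 5 = 4176 * b ^ 5 +
      (108088 / 5) * a ^ 1 * b ^ 4 +
      (996576 / 25) * a ^ 2 * b ^ 3 +
      (787208 / 25) * a ^ 3 * b ^ 2 +
      (228976 / 25) * a ^ 4 * b ^ 1 +
      96 * a ^ 5 := by
      rw [ha, hb]
      ring
    rw [e]
    positivity
  have e2 : x / (1 + x ^ 2) + 2 / 25 * (x - 1 / 2) -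
      12 * x * (29 - 10 * x) / ((29 - 12 * x) * (29 - 4 * x)) =
      ((-841 / 25) + (14471 / 25) * x + (-10417 / 25) * x ^ 2 + (-5258 / 25) * x ^ 3 +
      (2024 / 25) * x ^ 4 + (96 / 25) * x ^ 5) /
        ((1 + x ^ 2) * ((29 - 12 * x) * (29 - 4 * x))) := by
    obtain ⟨c, hc⟩ : ∃ c, c = 29 - 12 * x := ⟨_, rfl⟩
    obtain ⟨e, he⟩ : ∃ e, e = 29 - 4 * x := ⟨_, rfl⟩
    rw [← hc] at p3 ⊢
    rw [← he] at p4 ⊢
    field_simp
    rw [hc, he]
    ring
  have h3 : 0 ≤ ((-841 / 25) + (14471 / 25) * x + (-10417 / 25) * x ^ 2 + (-5258 / 25) * x ^ 3 +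
      (2024 / 25) * x ^ 4 + (96 / 25) * x ^ 5) /
        ((1 + x ^ 2) * ((29 - 12 * x) * (29 - 4 * x))) := by
    apply div_nonneg key
    positivity
  linarith

/-- convexity in `d` -/
theorem GG_conv {R d x : ℝ} (hR : 29 / 12 ≤ R) (hd1 : 1 ≤ d) (hd2 : d ≤ 2) (h0 : 1 / 2 ≤ x)
    (h1 : x < 1) : GG R 1 x - 2 / 25 * (x - 1 / 2) ≤ GG R d x := by
  have hR0 : 0 < R := by linarith
  have hg := gg_pos' hd2 (show 0 ≤ x by linarith) h1
  have hg1 : 0 < 1 + x ^ 2 := by positivity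
  obtain ⟨z, hz⟩ : ∃ z, z = x / R := ⟨_, rfl⟩
  have hz0 : 0 ≤ z := by rw [hz]; exact div_nonneg (by linarith) hR0.le
  have hz1 : z ≤ 12 / 29 * x := by
    rw [hz, div_le_iff₀ hR0]
    nlinarith
  have hz2 : z < 1 := by linarith
  have l1 : -Real.log (1 - z) ≤ x / (1 + x ^ 2) + 2 / 25 * (x - 1 / 2) := by
    refine le_trans ?_ (b_poly h0 h1.le)
    refine (neg_log_up hz0 hz2).trans ?_
    have e1 : z * (6 - 5 * z) / ((1 - z) * (6 - 2 * z)) =
        z * ((6 - 5 * z) / ((1 - z) * (6 - 2 * z))) := by ring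
    have h3 := hfun_mono hz0 hz1 (by linarith)
    have h4 : 0 ≤ (6 - 5 * (12 / 29 * x)) / ((1 - 12 / 29 * x) * (6 - 2 * (12 / 29 * x))) := by
      apply div_nonneg (by linarith)
      apply mul_nonneg <;> linarith
    have h5 : (6 - 5 * z) / ((1 - z) * (6 - 2 * z)) * z ≤
        (6 - 5 * (12 / 29 * x)) / ((1 - 12 / 29 * x) * (6 - 2 * (12 / 29 * x))) * (12 / 29 * x) :=
      mul_le_mul h3 hz1 hz0 h4
    have e2 : (6 - 5 * (12 / 29 * x)) / ((1 - 12 / 29 * x) * (6 - 2 * (12 / 29 * x))) *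
        (12 / 29 * x) = 12 * x * (29 - 10 * x) / ((29 - 12 * x) * (29 - 4 * x)) := by
      have q1 : 0 < 1 - 12 / 29 * x := by linarith
      have q2 : 0 < 6 - 2 * (12 / 29 * x) := by linarith
      have q3 : 0 < 29 - 12 * x := by linarith
      have q4 : 0 < 29 - 4 * x := by linarith
      rw [div_mul_eq_mul_div, div_eq_div_iff (by positivity) (by positivity)]
      ring
    rw [e1]
    linarith
  have l2 : Real.log ((1 + x) ^ 2 - 2 * x * d) ≤ Real.log (1 + x ^ 2) -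
      2 * x * (d - 1) / (1 + x ^ 2) := by
    have h3 := Real.log_le_sub_one_of_pos (div_pos hg hg1)
    rw [Real.log_div hg.ne' hg1.ne'] at h3
    have e : ((1 + x) ^ 2 - 2 * x * d) / (1 + x ^ 2) - 1 = -(2 * x * (d - 1) / (1 + x ^ 2)) := by
      field_simp
      ring
    rw [e] at h3
    linarith
  have e3 : (1 + x) ^ 2 - 2 * x * 1 = 1 + x ^ 2 := by ring
  unfold GG
  rw [e3, ← hz]
  have l1' := mul_le_mul_of_nonneg_left l1 (sub_nonneg.2 hd1)
  have h4 : (d - 1) * (2 / 25 * (x - 1 / 2)) ≤ 1 * (2 / 25 * (x - 1 / 2)) :=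
    mul_le_mul_of_nonneg_right (by linarith) (by linarith)
  have e4 : 2 * x * (d - 1) / (1 + x ^ 2) = 2 * ((d - 1) * (x / (1 + x ^ 2))) := by ring
  rw [e4] at l2
  linarith

theorem GG_one_half {R : ℝ} (hR : 29 / 12 ≤ R) : 43 / 200 ≤ GG R 1 (1 / 2) := by
  have hR0 : 0 < R := by linarith
  obtain ⟨ε, hε⟩ : ∃ ε, ε = 1 / R := ⟨_, rfl⟩
  have hε0 : 0 ≤ ε := by rw [hε]; positivity
  have hε1 : ε ≤ 12 / 29 := by
    rw [hε, div_le_div_iff₀ hR0 (by norm_num)]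
    linarith
  have hRε : R * ε = 1 := by rw [hε]; field_simp
  have hx : 1 / 2 / R = ε / 2 := by rw [hε]; ring
  have l1 := neg_log_lo3 (z := ε / 2) (by linarith) (by linarith)
  have l2 := log_pade_up (s := 1 / 4) (by norm_num)
  have l3 := mul_le_mul_of_nonneg_left l1 (show 0 ≤ R - 1 by linarith)
  have e1 : (R - 1) * (ε / 2 + (ε / 2) ^ 2 / 2 + (ε / 2) ^ 3 / 3) =
      (R * ε - ε) * (1 / 2 + ε / 8 + ε ^ 2 / 24) := by ring
  rw [e1, hRε] at l3
  unfold GG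
  rw [hx]
  have e2 : (1 + 1 / 2 : ℝ) ^ 2 - 2 * (1 / 2) * 1 = 1 + 1 / 4 := by norm_num
  rw [e2]
  have h5 : 17 / 29 * (1 / 2 + 12 / 29 / 8 + (12 / 29) ^ 2 / 24) ≤
      (1 - ε) * (1 / 2 + ε / 8 + ε ^ 2 / 24) := by
    nlinarith [mul_nonneg hε0 (sub_nonneg.2 hε1), mul_nonneg (mul_nonneg hε0 hε0) (sub_nonneg.2 hε1)]
  norm_num at l2 h5 ⊢
  linarith

/-- lower bound at `1/2` -/
theorem GG_half {R d : ℝ} (hR : 29 / 12 ≤ R) (hd0 : 0 ≤ d) (hd1 : d ≤ 1) :
    9 / 4 + 3 * (1 / R) + 16 / 3 * d - 27 / 2 * (1 / R) * d + 32 / 27 * d ^ 2 ≤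
      24 * GG R d (1 / 2) := by
  have hR0 : 0 < R := by linarith
  obtain ⟨ε, hε⟩ : ∃ ε, ε = 1 / R := ⟨_, rfl⟩
  have hε0 : 0 ≤ ε := by rw [hε]; positivity
  have hε1 : ε ≤ 12 / 29 := by
    rw [hε, div_le_div_iff₀ hR0 (by norm_num)]
    linarith
  have hRε : R * ε = 1 := by rw [hε]; field_simp
  have hx : 1 / 2 / R = ε / 2 := by rw [hε]; ring
  have l1 := neg_log_lo2 (z := ε / 2) (by linarith) (by linarith)
  have l1' := mul_le_mul_of_nonneg_left l1 hR0.le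
  have e1 : R * (ε / 2 + (ε / 2) ^ 2 / 2) = (R * ε) * (1 / 2 + ε / 8) := by ring
  rw [e1, hRε] at l1'
  have l2 : -Real.log (1 - ε / 2) ≤ 9 / 16 * ε := by
    refine (neg_log_up (by linarith) (by linarith)).trans ?_
    have h3 := hfun_mono (z := ε / 2) (w := 6 / 29) (by linarith) (by linarith) (by norm_num)
    have e3 : ε / 2 * (6 - 5 * (ε / 2)) / ((1 - ε / 2) * (6 - 2 * (ε / 2))) =
        ε / 2 * ((6 - 5 * (ε / 2)) / ((1 - ε / 2) * (6 - 2 * (ε / 2)))) := by ring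
    rw [e3]
    have h4 := mul_le_mul_of_nonneg_left h3 (show 0 ≤ ε / 2 by linarith)
    norm_num at h4 ⊢
    linarith
  have l3 := neg_log_lo2 (z := 4 / 9 * d) (by linarith) (by linarith)
  have l4 := log_pade_up (s := 1 / 2) (by norm_num)
  have e5 : (1 + 1 / 2 : ℝ) ^ 2 - 2 * (1 / 2) * d = (1 + 1 / 2) ^ 2 * (1 - 4 / 9 * d) := by ring
  have hne : 1 - 4 / 9 * d ≠ 0 := by
    have : 0 < 1 - 4 / 9 * d := by linarith
    exact this.ne'
  unfold GG
  rw [hx, e5, Real.log_mul (by norm_num) hne, Real.log_pow, ← hε]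
  have l2' := mul_le_mul_of_nonneg_left l2 hd0
  have e6 : (4 / 9 * d) ^ 2 = 16 / 81 * d ^ 2 := by ring
  rw [e6] at l3
  have e7 : (1 / 2 : ℝ) * (6 + 1 / 2) / (6 + 4 * (1 / 2)) = 13 / 32 := by norm_num
  rw [e7] at l4
  push_cast
  linarith

end Pool.Agent.Lib.MP_af3a4a_an.P1.H81
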