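import Pool.Agent.Lib.MP_af3a4a_an.P1.H74.V2

/-!
# Pure duals (`γ = 0`) near `0` (helper81, council 2)

For `|v| ≥ 1`, `R ∈ [4/5, 21/10]`, small `x`:
`|1 - x/v| ≤ exp (α (|v - R| - 1) - h)` with `h = (x²/2 - x³/5)/max R 1`.
-/

namespace Pool.Agent.Lib.MP_af3a4a_an.P1.H81

open Finset MeasureTheory ComplexConjugate
open Pool.Agent.Lib.MP_af3a4a_an.SV (uu av EE)
open Pool.Agent.Lib.MP_af3a4a_an.P1.H80
open Pool.Agent.Lib.MP_af3a4a_an.P1.H74

/-- Stewart's identity -/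
theorem stewart {v : ℂ} {R x : ℝ} (hR : 0 < R) :
    ‖v - x‖ ^ 2 = (1 - x / R) * ‖v‖ ^ 2 + x / R * (‖v - R‖ ^ 2 - R ^ 2 + R * x) := by
  rw [norm_sq_re_im, norm_sq_re_im, norm_sq_re_im]
  simp only [Complex.sub_re, Complex.sub_im, Complex.ofReal_re, Complex.ofReal_im]
  field_simp
  ring

theorem one_sub_div_norm {v : ℂ} (hv : 1 ≤ ‖v‖) (x : ℝ) :
    ‖1 - (x : ℂ) * v⁻¹‖ * ‖v‖ = ‖v - x‖ := by
  have hv0 : v ≠ 0 := by
    intro h
    rw [h, norm_zero] at hv
    linarith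
  rw [← norm_mul]
  congr 1
  field_simp

/-- (g1) -/
theorem geo1 {v : ℂ} (hv : 1 ≤ ‖v‖) {x : ℝ} (hx : 0 ≤ x) : ‖1 - (x : ℂ) * v⁻¹‖ ≤ 1 + x := by
  have h1 := norm_sub_le (1 : ℂ) ((x : ℂ) * v⁻¹)
  rw [norm_one, norm_mul, Complex.norm_real, Real.norm_of_nonneg hx, norm_inv] at h1
  have h2 : ‖v‖⁻¹ ≤ 1 := inv_le_one_of_one_le₀ hv
  have h3 : x * ‖v‖⁻¹ ≤ x := mul_le_of_le_one_right hx h2
  linarith

/-- (g3) -/
theorem geo3 {v : ℂ} (hv : 1 ≤ ‖v‖) {R x : ℝ} (hR : 0 < R) (hx : 0 ≤ x)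
    (hB : R ^ 2 - R * x ≤ ‖v - R‖ ^ 2) :
    ‖1 - (x : ℂ) * v⁻¹‖ ^ 2 ≤ 1 - x / R + x / R * (‖v - R‖ ^ 2 - R ^ 2 + R * x) := by
  have h1 := one_sub_div_norm hv x
  have h2 := stewart (v := v) (x := x) hR
  rw [← h1, mul_pow] at h2
  have h3 : 0 ≤ x / R * (‖v - R‖ ^ 2 - R ^ 2 + R * x) := mul_nonneg (by positivity) (by linarith)
  have hv2 : 1 ≤ ‖v‖ ^ 2 := one_le_pow₀ hv
  have h4 : x / R * (‖v - R‖ ^ 2 - R ^ 2 + R * x) ≤
      x / R * (‖v - R‖ ^ 2 - R ^ 2 + R * x) * ‖v‖ ^ 2 := le_mul_of_one_le_right h3 hv2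
  have h5 : ‖1 - (x : ℂ) * v⁻¹‖ ^ 2 * ‖v‖ ^ 2 ≤
      (1 - x / R + x / R * (‖v - R‖ ^ 2 - R ^ 2 + R * x)) * ‖v‖ ^ 2 := by
    rw [h2, add_mul]
    linarith
  exact le_of_mul_le_mul_right h5 (by linarith)

/-- (g2) -/
theorem geo2 {v : ℂ} (hv : 1 ≤ ‖v‖) {R x : ℝ} (hR : 0 < R) (hx : 0 ≤ x) (hxR : x ≤ R)
    (hB : ‖v - R‖ ^ 2 ≤ R ^ 2 - R * x) :
    ‖1 - (x : ℂ) * v⁻¹‖ ≤ 1 - x / (R + ‖v - R‖) := by
  have h1 := one_sub_div_norm hv x
  have h2 := stewart (v := v) (x := x) hR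
  rw [← h1, mul_pow] at h2
  set B := ‖v - R‖ with hBd
  have hB0 : 0 ≤ B := norm_nonneg _
  have hs : 0 < R + B := by linarith
  have hvs : ‖v‖ ≤ R + B := by
    have h3 := norm_add_le (v - R) (R : ℂ)
    rw [sub_add_cancel, Complex.norm_real, Real.norm_of_nonneg hR.le] at h3
    linarith
  have hv0 : 0 < ‖v‖ := by linarith
  have hxs : x ≤ R + B := by linarith
  have h5 : (‖1 - (x : ℂ) * v⁻¹‖ * ‖v‖ * (R + B)) ^ 2 ≤ ((R + B - x) * ‖v‖) ^ 2 := by
    have e1 : (‖1 - (x : ℂ) * v⁻¹‖ * ‖v‖ * (R + B)) ^ 2 =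
        (‖1 - (x : ℂ) * v⁻¹‖ ^ 2 * ‖v‖ ^ 2) * (R + B) ^ 2 := by ring
    rw [e1, h2]
    have e2 : ((R + B - x) * ‖v‖) ^ 2 =
        ((1 - x / R) * (R + B) ^ 2 + x / R * (B ^ 2 - R ^ 2 + R * x)) * ‖v‖ ^ 2 := by
      field_simp
      ring
    rw [e2]
    have h6 : 0 ≤ x / R * (R ^ 2 - R * x - B ^ 2) := mul_nonneg (by positivity) (by linarith)
    have h7 : ‖v‖ ^ 2 ≤ (R + B) ^ 2 := pow_le_pow_left₀ hv0.le hvs 2
    have h8 := mul_le_mul_of_nonneg_left h7 h6
    linarith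
  have h6 := sq_le_sq.1 h5
  rw [abs_of_nonneg (by positivity), abs_of_nonneg (mul_nonneg (by linarith) hv0.le)] at h6
  have h7 : ‖1 - (x : ℂ) * v⁻¹‖ * (R + B) ≤ R + B - x := by
    have : ‖1 - (x : ℂ) * v⁻¹‖ * (R + B) * ‖v‖ ≤ (R + B - x) * ‖v‖ := by linarith
    exact le_of_mul_le_mul_right this hv0
  rw [← le_div_iff₀ hs] at h7
  refine h7.trans (le_of_eq ?_)
  field_simp

/-- `log (1 - x/s) ≤ - x/(s - x/2)` -/
theorem log_half {x s : ℝ} (hx : 0 ≤ x) (hs : x < s) :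
    Real.log (1 - x / s) ≤ -(x / (s - x / 2)) := by
  have hs0 : 0 < s := by linarith
  obtain ⟨d, hd⟩ : ∃ d, d = s - x / 2 := ⟨_, rfl⟩
  have hsd : s = d + x / 2 := by linarith
  have h1 : 0 < d := by linarith
  have hdx : 0 < d + x / 2 := by linarith
  obtain ⟨z, hz⟩ : ∃ z, z = x / 2 / d := ⟨_, rfl⟩
  have hz0 : 0 ≤ z := by rw [hz]; positivity
  have hz1 : z < 1 := by
    rw [hz, div_lt_one h1]
    linarith
  have hzd : z * d = x / 2 := by
    rw [hz]
    field_simp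
  have hz2 : 0 < 1 + z := by linarith
  have e1 : 1 - x / s = (1 - z) / (1 + z) := by
    rw [eq_div_iff hz2.ne', hsd]
    have e3 : (1 - x / (d + x / 2)) * (1 + z) * (d + x / 2) = (1 - z) * (d + x / 2) := by
      have e4 : (1 - x / (d + x / 2)) * (1 + z) * (d + x / 2) =
          (1 + z) * (d + x / 2 - x / (d + x / 2) * (d + x / 2)) := by ring
      rw [e4, div_mul_cancel₀ _ hdx.ne']
      linear_combination 2 * hzd
    exact mul_right_cancel₀ hdx.ne' e3
  have e2 : x / (s - x / 2) = 2 * z := by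
    rw [← hd, div_eq_iff h1.ne']
    linear_combination -2 * hzd
  rw [e1, e2]
  -- `log ((1-z)/(1+z)) ≤ -2z`
  have hsum := Real.hasSum_log_sub_log_of_abs_lt_one (x := z) (by rw [abs_of_nonneg hz0]; exact hz1)
  have h5 := sum_le_hasSum (Finset.range 1) (fun i _ => by positivity) hsum
  simp only [Finset.sum_range_succ, Finset.sum_range_zero] at h5
  norm_num at h5
  rw [Real.log_div (by linarith) (by linarith)]
  linarith

/-- the convex - concave argument -/
theorem unimodal {A l α h B0 B1 B : ℝ} (hl : 0 ≤ l) (hα : 0 ≤ α) (h01 : B0 ≤ B) (h12 : B ≤ B1)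
    (hB0 : 0 ≤ B0) (hpos : 0 < A + l * B0 ^ 2) (hZ : α * (A + l * B1 ^ 2) ≤ l * B1)
    (hL : Real.log (A + l * B0 ^ 2) / 2 ≤ α * (B0 - 1) - h)
    (hR : Real.log (A + l * B1 ^ 2) / 2 ≤ α * (B1 - 1) - h) :
    Real.log (A + l * B ^ 2) / 2 ≤ α * (B - 1) - h := by
  have hp : ∀ t, B0 ≤ t → 0 < A + l * t ^ 2 := by
    intro t ht
    have h1 : B0 ^ 2 ≤ t ^ 2 := pow_le_pow_left₀ hB0 ht 2
    have h2 := mul_le_mul_of_nonneg_left h1 hl
    linarith
  have hd : ∀ t, B0 ≤ t → HasDerivAt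
      (fun t => α * (t - 1) - h - Real.log (A + l * t ^ 2) / 2)
      ((α * (A + l * t ^ 2) - l * t) / (A + l * t ^ 2)) t := by
    intro t ht
    have e1 : HasDerivAt (fun t : ℝ => A + l * t ^ 2) (l * (2 * t)) t := by
      have := ((hasDerivAt_pow 2 t).const_mul l).const_add A
      simpa using this
    have e2 := (e1.log (hp t ht).ne').div_const 2
    have e3 : HasDerivAt (fun t : ℝ => α * (t - 1) - h) α t := by
      have := (((hasDerivAt_id t).sub_const 1).const_mul α).sub_const h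
      simpa using this
    refine (e3.sub e2).congr_deriv ?_
    have := (hp t ht).ne'
    field_simp
  -- the quadratic
  set Z : ℝ → ℝ := fun t => α * (A + l * t ^ 2) - l * t with hZd
  have hconv : ∀ a b t : ℝ, a ≤ t → t ≤ b → Z a ≤ 0 → Z b ≤ 0 → Z t ≤ 0 := by
    intro a b t hat htb ha hb
    have key : (b - a) * Z t = (b - t) * Z a + (t - a) * Z b -
        α * l * (b - a) * (t - a) * (b - t) := by
      simp only [hZd]
      ring
    rcases hat.eq_or_lt with h1 | h1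
    · rw [← h1]; exact ha
    have hba : 0 < b - a := by linarith
    have h2 : (b - a) * Z t ≤ 0 := by
      rw [key]
      have h3 : (b - t) * Z a ≤ 0 := mul_nonpos_of_nonneg_of_nonpos (by linarith) ha
      have h4 : (t - a) * Z b ≤ 0 := mul_nonpos_of_nonneg_of_nonpos (by linarith) hb
      have h5 : 0 ≤ α * l * (b - a) * (t - a) * (b - t) :=
        mul_nonneg (mul_nonneg (mul_nonneg (mul_nonneg hα hl) hba.le) (by linarith)) (by linarith)
      linarith
    by_contra hc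
    push Not at hc
    have := mul_pos hba hc
    linarith
  have hZ1 : Z B1 ≤ 0 := by simp only [hZd]; linarith
  rcases le_or_gt (Z B) 0 with hc | hc
  · have hanti : AntitoneOn (fun t => α * (t - 1) - h - Real.log (A + l * t ^ 2) / 2)
        (Set.Icc B B1) := by
      apply antitoneOn_of_deriv_nonpos (convex_Icc B B1)
      · exact fun t ht => (hd t (h01.trans ht.1)).continuousAt.continuousWithinAt
      · exact fun t ht =>
          (hd t (h01.trans (interior_subset ht).1)).differentiableAt.differentiableWithinAt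
      · intro t ht
        have ht' := interior_subset ht
        rw [(hd t (h01.trans ht'.1)).deriv]
        apply div_nonpos_of_nonpos_of_nonneg _ (hp t (h01.trans ht'.1)).le
        exact hconv B B1 t ht'.1 ht'.2 hc hZ1
    have := hanti (Set.left_mem_Icc.2 h12) (Set.right_mem_Icc.2 h12) h12
    simp only at this
    linarith
  · have hmono : MonotoneOn (fun t => α * (t - 1) - h - Real.log (A + l * t ^ 2) / 2)
        (Set.Icc B0 B) := by
      apply monotoneOn_of_deriv_nonneg (convex_Icc B0 B)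
      · exact fun t ht => (hd t ht.1).continuousAt.continuousWithinAt
      · exact fun t ht => (hd t (interior_subset ht).1).differentiableAt.differentiableWithinAt
      · intro t ht
        have ht' := interior_subset ht
        rw [(hd t ht'.1).deriv]
        apply div_nonneg _ (hp t ht'.1).le
        by_contra hn
        push Not at hn
        have h1 : Z t ≤ 0 := hn.le
        have h2 := hconv t B1 B ht'.2 h12 h1 hZ1
        linarith
    have := hmono (Set.left_mem_Icc.2 h01) (Set.right_mem_Icc.2 h01) h01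
    simp only at this
    linarith

/-- the general pure dual -/
theorem dual_of {R x α h : ℝ} (hR : 0 < R) (hx : 0 ≤ x) (hxR : x < R) (hα : 0 ≤ α)
    (h1R : 1 ≤ R + Real.sqrt (R ^ 2 - R * x))
    (K1 : Real.log (1 + x) ≤ α * R - h)
    (Kb : α * (1 + x) ^ 2 ≤ x / R * (1 + R))
    (K2 : ∀ s, R ≤ s → 1 ≤ s → s ≤ 2 * R → α * (R + 1 - s) + h ≤ x / (s - x / 2)) :
    Dual R x α 0 h := by
  refine ⟨hα, ?_⟩
  intro v hv
  have e0 : α * (‖v - (R : ℂ)‖ - 1) - 0 * R * (v⁻¹).re - h = α * (‖v - (R : ℂ)‖ - 1) - h := by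
    ring
  rw [e0]
  set B := ‖v - (R : ℂ)‖ with hBd
  have hB0 : 0 ≤ B := norm_nonneg _
  have hRx : 0 ≤ R ^ 2 - R * x := by nlinarith
  set b0 := Real.sqrt (R ^ 2 - R * x) with hb0
  have hb00 : 0 ≤ b0 := Real.sqrt_nonneg _
  have hb0sq : b0 ^ 2 = R ^ 2 - R * x := Real.sq_sqrt hRx
  have hb0R : b0 ≤ R := by
    rw [hb0, Real.sqrt_le_iff]
    exact ⟨hR.le, by nlinarith⟩
  -- the bound in case (g2)
  have key2 : ∀ B, 0 ≤ B → B ≤ b0 → 1 ≤ R + B →
      Real.log (1 - x / (R + B)) ≤ α * (B - 1) - h := by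
    intro B hB hBb h1
    have h2 := log_half (x := x) (s := R + B) hx (by linarith)
    have h3 := K2 (R + B) (by linarith) h1 (by linarith)
    have e1 : α * (R + 1 - (R + B)) = -(α * (B - 1)) := by ring
    rw [e1] at h3
    linarith
  rcases le_or_gt (1 + R) B with hc1 | hc1
  · -- far away
    have h1 := geo1 hv hx
    have h2 : 1 + x ≤ Real.exp (α * R - h) := by
      rw [← Real.log_le_iff_le_exp (by linarith)]
      exact K1
    refine h1.trans (h2.trans (Real.exp_le_exp.2 ?_))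
    have : α * R ≤ α * (B - 1) := mul_le_mul_of_nonneg_left (by linarith) hα
    linarith
  rcases le_or_gt (B ^ 2) (R ^ 2 - R * x) with hc2 | hc2
  · have h1 := geo2 hv hR hx hxR.le hc2
    have hBb : B ≤ b0 := by
      rw [hb0]
      exact Real.le_sqrt_of_sq_le hc2
    have hs1 : 1 ≤ R + B := by
      have h3 := norm_add_le (v - R) (R : ℂ)
      rw [sub_add_cancel, Complex.norm_real, Real.norm_of_nonneg hR.le] at h3
      linarith
    have h2 := key2 B hB0 hBb hs1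
    have hpos : 0 < 1 - x / (R + B) := by
      rw [sub_pos, div_lt_one (by linarith)]
      linarith
    rw [Real.log_le_iff_le_exp hpos] at h2
    exact h1.trans h2
  · have h1 := geo3 hv hR hx hc2.le
    have hBb : b0 ≤ B := by
      by_contra hn
      push Not at hn
      have : B ^ 2 ≤ b0 ^ 2 := pow_le_pow_left₀ hB0 hn.le 2
      rw [hb0sq] at this
      linarith
    have hl0 : 0 ≤ x / R := by positivity
    have hl1 : x / R < 1 := (div_lt_one hR).2 hxR
    have eA : ∀ t : ℝ, 1 - x / R + x / R * (t ^ 2 - R ^ 2 + R * x) =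
        (1 - x / R + x / R * (-R ^ 2 + R * x)) + x / R * t ^ 2 := by
      intro t; ring
    rw [eA] at h1
    have eB0 : (1 - x / R + x / R * (-R ^ 2 + R * x)) + x / R * b0 ^ 2 = 1 - x / R := by
      rw [hb0sq]; ring
    have eB1 : (1 - x / R + x / R * (-R ^ 2 + R * x)) + x / R * (1 + R) ^ 2 = (1 + x) ^ 2 := by
      field_simp
      ring
    have hL : Real.log ((1 - x / R + x / R * (-R ^ 2 + R * x)) + x / R * b0 ^ 2) / 2 ≤
        α * (b0 - 1) - h := by
      rw [eB0]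
      have h2 := key2 b0 hb00 le_rfl h1R
      have e3 : (1 - x / R) = (1 - x / (R + b0)) ^ 2 := by
        have hs : R + b0 ≠ 0 := by linarith
        have e4 : (1 - x / (R + b0)) ^ 2 * (R + b0) ^ 2 = (1 - x / R) * (R + b0) ^ 2 := by
          have e5 : (1 - x / (R + b0)) ^ 2 * (R + b0) ^ 2 = (R + b0 - x) ^ 2 := by
            field_simp
          rw [e5]
          have e6 : (1 - x / R) * (R + b0) ^ 2 = (R + b0) ^ 2 - x / R * (R ^ 2 + 2 * R * b0 + b0 ^ 2) := by
            ring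
          rw [e6, hb0sq]
          have e7 : x / R * (R ^ 2 + 2 * R * b0 + (R ^ 2 - R * x)) = x * (2 * R + 2 * b0 - x) := by
            field_simp
            ring
          rw [e7]
          ring
        have e8 : (R + b0) ^ 2 ≠ 0 := pow_ne_zero 2 hs
        exact (mul_right_cancel₀ e8 e4).symm
      rw [e3, Real.log_pow]
      push_cast
      linarith
    have hRr : Real.log ((1 - x / R + x / R * (-R ^ 2 + R * x)) + x / R * (1 + R) ^ 2) / 2 ≤
        α * ((1 + R) - 1) - h := by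
      rw [eB1, Real.log_pow]
      push_cast
      have e9 : α * ((1 + R) - 1) = α * R := by ring
      rw [e9]
      linarith
    have hU := unimodal (A := 1 - x / R + x / R * (-R ^ 2 + R * x)) (l := x / R) (α := α) (h := h)
      (B0 := b0) (B1 := 1 + R) (B := B) hl0 hα hBb hc1.le hb00 (by rw [eB0]; linarith)
      (by rw [eB1]; exact Kb) hL hRr
    rcases eq_or_ne (1 - (x : ℂ) * v⁻¹) 0 with hz | hz
    · rw [hz, norm_zero]
      exact (Real.exp_pos _).le
    have hzn : 0 < ‖1 - (x : ℂ) * v⁻¹‖ := norm_pos_iff.2 hz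
    rw [← Real.log_le_iff_le_exp hzn]
    have h5 := Real.log_le_log (by positivity) h1
    rw [Real.log_pow] at h5
    push_cast at h5
    linarith

end Pool.Agent.Lib.MP_af3a4a_an.P1.H81
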