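import Pool.Agent.Lib.MP_af3a4a_an.P1.H81.ZoneA

/-!
# Zone A: `N ≥ 400`, `R ≤ 4/5`, `N R² ≥ 81/4`, `Re m ≤ R/25`: conclusion (helper81, council 2)
-/

namespace Pool.Agent.Lib.MP_af3a4a_an.P1.H81

open MeasureTheory intervalIntegral Set ComplexConjugate
open Pool.Agent.Lib.MP_af3a4a_an.SV (uu av EE)
open Pool.Agent.Lib.MP_af3a4a_an.P1.H80
open Pool.Agent.Lib.MP_af3a4a_an.P1.H74

theorem hV_ge {x : ℝ} (hx : 0 ≤ x) : x ^ 2 / 2 - x ^ 3 / 3 ≤ hV x := by
  unfold hV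
  have := log_one_add_le3 hx
  linarith

/-- the exponent of V2* for `0 ≤ m1 ≤ R/25` -/
theorem expo_A {R x m1 : ℝ} (hR : 0 < R) (hx0 : 0 ≤ x)
    (hm0 : 0 ≤ m1) (hm : m1 ≤ R / 25) :
    23 / 25 * (x ^ 2 / 2 - x ^ 3 / 3) + x * (R - x) / (25 * (1 + x) ^ 2) ≤
      hV x + gV R (x / R) * R * m1 ∨ x ^ 2 / 2 - x ^ 3 / 3 ≤ hV x + gV R (x / R) * R * m1 := by
  have hh := hV_ge hx0
  have hxR : x / R * R = x := by field_simp
  rcases le_or_gt 0 (gV R (x / R)) with h1 | h1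
  · right
    have : 0 ≤ gV R (x / R) * R * m1 := by positivity
    linarith
  · left
    have h2 : gV R (x / R) * R * (R / 25) ≤ gV R (x / R) * R * m1 := by
      have : 0 ≤ -(gV R (x / R) * R) := by
        have := mul_pos_of_neg_of_neg h1 (neg_neg_of_pos hR)
        linarith
      have h3 := mul_le_mul_of_nonneg_left hm this
      linarith
    have h4 : gV R (x / R) * R * (R / 25) =
        x * (R - x) / (25 * (1 + x) ^ 2) - 2 / 25 * hV x := by
      unfold gV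
      rw [hxR]
      have : 0 < 1 + x := by linarith
      field_simp
    rw [h4] at h2
    linarith

theorem qq_A {N : ℕ} (hN : 1 ≤ N) {w : Fin N → ℂ} {R x : ℝ} (hw : ∀ k, 1 ≤ ‖w k‖)
    (ht : ∑ k, ‖w k - (R : ℂ)‖ ≤ N) (hR : 0 < R) (hR1 : R ≤ 4 / 5) (hx0 : 0 ≤ x)
    (hx : x ≤ 17 / 25 * R) (hm : (av (uu w)).re ≤ R / 25) :
    ‖qq (uu w) x‖ ≤ Real.exp (-(N * (23 / 25 * (x ^ 2 / 2 - x ^ 3 / 3)
      + x * (R - x) / (25 * (1 + x) ^ 2)))) ∨
      ‖qq (uu w) x‖ ≤ Real.exp (-(N * (x ^ 2 / 2 - x ^ 3 / 3))) := by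
  have hNpos : (0 : ℝ) < N := by exact_mod_cast hN
  have hl1 : x / R ≤ 1 := by
    rw [div_le_one hR]
    linarith
  have hD := dual_V2 (l := x / R) hR hR1 (by positivity) hl1
  have hxR : x / R * R = x := by field_simp
  rw [hxR] at hD
  have h := hD.qq_le hN hw ht
  have hm0 := m1_nonneg hN hw ht hR
  rcases expo_A hR hx0 hm0 hm with h1 | h1
  · left
    refine h.trans (Real.exp_le_exp.2 (neg_le_neg ?_))
    exact mul_le_mul_of_nonneg_left h1 hNpos.le
  · right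
    refine h.trans (Real.exp_le_exp.2 (neg_le_neg ?_))
    exact mul_le_mul_of_nonneg_left h1 hNpos.le

/-- the Gaussian bound for `x ≤ 153/500` -/
theorem qq_A1 {N : ℕ} (hN : 1 ≤ N) {w : Fin N → ℂ} {R x : ℝ} (hw : ∀ k, 1 ≤ ‖w k‖)
    (ht : ∑ k, ‖w k - (R : ℂ)‖ ≤ N) (hR : 0 < R) (hR1 : R ≤ 4 / 5) (hx0 : 0 ≤ x)
    (hx : x ≤ 17 / 25 * R) (hx2 : x ≤ 153 / 500) (hm : (av (uu w)).re ≤ R / 25) :
    ‖qq (uu w) x‖ ≤ Real.exp (-(3 / 8 * N * x ^ 2)) := by
  have hNpos : (0 : ℝ) < N := by exact_mod_cast hN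
  rcases qq_A hN hw ht hR hR1 hx0 hx hm with h | h
  · refine h.trans (Real.exp_le_exp.2 (neg_le_neg ?_))
    have h1 : 3 / 8 * x ^ 2 ≤ 23 / 25 * (x ^ 2 / 2 - x ^ 3 / 3)
        + x * (R - x) / (25 * (1 + x) ^ 2) := by
      have h2 : 11 / 1000 * x ^ 2 ≤ x * (R - x) / (25 * (1 + x) ^ 2) := by
        rw [le_div_iff₀ (by positivity)]
        have h3 : 8 / 17 * x ≤ R - x := by linarith
        have h4 : (1 + x) ^ 2 ≤ 853 / 500 := by nlinarith
        have h5 : 11 / 1000 * x ^ 2 * (25 * (1 + x) ^ 2) ≤ 11 / 1000 * x ^ 2 * (25 * (853 / 500)) := by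
          apply mul_le_mul_of_nonneg_left _ (by positivity)
          linarith
        have h6 : x * (8 / 17 * x) ≤ x * (R - x) := mul_le_mul_of_nonneg_left h3 hx0
        nlinarith [sq_nonneg x]
      have h7 : 0 ≤ x ^ 2 * (471 / 1000 - 23 / 75 * x - 3 / 8) :=
        mul_nonneg (sq_nonneg x) (by linarith)
      nlinarith
    have h8 := mul_le_mul_of_nonneg_left h1 hNpos.le
    linarith
  · refine h.trans (Real.exp_le_exp.2 (neg_le_neg ?_))
    have h1 : 3 / 8 * x ^ 2 ≤ x ^ 2 / 2 - x ^ 3 / 3 := by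
      have h7 : 0 ≤ x ^ 2 * (1 / 2 - 1 / 3 * x - 3 / 8) :=
        mul_nonneg (sq_nonneg x) (by linarith)
      nlinarith
    have h8 := mul_le_mul_of_nonneg_left h1 hNpos.le
    linarith

/-- the bound for `x ≥ 3/10` -/
theorem qq_A2 {N : ℕ} (hN : 1 ≤ N) {w : Fin N → ℂ} {R x : ℝ} (hw : ∀ k, 1 ≤ ‖w k‖)
    (ht : ∑ k, ‖w k - (R : ℂ)‖ ≤ N) (hR : 0 < R) (hR1 : R ≤ 4 / 5) (hx0 : 3 / 10 ≤ x)
    (hx : x ≤ 17 / 25 * R) (hm : (av (uu w)).re ≤ R / 25) :
    ‖qq (uu w) x‖ ≤ Real.exp (-(N * (1 / 32))) := by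
  have hNpos : (0 : ℝ) < N := by exact_mod_cast hN
  have hc : 9 / 250 ≤ x ^ 2 / 2 - x ^ 3 / 3 := by
    have hx1 : x ≤ 3 / 5 := by linarith
    nlinarith [mul_nonneg (sub_nonneg.2 hx0) (sub_nonneg.2 hx1),
      mul_nonneg (mul_nonneg (sub_nonneg.2 hx0) (sub_nonneg.2 hx1)) (by linarith : 0 ≤ x)]
  rcases qq_A hN hw ht hR hR1 (by linarith) hx hm with h | h
  · refine h.trans (Real.exp_le_exp.2 (neg_le_neg ?_))
    have h2 : 0 ≤ x * (R - x) / (25 * (1 + x) ^ 2) :=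
      div_nonneg (mul_nonneg (by linarith) (by linarith)) (by positivity)
    exact mul_le_mul_of_nonneg_left (by linarith) hNpos.le
  · refine h.trans (Real.exp_le_exp.2 (neg_le_neg ?_))
    exact mul_le_mul_of_nonneg_left (by linarith) hNpos.le

/-- the lower bound of the integral up to `17/25 R` -/
theorem int_A {N : ℕ} (hN : 400 ≤ N) {w : Fin N → ℂ} {R : ℝ} (hw : ∀ k, 1 ≤ ‖w k‖)
    (ht : ∑ k, ‖w k - (R : ℂ)‖ ≤ N) (hR : 0 < R) (hR1 : R ≤ 4 / 5)
    (hρ : 81 / 4 ≤ N * R ^ 2) (hm : (av (uu w)).re ≤ R / 25) :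
    59 / 1000 ≤ N * ‖∫ x in (0 : ℝ)..(17 / 25 * R), qq (uu w) x‖ := by
  have hN1 : 1 ≤ N := by omega
  have hNr : (400 : ℝ) ≤ N := by exact_mod_cast hN
  have hu : ∀ k, ‖uu w k‖ ≤ 1 := by
    intro k
    unfold uu
    rw [norm_inv]
    exact inv_le_one_of_one_le₀ (hw k)
  rcases le_or_gt R (9 / 20) with hc | hc
  · have h := mass_gauss hN hu (y := 17 / 25 * R) (by positivity) (by linarith)
      (by nlinarith) (fun x hx0 hx => qq_A1 hN1 hw ht hR hR1 hx0 hx (by linarith) hm)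
    linarith
  · have h := mass_gauss hN hu (y := 3 / 10) (by norm_num) (by norm_num)
      (by nlinarith) (fun x hx0 hx => qq_A1 hN1 hw ht hR hR1 hx0 (by linarith) (by linarith) hm)
    have hq := qq_cont (uu w)
    have hyY : (3 : ℝ) / 10 ≤ 17 / 25 * R := by linarith
    have hsplit : ∫ x in (0 : ℝ)..(17 / 25 * R), qq (uu w) x =
        (∫ x in (0 : ℝ)..(3 / 10), qq (uu w) x) + ∫ x in (3 / 10 : ℝ)..(17 / 25 * R), qq (uu w) x :=
      (intervalIntegral.integral_add_adjacent_intervals (hq.intervalIntegrable _ _)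
        (hq.intervalIntegrable _ _)).symm
    have htail : ‖∫ x in (3 / 10 : ℝ)..(17 / 25 * R), qq (uu w) x‖ ≤
        Real.exp (-(N * (1 / 32))) * (17 / 25 * R - 3 / 10) := by
      have h1 := intervalIntegral.norm_integral_le_of_norm_le_const (a := 3 / 10)
        (b := 17 / 25 * R) (f := qq (uu w)) (C := Real.exp (-(N * (1 / 32)))) (by
          intro x hx
          rw [Set.uIoc_of_le hyY] at hx
          exact qq_A2 hN1 hw ht hR hR1 hx.1.le hx.2 hm)
      rwa [abs_of_nonneg (by linarith)] at h1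
    have h2 : N * ‖∫ x in (3 / 10 : ℝ)..(17 / 25 * R), qq (uu w) x‖ ≤ 1 / 4 * (1 / 655) := by
      have h3 := N_exp hNr
      have h4 := mul_le_mul_of_nonneg_left htail (by linarith : (0 : ℝ) ≤ N)
      have h5 : N * (Real.exp (-(N * (1 / 32))) * (17 / 25 * R - 3 / 10)) =
          (N * Real.exp (-(N * (1 / 32)))) * (17 / 25 * R - 3 / 10) := by ring
      rw [h5] at h4
      have h6 : (N * Real.exp (-(N * (1 / 32)))) * (17 / 25 * R - 3 / 10) ≤ 1 / 655 * (1 / 4) :=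
        mul_le_mul h3 (by linarith) (by linarith) (by norm_num)
      linarith
    have h7 : ‖∫ x in (0 : ℝ)..(3 / 10), qq (uu w) x‖ ≤
        ‖∫ x in (0 : ℝ)..(17 / 25 * R), qq (uu w) x‖ +
        ‖∫ x in (3 / 10 : ℝ)..(17 / 25 * R), qq (uu w) x‖ := by
      rw [hsplit]
      have := norm_sub_le ((∫ x in (0 : ℝ)..(3 / 10), qq (uu w) x) +
        ∫ x in (3 / 10 : ℝ)..(17 / 25 * R), qq (uu w) x)
        (∫ x in (3 / 10 : ℝ)..(17 / 25 * R), qq (uu w) x)
      rwa [add_sub_cancel_right] at this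
    have h8 := mul_le_mul_of_nonneg_left h7 (by linarith : (0 : ℝ) ≤ N)
    linarith

/-- `a ≤ kap a` -/
theorem le_kap {a : ℝ} (h0 : 0 ≤ a) (h1 : a < 1) : a ≤ kap a := by
  have hsum := Real.hasSum_log_sub_log_of_abs_lt_one (x := a)
    (by rw [abs_of_nonneg h0]; exact h1)
  have h5 := sum_le_hasSum (Finset.range 1) (fun i _ => by positivity) hsum
  simp only [Finset.sum_range_succ, Finset.sum_range_zero] at h5
  unfold kap
  norm_num at h5 ⊢
  linarith

/-- **Zone A** -/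
theorem zoneA {N : ℕ} (hN : 400 ≤ N) {z w : Fin N → ℂ} {R : ℝ} {σ : Fin N → ℂ}
    (hC : Cfg2 N z w R σ) (hR1 : R ≤ 4 / 5) (hρ : 81 / 4 ≤ N * R ^ 2)
    (hm : (av (uu w)).re ≤ R / 25) : False := by
  have hR := hC.hR
  have hN1 : 1 ≤ N := by omega
  have hNr : (400 : ℝ) ≤ N := by exact_mod_cast hN
  have hNpos : (0 : ℝ) < N := by linarith
  have hJ := int_A hN hC.cfg.far hC.dist.le hR hR1 hρ hm
  have hm0 := m1_nonneg hN1 hC.cfg.far hC.dist.le hR
  obtain ⟨y, hy⟩ : ∃ y, y = 17 / 25 * R := ⟨_, rfl⟩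
  obtain ⟨a, ha⟩ : ∃ a, a = 8 / 25 * R := ⟨_, rfl⟩
  rw [← hy] at hJ
  have hy0 : 0 < y := by rw [hy]; positivity
  have hy1 : y ≤ 68 / 125 := by rw [hy]; linarith
  have ha0 : 0 < a := by rw [ha]; positivity
  have ha1 : a ≤ 32 / 125 := by rw [ha]; linarith
  have hkap := le_kap ha0.le (by linarith)
  have hfrac : ((N : ℝ) + 1) / N ≤ 401 / 400 := by
    rw [div_le_iff₀ hNpos]
    linarith
  have hfrac0 : 0 ≤ ((N : ℝ) + 1) / N := by positivity
  have haN : a * (((N : ℝ) + 1) / N) ≤ 32 / 125 * (401 / 400) :=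
    mul_le_mul ha1 hfrac hfrac0 (by norm_num)
  have hFree : Free N a 0 1 y (y + 1) := by
    refine ⟨ha0.le, by linarith, by norm_num, by linarith, ?_, ?_, ?_, ?_⟩
    · have : a ≤ y := by rw [ha, hy]; linarith
      nlinarith
    · have e1 : a / (1 + a) * (y * (1 + a * 1)) = a * y := by
        have : 1 + a ≠ 0 := by linarith
        field_simp
      rw [e1]
      have := Real.log_le_sub_one_of_pos (x := 1 + a) (by linarith)
      linarith
    · have h1 : 1 - (y + 1)⁻¹ ≤ Real.log (y + 1) := Real.one_sub_inv_le_log_of_pos (by linarith)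
      have h3 : (0 : ℝ) ≤ y + 1 - 1 / (y + 1) := by
        have h4 : 1 / (y + 1) ≤ 1 := by
          rw [div_le_one (by linarith)]
          linarith
        linarith
      have h5 : a * (((N : ℝ) + 1) / N) * (y + 1 - 1 / (y + 1)) ≤
          1 / 3 * (y + 1 - 1 / (y + 1)) := mul_le_mul_of_nonneg_right (by linarith) h3
      have h6 : 1 / 3 * (y + 1 - 1 / (y + 1)) ≤ 1 - (y + 1)⁻¹ := by
        have h7 : 0 < y + 1 := by linarith
        rw [one_div (y + 1)]
        have e2 : 1 - (y + 1)⁻¹ - 1 / 3 * (y + 1 - (y + 1)⁻¹) = y * (1 - y) / (3 * (y + 1)) := by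
          field_simp
          ring
        have h8 : 0 ≤ y * (1 - y) / (3 * (y + 1)) :=
          div_nonneg (mul_nonneg (by linarith) (by linarith)) (by linarith)
        linarith
      linarith
    · linarith
  have hpay : pay a 1 y ≤ 0 := by
    unfold pay
    apply max_le _ le_rfl
    have h1 := Real.one_sub_inv_le_log_of_pos (x := 1 + a) (by linarith)
    have e1 : 1 - (1 + a)⁻¹ = a / (1 + a) := by
      have : 1 + a ≠ 0 := by linarith
      field_simp
      ring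
    rw [e1] at h1
    have h2 : a / (1 + a) * (y * (1 - a * 1)) ≤ a / (1 + a) * 1 := by
      apply mul_le_mul_of_nonneg_left _ (by positivity)
      nlinarith
    linarith
  have hG : (0 : ℝ) < 59 / 1000 / N := by positivity
  refine phi_ray hC (a := a) (X₀ := y + 1) (y := y) (G := 59 / 1000 / N) hy0
    (by rw [hy]; linarith) hFree ?_ hG ?_ ?_
  · rw [hy]
    rw [ha] at hkap ⊢
    linarith
  · rw [div_le_iff₀ hNpos]
    linarith
  · have ha2 : a ^ 2 ≤ 1024 / 15625 := by nlinarith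
    have hl1 : -(108 / 100 * a ^ 2 : ℝ) ≤ Real.log (1 - a ^ 2) := by
      have h1 := Real.one_sub_inv_le_log_of_pos (x := 1 - a ^ 2) (by linarith)
      have h3 : (1 - a ^ 2)⁻¹ ≤ 1 + 108 / 100 * a ^ 2 := by
        rw [inv_le_iff_one_le_mul₀ (by linarith)]
        nlinarith [mul_nonneg (sq_nonneg a) (by linarith : (0 : ℝ) ≤ 8 / 100 - 108 / 100 * a ^ 2)]
      linarith
    have hl2 : Real.log (59 / 680) - Real.log R ≤
        Real.log (((N : ℝ) + 1) * (59 / 1000 / N) / y) := by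
      rw [← Real.log_div (by norm_num) hR.ne']
      apply Real.log_le_log (by positivity)
      have h2 : (59 / 1000 : ℝ) ≤ ((N : ℝ) + 1) * (59 / 1000 / N) := by
        have e1 : ((N : ℝ) + 1) * (59 / 1000 / N) = 59 / 1000 * (((N : ℝ) + 1) / N) := by ring
        rw [e1]
        have : 1 ≤ ((N : ℝ) + 1) / N := by
          rw [le_div_iff₀ hNpos]
          linarith
        linarith
      have e2 : 59 / 680 / R = 59 / 1000 / y := by
        rw [hy]
        field_simp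
        norm_num
      rw [e2]
      exact div_le_div_of_nonneg_right h2 hy0.le
    have hl3 : Real.log R ≤ R - 1 := Real.log_le_sub_one_of_pos hR
    have hl4 : -(5 / 2 : ℝ) ≤ Real.log (59 / 680) := by
      have h1 : (1 / 2 : ℝ) ^ 4 * (59 * 16 / 680) = 59 / 680 := by norm_num
      rw [← h1, Real.log_mul (by norm_num) (by norm_num), Real.log_pow, one_div, Real.log_inv]
      have h2 := Real.one_sub_inv_le_log_of_pos (x := 59 * 16 / 680) (by norm_num)
      have := Real.log_two_lt_d9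
      norm_num at h2 ⊢
      linarith
    have h1 : ((N : ℝ) + 1) * (av (uu w)).re ≤ (N + 1) * (R / 25) :=
      mul_le_mul_of_nonneg_left hm (by linarith)
    have h2 : a * (((N : ℝ) + 1) * (av (uu w)).re) ≤ a * ((N + 1) * (R / 25)) :=
      mul_le_mul_of_nonneg_left h1 ha0.le
    have h3 := mul_le_mul_of_nonneg_left hl1 hNpos.le
    have h4 : a * (N * y) = 136 / 625 * (N * R ^ 2) := by rw [ha, hy]; ring
    have h5 : a * ((N + 1) * (R / 25)) = 8 / 625 * (N * R ^ 2) + 8 / 625 * R ^ 2 := by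
      rw [ha]; ring
    have h6 : (N : ℝ) * -(108 / 100 * a ^ 2) = -(108 / 100 * (64 / 625) * (N * R ^ 2)) := by
      rw [ha]; ring
    have h7 : R ^ 2 ≤ 16 / 25 := by nlinarith
    have h8 : a + y = R := by rw [ha, hy]; ring
    rw [h6] at h3
    linarith

end Pool.Agent.Lib.MP_af3a4a_an.P1.H81
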