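import Pool.Agent.Lib.MP_af3a4a_an.P1.H81.MassNum
import Pool.Agent.Lib.MP_af3a4a_an.P1.H81.S0Num
import Pool.Agent.Lib.MP_af3a4a_an.P1.H74.Phi
import Pool.Agent.Lib.MP_af3a4a_an.P1.CHK.H39.PureT32

/-!
# Zone B: `N ≥ 400`, `R ∈ [4/5, 21/10]`, `Re m ≤ 9/20 R` (helper81, council 2)
-/

namespace Pool.Agent.Lib.MP_af3a4a_an.P1.H81

open MeasureTheory intervalIntegral Set
open Pool.Agent.Lib.MP_af3a4a_an.SV (uu av EE)
open Pool.Agent.Lib.MP_af3a4a_an.P1.H80
open Pool.Agent.Lib.MP_af3a4a_an.P1.H74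

/-- the majorant of the cubic -/
theorem cubic_lo {x : ℝ} (hx : x ≤ 1 / 5) :
    23 / 50 * x ^ 2 ≤ x ^ 2 / 2 - x ^ 3 / 5 := by
  have : 0 ≤ x ^ 2 * (1 / 25 - x / 5) := mul_nonneg (sq_nonneg x) (by linarith)
  linarith [show x ^ 2 * (1 / 25 - x / 5) = x ^ 2 / 2 - x ^ 3 / 5 - 23 / 50 * x ^ 2 by ring]

theorem cubic_mid {x : ℝ} (hx : x ≤ 2 / 5) :
    21 / 50 * x ^ 2 ≤ x ^ 2 / 2 - x ^ 3 / 5 := by
  have : 0 ≤ x ^ 2 * (2 / 25 - x / 5) := mul_nonneg (sq_nonneg x) (by linarith)
  linarith [show x ^ 2 * (2 / 25 - x / 5) = x ^ 2 / 2 - x ^ 3 / 5 - 21 / 50 * x ^ 2 by ring]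

theorem cubic_hi {x : ℝ} (hx : x ≤ 2 / 5) :
    23 / 1250 + 22 / 125 * (x - 1 / 5) ≤ x ^ 2 / 2 - x ^ 3 / 5 := by
  have : 0 ≤ (x - 1 / 5) ^ 2 * (21 / 50 - x / 5) := mul_nonneg (sq_nonneg _) (by linarith)
  linarith [show (x - 1 / 5) ^ 2 * (21 / 50 - x / 5) =
    x ^ 2 / 2 - x ^ 3 / 5 - (23 / 1250 + 22 / 125 * (x - 1 / 5)) by ring]

/-- the lower bound of `∫` near `0`, general `N ≥ 400` -/
theorem near_zero {N : ℕ} (hN : 400 ≤ N) {w : Fin N → ℂ} {R : ℝ} (hw : ∀ k, 1 ≤ ‖w k‖)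
    (ht : ∑ k, ‖w k - (R : ℂ)‖ ≤ N) (hR0 : 4 / 5 ≤ R) (hR1 : R ≤ 21 / 10) :
    3 / 500 ≤ N * ‖∫ x in (0 : ℝ)..(if R ≤ 21 / 20 then 3 / 10 else 2 / 5), qq (uu w) x‖ := by
  have hN1 : 1 ≤ N := by omega
  have hNr : (400 : ℝ) ≤ N := by exact_mod_cast hN
  have hNpos : (0 : ℝ) < N := by linarith
  have hR : 0 < R := by linarith
  have hu : ∀ k, ‖uu w k‖ ≤ 1 := by
    intro k
    unfold uu
    rw [norm_inv]
    exact inv_le_one_of_one_le₀ (hw k)
  have hs1 := sq_le_one' hN1 hu
  have hs2 := sq_bound hN1 hw ht hR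
  split_ifs with hc
  · -- `R ≤ 21/20`
    apply mass_num hN1 hu (b := 23 / 50 * N / (21 / 20)) (S := 1) le_rfl (by norm_num)
      one_pos le_rfl hs1
    · intro x hx0 hx
      refine (qq_lo hN1 hw ht hR0 hc hx0 (by linarith)).trans (Real.exp_le_exp.2 (neg_le_neg ?_))
      have h1 := cubic_lo hx
      have h2 : 23 / 50 * x ^ 2 / (21 / 20) ≤ (x ^ 2 / 2 - x ^ 3 / 5) / (21 / 20) :=
        div_le_div_of_nonneg_right h1 (by norm_num)
      have h3 := mul_le_mul_of_nonneg_left h2 hNpos.le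
      refine le_trans (le_of_eq ?_) h3
      ring
    · intro x hx0 hx
      refine (qq_lo hN1 hw ht hR0 hc (by linarith) hx).trans ?_
      rw [← Real.exp_add]
      apply Real.exp_le_exp.2
      have h1 := cubic_hi (x := x) (by linarith)
      have h2 : (23 / 1250 + 22 / 125 * (x - 1 / 5)) / (21 / 20) ≤
        (x ^ 2 / 2 - x ^ 3 / 5) / (21 / 20) := div_le_div_of_nonneg_right h1 (by norm_num)
      have h3 := mul_le_mul_of_nonneg_left h2 hNpos.le
      have e1 : -(23 / 50 * N / (21 / 20) / 25) +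
          -(44 / 115 * (23 / 50 * N / (21 / 20)) * (x - 1 / 5)) =
          -(N * ((23 / 1250 + 22 / 125 * (x - 1 / 5)) / (21 / 20))) := by ring
      rw [e1]
      linarith
    · left
      constructor
      · rw [le_div_iff₀ (by norm_num)]
        linarith
      · rw [le_div_iff₀ (by norm_num)]
        linarith
    · rw [div_le_iff₀ (by norm_num)]
      linarith
  · push Not at hc
    -- the bounds of `|q|`
    have hV : ∀ x, 0 ≤ x → x ≤ 2 / 5 →
        ‖qq (uu w) x‖ ≤ Real.exp (-(N * ((x ^ 2 / 2 - x ^ 3 / 5) / R))) :=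
      fun x hx0 hx => qq_hi hN1 hw ht hc.le hR1 hx0 hx
    have hlo : ∀ x, 0 ≤ x → x ≤ 1 / 5 →
        ‖qq (uu w) x‖ ≤ Real.exp (-(23 / 50 * N / R * x ^ 2)) := by
      intro x hx0 hx
      refine (hV x hx0 (by linarith)).trans (Real.exp_le_exp.2 (neg_le_neg ?_))
      have h1 := cubic_lo hx
      have h2 : 23 / 50 * x ^ 2 / R ≤ (x ^ 2 / 2 - x ^ 3 / 5) / R :=
        div_le_div_of_nonneg_right h1 hR.le
      have h3 := mul_le_mul_of_nonneg_left h2 hNpos.le
      refine le_trans (le_of_eq ?_) h3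
      ring
    have hhi : ∀ x, 1 / 5 ≤ x → x ≤ 2 / 5 → ‖qq (uu w) x‖ ≤
        Real.exp (-(23 / 50 * N / R / 25)) *
          Real.exp (-(44 / 115 * (23 / 50 * N / R) * (x - 1 / 5))) := by
      intro x hx0 hx
      refine (hV x (by linarith) hx).trans ?_
      rw [← Real.exp_add]
      apply Real.exp_le_exp.2
      have h1 := cubic_hi (x := x) hx
      have h2 : (23 / 1250 + 22 / 125 * (x - 1 / 5)) / R ≤ (x ^ 2 / 2 - x ^ 3 / 5) / R :=
        div_le_div_of_nonneg_right h1 hR.le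
      have h3 := mul_le_mul_of_nonneg_left h2 hNpos.le
      have e1 : -(23 / 50 * N / R / 25) + -(44 / 115 * (23 / 50 * N / R) * (x - 1 / 5)) =
          -(N * ((23 / 1250 + 22 / 125 * (x - 1 / 5)) / R)) := by ring
      rw [e1]
      linarith
    rcases le_or_gt R (32 / 25) with hR3 | hR3
    · apply mass_num hN1 hu (b := 23 / 50 * N / R) (S := 1) (by norm_num) le_rfl
        one_pos le_rfl hs1 hlo hhi
      · left
        constructor
        · rw [le_div_iff₀ hR]
          linarith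
        · rw [le_div_iff₀ hR]
          nlinarith
      · rw [div_le_iff₀ hR]
        nlinarith
    · obtain ⟨p, hp⟩ : ∃ p, p = (av (uu w)).re := ⟨_, rfl⟩
      rw [← hp] at hs2
      rcases le_or_gt 10 (N * R * (max p 0) ^ 2) with hk | hk
      · -- S0₂
        have hp0 : 0 < p := by
          by_contra hn
          push Not at hn
          rw [max_eq_right hn] at hk
          norm_num at hk
        rw [max_eq_left hp0.le] at hk
        apply s0_num hN hu hR3.le hR1 (by rw [← hp]; exact hp0) (by rw [← hp]; exact hk)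
        · rw [← hp, le_div_iff₀ hR]
          linarith
        · intro x hx0 hx
          refine (hV x hx0 hx).trans (Real.exp_le_exp.2 (neg_le_neg ?_))
          have h1 := cubic_mid hx
          have h2 : 21 / 50 * x ^ 2 / R ≤ (x ^ 2 / 2 - x ^ 3 / 5) / R :=
            div_le_div_of_nonneg_right h1 hR.le
          have h3 := mul_le_mul_of_nonneg_left h2 hNpos.le
          refine le_trans (le_of_eq ?_) h3
          ring
      · -- MASS
        obtain ⟨k, hkd⟩ : ∃ k, k = max p 0 := ⟨_, rfl⟩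
        rw [← hkd] at hk
        have hk0 : 0 ≤ k := by rw [hkd]; exact le_max_right _ _
        have hkp : p ≤ k := by rw [hkd]; exact le_max_left _ _
        -- `R k² < 1/40`
        have hRk : R * k ^ 2 < 1 / 40 := by
          have h1 : N * R * k ^ 2 = N * (R * k ^ 2) := by ring
          rw [h1] at hk
          have h2 : 0 ≤ R * k ^ 2 := by positivity
          by_contra hn
          push Not at hn
          nlinarith
        have hkk : ∀ R0 k0 : ℝ, R0 ≤ R → 0 ≤ k0 → 1 / 40 ≤ R0 * k0 ^ 2 → k ≤ k0 := by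
          intro R0 k0 h1 h2 h3
          by_contra hn
          push Not at hn
          have h4 : k0 ^ 2 ≤ k ^ 2 := pow_le_pow_left₀ h2 hn.le 2
          have h5 : R0 * k0 ^ 2 ≤ R * k ^ 2 := by
            have h6 : R0 * k0 ^ 2 ≤ R * k0 ^ 2 := mul_le_mul_of_nonneg_right h1 (sq_nonneg _)
            have h7 : R * k0 ^ 2 ≤ R * k ^ 2 := mul_le_mul_of_nonneg_left h4 hR.le
            linarith
          linarith
        have hS : SV.sq (uu w) ≤ (1 + 2 * k) / R := by
          rw [le_div_iff₀ hR]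
          linarith
        have hk1 : k ≤ 7 / 50 := hkk (32 / 25) (7 / 50) hR3.le (by norm_num) (by norm_num)
        have hb1 : 23 / 50 * (N : ℝ) / R ≤ 23 / 50 * (N * ((1 + 2 * k) / R)) := by
          have : 23 / 50 * (N : ℝ) / R ≤ 23 / 50 * (N : ℝ) / R * (1 + 2 * k) :=
            le_mul_of_one_le_right (by positivity) (by linarith)
          refine this.trans (le_of_eq ?_)
          ring
        have hg : ∀ g k0 : ℝ, k ≤ k0 → 0 ≤ g → g * (1 + 2 * k0) ≤ 23 / 50 →
            g * (N * ((1 + 2 * k) / R)) ≤ 23 / 50 * N / R := by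
          intro g k0 h1 h2 h3
          have h4 : g * (1 + 2 * k) ≤ 23 / 50 :=
            (mul_le_mul_of_nonneg_left (by linarith) h2).trans h3
          have e1 : g * (N * ((1 + 2 * k) / R)) = (g * (1 + 2 * k)) * (N / R) := by ring
          have e2 : 23 / 50 * (N : ℝ) / R = 23 / 50 * (N / R) := by ring
          rw [e1, e2]
          exact mul_le_mul_of_nonneg_right h4 (by positivity)
        apply mass_num hN1 hu (b := 23 / 50 * N / R) (S := (1 + 2 * k) / R) (by norm_num) le_rfl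
          (by positivity) _ hS hlo hhi _ hb1
        · rw [div_le_one hR]
          linarith
        · rcases le_or_gt R (3 / 2) with h1 | h1
          · left
            refine ⟨?_, hg _ (7 / 50) hk1 (by norm_num) (by norm_num)⟩
            rw [le_div_iff₀ hR]
            linarith
          rcases le_or_gt R (9 / 5) with h2 | h2
          · right; left
            refine ⟨?_, hg _ (323 / 2500) (hkk (3 / 2) (323 / 2500) h1.le (by norm_num)
              (by norm_num)) (by norm_num) (by norm_num)⟩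
            rw [le_div_iff₀ hR]
            linarith
          · right; right
            refine ⟨?_, hg _ (1179 / 10000) (hkk (9 / 5) (1179 / 10000) h2.le (by norm_num)
              (by norm_num)) (by norm_num) (by norm_num)⟩
            rw [le_div_iff₀ hR]
            linarith

/-- `N e^{-N/32} ≤ 1/655` for `N ≥ 400` -/
theorem N_exp {N : ℝ} (hN : 400 ≤ N) : N * Real.exp (-(N * (1 / 32))) ≤ 1 / 655 := by
  have h1 : (2 : ℝ) ^ 18 ≤ Real.exp (25 / 2) := by
    have h2 : Real.log ((2 : ℝ) ^ 18) ≤ 25 / 2 := by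
      rw [Real.log_pow]
      have := Real.log_two_lt_d9
      push_cast
      linarith
    exact (Real.log_le_iff_le_exp (by norm_num)).1 h2
  have h3 : N / 400 ≤ Real.exp ((N - 400) / 32) := by
    have := Real.add_one_le_exp ((N - 400) / 32)
    linarith
  have h4 : 655 * N ≤ Real.exp (N * (1 / 32)) := by
    have e1 : Real.exp (N * (1 / 32)) = Real.exp (25 / 2) * Real.exp ((N - 400) / 32) := by
      rw [← Real.exp_add]
      congr 1
      ring
    rw [e1]
    have h5 : (2 : ℝ) ^ 18 * (N / 400) ≤ Real.exp (25 / 2) * Real.exp ((N - 400) / 32) :=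
      mul_le_mul h1 h3 (by positivity) (Real.exp_pos _).le
    refine le_trans ?_ h5
    norm_num
    linarith
  rw [Real.exp_neg]
  have hE : 0 < Real.exp (N * (1 / 32)) := Real.exp_pos _
  rw [← div_eq_mul_inv, div_le_iff₀ hE]
  linarith

/-- the lower bound up to `R - 3/20` -/
theorem up_to {N : ℕ} (hN : 400 ≤ N) {w : Fin N → ℂ} {R : ℝ} (hw : ∀ k, 1 ≤ ‖w k‖)
    (ht : ∑ k, ‖w k - (R : ℂ)‖ ≤ N) (hR0 : 4 / 5 ≤ R) (hR1 : R ≤ 21 / 10) :
    36 / 10000 ≤ N * ‖∫ x in (0 : ℝ)..(R - 3 / 20), qq (uu w) x‖ := by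
  have hN1 : 1 ≤ N := by omega
  have hNr : (400 : ℝ) ≤ N := by exact_mod_cast hN
  have h0 := near_zero hN hw ht hR0 hR1
  obtain ⟨y, hy⟩ : ∃ y : ℝ, y = if R ≤ 21 / 20 then 3 / 10 else 2 / 5 := ⟨_, rfl⟩
  rw [← hy] at h0
  have hy1 : 3 / 10 ≤ y ∧ (2 / 5 ≤ y ∨ R ≤ 21 / 20) ∧ y ≤ R - 3 / 20 ∧ R - 3 / 20 - y ≤ 31 / 20 := by
    rw [hy]
    split_ifs with hc
    · exact ⟨le_rfl, Or.inr hc, by linarith, by linarith⟩
    · push Not at hc
      exact ⟨by norm_num, Or.inl le_rfl, by linarith, by linarith⟩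
  obtain ⟨hy2, hy3, hy4, hy5⟩ := hy1
  have hq := qq_cont (uu w)
  have hsplit : ∫ x in (0 : ℝ)..(R - 3 / 20), qq (uu w) x =
      (∫ x in (0 : ℝ)..y, qq (uu w) x) + ∫ x in y..(R - 3 / 20), qq (uu w) x :=
    (intervalIntegral.integral_add_adjacent_intervals (hq.intervalIntegrable _ _)
      (hq.intervalIntegrable _ _)).symm
  have htail : ‖∫ x in y..(R - 3 / 20), qq (uu w) x‖ ≤
      Real.exp (-(N * (1 / 32))) * (R - 3 / 20 - y) := by
    have h1 := intervalIntegral.norm_integral_le_of_norm_le_const (a := y) (b := R - 3 / 20)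
      (f := qq (uu w)) (C := Real.exp (-(N * (1 / 32)))) (by
        intro x hx
        rw [Set.uIoc_of_le hy4] at hx
        apply P1.CHK.H39.pure_t32 hR0 hR1 hN1 hw ht (by linarith [hx.1]) hx.2
        rcases hy3 with h | h
        · left; linarith [hx.1]
        · right; exact h)
    rwa [abs_of_nonneg (by linarith)] at h1
  have h2 : N * ‖∫ x in y..(R - 3 / 20), qq (uu w) x‖ ≤ 31 / 20 * (1 / 655) := by
    have h3 := N_exp hNr
    have h4 := mul_le_mul_of_nonneg_left htail (by linarith : (0 : ℝ) ≤ N)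
    have h5 : N * (Real.exp (-(N * (1 / 32))) * (R - 3 / 20 - y)) =
        (N * Real.exp (-(N * (1 / 32)))) * (R - 3 / 20 - y) := by ring
    rw [h5] at h4
    have h6 : (N * Real.exp (-(N * (1 / 32)))) * (R - 3 / 20 - y) ≤ 1 / 655 * (31 / 20) :=
      mul_le_mul h3 hy5 (by linarith) (by norm_num)
    linarith
  have h7 : ‖∫ x in (0 : ℝ)..y, qq (uu w) x‖ ≤ ‖∫ x in (0 : ℝ)..(R - 3 / 20), qq (uu w) x‖ +
      ‖∫ x in y..(R - 3 / 20), qq (uu w) x‖ := by
    rw [hsplit]
    have := norm_sub_le ((∫ x in (0 : ℝ)..y, qq (uu w) x) + ∫ x in y..(R - 3 / 20), qq (uu w) x)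
      (∫ x in y..(R - 3 / 20), qq (uu w) x)
    rwa [add_sub_cancel_right] at this
  have h8 := mul_le_mul_of_nonneg_left h7 (by linarith : (0 : ℝ) ≤ N)
  linarith

theorem kap_a : (3 : ℝ) / 20 ≤ kap (3 / 20) := by
  have hsum := Real.hasSum_log_sub_log_of_abs_lt_one (x := 3 / 20)
    (by rw [abs_of_nonneg (by norm_num)]; norm_num)
  have h5 := sum_le_hasSum (Finset.range 1) (fun i _ => by positivity) hsum
  simp only [Finset.sum_range_succ, Finset.sum_range_zero] at h5
  unfold kap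
  norm_num at h5 ⊢
  linarith

/-- **Zone B** -/
theorem zoneB {N : ℕ} (hN : 400 ≤ N) {z w : Fin N → ℂ} {R : ℝ} {σ : Fin N → ℂ}
    (hC : Cfg2 N z w R σ) (hR0 : 4 / 5 ≤ R) (hR1 : R ≤ 21 / 10)
    (hm : (av (uu w)).re ≤ 9 / 20 * R) : False := by
  have hNr : (400 : ℝ) ≤ N := by exact_mod_cast hN
  have hNpos : (0 : ℝ) < N := by linarith
  have hJ := up_to hN hC.cfg.far hC.dist.le hR0 hR1
  obtain ⟨y, hy⟩ : ∃ y, y = R - 3 / 20 := ⟨_, rfl⟩
  rw [← hy] at hJ
  have hy0 : 13 / 20 ≤ y := by linarith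
  have hy1 : y ≤ 39 / 20 := by linarith
  have hkap := kap_a
  have hfrac : ((N : ℝ) + 1) / N ≤ 401 / 400 := by
    rw [div_le_iff₀ hNpos]
    linarith
  have hfrac0 : 0 ≤ ((N : ℝ) + 1) / N := by positivity
  have hlog1 : Real.log (1 + 3 / 20) ≤ 3 / 20 := by
    have := Real.log_le_sub_one_of_pos (x := 1 + 3 / 20) (by norm_num)
    linarith
  have hFree : Free N (3 / 20) 0 1 y (y + 1) := by
    refine ⟨by norm_num, by norm_num, by norm_num, by linarith, by nlinarith, ?_, ?_, ?_⟩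
    · have e1 : (3 / 20 : ℝ) / (1 + 3 / 20) * (y * (1 + 3 / 20 * 1)) = 3 / 20 * y := by ring
      rw [e1]
      linarith
    · have h1 : 1 - (y + 1)⁻¹ ≤ Real.log (y + 1) := Real.one_sub_inv_le_log_of_pos (by linarith)
      have h2 : 3 / 20 * (((N : ℝ) + 1) / N) ≤ 1 / 5 := by linarith
      have h3 : (0 : ℝ) ≤ y + 1 - 1 / (y + 1) := by
        have h4 : 1 / (y + 1) ≤ 1 := by
          rw [div_le_one (by linarith)]
          linarith
        linarith
      have h5 : 3 / 20 * (((N : ℝ) + 1) / N) * (y + 1 - 1 / (y + 1)) ≤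
          1 / 5 * (y + 1 - 1 / (y + 1)) := mul_le_mul_of_nonneg_right h2 h3
      have h6 : 1 / 5 * (y + 1 - 1 / (y + 1)) ≤ 1 - (y + 1)⁻¹ := by
        have h7 : 0 < y + 1 := by linarith
        rw [one_div (y + 1)]
        have e2 : 1 - (y + 1)⁻¹ - 1 / 5 * (y + 1 - (y + 1)⁻¹) = y * (3 - y) / (5 * (y + 1)) := by
          field_simp
          ring
        have h8 : 0 ≤ y * (3 - y) / (5 * (y + 1)) :=
          div_nonneg (mul_nonneg (by linarith) (by linarith)) (by linarith)
        linarith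
      linarith
    · linarith
  have hpay : pay (3 / 20) 1 y ≤ 1 / 10 := by
    unfold pay
    apply max_le _ (by norm_num)
    have h1 : (3 : ℝ) / 23 ≤ Real.log (1 + 3 / 20) := by
      have := Real.one_sub_inv_le_log_of_pos (x := 1 + 3 / 20) (by norm_num)
      norm_num at this ⊢
      linarith
    have e1 : (3 / 20 : ℝ) / (1 + 3 / 20) * (y * (1 - 3 / 20 * 1)) = 51 / 460 * y := by ring
    rw [e1]
    linarith
  have hG : (0 : ℝ) < 36 / 10000 / N := by positivity
  refine phi_ray hC (a := 3 / 20) (X₀ := y + 1) (y := y) (G := 36 / 10000 / N) (by linarith)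
    (by linarith) hFree (by linarith) hG ?_ ?_
  · rw [div_le_iff₀ hNpos]
    linarith
  · have hl1 : -(9 / 391 : ℝ) ≤ Real.log (1 - (3 / 20) ^ 2) := by
      have := Real.one_sub_inv_le_log_of_pos (x := 1 - (3 / 20) ^ 2) (by norm_num)
      norm_num at this ⊢
      linarith
    have hl2 : -(694 / 100 : ℝ) ≤ Real.log (((N : ℝ) + 1) * (36 / 10000 / N) / y) := by
      have h1 : (1 / 2 : ℝ) ^ 10 ≤ ((N : ℝ) + 1) * (36 / 10000 / N) / y := by
        rw [le_div_iff₀ (by linarith)]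
        have h2 : (36 / 10000 : ℝ) ≤ ((N : ℝ) + 1) * (36 / 10000 / N) := by
          have e1 : ((N : ℝ) + 1) * (36 / 10000 / N) = 36 / 10000 * (((N : ℝ) + 1) / N) := by ring
          rw [e1]
          have : 1 ≤ ((N : ℝ) + 1) / N := by
            rw [le_div_iff₀ hNpos]
            linarith
          linarith
        norm_num at h2 ⊢
        linarith
      have h3 := Real.log_le_log (by norm_num) h1
      rw [Real.log_pow, one_div, Real.log_inv] at h3
      have := Real.log_two_lt_d9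
      push_cast at h3
      linarith
    have h1 : (N : ℝ) * (av (uu w)).re ≤ N * (9 / 20 * R) := mul_le_mul_of_nonneg_left hm hNpos.le
    have h2 : (400 : ℝ) * (33 / 400 * R - 9 / 400 - 9 / 782) ≤
        N * (33 / 400 * R - 9 / 400 - 9 / 782) :=
      mul_le_mul_of_nonneg_right hNr (by linarith)
    have h3 : (N : ℝ) * (-(9 / 391)) ≤ N * Real.log (1 - (3 / 20) ^ 2) :=
      mul_le_mul_of_nonneg_left hl1 hNpos.le
    have h4 : (N : ℝ) * y = N * R - N * (3 / 20) := by rw [hy]; ring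
    have h5 : (N : ℝ) * R ≥ 400 * R := mul_le_mul_of_nonneg_right hNr (by linarith)
    linarith

end Pool.Agent.Lib.MP_af3a4a_an.P1.H81
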