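import Pool.Agent.Lib.MP_af3a4a_an.P1.H81.Mass2Num
import Pool.Agent.Lib.MP_af3a4a_an.P1.CHK.H39.PureT

/-!
# Zone B: `N ≥ 250`, `R ∈ [4/5, 21/10]`: lower bound near `0` (helper81, council 2)
-/

namespace Pool.Agent.Lib.MP_af3a4a_an.P1.H81

open MeasureTheory intervalIntegral Set
open Pool.Agent.Lib.MP_af3a4a_an.SV (uu av EE)
open Pool.Agent.Lib.MP_af3a4a_an.P1.H80

/-- the two-piece bound with numbers -/
theorem nz_two {N : ℕ} (hN : 250 ≤ N) {w : Fin N → ℂ} {R p : ℝ} (hw : ∀ k, 1 ≤ ‖w k‖)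
    (ht : ∑ k, ‖w k - (R : ℂ)‖ ≤ N) (hp : p = (av (uu w)).re) {s E0 P0 Ra Rb σ1 r1 β1 : ℝ}
    (hR54 : 5 / 4 ≤ Ra) (hRa : Ra ≤ R) (hRb : R ≤ Rb) (hRb2 : Rb ≤ 21 / 10) (hp0 : 0 < p)
    (hP00 : 0 < P0) (hP0 : P0 ^ 2 ≤ 21 / 50 * (N * R * p ^ 2))
    (hs1 : 1 ≤ s) (hs2 : s ≤ 2) (hsP : s * (46 / 25) ≤ P0 * (2 - 2 * s / (229 / 20)))
    (hE00 : 0 ≤ E0) (hE0 : E0 ≤ Real.exp (-(s ^ 2)))
    (hσ : R ≤ σ1 ∨ 1 + 2 * p ≤ σ1) (hr1 : 0 ≤ r1) (hr : 2 * p ≤ r1 ^ 2 * Ra ∨ 1 ≤ r1)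
    (hβ1 : 707 / 100 ≤ β1) (hβ2 : β1 ^ 2 * Rb ≤ 105)
    (hA : 0 ≤ 3 / 4 - E0 * (1 / 2 + s ^ 2 / 2 + s ^ 2 / (4 * s ^ 2 + 2)))
    (hP2 : 0 ≤ 2 - (2 + 7 / 4 * s ^ 2 + (s ^ 2) ^ 2 / 2) * E0)
    (hP3 : 0 ≤ 6 - (6 + 6 * s ^ 2 + 5 / 2 * (s ^ 2) ^ 2 + (s ^ 2) ^ 3 / 2) * E0)
    (hnum : σ1 / (21 / 50) / s ^ 2 *
      ((3 / 4 - E0 * (1 / 2 + s ^ 2 / 2 + s ^ 2 / (4 * s ^ 2 + 2))) +
      (2 - (2 + 7 / 4 * s ^ 2 + (s ^ 2) ^ 2 / 2) * E0) / (s * β1) +
      5 / 3 * (6 - (6 + 6 * s ^ 2 + 5 / 2 * (s ^ 2) ^ 2 + (s ^ 2) ^ 3 / 2) * E0) /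
        (s * β1) ^ 2 + 1 / 10000) + 4 / 125 * (r1 + 1 / (2 * (s * β1))) ≤ 1 - 1 / 2500) :
    4 / 125 ≤ N * ‖∫ x in (0 : ℝ)..(2 / 5), qq (uu w) x‖ := by
  have hN1 : 1 ≤ N := by omega
  have hNr : (250 : ℝ) ≤ N := by exact_mod_cast hN
  have hNpos : (0 : ℝ) < N := by linarith
  have hR : 0 < R := by linarith
  have hs0 : 0 < s := by linarith
  have hu : ∀ k, ‖uu w k‖ ≤ 1 := by
    intro k
    unfold uu
    rw [norm_inv]
    exact inv_le_one_of_one_le₀ (hw k)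
  have hsq1 := sq_le_one' hN1 hu
  have hsq2 := sq_bound hN1 hw ht hR
  have hfm := first_moment hN1 hw ht hR
  have hmn := av_norm_le hN1 hu
  rw [← hp] at hsq2 hfm
  obtain ⟨β, hβ⟩ : ∃ β, β = Real.sqrt (21 / 50 * N / R) := ⟨_, rfl⟩
  have hg0 : 0 < 21 / 50 * N / R := by positivity
  have hβ0 : 0 < β := by rw [hβ]; exact Real.sqrt_pos.2 hg0
  have hββ : β ^ 2 = 21 / 50 * N / R := by rw [hβ]; exact Real.sq_sqrt hg0.le
  have hβR : β ^ 2 * R = 21 / 50 * N := by rw [hββ]; field_simp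
  have hβ1β : β1 ≤ β := by
    have h1 : β1 ^ 2 ≤ β ^ 2 := by
      have h2 : β1 ^ 2 * R ≤ β ^ 2 * R := by
        rw [hβR]
        have := mul_le_mul_of_nonneg_left hRb (sq_nonneg β1)
        linarith
      exact le_of_mul_le_mul_right h2 hR
    exact le_of_sq_le_sq h1 hβ0.le
  -- `R β ≥ 229/20`
  have hRβ : 229 / 20 ≤ R * β := by
    have h1 : (229 / 20 : ℝ) ^ 2 ≤ (R * β) ^ 2 := by
      have e1 : (R * β) ^ 2 = 21 / 50 * N * R := by
        rw [mul_pow, hββ]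
        field_simp
      rw [e1]
      have : (250 : ℝ) * (5 / 4) ≤ N * R := mul_le_mul hNr (by linarith) (by norm_num) hNpos.le
      norm_num
      linarith
    exact le_of_sq_le_sq h1 (by positivity)
  obtain ⟨P, hP⟩ : ∃ P, P = p * (R * β) := ⟨_, rfl⟩
  have hP0' : 0 < P := by rw [hP]; positivity
  have hPP : P0 ≤ P := by
    have h1 : P0 ^ 2 ≤ P ^ 2 := by
      have e1 : P ^ 2 = 21 / 50 * (N * R * p ^ 2) := by
        rw [hP, mul_pow, mul_pow, hββ]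
        field_simp
      rw [e1]
      exact hP0
    exact le_of_sq_le_sq h1 hP0'.le
  have hpP : p ≤ P / (229 / 20) := by
    rw [le_div_iff₀ (by norm_num), hP]
    exact mul_le_mul_of_nonneg_left hRβ hp0.le
  -- the crossing point
  have hcross : s * (46 / 25 + 2 * p) ≤ 2 * P := by
    have h1 : 0 ≤ 2 - 2 * s / (229 / 20) := by
      by_contra hn
      push Not at hn
      have : P0 * (2 - 2 * s / (229 / 20)) ≤ 0 :=
        mul_nonpos_of_nonneg_of_nonpos hP00.le hn.le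
      linarith
    have h2 : P0 * (2 - 2 * s / (229 / 20)) ≤ P * (2 - 2 * s / (229 / 20)) :=
      mul_le_mul_of_nonneg_right hPP h1
    have h3 : s * (2 * p) ≤ s * (2 * (P / (229 / 20))) :=
      mul_le_mul_of_nonneg_left (by linarith) hs0.le
    have e1 : s * (2 * (P / (229 / 20))) = P * (2 * s / (229 / 20)) := by ring
    rw [e1] at h3
    linarith
  obtain ⟨S, hS⟩ : ∃ S, S = min 1 ((1 + 2 * p) / R) := ⟨_, rfl⟩
  have hS0 : 0 < S := by rw [hS]; positivity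
  have hS1 : S ≤ 1 := by rw [hS]; exact min_le_left _ _
  have hSR1 : S * R ≤ R := by
    have := mul_le_mul_of_nonneg_right hS1 hR.le
    linarith
  have hSR2 : S * R ≤ 1 + 2 * p := by
    have h1 : S ≤ (1 + 2 * p) / R := by rw [hS]; exact min_le_right _ _
    rwa [le_div_iff₀ hR] at h1
  have hSq : SV.sq (uu w) ≤ S := by
    rw [hS]
    apply le_min hsq1
    rw [le_div_iff₀ hR]
    linarith
  have hσS : S * R ≤ σ1 := by
    rcases hσ with h | h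
    · linarith
    · linarith
  have hγ : N * S ≤ σ1 / (21 / 50) * β ^ 2 := by
    have h1 : N * (S * R) ≤ N * σ1 := mul_le_mul_of_nonneg_left hσS hNpos.le
    rw [hββ]
    have e1 : σ1 / (21 / 50) * (21 / 50 * N / R) = N * σ1 / R := by
      field_simp
    rw [e1, le_div_iff₀ hR]
    linarith
  have hrr : ‖av (uu w)‖ ≤ r1 := by
    rcases hr with h | h
    · have h1 : R * ‖av (uu w)‖ ^ 2 ≤ R * r1 ^ 2 := by
        have : r1 ^ 2 * Ra ≤ r1 ^ 2 * R := mul_le_mul_of_nonneg_left hRa (sq_nonneg _)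
        linarith
      exact le_of_sq_le_sq (le_of_mul_le_mul_left h1 hR) hr1
    · linarith
  have hq : ∀ x, 0 ≤ x → x ≤ 2 / 5 →
      ‖qq (uu w) x‖ ≤ Real.exp (-(β ^ 2 * (x * max x (s / β)))) := by
    intro x hx0 hx
    rcases le_total (s / β) x with h1 | h1
    · rw [max_eq_left h1]
      refine (qq_hi hN1 hw ht (by linarith) (by linarith) hx0 hx).trans
        (Real.exp_le_exp.2 (neg_le_neg ?_))
      have h2 : 21 / 50 * x ^ 2 ≤ x ^ 2 / 2 - x ^ 3 / 5 := by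
        have : 0 ≤ x ^ 2 * (2 / 25 - x / 5) := mul_nonneg (sq_nonneg x) (by linarith)
        linarith [show x ^ 2 * (2 / 25 - x / 5) = x ^ 2 / 2 - x ^ 3 / 5 - 21 / 50 * x ^ 2 by ring]
      have h3 : 21 / 50 * x ^ 2 / R ≤ (x ^ 2 / 2 - x ^ 3 / 5) / R :=
        div_le_div_of_nonneg_right h2 hR.le
      have h4 := mul_le_mul_of_nonneg_left h3 hNpos.le
      refine le_trans (le_of_eq ?_) h4
      rw [hββ]
      ring
    · rw [max_eq_right h1]
      refine (qq_am2 hN1 hSq).trans (Real.exp_le_exp.2 (neg_le_neg ?_))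
      rw [← hp]
      have h2 : β * s ≤ N * (p - s / β * S / 2) := by
        -- multiply by `β R`
        have h3 : s * (21 / 25 + S * R) ≤ 2 * P := by
          have : s * (21 / 25 + S * R) ≤ s * (46 / 25 + 2 * p) :=
            mul_le_mul_of_nonneg_left (by linarith) hs0.le
          linarith
        have h4 : (β * R) * (β * s) ≤ (β * R) * (N * (p - s / β * S / 2)) := by
          have e1 : (β * R) * (β * s) = 21 / 50 * N * s := by
            rw [← hβR]; ring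
          have e2 : (β * R) * (N * (p - s / β * S / 2)) = N * (P - s * (S * R) / 2) := by
            rw [hP]
            field_simp
          rw [e1, e2]
          have h5 : 21 / 50 * s ≤ P - s * (S * R) / 2 := by linarith
          have := mul_le_mul_of_nonneg_left h5 hNpos.le
          linarith
        exact le_of_mul_le_mul_left h4 (by positivity)
      have h5 : N * (p - s / β * S / 2) ≤ N * (p - x * S / 2) := by
        apply mul_le_mul_of_nonneg_left _ hNpos.le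
        have := mul_le_mul_of_nonneg_right h1 hS0.le
        linarith
      have h6 := mul_le_mul_of_nonneg_left (h2.trans h5) hx0
      have e3 : β ^ 2 * (x * (s / β)) = x * (β * s) := by
        field_simp
      rw [e3]
      linarith
  exact mass2_num hN1 hu hβ1 hβ1β hs1 hs2 hE00 hE0 hS0 hS1 hSq hγ hrr hq hA hP2 hP3 hnum

/-- `p ≤ p1` from `N R p² ≤ k` -/
theorem p_le {N R p k p1 Ra : ℝ} (hN : 250 ≤ N) (hRa0 : 0 < Ra) (hRa : Ra ≤ R)
    (hk : N * R * p ^ 2 ≤ k) (hp1 : 0 ≤ p1) (hk1 : k ≤ 250 * Ra * p1 ^ 2) : p ≤ p1 := by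
  by_contra hn
  push Not at hn
  have h1 : p1 ^ 2 < p ^ 2 := pow_lt_pow_left₀ hn hp1 (by norm_num)
  have h2 : 250 * Ra ≤ N * R := mul_le_mul hN hRa hRa0.le (by linarith)
  have h3 : 0 < 250 * Ra := by positivity
  have h4 : 250 * Ra * p1 ^ 2 < N * R * p ^ 2 := by
    calc 250 * Ra * p1 ^ 2 < 250 * Ra * p ^ 2 := mul_lt_mul_of_pos_left h1 h3
      _ ≤ N * R * p ^ 2 := mul_le_mul_of_nonneg_right h2 (sq_nonneg p)
  linarith

end Pool.Agent.Lib.MP_af3a4a_an.P1.H81
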