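import Pool.Agent.Lib.MP_af3a4a_an.P1.H81.ZoneB3
import Pool.Agent.Lib.MP_af3a4a_an.P1.H81.S0Num

/-!
# Zone B: `N ≥ 250`, `R ∈ [5/4, 21/10]`, `N R m₁² ≥ 9/2` (helper81, council 2)
-/

namespace Pool.Agent.Lib.MP_af3a4a_an.P1.H81

open MeasureTheory intervalIntegral Set
open Pool.Agent.Lib.MP_af3a4a_an.SV (uu av EE)
open Pool.Agent.Lib.MP_af3a4a_an.P1.H80

/-- `9/2 ≤ N R m₁² ≤ 27/5` -/
theorem nz_A {N : ℕ} (hN : 250 ≤ N) {w : Fin N → ℂ} {R p : ℝ} (hw : ∀ k, 1 ≤ ‖w k‖)
    (ht : ∑ k, ‖w k - (R : ℂ)‖ ≤ N) (hp : p = (av (uu w)).re) (hR0 : 5 / 4 ≤ R)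
    (hR1 : R ≤ 21 / 10) (hp0 : 0 < p) (hk0 : 9 / 2 ≤ N * R * p ^ 2)
    (hk1 : N * R * p ^ 2 ≤ 27 / 5) :
    4 / 125 ≤ N * ‖∫ x in (0 : ℝ)..(2 / 5), qq (uu w) x‖ := by
  have hNr : (250 : ℝ) ≤ N := by exact_mod_cast hN
  have hP0 : (13747 / 10000 : ℝ) ^ 2 ≤ 21 / 50 * (N * R * p ^ 2) := by
    norm_num at hk0 ⊢
    linarith
  rcases le_or_gt R (7 / 5) with h0 | h0
  · refine nz_two hN hw ht hp (s := 33 / 25) (E0 := 175 / 1000) (P0 := 13747 / 10000) (Ra := 5 / 4) (Rb := 7 / 5)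
      (σ1 := 631 / 500) (r1 := 459 / 1000) (β1 := 433 / 50) (by norm_num) (by linarith) h0 (by norm_num)
      hp0 (by norm_num) hP0 (by norm_num) (by norm_num) (by norm_num) (by norm_num) exp_s1
      ?_ (by norm_num) ?_ (by norm_num) (by norm_num) (by norm_num) (by norm_num) (by norm_num)
      (by norm_num)
    · rcases le_or_gt R (631 / 500) with g | g
      · exact Or.inl g
      · right
        have := p_le (p1 := 131 / 1000) (Ra := 631 / 500) hNr (by norm_num) (g.le) hk1 (by norm_num) (by norm_num)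
        linarith
    · left
      have := p_le (p1 := 263 / 2000) (Ra := 5 / 4) hNr (by norm_num) (hR0) hk1 (by norm_num) (by norm_num)
      linarith
  rcases le_or_gt R (8 / 5) with h1 | h1
  · refine nz_two hN hw ht hp (s := 33 / 25) (E0 := 175 / 1000) (P0 := 13747 / 10000) (Ra := 7 / 5) (Rb := 8 / 5)
      (σ1 := 6243 / 5000) (r1 := 843 / 2000) (β1 := 81 / 10) (by norm_num) (by linarith) h1 (by norm_num)
      hp0 (by norm_num) hP0 (by norm_num) (by norm_num) (by norm_num) (by norm_num) exp_s1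
      ?_ (by norm_num) ?_ (by norm_num) (by norm_num) (by norm_num) (by norm_num) (by norm_num)
      (by norm_num)
    · right
      have := p_le (p1 := 1243 / 10000) (Ra := 7 / 5) hNr (by norm_num) (h0.le) hk1 (by norm_num) (by norm_num)
      linarith
    · left
      have := p_le (p1 := 1243 / 10000) (Ra := 7 / 5) hNr (by norm_num) (h0.le) hk1 (by norm_num) (by norm_num)
      linarith
  rcases le_or_gt R (37 / 20) with h2 | h2
  · refine nz_two hN hw ht hp (s := 33 / 25) (E0 := 175 / 1000) (P0 := 13747 / 10000) (Ra := 8 / 5) (Rb := 37 / 20)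
      (σ1 := 3081 / 2500) (r1 := 953 / 2500) (β1 := 753 / 100) (by norm_num) (by linarith) h2 (by norm_num)
      hp0 (by norm_num) hP0 (by norm_num) (by norm_num) (by norm_num) (by norm_num) exp_s1
      ?_ (by norm_num) ?_ (by norm_num) (by norm_num) (by norm_num) (by norm_num) (by norm_num)
      (by norm_num)
    · right
      have := p_le (p1 := 1162 / 10000) (Ra := 8 / 5) hNr (by norm_num) (h1.le) hk1 (by norm_num) (by norm_num)
      linarith
    · left
      have := p_le (p1 := 1162 / 10000) (Ra := 8 / 5) hNr (by norm_num) (h1.le) hk1 (by norm_num) (by norm_num)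
      linarith
  refine nz_two hN hw ht hp (s := 33 / 25) (E0 := 175 / 1000) (P0 := 13747 / 10000) (Ra := 37 / 20) (Rb := 21 / 10)
      (σ1 := 6081 / 5000) (r1 := 171 / 500) (β1 := 707 / 100) (by norm_num) (by linarith) hR1 (by norm_num)
      hp0 (by norm_num) hP0 (by norm_num) (by norm_num) (by norm_num) (by norm_num) exp_s1
      ?_ (by norm_num) ?_ (by norm_num) (by norm_num) (by norm_num) (by norm_num) (by norm_num)
      (by norm_num)
  · right
    have := p_le (p1 := 1081 / 10000) (Ra := 37 / 20) hNr (by norm_num) (h2.le) hk1 (by norm_num) (by norm_num)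
    linarith
  · left
    have := p_le (p1 := 1081 / 10000) (Ra := 37 / 20) hNr (by norm_num) (h2.le) hk1 (by norm_num) (by norm_num)
    linarith

/-- `27/5 ≤ N R m₁² ≤ 9` -/
theorem nz_B {N : ℕ} (hN : 250 ≤ N) {w : Fin N → ℂ} {R p : ℝ} (hw : ∀ k, 1 ≤ ‖w k‖)
    (ht : ∑ k, ‖w k - (R : ℂ)‖ ≤ N) (hp : p = (av (uu w)).re) (hR0 : 5 / 4 ≤ R)
    (hR1 : R ≤ 21 / 10) (hp0 : 0 < p) (hk0 : 27 / 5 ≤ N * R * p ^ 2)
    (hk1 : N * R * p ^ 2 ≤ 9) :
    4 / 125 ≤ N * ‖∫ x in (0 : ℝ)..(2 / 5), qq (uu w) x‖ := by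
  have hNr : (250 : ℝ) ≤ N := by exact_mod_cast hN
  have hP0 : (15059 / 10000 : ℝ) ^ 2 ≤ 21 / 50 * (N * R * p ^ 2) := by
    norm_num at hk0 ⊢
    linarith
  rcases le_or_gt R (7 / 5) with h0 | h0
  · refine nz_two hN hw ht hp (s := 143 / 100) (E0 := 1293 / 10000) (P0 := 15059 / 10000) (Ra := 5 / 4) (Rb := 7 / 5)
      (σ1 := 133 / 100) (r1 := 5213 / 10000) (β1 := 433 / 50) (by norm_num) (by linarith) h0 (by norm_num)
      hp0 (by norm_num) hP0 (by norm_num) (by norm_num) (by norm_num) (by norm_num) exp_s2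
      ?_ (by norm_num) ?_ (by norm_num) (by norm_num) (by norm_num) (by norm_num) (by norm_num)
      (by norm_num)
    · rcases le_or_gt R (133 / 100) with g | g
      · exact Or.inl g
      · right
        have := p_le (p1 := 165 / 1000) (Ra := 133 / 100) hNr (by norm_num) (g.le) hk1 (by norm_num) (by norm_num)
        linarith
    · left
      have := p_le (p1 := 1698 / 10000) (Ra := 5 / 4) hNr (by norm_num) (hR0) hk1 (by norm_num) (by norm_num)
      linarith
  rcases le_or_gt R (8 / 5) with h1 | h1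
  · refine nz_two hN hw ht hp (s := 143 / 100) (E0 := 1293 / 10000) (P0 := 15059 / 10000) (Ra := 7 / 5) (Rb := 8 / 5)
      (σ1 := 1651 / 1250) (r1 := 4787 / 10000) (β1 := 81 / 10) (by norm_num) (by linarith) h1 (by norm_num)
      hp0 (by norm_num) hP0 (by norm_num) (by norm_num) (by norm_num) (by norm_num) exp_s2
      ?_ (by norm_num) ?_ (by norm_num) (by norm_num) (by norm_num) (by norm_num) (by norm_num)
      (by norm_num)
    · right
      have := p_le (p1 := 1604 / 10000) (Ra := 7 / 5) hNr (by norm_num) (h0.le) hk1 (by norm_num) (by norm_num)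
      linarith
    · left
      have := p_le (p1 := 1604 / 10000) (Ra := 7 / 5) hNr (by norm_num) (h0.le) hk1 (by norm_num) (by norm_num)
      linarith
  rcases le_or_gt R (37 / 20) with h2 | h2
  · refine nz_two hN hw ht hp (s := 143 / 100) (E0 := 1293 / 10000) (P0 := 15059 / 10000) (Ra := 8 / 5) (Rb := 37 / 20)
      (σ1 := 13 / 10) (r1 := 4331 / 10000) (β1 := 753 / 100) (by norm_num) (by linarith) h2 (by norm_num)
      hp0 (by norm_num) hP0 (by norm_num) (by norm_num) (by norm_num) (by norm_num) exp_s2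
      ?_ (by norm_num) ?_ (by norm_num) (by norm_num) (by norm_num) (by norm_num) (by norm_num)
      (by norm_num)
    · right
      have := p_le (p1 := 15 / 100) (Ra := 8 / 5) hNr (by norm_num) (h1.le) hk1 (by norm_num) (by norm_num)
      linarith
    · left
      have := p_le (p1 := 15 / 100) (Ra := 8 / 5) hNr (by norm_num) (h1.le) hk1 (by norm_num) (by norm_num)
      linarith
  refine nz_two hN hw ht hp (s := 143 / 100) (E0 := 1293 / 10000) (P0 := 15059 / 10000) (Ra := 37 / 20) (Rb := 21 / 10)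
      (σ1 := 1279 / 1000) (r1 := 971 / 2500) (β1 := 707 / 100) (by norm_num) (by linarith) hR1 (by norm_num)
      hp0 (by norm_num) hP0 (by norm_num) (by norm_num) (by norm_num) (by norm_num) exp_s2
      ?_ (by norm_num) ?_ (by norm_num) (by norm_num) (by norm_num) (by norm_num) (by norm_num)
      (by norm_num)
  · right
    have := p_le (p1 := 1395 / 10000) (Ra := 37 / 20) hNr (by norm_num) (h2.le) hk1 (by norm_num) (by norm_num)
    linarith
  · left
    have := p_le (p1 := 1395 / 10000) (Ra := 37 / 20) hNr (by norm_num) (h2.le) hk1 (by norm_num) (by norm_num)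
    linarith

/-- `9 ≤ N R m₁²`, `m₁ ≤ 3/10` -/
theorem nz_C {N : ℕ} (hN : 250 ≤ N) {w : Fin N → ℂ} {R p : ℝ} (hw : ∀ k, 1 ≤ ‖w k‖)
    (ht : ∑ k, ‖w k - (R : ℂ)‖ ≤ N) (hp : p = (av (uu w)).re) (hR0 : 5 / 4 ≤ R)
    (hR1 : R ≤ 21 / 10) (hp0 : 0 < p) (hk0 : 9 ≤ N * R * p ^ 2)
    (hp1 : p ≤ 3 / 10) :
    4 / 125 ≤ N * ‖∫ x in (0 : ℝ)..(2 / 5), qq (uu w) x‖ := by
  have hNr : (250 : ℝ) ≤ N := by exact_mod_cast hN
  have hP0 : (19442 / 10000 : ℝ) ^ 2 ≤ 21 / 50 * (N * R * p ^ 2) := by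
    norm_num at hk0 ⊢
    linarith
  rcases le_or_gt R (7 / 5) with h0 | h0
  · refine nz_two hN hw ht hp (s := 89 / 50) (E0 := 42 / 1000) (P0 := 19442 / 10000) (Ra := 5 / 4) (Rb := 7 / 5)
      (σ1 := 7 / 5) (r1 := 1) (β1 := 433 / 50) (by norm_num) (by linarith) h0 (by norm_num)
      hp0 (by norm_num) hP0 (by norm_num) (by norm_num) (by norm_num) (by norm_num) exp_s3
      ?_ (by norm_num) ?_ (by norm_num) (by norm_num) (by norm_num) (by norm_num) (by norm_num)
      (by norm_num)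
    · left; linarith
    · right; exact le_rfl
  rcases le_or_gt R (8 / 5) with h1 | h1
  · refine nz_two hN hw ht hp (s := 89 / 50) (E0 := 42 / 1000) (P0 := 19442 / 10000) (Ra := 7 / 5) (Rb := 8 / 5)
      (σ1 := 8 / 5) (r1 := 1) (β1 := 81 / 10) (by norm_num) (by linarith) h1 (by norm_num)
      hp0 (by norm_num) hP0 (by norm_num) (by norm_num) (by norm_num) (by norm_num) exp_s3
      ?_ (by norm_num) ?_ (by norm_num) (by norm_num) (by norm_num) (by norm_num) (by norm_num)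
      (by norm_num)
    · left; linarith
    · right; exact le_rfl
  rcases le_or_gt R (37 / 20) with h2 | h2
  · refine nz_two hN hw ht hp (s := 89 / 50) (E0 := 42 / 1000) (P0 := 19442 / 10000) (Ra := 8 / 5) (Rb := 37 / 20)
      (σ1 := 8 / 5) (r1 := 1) (β1 := 753 / 100) (by norm_num) (by linarith) h2 (by norm_num)
      hp0 (by norm_num) hP0 (by norm_num) (by norm_num) (by norm_num) (by norm_num) exp_s3
      ?_ (by norm_num) ?_ (by norm_num) (by norm_num) (by norm_num) (by norm_num) (by norm_num)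
      (by norm_num)
    · right; linarith
    · right; exact le_rfl
  refine nz_two hN hw ht hp (s := 89 / 50) (E0 := 42 / 1000) (P0 := 19442 / 10000) (Ra := 37 / 20) (Rb := 21 / 10)
      (σ1 := 8 / 5) (r1 := 3 / 5) (β1 := 707 / 100) (by norm_num) (by linarith) hR1 (by norm_num)
      hp0 (by norm_num) hP0 (by norm_num) (by norm_num) (by norm_num) (by norm_num) exp_s3
      ?_ (by norm_num) ?_ (by norm_num) (by norm_num) (by norm_num) (by norm_num) (by norm_num)
      (by norm_num)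
  · right; linarith
  · left; linarith

/-- `m₁ ≥ 3/10` -/
theorem nz_D {N : ℕ} (hN : 250 ≤ N) {w : Fin N → ℂ} {p : ℝ} (hw : ∀ k, 1 ≤ ‖w k‖)
    (hp : p = (av (uu w)).re) (hp1 : 3 / 10 ≤ p) :
    4 / 125 ≤ N * ‖∫ x in (0 : ℝ)..(2 / 5), qq (uu w) x‖ := by
  have hN1 : 1 ≤ N := by omega
  have hNr : (250 : ℝ) ≤ N := by exact_mod_cast hN
  have hNpos : (0 : ℝ) < N := by linarith
  have hu : ∀ k, ‖uu w k‖ ≤ 1 := by
    intro k
    unfold uu
    rw [norm_inv]
    exact inv_le_one_of_one_le₀ (hw k)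
  have hs1 := sq_le_one' hN1 hu
  have hmn := av_norm_le hN1 hu
  obtain ⟨K, hK⟩ : ∃ K : ℝ, K = N * (1 / 10) := ⟨_, rfl⟩
  have hK25 : 25 ≤ K := by rw [hK]; linarith
  have hK0 : 0 < K := by linarith
  have hqe : ∀ x ∈ Set.Icc (0 : ℝ) (2 / 5), ‖qq (uu w) x‖ ≤ Real.exp (-(K * x)) := by
    intro x hx
    refine (qq_am2 hN1 hs1).trans (Real.exp_le_exp.2 (neg_le_neg ?_))
    rw [← hp]
    have h1 : x * (1 / 10) ≤ x * p - x ^ 2 * 1 / 2 := by
      have h2 : x * (3 / 10) ≤ x * p := mul_le_mul_of_nonneg_left hp1 hx.1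
      have : 0 ≤ x * (2 / 5 - x) := mul_nonneg hx.1 (by linarith [hx.2])
      linarith
    have h2 := mul_le_mul_of_nonneg_left h1 hNpos.le
    rw [hK]
    linarith
  have hT : ‖qq (uu w) (2 / 5)‖ ≤ 1 / 24 := by
    refine (hqe (2 / 5) ⟨by norm_num, le_rfl⟩).trans (E2_le ?_)
    linarith
  have h := s0two hN1 hu (by norm_num) (by norm_num) hs1
    (e := fun x => Real.exp (-(K * x))) (by fun_prop) hqe hT
  have hM := exp_mom hK0 (by norm_num : (0 : ℝ) ≤ 2 / 5) le_rfl
  have hX : N * (1 / K ^ 2 + 2 / K ^ 3 + 10 / K ^ 4) ≤ 1 / 2 := by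
    have h1 : N * (1 / K ^ 2) ≤ 2 / 5 := by
      have h2 : K ^ 2 = N * (1 / 10) * K := by rw [← hK]; ring
      rw [h2]
      have h3 : N * (1 / (N * (1 / 10) * K)) = 10 / K := by
        field_simp
      rw [h3, div_le_iff₀ hK0]
      linarith
    have e1 : N * (1 / K ^ 2 + 2 / K ^ 3 + 10 / K ^ 4) =
        (N * (1 / K ^ 2)) * (1 + 2 / K + 10 / K ^ 2) := by
      field_simp
    have h3 : 1 + 2 / K + 10 / K ^ 2 ≤ 1 + 2 / 25 + 10 / 25 ^ 2 := by
      have h4 : 2 / K ≤ 2 / 25 := div_le_div_of_nonneg_left (by norm_num) (by norm_num) hK25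
      have h5 : 10 / K ^ 2 ≤ 10 / 25 ^ 2 :=
        div_le_div_of_nonneg_left (by norm_num) (by norm_num)
          (pow_le_pow_left₀ (by norm_num) hK25 2)
      linarith
    rw [e1]
    have h6 : (N * (1 / K ^ 2)) * (1 + 2 / K + 10 / K ^ 2) ≤
        2 / 5 * (1 + 2 / 25 + 10 / 25 ^ 2) :=
      mul_le_mul h1 h3 (by positivity) (by norm_num)
    norm_num at h6 ⊢
    linarith
  have h7 := mul_le_mul_of_nonneg_left hM hNpos.le
  have hJ0 : 0 ≤ ‖∫ x in (0 : ℝ)..(2 / 5), qq (uu w) x‖ := norm_nonneg _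
  have h8 : ‖av (uu w)‖ * ‖∫ x in (0 : ℝ)..(2 / 5), qq (uu w) x‖ ≤
      ‖∫ x in (0 : ℝ)..(2 / 5), qq (uu w) x‖ :=
    mul_le_of_le_one_left hJ0 hmn
  have h9 := mul_le_mul_of_nonneg_left h8 hNpos.le
  rw [mul_one] at h
  linarith

end Pool.Agent.Lib.MP_af3a4a_an.P1.H81
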