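import Pool.Agent.Lib.MP_af3a4a_an.P1.H81.ZoneB4
import Pool.Agent.Lib.MP_af3a4a_an.P1.H74.Phi
import Pool.Agent.Lib.MP_af3a4a_an.P1.CHK.H39.PureT32

/-!
# Zone B: `N ≥ 250`, `R ∈ [4/5, 21/10]`, `Re m ≤ 9/20 R` (helper81, council 2)
-/

namespace Pool.Agent.Lib.MP_af3a4a_an.P1.H81

open MeasureTheory intervalIntegral Set
open Pool.Agent.Lib.MP_af3a4a_an.SV (uu av EE)
open Pool.Agent.Lib.MP_af3a4a_an.P1.H80
open Pool.Agent.Lib.MP_af3a4a_an.P1.H74

theorem u_le {N : ℕ} {w : Fin N → ℂ} (hw : ∀ k, 1 ≤ ‖w k‖) : ∀ k, ‖uu w k‖ ≤ 1 := by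
  intro k
  unfold uu
  rw [norm_inv]
  exact inv_le_one_of_one_le₀ (hw k)

/-- `R ≤ 21/20` -/
theorem nz_1 {N : ℕ} (hN : 250 ≤ N) {w : Fin N → ℂ} {R : ℝ} (hw : ∀ k, 1 ≤ ‖w k‖)
    (ht : ∑ k, ‖w k - (R : ℂ)‖ ≤ N) (hR0 : 4 / 5 ≤ R) (hR1 : R ≤ 21 / 20) :
    1 / 5 ≤ N * ‖∫ x in (0 : ℝ)..(3 / 10), qq (uu w) x‖ := by
  have hN1 : 1 ≤ N := by omega
  have hNr : (250 : ℝ) ≤ N := by exact_mod_cast hN
  have hNpos : (0 : ℝ) < N := by linarith
  have hu := u_le hw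
  have hmn := av_norm_le hN1 hu
  obtain ⟨v, hv⟩ : ∃ v, v = Real.sqrt (21 / (10 * N)) := ⟨_, rfl⟩
  have hq0 : 0 < 21 / (10 * (N : ℝ)) := by positivity
  have hv0 : 0 < v := by rw [hv]; exact Real.sqrt_pos.2 hq0
  have hvv : v ^ 2 = 21 / (10 * N) := by rw [hv]; exact Real.sq_sqrt hq0.le
  have hvN : v ^ 2 * N = 21 / 10 := by rw [hvv]; field_simp
  have hv1 : v ≤ 917 / 10000 := by
    have h1 : v ^ 2 ≤ (917 / 10000) ^ 2 := by
      rw [hvv, div_le_iff₀ (by positivity)]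
      linarith
    exact le_of_sq_le_sq h1 (by norm_num)
  have h := mass_V hN1 hu (b := 10 / 21 * N) (v := v) (y := 3 / 10) (S := 1) (g := 10 / 21) hv0
    (by linarith) (by linarith) (by norm_num) (by norm_num) (by linarith) one_pos
    (sq_le_one' hN1 hu) (by ring) (by
      intro x hx0 hx
      refine (qq_lo hN1 hw ht hR0 hR1 hx0 hx).trans (le_of_eq ?_)
      congr 1
      ring)
  obtain ⟨J, hJ⟩ : ∃ J, J = N * ‖∫ x in (0 : ℝ)..(3 / 10), qq (uu w) x‖ := ⟨_, rfl⟩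
  have hJ0 : 0 ≤ J := by rw [hJ]; positivity
  rw [← hJ] at h ⊢
  have e1 : 10 / 21 * (N : ℝ) * v / N = 10 / 21 * v := by
    field_simp
  rw [e1] at h
  have h2 : J * (10 / 21 * v + ‖av (uu w)‖ * (10 / 21) / (11 / 25)) ≤ J * (1127 / 1000) := by
    apply mul_le_mul_of_nonneg_left _ hJ0
    linarith
  have hv2 : v ^ 2 ≤ 917 / 10000 * v := by
    rw [sq]
    exact mul_le_mul_of_nonneg_right hv1 hv0.le
  have hv3 : v ^ 3 ≤ 841 / 100000 * v := by
    have h3 : v ^ 2 ≤ 841 / 100000 := by nlinarith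
    have h4 := mul_le_mul_of_nonneg_right h3 hv0.le
    calc v ^ 3 = v ^ 2 * v := by ring
      _ ≤ _ := h4
  linarith

/-- `21/20 ≤ R ≤ 5/4` -/
theorem nz_2 {N : ℕ} (hN : 250 ≤ N) {w : Fin N → ℂ} {R : ℝ} (hw : ∀ k, 1 ≤ ‖w k‖)
    (ht : ∑ k, ‖w k - (R : ℂ)‖ ≤ N) (hR0 : 21 / 20 ≤ R) (hR1 : R ≤ 5 / 4) :
    4 / 125 ≤ N * ‖∫ x in (0 : ℝ)..(2 / 5), qq (uu w) x‖ := by
  have hN1 : 1 ≤ N := by omega
  have hNr : (250 : ℝ) ≤ N := by exact_mod_cast hN
  have hNpos : (0 : ℝ) < N := by linarith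
  have hR : 0 < R := by linarith
  have hu := u_le hw
  have hmn := av_norm_le hN1 hu
  obtain ⟨v, hv⟩ : ∃ v, v = Real.sqrt (2 * R / N) := ⟨_, rfl⟩
  have hq0 : 0 < 2 * R / N := by positivity
  have hv0 : 0 < v := by rw [hv]; exact Real.sqrt_pos.2 hq0
  have hvv : v ^ 2 = 2 * R / N := by rw [hv]; exact Real.sq_sqrt hq0.le
  have hvN : v ^ 2 * N = 2 * R := by rw [hvv]; field_simp
  have hv1 : v ≤ 1 / 10 := by
    have h1 : v ^ 2 ≤ (1 / 10) ^ 2 := by
      rw [hvv, div_le_iff₀ (by positivity)]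
      linarith
    exact le_of_sq_le_sq h1 (by norm_num)
  have hg1 : 2 / 5 ≤ 1 / (2 * R) := by
    rw [le_div_iff₀ (by positivity)]
    linarith
  have hg2 : 1 / (2 * R) ≤ 10 / 21 := by
    rw [div_le_iff₀ (by positivity)]
    linarith
  obtain ⟨g, hg⟩ : ∃ g, g = 1 / (2 * R) := ⟨_, rfl⟩
  rw [← hg] at hg1 hg2
  have h := mass_V hN1 hu (b := N / (2 * R)) (v := v) (y := 2 / 5) (S := 1) (g := g) hv0
    (by linarith) (by
      rw [hvv]
      field_simp) (by norm_num) (by norm_num) (by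
      rw [div_mul_eq_mul_div, le_div_iff₀ (by positivity)]
      linarith) one_pos
    (sq_le_one' hN1 hu) (by rw [hg]; ring) (by
      intro x hx0 hx
      refine (qq_hi hN1 hw ht (by linarith) (by linarith) hx0 hx).trans (le_of_eq ?_)
      congr 1
      field_simp)
  obtain ⟨J, hJ⟩ : ∃ J, J = N * ‖∫ x in (0 : ℝ)..(2 / 5), qq (uu w) x‖ := ⟨_, rfl⟩
  have hJ0 : 0 ≤ J := by rw [hJ]; positivity
  rw [← hJ] at h ⊢
  have e1 : N / (2 * R) * v / N = g * v := by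
    rw [hg]
    field_simp
  rw [e1] at h
  have h2 : J * (g * v + ‖av (uu w)‖ * g / (11 / 25)) ≤ J * (113 / 100) := by
    apply mul_le_mul_of_nonneg_left _ hJ0
    have h3 : g * v ≤ 10 / 21 * (1 / 10) := mul_le_mul hg2 hv1 hv0.le (by norm_num)
    have h4 : ‖av (uu w)‖ * g ≤ 1 * (10 / 21) :=
      mul_le_mul hmn hg2 (by linarith) (by norm_num)
    linarith
  have hv2 : v ^ 2 ≤ 1 / 10 * v := by
    rw [sq]
    exact mul_le_mul_of_nonneg_right hv1 hv0.le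
  have hv3 : v ^ 3 ≤ 1 / 100 * v := by
    have h3 : v ^ 2 ≤ 1 / 100 := by nlinarith
    have h4 := mul_le_mul_of_nonneg_right h3 hv0.le
    calc v ^ 3 = v ^ 2 * v := by ring
      _ ≤ _ := h4
  linarith

/-- `5/4 ≤ R`, `N R p² ≤ 9/2` -/
theorem nz_3 {N : ℕ} (hN : 250 ≤ N) {w : Fin N → ℂ} {R p : ℝ} (hw : ∀ k, 1 ≤ ‖w k‖)
    (ht : ∑ k, ‖w k - (R : ℂ)‖ ≤ N) (hp : p = (av (uu w)).re) (hR0 : 5 / 4 ≤ R)
    (hR1 : R ≤ 21 / 10) (hk : N * R * p ^ 2 ≤ 9 / 2) :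
    4 / 125 ≤ N * ‖∫ x in (0 : ℝ)..(2 / 5), qq (uu w) x‖ := by
  have hN1 : 1 ≤ N := by omega
  have hNr : (250 : ℝ) ≤ N := by exact_mod_cast hN
  have hNpos : (0 : ℝ) < N := by linarith
  have hR : 0 < R := by linarith
  have hu := u_le hw
  have hmn := av_norm_le hN1 hu
  have hp0 := m1_nonneg hN1 hw ht hR
  have hfm := first_moment hN1 hw ht hR
  have hsq := sq_bound hN1 hw ht hR
  rw [← hp] at hp0 hfm hsq
  have hp1 : p ≤ 12 / 100 := p_le (Ra := 5 / 4) hNr (by norm_num) hR0 hk (by norm_num)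
    (by norm_num)
  obtain ⟨v, hv⟩ : ∃ v, v = Real.sqrt (2 * R / N) := ⟨_, rfl⟩
  have hq0 : 0 < 2 * R / N := by positivity
  have hv0 : 0 < v := by rw [hv]; exact Real.sqrt_pos.2 hq0
  have hvv : v ^ 2 = 2 * R / N := by rw [hv]; exact Real.sq_sqrt hq0.le
  have hvN : v ^ 2 * N = 2 * R := by rw [hvv]; field_simp
  have hvR : 125 * v ^ 2 ≤ R := by
    have := mul_le_mul_of_nonneg_left hNr (sq_nonneg v)
    linarith
  have hv1 : v ≤ 1297 / 10000 := by
    have h1 : v ^ 2 ≤ (1297 / 10000) ^ 2 := by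
      norm_num
      linarith
    exact le_of_sq_le_sq h1 (by norm_num)
  -- `R p ≤ 3/2 v`
  have hRp : R * p ≤ 3 / 2 * v := by
    have h1 : (R * p) ^ 2 ≤ (3 / 2 * v) ^ 2 := by
      have h2 : N * ((R * p) ^ 2) ≤ N * ((3 / 2 * v) ^ 2) := by
        have e1 : N * ((R * p) ^ 2) = R * (N * R * p ^ 2) := by ring
        have e2 : N * ((3 / 2 * v) ^ 2) = R * (9 / 2) := by
          have : N * ((3 / 2 * v) ^ 2) = 9 / 4 * (v ^ 2 * N) := by ring
          rw [this, hvN]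
          ring
        rw [e1, e2]
        exact mul_le_mul_of_nonneg_left hk hR.le
      exact le_of_mul_le_mul_left h2 hNpos
    exact le_of_sq_le_sq h1 (by positivity)
  -- `r`
  have hr : ‖av (uu w)‖ ≤ 4383 / 10000 := by
    have h1 : R ^ 2 * ‖av (uu w)‖ ^ 2 ≤ 3 * v := by
      have := mul_le_mul_of_nonneg_left hfm hR.le
      linarith
    have h2 : 125 / 8 * v ≤ R ^ 2 := by
      rcases le_or_gt v (1 / 10) with hvc | hvc
      · have : (5 / 4 : ℝ) ^ 2 ≤ R ^ 2 := pow_le_pow_left₀ (by norm_num) hR0 2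
        norm_num at this
        linarith
      · have h3 : (125 * v ^ 2) ^ 2 ≤ R ^ 2 := pow_le_pow_left₀ (by positivity) hvR 2
        have h4 : 1 / 1000 ≤ v ^ 3 := by
          have := pow_le_pow_left₀ (by norm_num) hvc.le 3
          norm_num at this ⊢
          linarith
        have h5 := mul_le_mul_of_nonneg_right h4 hv0.le
        have e1 : (125 * v ^ 2) ^ 2 = 15625 * (v ^ 3 * v) := by ring
        rw [e1] at h3
        linarith
    have h3 : 125 / 8 * v * ‖av (uu w)‖ ^ 2 ≤ 3 * v := by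
      have := mul_le_mul_of_nonneg_right h2 (sq_nonneg ‖av (uu w)‖)
      linarith
    have h4 : v * ‖av (uu w)‖ ^ 2 ≤ v * (24 / 125) := by linarith
    have h5 : ‖av (uu w)‖ ^ 2 ≤ (4383 / 10000) ^ 2 :=
      (le_of_mul_le_mul_left h4 hv0).trans (by norm_num)
    exact le_of_sq_le_sq h5 (by norm_num)
  have h12 : 0 < 1 + 2 * p := by linarith
  obtain ⟨g, hg⟩ : ∃ g, g = 1 / (2 * (1 + 2 * p)) := ⟨_, rfl⟩
  have hg0 : 0 < g := by rw [hg]; positivity
  have hg2 : g ≤ 1 / 2 := by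
    rw [hg, div_le_iff₀ (by positivity)]
    linarith
  have hS : SV.sq (uu w) ≤ (1 + 2 * p) / R := by
    rw [le_div_iff₀ hR]
    linarith
  have h := mass_V hN1 hu (b := N / (2 * R)) (v := v) (y := 2 / 5) (S := (1 + 2 * p) / R)
    (g := g) hv0
    (by linarith) (by
      rw [hvv]
      field_simp) (by norm_num) (by norm_num) (by
      rw [div_mul_eq_mul_div, le_div_iff₀ (by positivity)]
      linarith) (by positivity) hS (by
        rw [hg]
        field_simp) (by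
      intro x hx0 hx
      refine (qq_hi hN1 hw ht (by linarith) (by linarith) hx0 hx).trans (le_of_eq ?_)
      congr 1
      field_simp)
  obtain ⟨J, hJ⟩ : ∃ J, J = N * ‖∫ x in (0 : ℝ)..(2 / 5), qq (uu w) x‖ := ⟨_, rfl⟩
  have hJ0 : 0 ≤ J := by rw [hJ]; positivity
  rw [← hJ] at h ⊢
  have e1 : N / (2 * R) * v / N = v / (2 * R) := by
    field_simp
  rw [e1] at h
  have h2 : J * (v / (2 * R) + ‖av (uu w)‖ * g / (11 / 25)) ≤ J * (551 / 1000) := by
    apply mul_le_mul_of_nonneg_left _ hJ0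
    have h3 : v / (2 * R) ≤ 1297 / 10000 / (2 * (5 / 4)) :=
      div_le_div₀ (by norm_num) hv1 (by norm_num) (by linarith)
    have h4 : ‖av (uu w)‖ * g ≤ 4383 / 10000 * (1 / 2) :=
      mul_le_mul hr hg2 hg0.le (by norm_num)
    norm_num at h3
    linarith
  rcases le_or_gt v (1 / 10) with hvc | hvc
  · have hg1 : 25 / 62 ≤ g := by
      rw [hg, le_div_iff₀ (by positivity)]
      linarith
    have hv2 : v ^ 2 ≤ 1 / 10 * v := by
      rw [sq]
      exact mul_le_mul_of_nonneg_right hvc hv0.le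
    have hv3 : v ^ 3 ≤ 1 / 100 * v := by
      have h3 : v ^ 2 ≤ 1 / 100 := by nlinarith
      have h4 := mul_le_mul_of_nonneg_right h3 hv0.le
      calc v ^ 3 = v ^ 2 * v := by ring
        _ ≤ _ := h4
    linarith
  · -- `g ≥ 125 v / (250 v + 6) ≥ 4032/10000 + 628/1000 (v - 1/10)`
    have hp2 : 125 * v * p ≤ 3 / 2 := by
      have h3 : 125 * v ^ 2 * p ≤ R * p := mul_le_mul_of_nonneg_right hvR hp0
      have h4 : v * (125 * v * p) ≤ v * (3 / 2) := by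
        have e2 : v * (125 * v * p) = 125 * v ^ 2 * p := by ring
        rw [e2]
        linarith
      exact le_of_mul_le_mul_left h4 hv0
    have hg1 : 4032 / 10000 + 628 / 1000 * (v - 1 / 10) ≤ g := by
      rw [hg, le_div_iff₀ (by positivity)]
      have h3 : 0 ≤ 4032 / 10000 + 628 / 1000 * (v - 1 / 10) := by linarith
      have h4 : (4032 / 10000 + 628 / 1000 * (v - 1 / 10)) * (250 * v + 6) ≤ 125 * v := by
        nlinarith [mul_nonneg (by linarith : 0 ≤ v - 1 / 10) (by linarith : 0 ≤ 1297 / 10000 - v)]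
      have h5 : (4032 / 10000 + 628 / 1000 * (v - 1 / 10)) * (125 * v * (2 * (1 + 2 * p))) ≤
          (4032 / 10000 + 628 / 1000 * (v - 1 / 10)) * (250 * v + 6) := by
        apply mul_le_mul_of_nonneg_left _ h3
        linarith
      have h6 : (125 * v) * ((4032 / 10000 + 628 / 1000 * (v - 1 / 10)) * (2 * (1 + 2 * p))) ≤
          (125 * v) * 1 := by
        linarith
      exact le_of_mul_le_mul_left h6 (by positivity)
    have hv2 : v ^ 2 ≤ 2297 / 10000 * v - 1297 / 100000 := by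
      nlinarith [mul_nonneg (by linarith : 0 ≤ v - 1 / 10) (by linarith : 0 ≤ 1297 / 10000 - v)]
    have hv3 : v ^ 3 ≤ (1 / 100 + 1297 / 100000 + (1297 / 10000) ^ 2) * v -
        1297 / 100000 * (2297 / 10000) := by
      have h3 : 0 ≤ (v - 1 / 10) * (1297 / 10000 - v) * (v + 2297 / 10000) :=
        mul_nonneg (mul_nonneg (by linarith) (by linarith)) (by linarith)
      nlinarith
    norm_num at hv3
    linarith

/-- the lower bound near `0`, `R ≥ 21/20` -/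
theorem near_zero3 {N : ℕ} (hN : 250 ≤ N) {w : Fin N → ℂ} {R : ℝ} (hw : ∀ k, 1 ≤ ‖w k‖)
    (ht : ∑ k, ‖w k - (R : ℂ)‖ ≤ N) (hR0 : 21 / 20 ≤ R) (hR1 : R ≤ 21 / 10) :
    4 / 125 ≤ N * ‖∫ x in (0 : ℝ)..(2 / 5), qq (uu w) x‖ := by
  obtain ⟨p, hp⟩ : ∃ p, p = (av (uu w)).re := ⟨_, rfl⟩
  rcases le_or_gt R (5 / 4) with h1 | h1
  · exact nz_2 hN hw ht hR0 h1
  rcases le_or_gt (N * R * p ^ 2) (9 / 2) with h2 | h2
  · exact nz_3 hN hw ht hp h1.le hR1 h2
  have hp00 := m1_nonneg (by omega) hw ht (by linarith)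
  rw [← hp] at hp00
  have hp0 : 0 < p := by
    rcases hp00.lt_or_eq with h | h
    · exact h
    · rw [← h] at h2
      norm_num at h2
  rcases le_or_gt (N * R * p ^ 2) (27 / 5) with h3 | h3
  · exact nz_A hN hw ht hp h1.le hR1 hp0 h2.le h3
  rcases le_or_gt (N * R * p ^ 2) 9 with h4 | h4
  · exact nz_B hN hw ht hp h1.le hR1 hp0 h3.le h4
  rcases le_or_gt p (3 / 10) with h5 | h5
  · exact nz_C hN hw ht hp h1.le hR1 hp0 h4.le h5
  · exact nz_D hN hw hp h5.le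

end Pool.Agent.Lib.MP_af3a4a_an.P1.H81
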